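import Pool.Agent.Lib.MP_67c02a_lc.Dinur

/-!
The PCP theorem in its gap form, by iterating the amplification step.
-/

namespace Pool.Agent.Lib.MP_67c02a_lc

open Function Pool.Agent.Lib.Complexity N68a2faeb

set_option maxHeartbeats 400000

theorem Gap.mono {ε ε' : ℝ} {φ : CNF} (h : Gap ε φ) (hle : ε' ≤ ε) : Gap ε' φ :=
  ⟨h.1, fun α => (mul_le_mul_of_nonneg_right hle (Nat.cast_nonneg _)).trans (h.2 α)⟩

theorem amplify : ∃ (a : ℝ) (C D : ℕ) (st : CNF → CNF), 0 < a ∧ a ≤ 1 ∧ PT st ∧
    (∀ φ, Width 4 (st φ)) ∧ (∀ φ, (st φ).length = φ.length * C) ∧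
    (∀ φ, sz (st φ) ≤ φ.length * C * (4 * (φ.length * D + 2 + 1) + 1)) ∧
    (∀ φ, Width 4 φ → (∃ α, φ.Sat α) → ∃ α, (st φ).Sat α) ∧
    ∀ φ ε, Width 4 φ → Gap ε φ → Gap (min (2 * ε) a) (st φ) := by
  classical
  obtain ⟨K, hK⟩ : ∃ K : ℝ, K = 4 * 16 ^ 4 * (2 * (2 + 2 / (1 / 10240 / 4) ^ 3) + 4) := ⟨_, rfl⟩
  have K1 : 1 ≤ K := by rw [hK]; norm_num
  obtain ⟨h, hh⟩ := exists_nat_ge (2 * (129 * 320) * (K * 3200))
  have h0 : 0 < h := by
    have : (0 : ℝ) < h := lt_of_lt_of_le (by positivity) hh
    exact_mod_cast this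
  obtain ⟨L, _, _, op, h1, h2⟩ := exists_labels h
  refine ⟨1 / K / 3200, _, _, step op h, by positivity, ?_, pt_step op h1, step_width op,
    step_length op, step_sz op, fun φ hw ⟨α, hs⟩ => step_complete op h2 hw hs,
    fun φ ε hw hg => ?_⟩
  · rw [div_div, div_le_one (by positivity)]; linarith
  have := step_sound op h0 hw hg
  rw [← hK] at this
  rcases le_total ε 0 with e0 | e0
  · exact ⟨this.1, fun α => le_trans (mul_nonpos_of_nonpos_of_nonneg
      ((min_le_left _ _).trans (by linarith)) (Nat.cast_nonneg _)) (Nat.cast_nonneg _)⟩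
  refine this.mono ?_
  rw [← min_div_div_right (by positivity), ← min_div_div_right (by positivity)]
  refine min_le_min_right _ ?_
  rw [div_div, le_div_iff₀ (by positivity), mul_div_assoc', le_div_iff₀ (by positivity)]
  nlinarith

/-- gap producing map on formulas of width four -/
theorem gap_map : ∃ (a : ℝ) (F : CNF → CNF), 0 < a ∧ PT F ∧ ∀ φ, Width 4 φ → Width 4 (F φ) ∧
    ((∃ α, φ.Sat α) → ∃ α, (F φ).Sat α) ∧ ((¬ ∃ α, φ.Sat α) → Gap a (F φ)) := by
  obtain ⟨a, C, D, st, a0, a1, h1, h2, h3, h4, h5, h6⟩ := amplify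
  have hl : ∀ φ i, (st^[i] φ).length = φ.length * C ^ i := fun φ i => by
    induction i with
    | zero => simp
    | succ i ih => rw [iterate_succ_apply', h3, ih, pow_succ, mul_assoc]
  have hw : ∀ φ, Width 4 φ → ∀ i, Width 4 (st^[i] φ) := fun φ h i => by
    cases i with
    | zero => exact h
    | succ i => rw [iterate_succ_apply']; exact h2 _
  have hn : PT fun φ : CNF => φ.length.bits.length :=
    PT.length (PTB.of_unary (PT.length PT.id))
  have hm : PB sz fun φ : CNF => φ.length * φ.length ^ C :=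
    (PT.length PT.id).pb_nat.mul ((PT.length PT.id).pb_nat.pow C)
  refine ⟨a, fun φ => st^[φ.length.bits.length] φ, a0,
    PT.iterate (step := fun _ => st) hn PT.id (h1.comp (PT.snd PT.id))
      (B := fun φ => sz φ + φ.length * φ.length ^ C * C *
        (4 * (φ.length * φ.length ^ C * D + 2 + 1) + 1))
      (PB.self.add ((hm.mul (PB.const _)).mul (((PB.const _).mul (((hm.mul (PB.const _)).add
        (PB.const _)).add (PB.const _))).add (PB.const _)))) fun φ i hi => ?_,
    fun φ h => ⟨hw φ h _, fun hs => ?_, fun hs => ?_⟩⟩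
  · cases i with
    | zero => exact Nat.le_add_right _ _
    | succ i =>
      rw [iterate_succ_apply']
      refine (h4 _).trans (le_add_left ?_)
      rw [Nat.size_eq_bits_len] at hi
      have e1 : 2 ^ i ≤ φ.length := Nat.lt_size.1 (by omega)
      have e2 : (st^[i] φ).length ≤ φ.length * φ.length ^ C := by
        rw [hl]
        refine Nat.mul_le_mul_left _ ?_
        calc C ^ i ≤ (2 ^ C) ^ i := Nat.pow_le_pow_left Nat.lt_two_pow_self.le _
          _ = (2 ^ i) ^ C := by rw [← pow_mul, ← pow_mul, mul_comm]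
          _ ≤ _ := Nat.pow_le_pow_left e1 _
      gcongr
  · dsimp only
    induction φ.length.bits.length with
    | zero => exact hs
    | succ i ih => rw [iterate_succ_apply']; exact h5 _ (hw φ h i) ih
  · have m0 : φ ≠ [] := by
      rintro rfl
      exact hs ⟨fun _ => true, fun c hc => by simp at hc⟩
    have m1 : (0 : ℝ) < φ.length := by exact_mod_cast List.length_pos_iff.2 m0
    have key : ∀ i, Gap (min (2 ^ i / φ.length) a) (st^[i] φ) := fun i => by
      induction i with
      | zero =>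
        refine Gap.mono (ε := 1 / φ.length) ⟨m0, fun α => ?_⟩ (by simp)
        rw [iterate_zero_apply, div_mul_cancel₀ _ m1.ne']
        have : 0 < viol φ α := by
          by_contra hv
          refine hs ⟨α, fun c hc => ?_⟩
          by_contra hc'
          push Not at hc'
          exact hv (List.countP_pos_iff.2 ⟨c, hc, by simpa using hc'⟩)
        exact_mod_cast this
      | succ i ih =>
        rw [iterate_succ_apply']
        refine (h6 _ _ (hw φ h i) ih).mono (le_min ?_ (min_le_right _ _))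
        rw [mul_min_of_nonneg _ _ (by norm_num)]
        exact min_le_min (by rw [pow_succ]; ring_nf; rfl) (by linarith)
    refine (key _).mono (le_min ?_ le_rfl)
    rw [le_div_iff₀ m1]
    have : (φ.length : ℝ) ≤ 2 ^ φ.length.bits.length := by
      exact_mod_cast (lt_two_pow_bits φ.length).le
    nlinarith

/-- The PCP theorem: a gap version of satisfiability is hard for `NP`. -/
theorem pcp : ∃ ε : ℝ, 0 < ε ∧ ∀ L ∈ NP, ∃ f : Str → CNF, PT f ∧ ∀ x, Width 4 (f x) ∧
    (L x = true → ∃ α, (f x).Sat α) ∧ (¬ L x = true → Gap ε (f x)) := by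
  obtain ⟨a, F, a0, hF, h⟩ := gap_map
  refine ⟨a, a0, fun L hL => ?_⟩
  obtain ⟨g, hg, e⟩ := hard_3sat L hL
  have hg' : PT fun x => (g x).1 := hg.out fun _ => rfl
  have hw : ∀ x, Width 4 ((g x).1.map fun c => c.headD (0, false) :: c) := fun x c hc => by
    obtain ⟨c, h1, rfl⟩ := List.mem_map.1 hc
    simp [(g x).2 c h1]
  have hs : ∀ x α, CNF.Sat ((g x).1.map fun c => c.headD (0, false) :: c) α ↔ (g x).1.Sat α :=
    fun x α => by
      simp only [CNF.Sat, List.forall_mem_map]
      refine forall₂_congr fun c hc => ?_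
      have := (g x).2 c hc
      cases c with
      | nil => simp at this
      | cons l c => simp
  refine ⟨fun x => F ((g x).1.map fun c => c.headD (0, false) :: c), hF.comp (by fun_prop),
    fun x => ?_⟩
  obtain ⟨h1, h2, h3⟩ := h _ (hw x)
  simp only [hs, ← e] at h2 h3
  exact ⟨h1, h2, h3⟩

end Pool.Agent.Lib.MP_67c02a_lc
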