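import Pool.Agent.Lib.MP_67c02a_lc.Grid

/-!
Line cover number of randomly labelled grids.
-/

namespace Pool.Agent.Lib.MP_67c02a_lc

open Finset Function

set_option maxHeartbeats 400000

theorem grid_num {t G q K k γ ψ Θ B T F : ℝ} (t1 : 1 ≤ t) (tG : t ≤ G) (q1 : 1 ≤ q) (qG : q ≤ G)
    (hG : 100 ≤ G) (hK : 1024 * q ^ 2 * t ≤ K) (k0 : 0 ≤ k) (hk : 8 * k ≤ G ^ 16) (γ0 : 0 < γ)
    (hγ : 1 ≤ γ * G) (ψ0 : 0 < ψ) (hψ : 1 ≤ ψ * G) (Θ0 : 0 ≤ Θ) (hΘ : Θ ≤ G)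
    (hB : B ≤ γ * t * G ^ 16 / 8) (T0 : 0 ≤ T)
    (hT : T ≤ (2 * G ^ 3 + 1) * ((2 * (t * G ^ 3) + 1) * (4 * (t * G ^ 3 * G ^ 16) + 1)))
    (hF : F ≤ k * (2 * G ^ 13 + 1)) :
    (G ^ 16 * ψ * B + t * (2 * (t * G ^ 16)) * (G ^ 8 + G ^ 16 / (4 * G ^ 8))) / γ +
      ((G ^ 16 * ψ * (t * (2 * (t * G ^ 16)) / K) +
        t * (2 * (t * G ^ 16)) * (G ^ 8 + G ^ 16 / (4 * G ^ 8))) / (1 / (8 * q)) ^ 2 +
      t * (2 * (t * G ^ 16)) * (q * (G ^ 8 + G ^ 16 * Θ / (4 * G ^ 8))) + F * Θ +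
      (k * (t * G ^ 16 * ψ + G ^ 14) + T * (t * G ^ 16 / (4 * G ^ 14)) + k * G ^ 14 +
        T * (t * G ^ 16 * Θ / (4 * G ^ 14)))) < G ^ 16 * (t * G ^ 16) * ψ := by
  have G0 : 0 < G := by linarith
  have G1 : 1 ≤ G := by linarith
  have t0 : 0 < t := by linarith
  have K0 : 0 < K := lt_of_lt_of_le (by positivity) hK
  have pw : ∀ a b : ℕ, a ≤ b → G ^ a ≤ G ^ b := fun a b h => pow_le_pow_right₀ G1 h
  have p1 : ∀ a : ℕ, 1 ≤ G ^ a := fun a => one_le_pow₀ G1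
  have G3 : 256 ≤ G ^ 3 := by nlinarith [pw 2 3 (by norm_num)]
  have iγ : 1 / γ ≤ G := by rw [div_le_iff₀ γ0]; linarith
  have e1 : G ^ 8 + G ^ 16 / (4 * G ^ 8) ≤ 2 * G ^ 8 := by
    rw [show G ^ 16 / (4 * G ^ 8) = G ^ 8 / 4 by field_simp]; linarith [p1 8]
  have e2 : G ^ 8 + G ^ 16 * Θ / (4 * G ^ 8) ≤ 2 * G ^ 9 := by
    rw [show G ^ 16 * Θ / (4 * G ^ 8) = G ^ 8 * Θ / 4 by field_simp]
    have : G ^ 8 * Θ ≤ G ^ 9 := by rw [pow_succ G 8]; gcongr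
    linarith [pw 8 9 (by norm_num), p1 9]
  have a1 : G ^ 16 * ψ * B / γ ≤ G ^ 16 * (t * G ^ 16) * ψ / 8 := by
    rw [div_le_iff₀ γ0]
    calc _ ≤ G ^ 16 * ψ * (γ * t * G ^ 16 / 8) := by gcongr
      _ = _ := by ring
  have a2 : t * (2 * (t * G ^ 16)) * (G ^ 8 + G ^ 16 / (4 * G ^ 8)) / γ ≤ 4 * (t * G ^ 30) := by
    rw [div_eq_mul_one_div]
    calc _ ≤ t * (2 * (G * G ^ 16)) * (2 * G ^ 8) * G := by gcongr
      _ = 4 * (t * G ^ 26) := by ring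
      _ ≤ _ := by gcongr; norm_num
  have a3 : G ^ 16 * ψ * (t * (2 * (t * G ^ 16)) / K) / (1 / (8 * q)) ^ 2 ≤
      G ^ 16 * (t * G ^ 16) * ψ / 8 := by
    calc _ ≤ G ^ 16 * ψ * (t * (2 * (t * G ^ 16)) / (1024 * q ^ 2 * t)) / (1 / (8 * q)) ^ 2 := by
          gcongr
      _ = _ := by field_simp; ring
  have a4 : t * (2 * (t * G ^ 16)) * (G ^ 8 + G ^ 16 / (4 * G ^ 8)) / (1 / (8 * q)) ^ 2 ≤
      t * G ^ 30 := by
    calc _ = t * (2 * (t * G ^ 16)) * (G ^ 8 + G ^ 16 / (4 * G ^ 8)) * (64 * q ^ 2) := by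
          field_simp; ring
      _ ≤ t * (2 * (G * G ^ 16)) * (2 * G ^ 8) * (64 * G ^ 2) := by gcongr
      _ = t * (256 * G ^ 27) := by ring
      _ ≤ t * (G ^ 3 * G ^ 27) := by gcongr
      _ = _ := by ring
  have a5 : t * (2 * (t * G ^ 16)) * (q * (G ^ 8 + G ^ 16 * Θ / (4 * G ^ 8))) ≤ 4 * (t * G ^ 30) := by
    calc _ ≤ t * (2 * (G * G ^ 16)) * (G * (2 * G ^ 9)) := by gcongr
      _ = 4 * (t * G ^ 27) := by ring
      _ ≤ _ := by gcongr; norm_num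
  have kN : k ≤ G ^ 16 := by linarith
  have tG30 : G ^ 30 ≤ t * G ^ 30 := le_mul_of_one_le_left (by positivity) t1
  have a6 : F * Θ ≤ 3 * (t * G ^ 30) := by
    calc _ ≤ k * (2 * G ^ 13 + 1) * Θ := by gcongr
      _ ≤ G ^ 16 * (2 * G ^ 13 + G ^ 13) * G := by gcongr; exact p1 13
      _ = 3 * G ^ 30 := by ring
      _ ≤ _ := by gcongr
  have a7 : k * (t * G ^ 16 * ψ) ≤ G ^ 16 * (t * G ^ 16) * ψ / 8 := by
    calc _ ≤ G ^ 16 / 8 * (t * G ^ 16 * ψ) := by gcongr; linarith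
      _ = _ := by ring
  have a8 : k * G ^ 14 ≤ t * G ^ 30 := by
    calc _ ≤ G ^ 16 * G ^ 14 := by gcongr
      _ = G ^ 30 := by ring
      _ ≤ _ := tG30
  have a9 : T ≤ 45 * G ^ 27 := by
    calc _ ≤ _ := hT
      _ ≤ (2 * G ^ 3 + G ^ 3) * ((2 * (G * G ^ 3) + G ^ 4) * (4 * (G * G ^ 3 * G ^ 16) + G ^ 20)) := by
          gcongr <;> exact p1 _
      _ = _ := by ring
  have a10 : T * (t * G ^ 16 * Θ / (4 * G ^ 14)) ≤ 12 * (t * G ^ 30) := by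
    calc _ ≤ 45 * G ^ 27 * (t * G ^ 16 * G / (4 * G ^ 14)) := by gcongr
      _ = 45 / 4 * (t * G ^ 30) := by field_simp
      _ ≤ _ := by gcongr; norm_num
  have a11 : T * (t * G ^ 16 / (4 * G ^ 14)) ≤ 12 * (t * G ^ 30) := by
    calc _ ≤ 45 * G ^ 27 * (t * G ^ 16 / (4 * G ^ 14)) := by gcongr
      _ = 45 / 4 * (t * G ^ 29) := by field_simp
      _ ≤ _ := by gcongr <;> norm_num
  have a12 : 100 * (t * G ^ 30) ≤ G ^ 16 * (t * G ^ 16) * ψ := by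
    calc _ ≤ G * (t * G ^ 30) * 1 := by rw [mul_one]; gcongr
      _ ≤ G * (t * G ^ 30) * (ψ * G) := by gcongr
      _ = _ := by ring
  have a13 : 0 < t * G ^ 30 := by positivity
  rw [add_div, add_div, mul_add k]
  linarith

theorem grid_sound {Q : Type} [Fintype Q] [Nonempty Q] [DecidableEq Q] {t G K k : ℕ} (t0 : 0 < t)
    (hG : 100 ≤ G) (h1 : (8 * Fintype.card Q) ^ t ≤ G) (h2 : K ^ t ≤ G)
    (h3 : 1024 * Fintype.card Q ^ 2 * t ≤ K) {γ x : ℝ} (γ0 : 0 < γ) (hγ : 1 ≤ γ * G) (x0 : 0 < x)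
    (x1 : x ≤ 1) (hk : 8 * k ≤ G ^ 16)
    (hB : 7 * (3 + x * (t * (2 * (t * G ^ 16))) + k * Real.log (1 / x)) + 4 * k ≤
      γ * t * G ^ 16 / 8) {H : (Fin t → Q) → Prop}
    (hH : ∀ C : Fin t → Q → Prop, ∑ i, av (fun a => ind (C i a)) ≤ γ → ∃ z, H z ∧ ∀ i, ¬ C i (z i))
    (S : (Fin t × Fin (2 * (t * G ^ 16)) → Q) → List (ℚ × ℚ))
    (hS : ∀ y (p : GP t (G ^ 16)), H (fun i => y (i, sl i p)) →
      (((p.1 : ℕ) : ℚ), ((p.2 : ℕ) : ℚ)) ∈ S y) :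
    av (fun y => ind (LC (S y) ≤ k)) ≤ 1 / 10 := by
  classical
  by_contra hn
  have q0 : 0 < Fintype.card Q := Fintype.card_pos
  have K0 : 0 < K := lt_of_lt_of_le (by positivity) h3
  haveI : NeZero K := ⟨K0.ne'⟩
  haveI : Inhabited (Fin t) := ⟨⟨0, t0⟩⟩
  rw [not_le, av_ind, ← Fintype.card_subtype, lt_div_iff₀ (by exact_mod_cast Fintype.card_pos),
    Fintype.card_fun, Nat.cast_pow] at hn
  haveI : Nonempty {y // LC (S y) ≤ k} := Fintype.card_pos_iff.1 (by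
    have := lt_trans (by positivity) hn
    exact Nat.cast_pos.1 this)
  have hc : ∀ ω : {y // LC (S y) ≤ k}, ∃ (Z : Finset (Fin t × Fin (2 * (t * G ^ 16))))
      (R : Finset (GP t (G ^ 16))) (V : Finset (ℤ × ℤ × ℤ)), Z.card ≤ k ∧
      R.card ≤ k * (2 * G ^ 13 + 1) ∧ V.card ≤ k ∧ V ⊆ gT t (G ^ 16) (G ^ 3) ∧
      ∀ p : GP t (G ^ 16), H (fun i => ω.1 (i, sl i p)) →
        (∃ i, (i, sl i p) ∈ Z) ∨ p ∈ R ∨ ∃ d ∈ V, p ∈ gU t (G ^ 16) d := fun ω => by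
    obtain ⟨a, b, c, e1, e2⟩ := LC_spec (S ω.1)
    choose Z R V f1 f2 f3 f4 f5 using fun j => line_kind (N := G ^ 16) (h := G ^ 3) (c := c j) t0
      (by positivity) (e1 j)
    rw [Nat.pow_div (by norm_num) (by omega)] at f2
    have g : ∀ {β : Type} [DecidableEq β] (A : Fin (LC (S ω.1)) → Finset β) (n : ℕ),
        (∀ j, (A j).card ≤ n) → (univ.biUnion A).card ≤ k * n := fun A n h =>
      (card_biUnion_le_card_mul _ _ _ fun j _ => h j).trans (by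
        rw [card_univ, Fintype.card_fin]; exact Nat.mul_le_mul_right _ ω.2)
    refine ⟨univ.biUnion Z, univ.biUnion R, univ.biUnion V, by simpa using g Z 1 f1, g R _ f2,
      by simpa using g V 1 f3, biUnion_subset.2 fun j _ => f4 j, fun p hp => ?_⟩
    obtain ⟨j, hj⟩ := e2 _ (hS _ p hp)
    rcases f5 j p (by simpa using hj) with ⟨i, e⟩ | e | ⟨d, e, e'⟩
    · exact .inl ⟨i, mem_biUnion.2 ⟨j, mem_univ _, e⟩⟩
    · exact .inr (.inl (mem_biUnion.2 ⟨j, mem_univ _, e⟩))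
    · exact .inr (.inr ⟨d, mem_biUnion.2 ⟨j, mem_univ _, e⟩, e'⟩)
  choose Z R V f1 f2 f3 f4 f5 using hc
  have G0 : (0 : ℝ) < G := by exact_mod_cast (by omega : 0 < G)
  have := lift (fun (ω : {y // LC (S y) ≤ k}) l => (ω.1 l, decide (l ∈ Z ω))) (sl (N := G ^ 16))
    (fun ω ω' e => Subtype.ext e) (μ := 1 / 10) (k := k) (K := K) (η := (G : ℝ) ^ 8)
    (η' := (G : ℝ) ^ 14) (F := k * (2 * G ^ 13 + 1)) (D := (G : ℝ) ^ 16) (E := t * (G : ℝ) ^ 16)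
    (Λ := t * (2 * (t * (G : ℝ) ^ 16))) (by norm_num) hn.le x0 x1
    (fun ω => by
      simp only [decide_eq_true_eq, sum_ind, filter_mem_eq_inter, univ_inter]
      exact_mod_cast f1 ω) γ0 hH (by positivity) (by positivity)
    (fun l => by simpa using sl_deg l) sl_lin (gT t (G ^ 16) (G ^ 3)) (gU t (G ^ 16))
    (fun d hd => by simpa using gU_card t0 d hd) gU_lin V f4 (fun ω => by exact_mod_cast f3 ω) R
    (fun ω => by exact_mod_cast f2 ω) (fun ω p hp => by simpa using f5 ω p hp) (by positivity)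
    (by positivity) rfl rfl rfl (by simp)
  have tK : t ≤ K := le_trans (Nat.le_mul_of_pos_left _ (by positivity)) h3
  refine absurd this (not_le.2 (lt_of_lt_of_eq (grid_num (by exact_mod_cast t0)
    (by exact_mod_cast tK.trans ((Nat.le_self_pow t0.ne' K).trans h2)) (by exact_mod_cast q0)
    (by exact_mod_cast le_trans (Nat.le_mul_of_pos_left _ (by norm_num))
          ((Nat.le_self_pow t0.ne' _).trans h1)) (by exact_mod_cast hG) (by exact_mod_cast h3)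
    (Nat.cast_nonneg k) (by exact_mod_cast hk) γ0 hγ (by positivity) ?_ (by positivity) ?_
    (le_trans ?_ hB) (Nat.cast_nonneg _) (by exact_mod_cast gT_card (t := t) (N := G ^ 16) (h := G ^ 3))
    le_rfl) (by simp)))
  · rw [Fintype.card_fin, one_div, inv_pow, ← div_eq_inv_mul, one_le_div (by positivity)]
    exact_mod_cast (Nat.pow_le_pow_right K0 (Nat.sub_le _ _)).trans h2
  · rw [Fintype.card_fin, one_div_one_div]
    exact_mod_cast h1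
  · gcongr
    rw [one_div_one_div, Real.log_le_iff_le_exp (by norm_num)]
    have := Real.add_one_le_exp 1
    have h : Real.exp 3 = Real.exp 1 ^ 3 := by rw [← Real.exp_nat_mul]; norm_num
    have := Real.exp_one_gt_d9
    rw [h]
    exact le_trans (by norm_num) (pow_le_pow_left₀ (by norm_num) this.le 3)

theorem grid_complete {Q : Type} [Fintype Q] [Nonempty Q] {t N : ℕ} {H : (Fin t → Q) → Prop}
    (C : Fin t → Q → Prop) (hC : ∀ z, H z → ∃ i, C i (z i)) {c : ℝ} (c0 : 0 < c)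
    (hc : ∀ i, av (fun a => ind (C i a)) ≤ c)
    (S : (Fin t × Fin (2 * (t * N)) → Q) → List (ℚ × ℚ))
    (hS : ∀ y, ∀ P ∈ S y, ∃ p : GP t N, H (fun i => y (i, sl i p)) ∧
      P = (((p.1 : ℕ) : ℚ), ((p.2 : ℕ) : ℚ))) (t0 : 0 < t) (N0 : 0 < N) :
    av (fun y => ind (10 * (t * (2 * (t * N)) * c) < LC (S y))) ≤ 1 / 10 := by
  classical
  have h1 : ∀ y, (LC (S y) : ℝ) ≤ ∑ l, ind (C l.1 (y l)) := fun y => by
    rw [sum_ind, Nat.cast_le]
    refine LC_le _ (fun l => (l.1 : ℕ)) (fun _ => 1) (fun l => (l.2 : ℕ))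
      (fun _ => .inr one_ne_zero) fun P hP => ?_
    obtain ⟨p, e1, rfl⟩ := hS y P hP
    obtain ⟨i, hi⟩ := hC _ e1
    exact ⟨(i, sl i p), mem_filter.2 ⟨mem_univ _, hi⟩, by simp [sl, add_comm]⟩
  have h2 : av (fun y : Fin t × Fin (2 * (t * N)) → Q => ∑ l, ind (C l.1 (y l))) ≤
      t * (2 * (t * N)) * c := by
    rw [av_sum]
    refine (sum_le_card_nsmul _ _ c fun l _ => ?_).trans_eq (by simp)
    rw [av_upd l]
    simpa using hc l.1
  have h3 : (0 : ℝ) < t * (2 * (t * N)) * c := by positivity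
  refine (av_mono (g := fun y => (∑ l, ind (C l.1 (y l))) / (10 * (t * (2 * (t * N)) * c)))
    fun y => ?_).trans ?_
  · by_cases h : 10 * (t * (2 * (t * N)) * c) < LC (S y)
    · rw [ind_pos h, one_le_div (by positivity)]; linarith [h1 y]
    · rw [ind_neg h]; exact div_nonneg (sum_nonneg fun _ _ => ind_nonneg _) (by positivity)
  · rw [av_div, div_le_iff₀ (by positivity)]; linarith

end Pool.Agent.Lib.MP_67c02a_lc
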