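import Pool.Agent.Lib.MP_67c02a_lc.Red

/-!
The reduction from gap satisfiability to gap line cover.
-/

namespace Pool.Agent.Lib.MP_67c02a_lc

open Finset Function Pool.Agent.Lib.Complexity

set_option maxHeartbeats 400000

def rB (w r : ℕ) (φ : CNF) : ℕ := (φ.length * w) ^ r
def rM (w r c : ℕ) (φ : CNF) : ℕ := 48 * (c + 1) * rB w r φ + 1
def rP (w r c k : ℕ) (φ : CNF) : ℕ := nextP (tb φ.length r + rM w r c φ + k ^ 2)
def rH (w r c k : ℕ) (φ : CNF) : HG :=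
  pad (k + 2) (tb φ.length r) (rM w r c φ) (iter (w + 2) (base w φ) r)
def rR (w r c k m : ℕ) (φ : CNF) : List (ℤ × ℤ) × ℕ :=
  (pts (k + 2) m (rP w r c k φ) (rH w r c k φ), 2 * rB w r φ * rP w r c k φ ^ (m * (k + 1) - 1))

theorem pt_rR (w r c k m : ℕ) : PT (rR w r c k m) := by
  have t1 : PT fun φ : CNF => tb φ.length r := (pt_tb r).comp (f := fun φ : CNF => φ.length)
    (by fun_prop)
  have t2 : PT (rB w r) := by unfold rB; fun_prop
  have t3 : PT (rM w r c) := ((PT.const _).mul t2).add (PT.const _)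
  have t4 : PT (rP w r c k) :=
    (pt_nextP.comp ((t1.add t3).add (PT.const (k ^ 2)))).of_eq fun _ => by rw [rP]
  have t5 : PT (rH w r c k) :=
    ((pt_pad (k + 2)).comp (t1.prodMk (t3.prodMk ((pt_iter (w + 2) r).comp (pt_base w))))).of_eq
      fun _ => by rw [rH]
  exact (PT.prodMk ((pt_pts (k + 2) m).comp (t4.prodMk t5))
    (((PT.const 2).mul t2).mul (t4.pow_const (m * (k + 1) - 1)))).of_eq fun _ => by rw [rR]

/-- the reduction from gap satisfiability to gap line cover -/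
theorem reduction {w : ℕ} (hw : 0 < w) {ε : ℝ} (ε0 : 0 < ε) (c : ℕ) :
    ∃ R : CNF → List (ℤ × ℤ) × ℕ, PT R ∧ ∀ φ, Width w φ →
      ((∃ α, φ.Sat α) → LC (toQ (R φ).1) ≤ (R φ).2) ∧
      (Gap ε φ → c * (R φ).2 < LC (toQ (R φ).1)) := by
  wlog ε1 : ε ≤ 1 generalizing ε
  · obtain ⟨R, h1, h2⟩ := this one_pos le_rfl
    exact ⟨R, h1, fun φ h => ⟨(h2 φ h).1, fun hg => (h2 φ h).2 ⟨hg.1, fun α =>
      (mul_le_mul_of_nonneg_right (not_le.1 ε1).le (Nat.cast_nonneg _)).trans (hg.2 α)⟩⟩⟩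
  have w1 : (1 : ℝ) ≤ w := by exact_mod_cast hw
  have θ0 : 0 < ε / (4 * w) := by positivity
  have δ0 : 0 < ε / (4 * w) * ε / (2 * (w + 1)) := by positivity
  have δ1 : ε / (4 * w) * ε / (2 * (w + 1)) ≤ 1 := by
    have : ε / (4 * w) ≤ 1 := by rw [div_le_one (by positivity)]; linarith
    rw [div_le_one (by positivity)]; nlinarith
  obtain ⟨r, hr⟩ := pow_unbounded_of_one_lt (24 * (c + 1 : ℝ)) (lt_add_of_pos_right 1 θ0)
  obtain ⟨d0, -⟩ := db_pos (w + 2) δ0 δ1 r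
  set k := tb (2 * w) r
  obtain ⟨m, hm⟩ := geo k (c := c + 1) (half_pos d0) (by positivity)
  refine ⟨rR w r c k m, pt_rR _ _ _ _ _, fun φ hφ => ?_⟩
  obtain ⟨p1, p2⟩ := nextP_spec (tb φ.length r + rM w r c φ + k ^ 2)
  have wf : WF (k + 2) (tb φ.length r) (iter (w + 2) (base w φ) r) := fun e he =>
    have := (base_wf w φ).iter r e he
    ⟨this.1, fun v hv => ⟨Nat.lt_add_right 2 (this.2 v hv).1, (this.2 v hv).2⟩⟩
  have hBM : rB w r φ ≤ rM w r c φ := by unfold rM; nlinarith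
  obtain ⟨g1, g2⟩ := hm (rP w r c k φ) p1 (le_trans (by omega) p2) (rH w r c k φ) _ (rB w r φ)
    wf.pad (le_trans (by omega) p2) (le_trans (by omega) p2)
  refine ⟨fun ⟨α, hα⟩ => g1 ?_, fun hg => ?_⟩
  · obtain ⟨C, h1, h2⟩ := base_cover hφ hα
    obtain ⟨C', h3, h4⟩ := h1.iter (base_len w φ) r
    exact ⟨C', h3.pad, h4.trans (Nat.pow_le_pow_left h2 r)⟩
  · have m0 : 0 < φ.length := List.length_pos_iff.2 hg.1
    have h1 := ((base_robust hw hφ ε0 ε1 hg).iter (k := w + 2) (by positivity) δ0 δ1 r).mono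
      (K' := 24 * (c + 1) * rB w r φ) (by
        rw [mul_pow]; unfold rB; push_cast; gcongr) le_rfl
    have h2 := g2 (by unfold rB; positivity) (h1.pad (by unfold rM; push_cast; linarith)
      (Nat.succ_pos _) d0.le)
    have h3 : (c + 1) * (2 * rB w r φ * rP w r c k φ ^ (m * (k + 1) - 1)) <
        LC (toQ (pts (k + 2) m (rP w r c k φ) (rH w r c k φ))) := by exact_mod_cast h2
    exact lt_of_le_of_lt (Nat.mul_le_mul_right _ (Nat.le_succ c)) h3

end Pool.Agent.Lib.MP_67c02a_lc
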