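import Pool.Agent.Lib.MP_67c02a_lc.Pcp
import Pool.Agent.Lib.MP_67c02a_lc.Red2

/-!
No constant factor approximation of line cover unless `P = NP`.
-/

namespace Pool.Agent.Lib.MP_67c02a_lc

open Function Pool.Agent.Lib.Complexity N487b59b3 N68a2faeb

set_option maxHeartbeats 400000

theorem pt_encQ : PT fun z : ℤ => bitEncode (z : ℚ) :=
  ((Rep.enc_pt (α := ℤ × ℕ)).comp (f := fun z : ℤ => (z, (1 : ℤ))) (by fun_prop)).of_eq
    fun z => by
      change bitEncode ((z, 1) : ℤ × ℕ) = bitEncode (((z : ℚ).num, (z : ℚ).den) : ℤ × ℕ)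
      simp

theorem pt_encS : PT fun S : List (ℤ × ℤ) => bitEncode (toQ S) := by
  have h1 : PT fun P : ℤ × ℤ => bitEncode ((P.1 : ℚ), (P.2 : ℚ)) :=
    PT.append (PT.delimit (pt_encQ.comp (PT.fst PT.id))) (pt_encQ.comp (PT.snd PT.id))
  have : PT fun l : List (ℤ × ℤ) => l.flatMap fun P => delimit (bitEncode ((P.1 : ℚ), (P.2 : ℚ))) :=
    PT.flatMap PT.id (PT.delimit (h1.comp (PT.snd PT.id)))
  refine this.of_eq fun l => ?_
  change _ = (((toQ l).map bitEncode).map delimit).flatten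
  simp [toQ, List.flatMap_def, comp_def]

theorem pt_out {A : List (ℚ × ℚ) → List (ℚ × ℚ × ℚ)} (hA : IsPolyTime A) :
    PT fun S : List (ℤ × ℤ) => (A (toQ S)).length := by
  obtain ⟨h⟩ := hA
  obtain ⟨F, hF, e⟩ := pt_of_tm2 h
  have h1 : PT fun S : List (ℤ × ℤ) => (undelimitBlocks (F (bitEncode (toQ S)))).elim 0
      fun l => l.length :=
    PT.option_elim (PT.undelimitBlocks (hF.comp pt_encS)) (PT.const _) (PT.length (PT.snd PT.id))
  refine h1.of_eq fun S => ?_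
  have e1 : F (bitEncode (toQ S)) = (((A (toQ S)).map bitEncode).map delimit).flatten := e _
  rw [e1, undelimitBlocks_flatten_delimit, Option.elim_some, List.length_map]

theorem Covers.LC_le {L : List (ℚ × ℚ × ℚ)} {S : List (ℚ × ℚ)} (h : Covers L S) :
    LC S ≤ L.length := by
  have := Pool.Agent.Lib.MP_67c02a_lc.LC_le (S := S) (Finset.univ : Finset (Fin L.length))
    (fun i => L[i].1) (fun i => L[i].2.1) (fun i => L[i].2.2)
    (fun i => by exact_mod_cast h.1 _ (List.getElem_mem _)) fun P hP => by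
      obtain ⟨l, hl, e⟩ := h.2 P hP
      obtain ⟨i, hi, rfl⟩ := List.getElem_of_mem hl
      exact ⟨⟨i, hi⟩, Finset.mem_univ _, by exact_mod_cast e⟩
  simpa using this

theorem pt_dedup : PT fun S : List (ℤ × ℤ) => S.dedup := by
  refine (PT.foldr_add' (l := fun S : List (ℤ × ℤ) => S) (init := fun _ => ([] : List (ℤ × ℤ)))
    (f := fun _ b s => if b ∈ s then s else b :: s) (g := fun _ b => sz b + 1) PT.id (PT.const _)
    (by fun_prop) ((PT.sz' (PT.snd PT.id)).add (PT.const 1)) fun _ b s => ?_).of_eq fun S => ?_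
  · split_ifs
    · omega
    · rw [sz_cons]; omega
  · induction S with
    | nil => rfl
    | cons b S ih =>
      rw [List.foldr_cons, ih, List.dedup_cons]
      by_cases h : b ∈ S <;> simp [h]

theorem toQ_dedup (S : List (ℤ × ℤ)) : (toQ S.dedup).Nodup ∧ LC (toQ S.dedup) = LC (toQ S) :=
  ⟨(List.nodup_dedup S).map fun P Q h => by
    simp only [Prod.mk.injEq, Int.cast_inj] at h
    exact Prod.ext h.1 h.2, by simp only [LC, toQ, List.forall_mem_map, List.mem_dedup]⟩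

theorem gap_pt (c : ℕ) : ∀ L ∈ NP, ∃ f : Str → List (ℤ × ℤ) × ℕ, PT f ∧ ∀ x, (toQ (f x).1).Nodup ∧
    (L x = true → LC (toQ (f x).1) ≤ (f x).2) ∧ (¬ L x = true → c * (f x).2 < LC (toQ (f x).1)) := by
  intro L hL
  obtain ⟨ε, ε0, h⟩ := pcp
  obtain ⟨f, hf, e⟩ := h L hL
  obtain ⟨R, hR, eR⟩ := reduction (w := 4) (by norm_num) ε0 c
  refine ⟨fun x => ((R (f x)).1.dedup, (R (f x)).2),
    (pt_dedup.comp (hR.comp hf).fst).prodMk (hR.comp hf).snd, fun x => ?_⟩
  rw [(toQ_dedup _).2]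
  exact ⟨(toQ_dedup _).1, fun hx => (eR _ (e x).1).1 ((e x).2.1 hx),
    fun hx => (eR _ (e x).1).2 ((e x).2.2 hx)⟩

/-- the gap version of line cover is hard for `NP`, for every constant gap -/
theorem gap_hard (c : ℕ) : ∀ L ∈ NP, ∃ f : List Bool → List (ℚ × ℚ) × ℕ, IsPolyTime f ∧
    ∀ x, (f x).1.Nodup ∧ (L x = true → LC (f x).1 ≤ (f x).2) ∧
      (L x = false → c * (f x).2 < LC (f x).1) := by
  intro L hL
  obtain ⟨g, hg, e⟩ := gap_pt c L hL
  refine ⟨fun x => (toQ (g x).1, (g x).2), ?_,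
    fun x => ⟨(e x).1, (e x).2.1, fun hx => (e x).2.2 (by simp [hx])⟩⟩
  have h0 : PT fun x => bitEncode (toQ (g x).1, (g x).2) :=
    PT.append (PT.delimit (pt_encS.comp hg.fst))
      (PT.of_eq (PTB.of_unary hg.snd) fun _ => (encodeNat_eq _).symm)
  have h1 : PT fun l : Str => ((bitDecode l : Option Str).map Rep.up).elim []
      fun a => bitEncode (toQ (g a).1, (g a).2) :=
    PT.option_elim (Rep.dec_pt (α := Str)) (PT.const _) (h0.comp (PT.snd PT.id))
  exact tm2_of_str h1 fun a => by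
    change ((bitDecode (bitEncode a) : Option Str).map Rep.up).elim _ _ = bitEncode _
    simp only [bitDecode_bitEncode, Option.map_some, Option.elim_some, up_str]

theorem no_approx (c : ℝ) (A : List (ℚ × ℚ) → List (ℚ × ℚ × ℚ)) (hA : IsPolyTime A)
    (h : ∀ S, S.Nodup → Covers (A S) S ∧ ((A S).length : ℝ) ≤ c * LC S) : P = NP := by
  refine Set.Subset.antisymm (fun L hL => mem_NP_of_PT (R := fun q => L q.1)
    ((pt_of_isPolyTime_pred hL).comp (PT.fst PT.id)) 0 fun x =>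
      ⟨fun hx => ⟨[], by simp, hx⟩, fun ⟨_, _, hx⟩ => hx⟩) fun L hL => ?_
  obtain ⟨f, hf, e⟩ := gap_pt ⌈c⌉₊ L hL
  refine PT.mem_P ((PT.dec_le ((pt_out hA).comp hf.fst) ((PT.const ⌈c⌉₊).mul hf.snd)).of_eq
    fun x => ?_)
  obtain ⟨h1, h2⟩ := h (toQ (f x).1) (e x).1
  rw [Bool.eq_iff_iff, decide_eq_true_eq]
  refine ⟨fun hx => by_contra fun hn => ?_, fun hx => ?_⟩
  · exact absurd (((e x).2.2 hn).trans_le h1.LC_le) (not_lt.2 hx)
  · have h3 : ((A (toQ (f x).1)).length : ℝ) ≤ (⌈c⌉₊ : ℕ) * ((f x).2 : ℕ) :=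
      h2.trans (mul_le_mul (Nat.le_ceil c) (by exact_mod_cast (e x).2.1 hx) (Nat.cast_nonneg _)
        (Nat.cast_nonneg _))
    exact_mod_cast h3

end Pool.Agent.Lib.MP_67c02a_lc
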