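import Pool.Agent.Lib.MP_67c02a_lc.Hash
import Pool.Agent.Lib.MP_67c02a_lc.GridS
import Pool.Agent.Lib.MP_67c02a_lc.Main

/-!
The randomised reduction from gap satisfiability to line cover.
-/

namespace Pool.Agent.Lib.MP_67c02a_lc

open Function Pool.Agent.Lib.Complexity

set_option maxHeartbeats 400000

def dp (z b j : ℕ) : ℕ := z / b ^ j

def cpw (T a e : ℕ) : ℕ := min (a ^ e) T

def bitA (a j i : ℕ) : Bool := decide (dp (dp a 16 j % 16) 2 i % 2 = 1)

def litU (φ : CNF) (u j i : ℕ) : ℕ × Bool := lit φ (dp u φ.length j % φ.length, i)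

def valB (φ : CNF) (r u a : ℕ) : Bool :=
  (List.range r).all fun j => (List.range 4).any fun i => decide (bitA a j i = (litU φ u j i).2)

def conB (φ : CNF) (r u u' a a' : ℕ) : Bool :=
  (List.range r).all fun j => (List.range 4).all fun i => (List.range 4).all fun i' =>
    decide ((litU φ u j i).1 ≠ (litU φ u' j i').1) || decide (bitA a j i = bitA a' j i')

def covB (U P n z u a : ℕ) : Bool :=
  decide (z < P * P * U) && (decide (z % U = u) && decide ((z / U % P * a + z / U / P) % P < n))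

def hypB (φ : CNF) (r U R P n : ℕ) (zs : List ℕ) : Bool :=
  (List.range U).any fun u => (List.range U).any fun u' => (List.range R).all fun a =>
    (List.range R).all fun a' => !(valB φ r u a) || (!(valB φ r u' a') || (!(conB φ r u u' a a') ||
      zs.any fun z => covB U P n z u a || covB U P n z u' a'))

def labW (w : Str) (b c o : ℕ) : ℕ := min (bval ((w.drop (b * o)).take b)) c

def ptsW (φ : CNF) (r U R P n t N b : ℕ) (w : Str) : List (ℤ × ℤ) :=
  (((List.range N).product (List.range (t * N))).filter fun p => hypB φ r U R P n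
    ((List.range t).map fun i => labW w b (P * P * U) (p.2 + i * p.1 + 2 * (t * N) * i))).map
      fun p => ((p.1 : ℤ), (p.2 : ℤ))

section
variable {α : Type} [Enc α]

@[fun_prop] theorem pt_dp {z b j : α → ℕ} (h1 : PT z) (h2 : PT b) (h3 : PT j) :
    PT fun x => dp (z x) (b x) (j x) :=
  ((PTB.div (PTB.of_unary h1) (PTB.pow (PTB.of_unary h2) h3)).min_unary h1).of_eq fun _ =>
    min_eq_left (Nat.div_le_self _ _)

@[fun_prop] theorem pt_cpw {T a e : α → ℕ} (h1 : PT T) (h2 : PT a) (h3 : PT e) :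
    PT fun x => cpw (T x) (a x) (e x) := (PTB.pow (PTB.of_unary h2) h3).min_unary h1

@[fun_prop] theorem pt_bitA {a j i : α → ℕ} (h1 : PT a) (h2 : PT j) (h3 : PT i) :
    PT fun x => bitA (a x) (j x) (i x) := by unfold bitA; fun_prop

@[fun_prop] theorem pt_litU {φ : α → CNF} {u j i : α → ℕ} (h0 : PT φ) (h1 : PT u) (h2 : PT j)
    (h3 : PT i) : PT fun x => litU (φ x) (u x) (j x) (i x) := by unfold litU; fun_prop

@[fun_prop] theorem pt_valB {φ : α → CNF} {r u a : α → ℕ} (h0 : PT φ) (h1 : PT r) (h2 : PT u)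
    (h3 : PT a) : PT fun x => valB (φ x) (r x) (u x) (a x) := by unfold valB; fun_prop

@[fun_prop] theorem pt_conB {φ : α → CNF} {r u u' a a' : α → ℕ} (h0 : PT φ) (h1 : PT r) (h2 : PT u)
    (h3 : PT u') (h4 : PT a) (h5 : PT a') :
    PT fun x => conB (φ x) (r x) (u x) (u' x) (a x) (a' x) := by unfold conB; fun_prop

@[fun_prop] theorem pt_covB {U P n z u a : α → ℕ} (h0 : PT U) (h1 : PT P) (h2 : PT n)
    (h3 : PT z) (h4 : PT u) (h5 : PT a) :
    PT fun x => covB (U x) (P x) (n x) (z x) (u x) (a x) := by unfold covB; fun_prop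

@[fun_prop] theorem pt_hypB {φ : α → CNF} {r U R P n : α → ℕ} {zs : α → List ℕ} (h0 : PT φ)
    (h1 : PT r) (h2 : PT U) (h3 : PT R) (h4 : PT P) (h5 : PT n) (h6 : PT zs) :
    PT fun x => hypB (φ x) (r x) (U x) (R x) (P x) (n x) (zs x) := by unfold hypB; fun_prop

@[fun_prop] theorem pt_labW {w : α → Str} {b c o : α → ℕ} (h0 : PT w) (h1 : PT b) (h2 : PT c)
    (h3 : PT o) : PT fun x => labW (w x) (b x) (c x) (o x) :=
  PTB.min_unary (PT.bval (by fun_prop)) h2

@[fun_prop] theorem pt_ptsW {φ : α → CNF} {r U R P n t N b : α → ℕ} {w : α → Str} (h0 : PT φ)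
    (h1 : PT r) (h2 : PT U) (h3 : PT R) (h4 : PT P) (h5 : PT n) (h6 : PT t) (h7 : PT N) (h8 : PT b)
    (h9 : PT w) : PT fun x => ptsW (φ x) (r x) (U x) (R x) (P x) (n x) (t x) (N x) (b x) (w x) := by
  unfold ptsW; fun_prop

end

theorem ptsW_nodup (φ : CNF) (r U R P n t N b : ℕ) (w : Str) :
    (toQ (ptsW φ r U R P n t N b w)).Nodup :=
  (((List.nodup_range.product List.nodup_range).filter _).map fun P Q h => by
    simp only [Prod.mk.injEq, Nat.cast_inj] at h
    exact Prod.ext h.1 h.2).map fun P Q h => by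
    simp only [Prod.mk.injEq, Int.cast_inj] at h
    exact Prod.ext h.1 h.2

theorem ptsW_length (φ : CNF) (r U R P n t N b : ℕ) (w : Str) :
    (toQ (ptsW φ r U R P n t N b w)).length ≤ N * (t * N) := by
  simp only [toQ, ptsW, List.length_map]
  exact (List.length_filter_le _ _).trans_eq ((List.length_product _ _).trans (by simp))

def numQ {b : ℕ} (z : Fin b → Bool) : ℕ := bval (List.ofFn z)

theorem numQ_inj {b : ℕ} : Injective (numQ (b := b)) := by
  induction b with
  | zero => exact fun _ _ _ => Subsingleton.elim _ _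
  | succ b ih =>
    intro z z' h
    simp only [numQ, List.ofFn_succ, bval_cons] at h
    have h0 : z 0 = z' 0 := by cases h1 : z 0 <;> cases h2 : z' 0 <;> simp [h1, h2] at h ⊢ <;> omega
    have h1 : numQ (fun i : Fin b => z i.succ) = numQ fun i : Fin b => z' i.succ := by
      rw [h0] at h; unfold numQ; omega
    exact funext fun i => Fin.cases h0 (fun i => congrFun (ih h1) i) i

theorem numQ_surj {b n : ℕ} (h : n < 2 ^ b) : ∃ z : Fin b → Bool, numQ z = n := by
  have hi : Injective fun z : Fin b → Bool => (⟨numQ z, by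
    simpa [numQ] using bval_lt (List.ofFn z)⟩ : Fin (2 ^ b)) := fun _ _ e => numQ_inj (Fin.mk.inj e)
  obtain ⟨z, hz⟩ := ((Fintype.bijective_iff_injective_and_card _).2 ⟨hi, by simp⟩).2 ⟨n, h⟩
  exact ⟨z, Fin.mk.inj hz⟩

theorem av_comp_inj {α β X : Type} [Fintype α] [DecidableEq α] [Fintype β] [DecidableEq β]
    [Fintype X] [Nonempty X] {ι : α → β} (h : Injective ι) (F : (α → X) → ℝ) :
    av (fun w : β → X => F fun a => w (ι a)) = av F := by
  classical
  rw [← av_equiv (Equiv.piEquivPiSubtypeProd (· ∈ Set.range ι) fun _ => X).symm, av_prod,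
    ← av_equiv (Equiv.arrowCongr (Equiv.ofInjective ι h).symm (Equiv.refl X)) F]
  refine av_congr fun x => ?_
  simp only [Equiv.piEquivPiSubtypeProd_symm_apply, Set.mem_range_self, dif_pos, av_const]
  rfl

def vrF (φ : CNF) (o : Fin φ.length × Fin 4) : ℕ := (lit φ (o.1, o.2)).1

def vlF (φ : CNF) (c : Fin φ.length) (β : Fin 4 → Bool) : Prop := ∃ i, β i = (lit φ (c, i)).2

def dcF (r : ℕ) (a : Fin (16 ^ r)) (j : Fin r) (i : Fin 4) : Bool := bitA a j i

def cvF {m r b : ℕ} (P n : ℕ) (z : Fin b → Bool) (u : Fin r → Fin m) (a : Fin (16 ^ r)) : Prop :=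
  covB (m ^ r) P n (numQ z) (finFunctionFinEquiv u) a = true

theorem dp_code {m r : ℕ} (u : Fin r → Fin m) (j : Fin r) :
    dp (finFunctionFinEquiv u) m j % m = u j := by
  conv_rhs => rw [← finFunctionFinEquiv.symm_apply_apply u]
  rfl

theorem dcF_surj (r : ℕ) : Surjective (dcF r) := fun β => by
  have : ∀ β : Fin 4 → Bool, ∃ c : Fin 16, ∀ i : Fin 4, decide (dp c 2 i % 2 = 1) = β i := by decide
  choose c hc using this
  exact ⟨finFunctionFinEquiv fun j => c (β j), funext fun j => funext fun i => by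
    rw [dcF, bitA, dp_code, hc]⟩

theorem covB_min (U P n z u a : ℕ) : covB U P n (min z (P * P * U)) u a = covB U P n z u a := by
  rcases lt_or_ge z (P * P * U) with h | h
  · rw [min_eq_left h.le]
  · simp [covB, h, not_lt.2 h]

theorem hypB_iff {φ : CNF} {r P n t b : ℕ} {zs : List ℕ} {z : Fin t → Fin b → Bool}
    (h : ∀ x, x ∈ zs ↔ ∃ i, min (numQ (z i)) (P * P * φ.length ^ r) = x) :
    hypB φ r (φ.length ^ r) (16 ^ r) P n zs = true ↔
      HH (vrF φ) (vlF φ) (dcF r) (cvF P n) z := by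
  have e1 : ∀ {k} (p : ℕ → Prop), (∃ x < k, p x) ↔ ∃ x : Fin k, p x := fun _ => Fin.exists_iff.trans
    (by simp) |>.symm
  have e2 : ∀ {k} (p : ℕ → Prop), (∀ x < k, p x) ↔ ∀ x : Fin k, p x := fun p =>
    (Fin.forall_iff (p := fun x => p x)).symm
  simp only [hypB, HH, List.any_eq_true, List.all_eq_true, List.mem_range, Bool.or_eq_true,
    Bool.not_eq_true', h, e1, e2, valB, conB, decide_eq_true_eq, ← Bool.not_eq_true,
    ← imp_iff_not_or, exists_exists_eq_and, covB_min, finFunctionFinEquiv.surjective.exists, litU,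
    dp_code, ne_eq]
  rfl

theorem labW_ofFn {T b c o : ℕ} (w : Fin T → Bool) (h : b * o + b ≤ T) :
    labW (List.ofFn w) b c o = min (numQ fun j : Fin b => w ⟨j + b * o, by omega⟩) c := by
  unfold labW numQ
  congr 2
  refine List.ext_getElem (by simp; omega) fun i h1 h2 => ?_
  simp [add_comm]

end Pool.Agent.Lib.MP_67c02a_lc
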