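import Pool.Agent.Lib.MP_67c02a_lc.Alg

/-!
Completeness and soundness of the randomised reduction.
-/

namespace Pool.Agent.Lib.MP_67c02a_lc

open Finset Function Pool.Agent.Lib.Complexity

set_option maxHeartbeats 400000

open Classical in
noncomputable def ptsY {Q : Type} {t N : ℕ} (H : (Fin t → Q) → Prop)
    (y : Fin t × Fin (2 * (t * N)) → Q) : List (ℚ × ℚ) :=
  (univ.filter fun p : GP t N => H fun i => y (i, sl i p)).toList.map
    fun p => (((p.1 : ℕ) : ℚ), ((p.2 : ℕ) : ℚ))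

theorem mem_ptsY {Q : Type} {t N : ℕ} {H : (Fin t → Q) → Prop} {y : Fin t × Fin (2 * (t * N)) → Q}
    {P : ℚ × ℚ} : P ∈ ptsY H y ↔ ∃ p : GP t N, H (fun i => y (i, sl i p)) ∧
      P = (((p.1 : ℕ) : ℚ), ((p.2 : ℕ) : ℚ)) := by
  simp only [ptsY, List.mem_map, mem_toList, mem_filter, mem_univ, true_and, eq_comm]

theorem av_ptsW (φ : CNF) {r P n t N b T : ℕ} (h : t * (2 * (t * N)) * b ≤ T) (F : ℕ → ℝ) :
    av (fun w : Fin T → Bool =>
      F (LC (toQ (ptsW φ r (φ.length ^ r) (16 ^ r) P n t N b (List.ofFn w))))) =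
    av fun y : Fin t × Fin (2 * (t * N)) → Fin b → Bool =>
      F (LC (ptsY (HH (vrF φ) (vlF φ) (dcF r) (cvF P n)) y)) := by
  have hi : Injective fun x : (Fin t × Fin (2 * (t * N))) × Fin b =>
      Fin.castLE h (finProdFinEquiv (finProdFinEquiv x.1, x.2)) := fun x x' e => by
    have := finProdFinEquiv.injective (Fin.castLE_injective h e)
    simp only [Prod.mk.injEq, EmbeddingLike.apply_eq_iff_eq] at this
    exact Prod.ext this.1 this.2
  rw [← av_equiv (Equiv.curry _ _ _), ← av_comp_inj hi]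
  refine av_congr fun w => ?_
  congr 1
  have k : ∀ p : GP t N, hypB φ r (φ.length ^ r) (16 ^ r) P n ((List.range t).map fun i =>
      labW (List.ofFn w) b (P * P * φ.length ^ r) (p.2 + i * p.1 + 2 * (t * N) * i)) = true ↔
      HH (vrF φ) (vlF φ) (dcF r) (cvF P n) fun i j =>
        w (Fin.castLE h (finProdFinEquiv (finProdFinEquiv (i, sl i p), j))) := fun p => by
    refine hypB_iff fun x => ?_
    have e : ∀ i : Fin t, labW (List.ofFn w) b (P * P * φ.length ^ r)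
        (p.2 + i * p.1 + 2 * (t * N) * i) = min (numQ fun j =>
          w (Fin.castLE h (finProdFinEquiv (finProdFinEquiv (i, sl i p), j))))
            (P * P * φ.length ^ r) := fun i => labW_ofFn w (by
      have := (finProdFinEquiv (i, sl i p)).2
      exact le_trans (by rw [← Nat.mul_succ, mul_comm]; exact Nat.mul_le_mul_right _ this) h)
    simp only [List.mem_map, List.mem_range, ← e]
    exact ⟨fun ⟨i, h1, h2⟩ => ⟨⟨i, h1⟩, h2⟩, fun ⟨i, h2⟩ => ⟨i, i.2, h2⟩⟩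
  have : ∀ Z, Z ∈ toQ (ptsW φ r (φ.length ^ r) (16 ^ r) P n t N b (List.ofFn w)) ↔
      Z ∈ ptsY (HH (vrF φ) (vlF φ) (dcF r) (cvF P n)) (Equiv.curry _ _ _ fun x =>
        w (Fin.castLE h (finProdFinEquiv (finProdFinEquiv x.1, x.2)))) := fun Z => by
    rw [mem_ptsY]
    simp only [toQ, ptsW, List.map_map, List.mem_map, List.mem_filter, Prod.exists,
      List.pair_mem_product, List.mem_range, comp, Int.cast_natCast]
    exact ⟨fun ⟨a, c, ⟨⟨h1, h2⟩, h3⟩, h4⟩ => ⟨⟨a, h1⟩, ⟨c, h2⟩, (k (⟨a, h1⟩, ⟨c, h2⟩)).1 h3, h4.symm⟩,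
      fun ⟨a, c, h3, h4⟩ => ⟨a, c, ⟨⟨a.2, c.2⟩, (k (a, c)).2 h3⟩, h4.symm⟩⟩
  simp only [LC, this]

theorem emb_ex {m r P n b : ℕ} (h : P * P * m ^ r ≤ 2 ^ b) :
    ∃ emb : (Fin r → Fin m) × Fin (P * P) → Fin b → Bool, Injective emb ∧
      ∀ z u a, cvF P n z u a ↔ ∃ w, z = emb (u, w) ∧ (w % P * a + w / P) % P < n := by
  choose emb he using fun x : (Fin r → Fin m) × Fin (P * P) =>
    numQ_surj ((finProdFinEquiv (x.2, finFunctionFinEquiv x.1)).2.trans_le h)
  refine ⟨emb, fun x x' e => ?_, fun z u a => ?_⟩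
  · have := finProdFinEquiv.injective (Fin.ext ((he x).symm.trans (e ▸ he x')))
    simp only [Prod.mk.injEq, EmbeddingLike.apply_eq_iff_eq] at this
    exact Prod.ext this.2 this.1
  simp only [cvF, covB, Bool.and_eq_true, decide_eq_true_eq]
  have u0 := (finFunctionFinEquiv u).2
  constructor
  · rintro ⟨h1, h2, h3⟩
    refine ⟨⟨numQ z / m ^ r, Nat.div_lt_of_lt_mul (mul_comm (P * P) _ ▸ h1)⟩, numQ_inj ?_, h3⟩
    rw [he, finProdFinEquiv_apply_val, ← h2, Nat.mod_add_div]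
  · rintro ⟨w, rfl, h3⟩
    refine ⟨he _ ▸ Fin.is_lt _, ?_⟩
    rwa [he, finProdFinEquiv_apply_val, Nat.add_mul_mod_self_left, Nat.mod_eq_of_lt u0,
      Nat.add_mul_div_left _ _ (by omega), Nat.div_eq_of_lt u0, zero_add, eq_self, true_and]

theorem av_hit {P n a : ℕ} (hP : P.Prime) (hn : n ≤ P) (h : a < P) :
    av (fun w : Fin (P * P) => ind ((w % P * a + w / P) % P < n)) = n / P := by
  haveI : Nonempty (Fin P) := ⟨⟨0, hP.pos⟩⟩
  have := av_lin (a' := if a = 0 then 1 else 0) hP h (by split_ifs; exacts [hP.one_lt, hP.pos])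
    (by split_ifs <;> omega) (fun x => ind (x < n)) fun _ => 1
  simpa only [mul_one, av_const, av_lt hn] using this

theorem alg_yes {φ : CNF} (hw : Width 4 φ) {α : ℕ → Bool} (hs : φ.Sat α) {r P n t N b T : ℕ}
    (hP : P.Prime) (hR : 16 ^ r ≤ P) (n0 : 0 < n) (hn : n ≤ P) (t0 : 0 < t) (N0 : 0 < N)
    (hb : t ^ 2 * (P * P * φ.length ^ r) ≤ 2 ^ b) (hT : t * (2 * (t * N)) * b ≤ T) :
    av (fun w : Fin T → Bool => ind (20 * N * (n / P : ℝ) <
      LC (toQ (ptsW φ r (φ.length ^ r) (16 ^ r) P n t N b (List.ofFn w))))) ≤ 1 / 10 := by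
  rw [av_ptsW φ hT fun x => ind (20 * N * (n / P : ℝ) < x)]
  obtain ⟨emb, -, he⟩ := emb_ex (n := n) (le_trans (Nat.le_mul_of_pos_left _ (by positivity)) hb)
  obtain ⟨σ, hσ⟩ := hh_complete (t := t) (vrF φ) (vlF φ) (dcF r) (cvF (b := b) P n) (dcF_surj r)
    (α := α) fun u => by
      obtain ⟨i, h1, h2⟩ := sat_lit hw hs u.2
      exact ⟨⟨i, h1⟩, h2⟩
  have P0 : (0 : ℝ) < P := by exact_mod_cast hP.pos
  have := grid_complete (N := N) (fun _ z => ∃ u, cvF P n z u (σ u)) hσ (c := n / P / t ^ 2)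
    (by positivity) (fun _ => ?_) (ptsY _) (fun _ _ => mem_ptsY.1) t0 N0
  · rwa [show 10 * (t * (2 * (t * N)) * (n / P / t ^ 2 : ℝ)) = 20 * N * (n / P) by
      field_simp; norm_num] at this
  have e : ∀ z, ind (∃ u, cvF P n z u (σ u)) ≤ ∑ u, ∑ w : Fin (P * P),
      ind (z = emb (u, w)) * ind ((w % P * σ u + w / P) % P < n) := fun z => by
    have p : ∀ u (w : Fin (P * P)), 0 ≤ ind (z = emb (u, w)) *
      ind ((w % P * σ u + w / P) % P < n) := fun _ _ => mul_nonneg (ind_nonneg _) (ind_nonneg _)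
    by_cases h : ∃ u, cvF P n z u (σ u)
    · rw [ind_pos h]
      obtain ⟨u, h⟩ := h
      obtain ⟨w, h1, h2⟩ := (he _ _ _).1 h
      refine le_trans ?_ ((single_le_sum (fun w _ => p u w) (mem_univ w)).trans
        (single_le_sum (fun u _ => sum_nonneg fun w _ => p u w) (mem_univ u)))
      rw [ind_pos h1, ind_pos h2, one_mul]
    · rw [ind_neg h]; exact sum_nonneg fun u _ => sum_nonneg fun w _ => p u w
  refine (av_mono e).trans ?_
  have e2 : ∀ u, ∑ w : Fin (P * P), ind ((w % P * σ u + w / P) % P < n) = n / P * (P * P) :=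
    fun u => by
      have := av_hit hP hn ((σ u).2.trans_le hR)
      rwa [av_eq, Fintype.card_fin, Nat.cast_mul, div_eq_iff (by positivity)] at this
  simp only [av_sum, av_mul_right, av_ind_eq, ← mul_sum, e2, sum_const, card_univ, Fintype.card_fun,
    Fintype.card_fin, Fintype.card_bool, nsmul_eq_mul]
  have : (t : ℝ) ^ 2 * (P * P * φ.length ^ r) ≤ 2 ^ b := by exact_mod_cast hb
  push_cast
  rw [le_div_iff₀ (by positivity)]
  refine le_of_eq_of_le (b := (n / P : ℝ) * (t ^ 2 * (P * P * φ.length ^ r) / 2 ^ b)) (by ring) ?_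
  exact mul_le_of_le_one_right (by positivity) ((div_le_one (by positivity)).2 this)

theorem alg_no {φ : CNF} (hw : Width 4 φ) {ε : ℝ} (ε0 : 0 < ε) (ε1 : ε ≤ 1) (hg : Gap ε φ)
    {r P n s b G K k l T : ℕ} (r0 : 0 < r) (hP : P.Prime) (hR : 16 ^ r ≤ P) (hn : n ≤ P)
    (hs : 24 * r * P ≤ s * n) (hr : (1 - ε ^ 2 / 80) ^ r * 2048 < (n / P) ^ 2)
    (hb : P * P * φ.length ^ r ≤ 2 ^ b) (hb' : 2 ^ b ≤ 2 * ((s + s) ^ 2 * (P * P * φ.length ^ r)))
    (hG : 100 ≤ G) (h1 : (8 * 2 ^ b) ^ (s + s) ≤ G) (h2 : K ^ (s + s) ≤ G)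
    (h3 : 1024 * (2 ^ b) ^ 2 * (s + s) ≤ K) (l0 : 0 < l) (hl : s + s ≤ 2 ^ l)
    (hk : k * (2 ^ 17 * l) ≤ G ^ 16) (hT : (s + s) * (2 * ((s + s) * G ^ 16)) * b ≤ T) :
    av (fun w : Fin T → Bool => ind (LC (toQ (ptsW φ r (φ.length ^ r) (16 ^ r) P n (s + s) (G ^ 16)
      b (List.ofFn w))) ≤ k)) ≤ 1 / 10 := by
  rw [av_ptsW φ hT fun x => ind (x ≤ k)]
  obtain ⟨emb, hi, he⟩ := emb_ex (n := n) hb
  have P0 : (0 : ℝ) < P := by exact_mod_cast hP.pos
  have sn : 0 < s * n := lt_of_lt_of_le (by have := hP.pos; positivity) hs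
  have s0 : 0 < s := Nat.pos_of_mul_pos_right sn
  have n0 : 0 < n := Nat.pos_of_mul_pos_left sn
  have m0 : 0 < φ.length := List.length_pos_iff.2 hg.1
  haveI : Nonempty (Fin φ.length) := ⟨⟨0, m0⟩⟩
  haveI : Nonempty (Fin (P * P)) := ⟨⟨0, Nat.mul_pos hP.pos hP.pos⟩⟩
  obtain ⟨t, ht⟩ : ∃ t : ℝ, t = (s + s : ℕ) := ⟨_, rfl⟩
  have t1 : 1 ≤ t := by rw [ht]; exact_mod_cast (by omega : 1 ≤ s + s)
  have l1 : (1 : ℝ) ≤ l := by exact_mod_cast l0
  have hk' : (k : ℝ) * (2 ^ 17 * l) ≤ G ^ 16 := by exact_mod_cast hk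
  refine grid_sound (K := K) (γ := 1 / (64 * t)) (x := 1 / (2 ^ 14 * t ^ 2)) (by omega) hG
    (by simpa using h1) h2 (by simpa using h3) (by positivity) ?_ (by positivity) ?_
    (le_trans (by nlinarith) hk) ?_ (fun C hC => hh_sound (vrF φ) (vlF φ) (dcF r) (cvF P n) ε0 ε1
      (fun α => ?_) (fun (w : Fin (P * P)) (a : Fin (16 ^ r)) => (w % P * a + w / P) % P < n)
      (ρ := n / P) (B := 3 * r)
      (by positivity) (fun a => av_hit hP hn (a.2.trans_le hR)) (fun a a' h => ?_) ?_ s0 ?_ hr emb hi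
      (fun u w a h => (he _ _ _).2 ⟨w, rfl, h⟩) ?_ ?_ C hC) _
    fun y p h => mem_ptsY.2 ⟨p, h, rfl⟩
  · rw [one_div, inv_mul_eq_div, one_le_div (by positivity), ht]
    have := h3.trans ((Nat.le_self_pow (by omega) K).trans h2)
    exact_mod_cast le_trans (Nat.mul_le_mul_right _ (by
      have : 0 < (2 ^ b) ^ 2 := by positivity
      omega)) this
  · rw [div_le_one (by positivity)]; nlinarith
  · rw [← ht, one_div_one_div, Real.log_mul (by positivity) (by positivity), Real.log_pow,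
      Real.log_pow]
    have a1 := Real.log_two_lt_d9
    have a2 : Real.log t ≤ l * Real.log 2 := by
      rw [← Real.log_pow, ht]
      exact Real.log_le_log (by rw [← ht]; positivity) (by exact_mod_cast hl)
    have a3 : (100 : ℝ) ^ 16 ≤ G ^ 16 := by gcongr; exact_mod_cast hG
    rw [show 1 / (2 ^ 14 * t ^ 2) * (t * (2 * (t * (G : ℝ) ^ 16))) = G ^ 16 / 2 ^ 13 by field_simp,
      show 1 / (64 * t) * t * (G : ℝ) ^ 16 / 8 = G ^ 16 / 512 by field_simp; norm_num]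
    have a4 : (k : ℝ) * ((14 : ℕ) * Real.log 2 + (2 : ℕ) * Real.log t) ≤ k * (11.4 * l) := by
      gcongr; push_cast; nlinarith
    have a5 : (k : ℝ) ≤ k * l := le_mul_of_one_le_right (Nat.cast_nonneg _) l1
    linarith
  · have := hg.2 α
    rw [viol_eq hw, sum_range] at this
    rw [av_eq, Fintype.card_fin, le_div_iff₀ (by exact_mod_cast m0)]
    refine this.trans (sum_le_sum fun c _ => ind_mono fun h ⟨i, hi⟩ => h i i.2 hi)
  · rw [av_lin hP (a.2.trans_le hR) (a'.2.trans_le hR) (Fin.val_ne_of_ne h) (fun x => ind (x < n))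
      fun x => ind (x < n), av_lt hn, sq]
  · rw [Fintype.card_fin, mul_comm, Real.exp_nat_mul, Nat.cast_pow]
    refine pow_lt_pow_left₀ ?_ (by norm_num) r0.ne'
    have h : Real.exp 3 = Real.exp 1 ^ 3 := by rw [← Real.exp_nat_mul]; norm_num
    rw [h]
    exact lt_of_lt_of_le (by norm_num) (pow_le_pow_left₀ (by norm_num) Real.exp_one_gt_d9.le 3)
  · rw [mul_div_assoc', le_div_iff₀ P0]
    have : (24 : ℝ) * r * P ≤ s * n := by exact_mod_cast hs
    linarith
  · rw [div_lt_one (by positivity)]; linarith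
  · have : (2 : ℝ) ^ b ≤ 2 * (t ^ 2 * (P * P * φ.length ^ r)) := by rw [ht]; exact_mod_cast hb'
    simp only [Fintype.card_fun, Fintype.card_fin, Fintype.card_bool, Fintype.card_prod]
    push_cast at ht ⊢
    rw [show (s : ℝ) = t / 2 by linarith, show 1 / (64 * t) * 2 ^ b * 16 = 2 ^ b / (4 * t) by ring,
      div_le_iff₀ (by positivity)]
    linarith

end Pool.Agent.Lib.MP_67c02a_lc
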