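import Mathlib

/-!
Uniform averages of real functions on finite types.
-/

namespace Pool.Agent.Lib.MP_67c02a_lc

open Finset Function
open scoped BigOperators

/-- uniform average -/
noncomputable def av {α : Type} [Fintype α] (f : α → ℝ) : ℝ := 𝔼 x, f x

section
variable {α β : Type} [Fintype α] [Fintype β] {f g : α → ℝ}

theorem av_eq (f : α → ℝ) : av f = (∑ x, f x) / Fintype.card α :=
  Fintype.expect_eq_sum_div_card f

theorem av_add (f g : α → ℝ) : av (fun x => f x + g x) = av f + av g := expect_add_distrib _ _ _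
theorem av_sub (f g : α → ℝ) : av (fun x => f x - g x) = av f - av g := expect_sub_distrib _ _ _
theorem av_neg (f : α → ℝ) : av (fun x => - f x) = - av f := expect_neg_distrib _ _
theorem av_mul_left (c : ℝ) (f : α → ℝ) : av (fun x => c * f x) = c * av f :=
  (mul_expect _ _ _).symm
theorem av_mul_right (c : ℝ) (f : α → ℝ) : av (fun x => f x * c) = av f * c :=
  (expect_mul _ _ _).symm
theorem av_div (c : ℝ) (f : α → ℝ) : av (fun x => f x / c) = av f / c := (expect_div _ _ _).symm
@[simp] theorem av_const [Nonempty α] (c : ℝ) : av (fun _ : α => c) = c := Fintype.expect_const c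
@[simp] theorem av_zero : av (fun _ : α => (0 : ℝ)) = 0 := expect_const_zero _
theorem av_mono (h : ∀ x, f x ≤ g x) : av f ≤ av g := expect_le_expect fun x _ => h x
theorem av_nonneg (h : ∀ x, 0 ≤ f x) : 0 ≤ av f := expect_nonneg fun x _ => h x
theorem av_le [Nonempty α] {c : ℝ} (h : ∀ x, f x ≤ c) : av f ≤ c := (av_mono h).trans_eq (av_const c)
theorem le_av [Nonempty α] {c : ℝ} (h : ∀ x, c ≤ f x) : c ≤ av f := (av_const c).symm.trans_le (av_mono h)
theorem av_congr (h : ∀ x, f x = g x) : av f = av g := by rw [funext h]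
theorem abs_av_le (f : α → ℝ) : |av f| ≤ av fun x => |f x| := abs_expect_le _ _
theorem av_comm (F : α → β → ℝ) :
    av (fun x => av fun y => F x y) = av fun y => av fun x => F x y := expect_comm _ _ _
theorem av_prod (F : α × β → ℝ) : av F = av fun x => av fun y => F (x, y) := by
  unfold av; rw [← univ_product_univ, expect_product]
theorem av_equiv (e : α ≃ β) (g : β → ℝ) : av (fun x => g (e x)) = av g :=
  Fintype.expect_equiv e _ _ fun _ => rfl
theorem av_sum {ι : Type} (s : Finset ι) (F : ι → α → ℝ) :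
    av (fun x => ∑ i ∈ s, F i x) = ∑ i ∈ s, av (F i) := expect_sum_comm _ _ _
theorem exists_av_le [Nonempty α] (f : α → ℝ) : ∃ x, av f ≤ f x := by
  obtain ⟨x, -, h⟩ := exists_le_of_le_expect (f := f) univ_nonempty le_rfl
  exact ⟨x, h⟩
theorem exists_le_av [Nonempty α] (f : α → ℝ) : ∃ x, f x ≤ av f := by
  obtain ⟨x, -, h⟩ := exists_le_of_expect_le (f := f) univ_nonempty le_rfl
  exact ⟨x, h⟩
theorem abs_av_le_of [Nonempty α] {c : ℝ} (h : ∀ x, |f x| ≤ c) : |av f| ≤ c :=
  (abs_av_le f).trans (av_le h)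
theorem av_mul_av (f : α → ℝ) (g : β → ℝ) : av f * av g = av fun x => av fun y => f x * g y := by
  simp only [av_mul_left, av_mul_right]
theorem sq_av_le [Nonempty α] (f : α → ℝ) : av f ^ 2 ≤ av fun x => f x ^ 2 := by
  have := expect_mul_sq_le_sq_mul_sq univ f (fun _ => 1)
  simpa [av] using this

end

/-- indicator of a proposition -/
noncomputable def ind (p : Prop) : ℝ := by classical exact if p then 1 else 0

theorem ind_pos {p : Prop} (h : p) : ind p = 1 := by simp [ind, h]
theorem ind_neg {p : Prop} (h : ¬ p) : ind p = 0 := by simp [ind, h]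
theorem ind_nonneg (p : Prop) : 0 ≤ ind p := by unfold ind; split_ifs <;> norm_num
theorem ind_le_one (p : Prop) : ind p ≤ 1 := by unfold ind; split_ifs <;> norm_num
theorem ind_mono {p q : Prop} (h : p → q) : ind p ≤ ind q := by
  by_cases hp : p
  · rw [ind_pos hp, ind_pos (h hp)]
  · rw [ind_neg hp]; exact ind_nonneg q
theorem ind_congr {p q : Prop} (h : p ↔ q) : ind p = ind q := by rw [propext h]
theorem ind_and (p q : Prop) : ind (p ∧ q) = ind p * ind q := by
  by_cases hp : p <;> by_cases hq : q <;> simp [ind, hp, hq]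
theorem ind_not (p : Prop) : ind (¬ p) = 1 - ind p := by
  by_cases hp : p <;> simp [ind, hp]
theorem ind_or_le (p q : Prop) : ind (p ∨ q) ≤ ind p + ind q := by
  by_cases hp : p <;> by_cases hq : q <;> simp [ind, hp, hq]
theorem ind_sq (p : Prop) : ind p ^ 2 = ind p := by
  by_cases hp : p <;> simp [ind, hp]
theorem sum_ind {α : Type} (s : Finset α) (p : α → Prop) [DecidablePred p] :
    ∑ x ∈ s, ind (p x) = ((s.filter p).card : ℝ) := by
  rw [card_filter]; push_cast
  exact sum_congr rfl fun x _ => by by_cases h : p x <;> simp [ind, h]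
theorem av_ind {α : Type} [Fintype α] (p : α → Prop) [DecidablePred p] :
    av (fun x => ind (p x)) = ((univ.filter p).card : ℝ) / Fintype.card α := by
  rw [av_eq, sum_ind]
theorem ind_exists_le {ι : Type} (s : Finset ι) (p : ι → Prop) :
    ind (∃ i ∈ s, p i) ≤ ∑ i ∈ s, ind (p i) := by
  by_cases h : ∃ i ∈ s, p i
  · rw [ind_pos h]
    obtain ⟨i, hi, hp⟩ := h
    rw [← ind_pos hp]
    exact single_le_sum (f := fun i => ind (p i)) (fun i _ => ind_nonneg _) hi
  · rw [ind_neg h]; exact sum_nonneg fun i _ => ind_nonneg _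

end Pool.Agent.Lib.MP_67c02a_lc
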