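import Pool.Agent.Lib.MP_67c02a_lc.Hyper
import Pool.Agent.Lib.Complexity.CookLevin

/-!
The hypergraph of a formula in conjunctive normal form.
-/

namespace Pool.Agent.Lib.MP_67c02a_lc

open Finset Function Pool.Agent.Lib.Complexity

/-- number of clauses violated by an assignment -/
def viol (φ : CNF) (α : ℕ → Bool) : ℕ := φ.countP fun c => decide (∀ l ∈ c, α l.1 ≠ l.2)

def Width (w : ℕ) (φ : CNF) : Prop := ∀ c ∈ φ, c.length = w

def Gap (ε : ℝ) (φ : CNF) : Prop := φ ≠ [] ∧ ∀ α, ε * φ.length ≤ viol φ α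

def lit (φ : CNF) (o : ℕ × ℕ) : ℕ × Bool := (φ.getD o.1 []).getD o.2 (0, false)

theorem forall_lit {w : ℕ} {φ : CNF} (h : Width w φ) {c : ℕ} (hc : c < φ.length)
    (P : ℕ × Bool → Prop) : (∀ l ∈ φ[c], P l) ↔ ∀ i < w, P (lit φ (c, i)) := by
  have hw := h _ (List.getElem_mem hc)
  simp only [lit, List.getD_eq_getElem _ _ hc, List.forall_mem_iff_forall_getElem, hw]
  exact forall_congr' fun i => ⟨fun h hi => by
    rw [List.getD_eq_getElem _ _ (hw ▸ hi)]; exact h hi, fun h hi => by
    have := h hi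
    rwa [List.getD_eq_getElem _ _ (hw ▸ hi)] at this⟩

theorem countP_eq_sum {β : Type} (l : List β) (p : β → Bool) (d : β) :
    (l.countP p : ℝ) = ∑ i ∈ range l.length, ind (p (l.getD i d) = true) := by
  induction l with
  | nil => simp
  | cons a l ih =>
    rw [List.countP_cons, List.length_cons, sum_range_succ']
    push_cast
    rw [ih]
    by_cases h : p a = true <;> simp [h, ind_pos, ind_neg]

theorem viol_eq {w : ℕ} {φ : CNF} (h : Width w φ) (α : ℕ → Bool) : (viol φ α : ℝ) =
    ∑ c ∈ range φ.length, ind (∀ i < w, α (lit φ (c, i)).1 ≠ (lit φ (c, i)).2) := by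
  rw [viol, countP_eq_sum _ _ []]
  refine sum_congr rfl fun c hc => ind_congr ?_
  rw [List.getD_eq_getElem _ _ (mem_range.1 hc), decide_eq_true_eq,
    forall_lit h (mem_range.1 hc) fun l => α l.1 ≠ l.2]

theorem sat_lit {w : ℕ} {φ : CNF} (h : Width w φ) {α : ℕ → Bool} (hs : φ.Sat α) {c : ℕ}
    (hc : c < φ.length) : ∃ i < w, α (lit φ (c, i)).1 = (lit φ (c, i)).2 := by
  by_contra hn
  push Not at hn
  obtain ⟨l, h1, h2⟩ := hs _ (List.getElem_mem hc)
  exact (forall_lit h hc fun l => α l.1 ≠ l.2).2 hn l h1 h2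

def vx (o : ℕ × ℕ) (b : Bool) : Vx := (2 * o.2 + b.toNat, o.1)

theorem vx_inj {o o' : ℕ × ℕ} {b b' : Bool} (h : 2 * o.2 + b.toNat = 2 * o'.2 + b'.toNat) :
    o.2 = o'.2 ∧ b = b' := by
  cases b <;> cases b' <;> simp at h ⊢ <;> omega

def clE (w : ℕ) (φ : CNF) (c : ℕ) : List Vx :=
  (List.range w).map fun i => vx (c, i) (lit φ (c, i)).2

def occs (w : ℕ) (φ : CNF) : List (ℕ × ℕ) := (List.range φ.length).product (List.range w)

def base (w : ℕ) (φ : CNF) : HG := (List.range φ.length).map (clE w φ) ++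
  (((occs w φ).product (occs w φ)).filter fun p => decide ((lit φ p.1).1 = (lit φ p.2).1)).map
    fun p => [vx p.1 false, vx p.2 true]

theorem mem_base {w : ℕ} {φ : CNF} {e : List Vx} : e ∈ base w φ ↔
    (∃ c < φ.length, e = clE w φ c) ∨ ∃ o ∈ range φ.length ×ˢ range w,
      ∃ o' ∈ range φ.length ×ˢ range w, (lit φ o).1 = (lit φ o').1 ∧
        e = [vx o false, vx o' true] := by
  simp only [base, occs, List.mem_append, List.mem_map, List.mem_range, List.mem_filter,
    decide_eq_true_eq, Prod.exists, List.pair_mem_product, mem_product, mem_range]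
  constructor
  · rintro (⟨c, h, rfl⟩ | ⟨a, b, c, d, ⟨⟨h1, h2⟩, h3⟩, rfl⟩)
    · exact Or.inl ⟨c, h, rfl⟩
    · exact Or.inr ⟨a, b, h1, c, d, h2, h3, rfl⟩
  · rintro (⟨c, h, rfl⟩ | ⟨a, b, h1, c, d, h2, h3, rfl⟩)
    · exact Or.inl ⟨c, h, rfl⟩
    · exact Or.inr ⟨a, b, c, d, ⟨⟨h1, h2⟩, h3⟩, rfl⟩

theorem base_wf (w : ℕ) (φ : CNF) : WF (2 * w) φ.length (base w φ) := fun e he => by
  have hb : ∀ b : Bool, b.toNat ≤ 1 := fun b => by cases b <;> simp
  rcases mem_base.1 he with ⟨c, h, rfl⟩ | ⟨o, h1, o', h2, -, rfl⟩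
  · refine ⟨?_, fun v hv => ?_⟩
    · rw [clE, List.map_map]
      exact List.nodup_range.map fun a b h => (vx_inj (o := (c, a)) (o' := (c, b)) h).1
    · obtain ⟨i, hi, rfl⟩ := List.mem_map.1 hv
      have := hb (lit φ (c, i)).2
      rw [List.mem_range] at hi
      exact ⟨by simp only [vx]; omega, h⟩
  · simp only [mem_product, mem_range] at h1 h2
    refine ⟨by simp [vx]; omega, fun v hv => ?_⟩
    simp only [List.mem_cons, List.not_mem_nil, or_false] at hv
    rcases hv with rfl | rfl <;> simp [vx] <;> omega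

theorem base_len (w : ℕ) (φ : CNF) : ∀ e ∈ base w φ, e.length ≤ w + 2 := fun e he => by
  rcases mem_base.1 he with ⟨c, -, rfl⟩ | ⟨o, -, o', -, -, rfl⟩ <;> simp [clE]

theorem base_cover {w : ℕ} {φ : CNF} (h : Width w φ) {α : ℕ → Bool} (hs : φ.Sat α) :
    ∃ C, IsCover (base w φ) C ∧ C.card ≤ φ.length * w := by
  refine ⟨(range φ.length ×ˢ range w).image fun o => vx o (α (lit φ o).1), fun e he => ?_,
    card_image_le.trans (by simp)⟩
  rcases mem_base.1 he with ⟨c, hc, rfl⟩ | ⟨o, h1, o', h2, h3, rfl⟩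
  · obtain ⟨i, hi, e⟩ := sat_lit h hs hc
    exact ⟨_, List.mem_map.2 ⟨i, List.mem_range.2 hi, rfl⟩,
      mem_image.2 ⟨(c, i), by simp [hc, hi], by rw [e]⟩⟩
  · cases e : α (lit φ o).1
    · exact ⟨vx o false, by simp, mem_image.2 ⟨o, h1, by rw [e]⟩⟩
    · exact ⟨vx o' true, by simp, mem_image.2 ⟨o', h2, by rw [← h3, e]⟩⟩

theorem base_robust {w : ℕ} {φ : CNF} {ε : ℝ} (hw : 0 < w) (h : Width w φ) (ε0 : 0 < ε)
    (ε1 : ε ≤ 1) (hg : Gap ε φ) : Robust (base w φ) ((1 + ε / (4 * w)) * (φ.length * w : ℕ))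
      (ε / (4 * w) * ε / (2 * (w + 1))) := by
  set O := range φ.length ×ˢ range w with hO
  set var : ℕ × ℕ → ℕ := fun o => (lit φ o).1 with hvar
  set d : ℕ → ℝ := fun x => ∑ o ∈ O with var o = x, 1 with hd
  set θ := ε / (4 * w) with hθ
  have w1 : (1 : ℝ) ≤ w := by exact_mod_cast hw
  have θ0 : 0 < θ := by positivity
  have θ1 : θ ≤ 1 := by rw [hθ, div_le_one (by positivity)]; linarith
  have θw : θ * w = ε / 4 := by rw [hθ]; field_simp
  have m0 : 0 < φ.length := List.length_pos_iff.2 hg.1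
  have cO : ∑ _o ∈ O, (1 : ℝ) = φ.length * w := by simp [hO]
  have fibre : ∀ f : ℕ × ℕ → ℝ, ∑ o ∈ O, f o = ∑ x ∈ O.image var, ∑ o ∈ O with var o = x, f o :=
    fun f => (sum_fiberwise_of_maps_to (fun o ho => mem_image_of_mem var ho) f).symm
  have d0 : ∀ x ∈ O.image var, 0 < d x := fun x hx => by
    obtain ⟨o, ho, rfl⟩ := mem_image.1 hx
    exact sum_pos (fun _ _ => one_pos) ⟨o, mem_filter.2 ⟨ho, rfl⟩⟩
  have pairs : ∀ f : (ℕ × ℕ) × ℕ × ℕ → ℝ, ∑ p ∈ O ×ˢ O with var p.1 = var p.2, f p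
      = ∑ x ∈ O.image var, ∑ o ∈ O with var o = x, ∑ o' ∈ O with var o' = x, f (o, o') := by
    intro f
    rw [sum_filter, sum_product, fibre]
    refine sum_congr rfl fun x _ => sum_congr rfl fun o ho => ?_
    rw [sum_filter]
    exact sum_congr rfl fun o' _ => by simp only [(mem_filter.1 ho).2, eq_comm]
  refine robust_of_weights (W := (w + 1) * φ.length)
    ((range φ.length).disjSum ((O ×ˢ O).filter fun p => var p.1 = var p.2))
    (Sum.elim (clE w φ) fun p => [vx p.1 false, vx p.2 true])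
    (Sum.elim (fun _ => 1) fun p => 1 / d (var p.1)) ⟨.inl 0, by simpa using m0⟩ ?_ ?_ ?_
    (by positivity) fun C hC => ?_
  · rintro (c | p) hi
    · exact mem_base.2 (Or.inl ⟨c, by simpa using hi, rfl⟩)
    · rw [inr_mem_disjSum, mem_filter, mem_product] at hi
      exact mem_base.2 (Or.inr ⟨p.1, hi.1.1, p.2, hi.1.2, hi.2, rfl⟩)
  · rintro (c | p) hi
    · exact one_pos
    · rw [inr_mem_disjSum, mem_filter, mem_product] at hi
      exact one_div_pos.2 (d0 _ (mem_image_of_mem var hi.1.1))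
  · rw [sum_disjSum, pairs]
    simp only [Sum.elim_inl, Sum.elim_inr]
    rw [sum_congr rfl (g := fun x => ∑ o ∈ O with var o = x, (1 : ℝ)) fun x hx =>
      sum_congr rfl fun o ho => ?_, ← fibre, cO]
    · simp only [sum_const, card_range, nsmul_eq_mul]; linarith
    · rw [(mem_filter.1 ho).2, ← sum_div]; exact div_self (d0 x hx).ne'
  · set n : Bool → ℕ → ℝ := fun b x => ∑ o ∈ O with var o = x, ind (vx o b ∉ C) with hn
    have n0 : ∀ b x, 0 ≤ n b x := fun b x => sum_nonneg fun _ _ => ind_nonneg _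
    set α : ℕ → Bool := fun x => decide (n true x ≤ n false x) with hα
    have nα : ∀ x, n (α x) x ≤ n (!α x) x ∧ n (α x) x + n (!α x) x = n false x + n true x ∧
        n (α x) x * n (!α x) x = n false x * n true x := fun x => by
      by_cases hx : n true x ≤ n false x
      · simp only [hα, hx, decide_true, Bool.not_true]; exact ⟨trivial, by ring, by ring⟩
      · simp only [hα, hx, decide_false, Bool.not_false]; exact ⟨(not_le.1 hx).le, trivial, trivial⟩
    have e1 : ∑ o ∈ O, (ind (vx o false ∈ C) + ind (vx o true ∈ C)) ≤ C.card := by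
      have : ∑ p ∈ O ×ˢ (univ : Finset Bool), ind (vx p.1 p.2 ∈ C) ≤ C.card := by
        rw [sum_ind]
        refine Nat.cast_le.2 (card_le_card_of_injOn (fun p => vx p.1 p.2)
          (fun p hp => (mem_filter.1 hp).2) fun p _ q _ hpq => ?_)
        have := vx_inj (congrArg Prod.fst hpq)
        exact Prod.ext (Prod.ext (congrArg Prod.snd hpq) this.1) this.2
      rw [sum_product] at this
      simpa [add_comm] using this
    have e2 : ∑ o ∈ O, (ind (vx o false ∈ C) + ind (vx o true ∈ C))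
        = 2 * (φ.length * w) - ∑ x ∈ O.image var, (n false x + n true x) := by
      simp only [hn, ← sum_add_distrib]
      rw [← fibre, ← cO, mul_sum, ← sum_sub_distrib]
      exact sum_congr rfl fun o _ => by simp only [ind_not]; ring
    have e3 : ∑ o ∈ O, ind (vx o (!α (var o)) ∈ C)
        = φ.length * w - ∑ x ∈ O.image var, n (!α x) x := by
      rw [← cO, fibre, fibre fun _ => 1, ← sum_sub_distrib]
      refine sum_congr rfl fun x _ => ?_
      rw [hn, ← sum_sub_distrib]
      exact sum_congr rfl fun o ho => by simp only [ind_not, (mem_filter.1 ho).2]; ring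
    have e4 : (viol φ α : ℝ) ≤ ∑ c ∈ range φ.length, ind (Unhit C (clE w φ c))
        + ∑ o ∈ O, ind (vx o (!α (var o)) ∈ C) := by
      rw [viol_eq h, hO, sum_product, ← sum_add_distrib]
      refine sum_le_sum fun c _ => (ind_mono fun hv => ?_).trans
        ((ind_or_le _ _).trans (add_le_add le_rfl (ind_exists_le _ _)))
      by_contra hn
      push Not at hn
      refine hn.1 fun v hv' => ?_
      obtain ⟨i, hi, rfl⟩ := List.mem_map.1 hv'
      have := hv i (List.mem_range.1 hi)
      rw [show (lit φ (c, i)).2 = !α (var (c, i)) from Bool.eq_not.2 this.symm]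
      exact hn.2 i (by simpa using hi)
    have e5 : ∑ x ∈ O.image var, n (α x) x ≤
        (∑ x ∈ O.image var, n false x * n true x / d x) / θ + θ * (φ.length * w) := by
      rw [← cO, fibre, mul_sum, sum_div, ← sum_add_distrib]
      refine sum_le_sum fun x hx => ?_
      have := d0 x hx
      change _ ≤ _ + θ * d x
      rw [← (nα x).2.2, div_div, ← sub_le_iff_le_add, le_div_iff₀ (by positivity)]
      nlinarith [mul_le_mul_of_nonneg_left (nα x).1 (n0 (α x) x), sq_nonneg (n (α x) x - θ * d x),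
        mul_nonneg (n0 (α x) x) (mul_pos θ0 this).le]
    have e6 : ∑ x ∈ O.image var, (n false x + n true x)
        = ∑ x ∈ O.image var, n (α x) x + ∑ x ∈ O.image var, n (!α x) x := by
      rw [← sum_add_distrib]; exact sum_congr rfl fun x _ => (nα x).2.1.symm
    rw [sum_disjSum, pairs]
    simp only [Sum.elim_inl, Sum.elim_inr, one_mul]
    rw [sum_congr (s₁ := O.image var) rfl (g := fun x => n false x * n true x / d x)
      fun x _ => ?_]
    · have e7 := hg.2 α
      have U0 : 0 ≤ ∑ c ∈ range φ.length, ind (Unhit C (clE w φ c)) :=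
        sum_nonneg fun _ _ => ind_nonneg _
      push_cast at hC
      generalize ∑ c ∈ range φ.length, ind (Unhit C (clE w φ c)) = U1 at *
      generalize ∑ x ∈ O.image var, n false x * n true x / d x = U2 at *
      have e8 : ε * φ.length / 2 ≤ U1 + U2 / θ := by
        have : θ * (φ.length * w) = ε * φ.length / 4 := by
          rw [mul_comm (φ.length : ℝ), ← mul_assoc, θw]; ring
        linarith
      have e9 : θ * ε / (2 * (w + 1)) * ((w + 1) * φ.length) = θ * (ε * φ.length / 2) := by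
        field_simp
      have e10 : θ * (U1 + U2 / θ) = θ * U1 + U2 := by field_simp
      nlinarith [mul_le_mul_of_nonneg_left e8 θ0.le]
    · rw [hn, sum_mul_sum, sum_div]
      refine sum_congr rfl fun o ho => ?_
      rw [sum_div]
      refine sum_congr rfl fun o' _ => ?_
      rw [(mem_filter.1 ho).2, ← ind_and, ind_congr (q := vx o false ∉ C ∧ vx o' true ∉ C)
        (by simp [Unhit])]
      ring

end Pool.Agent.Lib.MP_67c02a_lc
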