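import Pool.Agent.Lib.MP_67c02a_lc.Av

/-!
The long code test.
-/

namespace Pool.Agent.Lib.MP_67c02a_lc

open Finset Function

set_option maxHeartbeats 400000

theorem ind_le_two {p q r : Prop} (h : p → q ∨ r) : ind p ≤ ind q + ind r :=
  (ind_mono h).trans (ind_or_le _ _)

theorem ind_le_three {p q r s : Prop} (h : p → q ∨ r ∨ s) : ind p ≤ ind q + (ind r + ind s) :=
  (ind_le_two h).trans (add_le_add le_rfl (ind_or_le _ _))

theorem ind_le_four {p q r s t : Prop} (h : p → q ∨ r ∨ s ∨ t) :
    ind p ≤ ind q + (ind r + (ind s + ind t)) :=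
  (ind_le_two h).trans (add_le_add le_rfl (ind_le_three id))

theorem av_shift {G : Type} [Fintype G] [AddCommGroup G] (a : G) (F : G → ℝ) :
    av (fun g => F (g + a)) = av F := av_equiv (Equiv.addRight a) F

theorem exists_dictator {Z : Type} [Fintype Z] [DecidableEq Z] (A : (Z → ZMod 2) → ZMod 2)
    (r : Z → ZMod 2) (h1 : av (fun f => av fun g => ind (A f + A g ≠ A (f + g))) ≤ 1 / 40)
    (h2 : av (fun f => av fun g => av fun h => ind (A h + A (h + f * g) ≠ A f * A g)) ≤ 1 / 40)
    (h3 : av (fun f => ind (A f + A (f + r) ≠ 1)) ≤ 1 / 40) :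
    ∃ z, r z = 1 ∧ ∀ f, av (fun g => ind (A g + A (g + f) ≠ f z)) ≤ 1 / 20 := by
  have c1 : ∀ f, ∃ c, av (fun g => ind (A g + A (g + f) ≠ c)) ≤ 1 / 20 := fun f => by
    obtain ⟨g', hg⟩ := exists_le_av fun g' => av fun g => ind (A g + A (g + f) ≠ A g' + A (g' + f))
    refine ⟨_, hg.trans ((av_mono fun g' => av_mono
      (g := fun g => ind (A g + A (g' + f) ≠ A (g + (g' + f)))
        + ind (A g' + A (g + f) ≠ A (g' + (g + f)))) fun g => ind_le_two ?_).trans ?_)⟩
    · rw [add_left_comm g' g f]
      generalize A g = a, A (g + f) = b, A g' = c, A (g' + f) = d, A (g + (g' + f)) = e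
      revert a b c d e; decide
    · have e := fun g => av_shift f fun x => ind (A g + A x ≠ A (g + x))
      simp only [av_add]
      rw [av_comm]
      simp only [e]
      linarith
  choose Lin hL using c1
  have c2 : ∀ f f', Lin (f + f') = Lin f + Lin f' := fun f f' => by
    by_contra hn
    have : (1 : ℝ) ≤ av fun g => ind (A g + A (g + f) ≠ Lin f)
        + (ind (A (g + f) + A (g + f + f') ≠ Lin f') + ind (A g + A (g + (f + f')) ≠ Lin (f + f'))) :=
      le_av fun g => (ind_pos hn).symm.trans_le (ind_le_three (by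
        rw [← add_assoc g]
        generalize A g = a, A (g + f) = b, A (g + f + f') = c, Lin f = d, Lin f' = e,
          Lin (f + f') = x
        revert a b c d e x; decide))
    rw [av_add, av_add, av_shift f fun x => ind (A x + A (x + f') ≠ Lin f')] at this
    linarith [hL f, hL f', hL (f + f')]
  have c3 : av (fun f => ind (A f ≠ Lin f)) ≤ 3 / 40 := by
    refine (av_mono (g := fun f => av (fun g => ind (A f + A g ≠ A (f + g))) + 1 / 20)
      fun f => ?_).trans (by rw [av_add, av_const]; linarith)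
    refine le_trans (le_av (f := fun g => ind (A f + A g ≠ A (f + g)) + ind (A g + A (g + f) ≠ Lin f))
      fun g => ind_le_two ?_) (by rw [av_add]; linarith [hL f])
    rw [add_comm g f]
    generalize A g = a, A (f + g) = b, A f = c, Lin f = d
    revert a b c d; decide
  have c4 : av (fun f => av fun g => ind (Lin (f * g) ≠ Lin f * Lin g)) ≤ 9 / 40 := by
    refine (av_mono fun f => av_mono (g := fun g => av (fun h => ind (A h + A (h + f * g) ≠ A f * A g))
      + (1 / 20 + (ind (A f ≠ Lin f) + ind (A g ≠ Lin g)))) fun g => ?_).trans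
      (by simp only [av_add, av_const]; linarith)
    refine le_trans (le_av (f := fun h => ind (A h + A (h + f * g) ≠ A f * A g)
      + (ind (A h + A (h + f * g) ≠ Lin (f * g)) + (ind (A f ≠ Lin f) + ind (A g ≠ Lin g))))
      fun h => ind_le_four ?_) (by simp only [av_add, av_const]; linarith [hL (f * g)])
    intro hn
    by_contra hc
    push Not at hc
    exact hn (by rw [← hc.2.1, hc.1, hc.2.2.1, hc.2.2.2])
  have c5 : ∀ f g, Lin (f * g) = Lin f * Lin g := fun f0 g0 => by
    by_contra hn
    have : (1 : ℝ) ≤ av fun f => av fun g => ind (Lin (f * g) ≠ Lin f * Lin g)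
        + (ind (Lin ((f + f0) * g) ≠ Lin (f + f0) * Lin g)
        + (ind (Lin (f * (g + g0)) ≠ Lin f * Lin (g + g0))
        + ind (Lin ((f + f0) * (g + g0)) ≠ Lin (f + f0) * Lin (g + g0)))) :=
      le_av fun f => le_av fun g => (ind_pos hn).symm.trans_le (ind_le_four fun hn => by
        by_contra hc
        push Not at hc
        simp only [add_mul, mul_add, c2] at hc
        exact hn (by linear_combination hc.2.2.2 - hc.2.2.1 - hc.2.1 + hc.1))
    have e := fun f => av_shift g0 fun x => ind (Lin (f * x) ≠ Lin f * Lin x)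
    simp only [av_add, e] at this
    rw [av_shift f0 fun x => av fun g => ind (Lin (x * g) ≠ Lin x * Lin g)] at this
    linarith
  have c6 : Lin r = 1 := by
    by_contra hn
    have : (1 : ℝ) ≤ av fun f => ind (A f + A (f + r) ≠ 1) + ind (A f + A (f + r) ≠ Lin r) :=
      le_av fun f => (ind_pos hn).symm.trans_le (ind_le_two fun hn => by
        by_contra hc
        push Not at hc
        exact hn (hc.2.symm.trans hc.1))
    rw [av_add] at this
    linarith [hL r]
  have two : ∀ a : ZMod 2, a = 0 ∨ a = 1 := by decide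
  set φ := AddMonoidHom.mk' Lin c2 with hφ
  have c7 : ∑ z, Lin (Pi.single z (r z)) = 1 := by
    have := (map_sum φ (fun z => Pi.single z (r z)) univ).symm
    rw [univ_sum_single] at this
    exact this.trans c6
  have c0 : Lin 0 = 0 := map_zero φ
  obtain ⟨z, -, hz⟩ := exists_ne_zero_of_sum_ne_zero (c7.trans_ne one_ne_zero)
  have r1 : r z = 1 := (two _).resolve_left fun h => hz (by rw [h, Pi.single_zero, c0])
  have z1 : Lin (Pi.single z 1) = 1 := (two _).resolve_left (r1 ▸ hz)
  refine ⟨z, r1, fun f => ?_⟩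
  have : Lin f = f z := by
    rw [← mul_one (Lin f), ← z1, ← c5, ← Pi.single_mul_right, mul_one]
    rcases two (f z) with h | h <;> rw [h]
    · rw [Pi.single_zero, c0]
    · exact z1
  exact this ▸ hL f

theorem decode_eq {L : Type} [Fintype L] [DecidableEq L] (B : (L → ZMod 2) → ZMod 2) {s s' : L}
    (hs : av (fun k => ind (B k ≠ k s)) ≤ av fun k => ind (B k ≠ k s'))
    (h : av (fun k => ind (B k ≠ k s')) < 1 / 4) : s = s' := by
  by_contra hn
  have h1 := av_shift (Pi.single s 1 : L → ZMod 2) fun k => ind (k s ≠ k s')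
  have h2 : ∀ k : L → ZMod 2, ind ((k + Pi.single s 1 : L → ZMod 2) s ≠ (k + Pi.single s 1 :
      L → ZMod 2) s') = 1 - ind (k s ≠ k s') := fun k => by
    rw [← ind_not]
    refine ind_congr ?_
    simp only [Pi.add_apply, Pi.single_eq_same, Pi.single_eq_of_ne (Ne.symm hn), add_zero]
    generalize k s = a, k s' = b
    revert a b; decide
  rw [av_congr h2, av_sub, av_const] at h1
  have h3 : av (fun k : L → ZMod 2 => ind (k s ≠ k s')) ≤
      av fun k => ind (B k ≠ k s) + ind (B k ≠ k s') :=
    av_mono fun k => ind_le_two fun hn => by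
      by_contra hc
      push Not at hc
      exact hn (hc.1.symm.trans hc.2)
  rw [av_add] at h3
  linarith

theorem exists_decode {L : Type} [Fintype L] [DecidableEq L] [Nonempty L]
    (B : (L → ZMod 2) → ZMod 2) :
    ∃ s : L, ∀ s', av (fun k => ind (B k ≠ k s)) ≤ av fun k => ind (B k ≠ k s') := by
  obtain ⟨s, -, h⟩ := exists_min_image univ (fun s : L => av fun k => ind (B k ≠ k s)) univ_nonempty
  exact ⟨s, fun s' => h s' (mem_univ _)⟩

theorem long_code {L : Type} [Fintype L] [DecidableEq L] (A : (L × L → ZMod 2) → ZMod 2)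
    (B B' : (L → ZMod 2) → ZMod 2) (r : L × L → ZMod 2) {s s' : L}
    (hs : ∀ u, av (fun k => ind (B k ≠ k s)) ≤ av fun k => ind (B k ≠ k u))
    (hs' : ∀ u, av (fun k => ind (B' k ≠ k s')) ≤ av fun k => ind (B' k ≠ k u))
    (h1 : av (fun f => av fun g => ind (A f + A g ≠ A (f + g))) ≤ 1 / 40)
    (h2 : av (fun f => av fun g => av fun h => ind (A h + A (h + f * g) ≠ A f * A g)) ≤ 1 / 40)
    (h3 : av (fun f => ind (A f + A (f + r) ≠ 1)) ≤ 1 / 40)
    (h4 : av (fun f => av fun k => ind (A f + A (f + fun z => k z.1) ≠ B k)) ≤ 1 / 40)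
    (h5 : av (fun f => av fun k => ind (A f + A (f + fun z => k z.2) ≠ B' k)) ≤ 1 / 40) :
    r (s, s') = 1 := by
  obtain ⟨z, hz, h⟩ := exists_dictator A r h1 h2 h3
  have key : ∀ (π : L × L → L) (B : (L → ZMod 2) → ZMod 2),
      av (fun f => av fun k => ind (A f + A (f + fun z => k (π z)) ≠ B k)) ≤ 1 / 40 →
      av (fun k => ind (B k ≠ k (π z))) < 1 / 4 := fun π B hB => by
    rw [av_comm] at hB
    refine (av_mono (g := fun k => av (fun f => ind (A f + A (f + fun z => k (π z)) ≠ B k))
      + 1 / 20) fun k => ?_).trans_lt (by rw [av_add, av_const]; linarith)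
    refine le_trans (le_av (f := fun f => ind (A f + A (f + fun z => k (π z)) ≠ B k)
      + ind (A f + A (f + fun z => k (π z)) ≠ k (π z))) fun f => ind_le_two fun hn => ?_)
      (by rw [av_add]; linarith [h fun z => k (π z)])
    by_contra hc
    push Not at hc
    exact hn (hc.1.symm.trans hc.2)
  rw [decode_eq B (hs z.1) (key Prod.fst B h4), decode_eq B' (hs' z.2) (key Prod.snd B' h5), hz]

end Pool.Agent.Lib.MP_67c02a_lc
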