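import Pool.Agent.Lib.MP_67c02a_lc.Cond

/-!
On a large set of label vectors, a short side information cannot bias many labels.
-/

namespace Pool.Agent.Lib.MP_67c02a_lc

open Finset Function

set_option maxHeartbeats 400000

theorem av_log_le {Ω : Type} [Fintype Ω] [Nonempty Ω] {V : Ω → ℝ} (h : ∀ ω, 0 < V ω) {c : ℝ}
    (c0 : 0 < c) (hc : av V ≤ c) : av (fun ω => Real.log (V ω)) ≤ Real.log c := by
  have : ∀ ω, Real.log (V ω) ≤ V ω / c - 1 + Real.log c := fun ω => by
    have := Real.log_le_sub_one_of_pos (div_pos (h ω) c0)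
    rw [Real.log_div (h ω).ne' c0.ne'] at this
    linarith
  refine (av_mono this).trans ?_
  rw [av_add, av_sub, av_div, av_const, av_const]
  have := (div_le_one c0).2 hc
  linarith

theorem ind_eq_sum {Q : Type} [Fintype Q] (A : Q → Prop) (b : Q) :
    ind (A b) = ∑ a, ind (A a) * ind (b = a) := by
  rw [sum_eq_single b (fun a _ h => by rw [ind_neg h.symm, mul_zero]) (by simp), ind_pos rfl,
    mul_one]

theorem budget {Ω Λ Q : Type} [Fintype Ω] [Nonempty Ω] [Fintype Λ] [DecidableEq Λ] [Fintype Q]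
    [Nonempty Q] (X : Ω → Λ → Q × Bool) (hinj : Injective fun ω l => (X ω l).1) {μ x k : ℝ}
    (μ0 : 0 < μ) (hμ : μ * (Fintype.card Q : ℝ) ^ Fintype.card Λ ≤ Fintype.card Ω) (x0 : 0 < x)
    (x1 : x ≤ 1) (hk : ∀ ω, ∑ l, ind ((X ω l).2 = true) ≤ k) {key : Λ → ℕ} (hkey : Injective key)
    (S : Λ → Λ → Prop) (hS : ∀ l l', S l l' → key l' < key l) :
    ∑ l, av (fun ω => av fun a => ind (cE X (S l) (fun ω' => ind ((X ω' l).1 = a)) ω <
      1 / (2 * Fintype.card Q))) ≤
      7 * (Real.log (1 / μ) + x * Fintype.card Λ + k * Real.log (1 / x)) := by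
  classical
  obtain ⟨A, hA⟩ : ∃ A : (Λ → Q × Bool) → Λ → Q → Prop, ∀ y l a, A y l a =
    (cP X (S l) y (fun ω' => ind ((X ω' l).1 = a)) < 1 / (2 * Fintype.card Q)) := ⟨_, fun _ _ _ => rfl⟩
  have hAc : ∀ l y y', Agree (S l) y y' → A y l = A y' l := fun l y y' h => by
    funext a; rw [hA, hA, cP_congr X h]
  obtain ⟨m, hm⟩ : ∃ m : (Q → Prop) → ℝ, ∀ B, m B = av fun a => ind (B a) := ⟨_, fun _ => rfl⟩
  have m0 : ∀ B, 0 ≤ m B := fun B => hm B ▸ av_nonneg fun _ => ind_nonneg _
  have m1 : ∀ B, m B ≤ 1 := fun B => hm B ▸ av_le fun _ => ind_le_one _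
  obtain ⟨G, hG⟩ : ∃ G : (Q → Prop) → Q → ℝ, ∀ B a, G B a = (1 - ind (B a) / 2) / (1 - m B / 2) :=
    ⟨_, fun _ _ => rfl⟩
  have G0 : ∀ B a, 0 < G B a := fun B a => by
    rw [hG]; exact div_pos (by linarith [ind_le_one (B a)]) (by linarith [m1 B])
  have G1 : ∀ B, av (G B) = 1 := fun B => by
    rw [funext (hG B), av_div, av_sub, av_div, av_const, ← hm, div_self (by linarith [m1 B])]
  have G2 : ∀ B a, m B / 2 - Real.log 2 * ind (B a) ≤ Real.log (G B a) := fun B a => by
    have h1 : (0 : ℝ) < 1 - m B / 2 := by linarith [m1 B]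
    have h2 := Real.log_le_sub_one_of_pos h1
    have h3 : Real.log (1 - ind (B a) / 2) = - (Real.log 2 * ind (B a)) := by
      by_cases h : B a
      · rw [ind_pos h, mul_one, ← Real.log_inv]; norm_num
      · simp [ind_neg h]
    rw [hG, Real.log_div (by linarith [ind_le_one (B a)]) h1.ne', h3]
    linarith
  have P1 : ∀ z : Λ → Bool, av (fun y : Λ → Q => ∏ l, G (A (fun l => (y l, z l)) l) (y l)) = 1 :=
    fun z => by
    have := mart_prod (X := fun y : Λ → Q => y) (key := key) key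
      (F := fun l y => G (A (fun l => (y l, z l)) l) (y l)) univ hkey.injOn (fun l _ =>
        ⟨fun y y' h => ?_, fun g hg => ?_⟩) (fun _ _ => Nat.zero_le _) (Meas.const _ (1 : ℝ))
    · simpa using this
    · dsimp only at h ⊢
      rw [h l (by omega), hAc l _ (fun l => (y' l, z l)) fun l' hl' => by
        have := hS l l' hl'
        rw [h l' (by omega)]]
    · rw [av_upd l]
      refine av_congr fun y => ?_
      have e : ∀ a, g (update y l a) * G (A (fun l' => (update y l a l', z l')) l) (update y l a l)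
          = g y * G (A (fun l => (y l, z l)) l) a := fun a => by
        rw [update_self, hg (update y l a) y fun l' hl' => update_of_ne (by rintro rfl; omega) _ _,
          hAc l _ (fun l => (y l, z l)) fun l' hl' => by
            rw [update_of_ne (by rintro rfl; exact lt_irrefl _ (hS _ _ hl'))]]
      simp only [e, av_mul_left, G1, mul_one]
  obtain ⟨V, hV⟩ : ∃ V : (Λ → Bool) × (Λ → Q) → ℝ, ∀ p, V p =
    (∏ l, G (A (fun l => (p.2 l, p.1 l)) l) (p.2 l)) * ∏ l, bif p.1 l then x else 1 :=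
    ⟨_, fun _ => rfl⟩
  have b0 : ∀ b : Bool, 0 < bif b then x else 1 := fun b => by cases b <;> simp [x0]
  have V0 : ∀ p, 0 < V p := fun p => by
    rw [hV]; exact mul_pos (prod_pos fun _ _ => G0 _ _) (prod_pos fun _ _ => b0 _)
  have q0 : (0 : ℝ) < Fintype.card Q := by exact_mod_cast Fintype.card_pos
  have P2 : av (fun ω => V (fun l => (X ω l).2, fun l => (X ω l).1)) ≤
      Real.exp (x * Fintype.card Λ) / μ := by
    have h1 : ∑ ω, V (fun l => (X ω l).2, fun l => (X ω l).1) ≤ ∑ p, V p := by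
      rw [← sum_image (s := univ) (g := fun ω => ((fun l => (X ω l).2), fun l => (X ω l).1))
        fun ω _ ω' _ h => hinj (congrArg Prod.snd h)]
      exact sum_le_sum_of_subset_of_nonneg (subset_univ _) fun p _ _ => (V0 p).le
    have h2 : ∑ p, V p = (Fintype.card Q : ℝ) ^ Fintype.card Λ * (x + 1) ^ Fintype.card Λ := by
      have h3 : ∀ z : Λ → Bool, ∑ y : Λ → Q, ∏ l, G (A (fun l => (y l, z l)) l) (y l) =
          (Fintype.card Q : ℝ) ^ Fintype.card Λ := fun z => by
        have := P1 z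
        rwa [av_eq, div_eq_one_iff_eq (by positivity), Fintype.card_fun, Nat.cast_pow] at this
      simp only [Fintype.sum_prod_type, hV, ← sum_mul, h3, ← mul_sum]
      rw [← Fintype.piFinset_univ, ← prod_univ_sum (fun _ => univ) fun (_ : Λ) b => bif b then x else 1]
      simp
    have h4 : (x + 1) ^ Fintype.card Λ ≤ Real.exp (x * Fintype.card Λ) := by
      rw [mul_comm, Real.exp_nat_mul]
      exact pow_le_pow_left₀ (by linarith) (Real.add_one_le_exp x) _
    rw [av_eq, div_le_div_iff₀ (by exact_mod_cast Fintype.card_pos) μ0]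
    calc _ ≤ (Fintype.card Q : ℝ) ^ Fintype.card Λ * Real.exp (x * Fintype.card Λ) * μ := by
          rw [h2] at h1; gcongr; exact h1.trans (by gcongr)
      _ = Real.exp (x * Fintype.card Λ) * (μ * (Fintype.card Q : ℝ) ^ Fintype.card Λ) := by ring
      _ ≤ _ := by gcongr
  have P3 := av_log_le (fun ω => V0 _) (by positivity) P2
  rw [Real.log_div (by positivity) μ0.ne', Real.log_exp] at P3
  have lx : 0 ≤ Real.log (1 / x) := Real.log_nonneg ((one_le_div x0).2 x1)
  have P4 : ∀ ω, ∑ l, (m (A (X ω) l) / 2 - Real.log 2 * ind (A (X ω) l (X ω l).1)) -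
      k * Real.log (1 / x) ≤ Real.log (V (fun l => (X ω l).2, fun l => (X ω l).1)) := fun ω => by
    rw [hV, Real.log_mul (prod_pos fun _ _ => G0 _ _).ne' (prod_pos fun _ _ => b0 _).ne',
      Real.log_prod fun _ _ => (G0 _ _).ne', Real.log_prod fun _ _ => (b0 _).ne', sub_eq_add_neg]
    refine add_le_add (sum_le_sum fun l _ => G2 _ _) ?_
    refine (neg_le_neg (mul_le_mul_of_nonneg_right (hk ω) lx)).trans ?_
    rw [sum_mul, ← sum_neg_distrib]
    refine sum_le_sum fun l _ => ?_
    dsimp only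
    cases (X ω l).2 <;> simp [ind]
  have P5 : ∀ l, av (fun ω => ind (A (X ω) l (X ω l).1)) ≤ av (fun ω => m (A (X ω) l)) / 2 :=
    fun l => by
    simp only [fun ω => ind_eq_sum (A (X ω) l) (X ω l).1, hm, av_sum]
    rw [av_comm, av_eq, div_div, sum_div]
    refine sum_le_sum fun a _ => ?_
    rw [← av_cE (X := X) (S := S l) (g := fun ω => ind (A (X ω) l a))
      (fun ω ω' h => by dsimp only; rw [hAc l _ _ h]), ← av_div]
    refine av_mono fun ω => ?_
    by_cases h : A (X ω) l a
    · rw [ind_pos h, one_mul, mul_comm]; rw [hA] at h; exact h.le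
    · simp [ind_neg h]
  have P6 := (av_mono P4).trans P3
  rw [av_sub, av_const, av_sum] at P6
  simp only [av_sub, av_div, av_mul_left] at P6
  have P7 : ∑ l, av (fun ω => m (A (X ω) l)) / 7 ≤ ∑ l, (av (fun ω => m (A (X ω) l)) / 2 -
      Real.log 2 * av fun ω => ind (A (X ω) l (X ω l).1)) := sum_le_sum fun l _ => by
    have h1 := P5 l
    have h2 : 0 ≤ av fun ω => m (A (X ω) l) := av_nonneg fun _ => m0 _
    have h3 : 0 ≤ av fun ω => ind (A (X ω) l (X ω l).1) := av_nonneg fun _ => ind_nonneg _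
    nlinarith [Real.log_two_lt_d9]
  rw [← sum_div] at P7
  simp only [hm, hA] at P7 P6
  rw [one_div μ, Real.log_inv]
  unfold cE
  linarith

end Pool.Agent.Lib.MP_67c02a_lc
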