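import Pool.Agent.Lib.MP_67c02a_lc.Cond

/-!
Random classes of lines.
-/

namespace Pool.Agent.Lib.MP_67c02a_lc

open Finset Function

set_option maxHeartbeats 400000

theorem av_ind_eq {Q : Type} [Fintype Q] (c : Q) : av (fun a => ind (a = c)) = 1 / Fintype.card Q := by
  classical
  rw [av_ind, filter_eq' univ c, if_pos (mem_univ _), card_singleton, Nat.cast_one]

theorem av_ref {Λ σ : Type} [Fintype Λ] [DecidableEq Λ] [DecidableEq σ] {K : ℕ} [NeZero K]
    (s : Finset σ) (lin r : σ → Λ) (hi : Set.InjOn lin s) (hr : ∀ x ∈ s, ∀ y ∈ s, r x ≠ lin y) :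
    av (fun κ : Λ → Fin K => ind (∀ x ∈ s, κ (lin x) = κ (r x))) = (1 / K) ^ s.card := by
  induction s using Finset.induction_on with
  | empty => simp [ind]
  | insert a s ha ih =>
    rw [av_upd (lin a), card_insert_of_notMem ha, pow_succ, ← ih (hi.mono (by simp))
      fun x hx y hy => hr x (mem_insert_of_mem hx) y (mem_insert_of_mem hy), ← av_mul_right]
    refine av_congr fun κ => ?_
    have e : ∀ j, (∀ x ∈ insert a s, update κ (lin a) j (lin x) = update κ (lin a) j (r x)) ↔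
        (∀ x ∈ s, κ (lin x) = κ (r x)) ∧ j = κ (r a) := fun j => by
      rw [forall_mem_insert, update_self, update_of_ne (hr a (by simp) a (by simp)), and_comm]
      refine and_congr_left fun _ => forall₂_congr fun x hx => ?_
      rw [update_of_ne (hr x (by simp [hx]) a (by simp)), update_of_ne fun h : lin x = lin a =>
        ha (hi (by simp [hx]) (by simp) h ▸ hx)]
    simp only [e, ind_and, av_mul_left, av_ind_eq, Fintype.card_fin]

section
variable {ι W P : Type} (φ : ι → P → W)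

/-- all lines through `p` lie in one class -/
def Mono (κ : ι × W → ℕ) (p : P) : Prop := ∀ i j, κ (i, φ i p) = κ (j, φ j p)

variable [Fintype ι] [DecidableEq ι] [Fintype W] [DecidableEq W] {K : ℕ} [NeZero K]

theorem mono_iff (κ : ι × W → Fin K) (p : P) (j : ι) : Mono φ (fun l => κ l) p ↔
    ∀ i ∈ univ.erase j, κ (i, φ i p) = κ (j, φ j p) := by
  refine ⟨fun h i _ => Fin.ext (h i j), fun h => ?_⟩
  have : ∀ i, κ (i, φ i p) = κ (j, φ j p) := fun i => by
    by_cases e : i = j
    · rw [e]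
    · exact h i (by simp [e])
  exact fun i i' => by dsimp only; rw [this i, this i']

theorem av_mono_pt (p : P) (j : ι) : av (fun κ : ι × W → Fin K => ind (Mono φ (fun l => κ l) p)) =
    (1 / K) ^ (Fintype.card ι - 1) := by
  simp only [mono_iff φ _ p j]
  rw [av_ref (univ.erase j) (fun i => (i, φ i p)) (fun _ => (j, φ j p))
    (fun i _ i' _ h => congrArg Prod.fst h)
    fun _ _ i hi h => ne_of_mem_erase hi (congrArg Prod.fst h).symm, card_erase_of_mem (mem_univ _),
    card_univ]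

theorem av_mono_pair (j : ι) {p p' : P} (h : ∀ i ≠ j, φ i p ≠ φ i p') :
    av (fun κ : ι × W → Fin K => ind (Mono φ (fun l => κ l) p) * ind (Mono φ (fun l => κ l) p')) =
      (1 / K) ^ (Fintype.card ι - 1) * (1 / K) ^ (Fintype.card ι - 1) := by
  have e := av_ref (K := K) ((univ.erase j).disjSum (univ.erase j))
    (Sum.elim (fun i => (i, φ i p)) fun i => (i, φ i p'))
    (Sum.elim (fun _ => (j, φ j p)) fun _ => (j, φ j p')) ?_ ?_
  · rw [card_disjSum, card_erase_of_mem (mem_univ j), card_univ, pow_add] at e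
    rw [← e]
    refine av_congr fun κ => ?_
    rw [← ind_and, mono_iff φ κ p j, mono_iff φ κ p' j]
    exact ind_congr (by simp only [Sum.forall, inl_mem_disjSum, inr_mem_disjSum, Sum.elim_inl,
      Sum.elim_inr])
  · rintro (i | i) hi (i' | i') hi' e <;> simp only [Sum.elim_inl, Sum.elim_inr, Prod.mk.injEq,
      mem_coe, inl_mem_disjSum, inr_mem_disjSum, mem_erase] at e hi hi'
    · rw [e.1]
    · obtain ⟨rfl, e⟩ := e; exact absurd e (h i hi.1)
    · obtain ⟨rfl, e⟩ := e; exact absurd e.symm (h i hi.1)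
    · rw [e.1]
  · rintro (i | i) - (i' | i') hi' e <;> simp only [Sum.elim_inl, Sum.elim_inr, Prod.mk.injEq,
      inl_mem_disjSum, inr_mem_disjSum, mem_erase] at e hi' <;> exact hi'.1 e.1.symm

theorem av_dev [DecidableEq P] (j : ι) (s : Finset P)
    (h : ∀ p ∈ s, ∀ p' ∈ s, p ≠ p' → ∀ i ≠ j, φ i p ≠ φ i p') :
    av (fun κ : ι × W → Fin K => (∑ p ∈ s, (ind (Mono φ (fun l => κ l) p) -
      (1 / K) ^ (Fintype.card ι - 1))) ^ 2) ≤ s.card := by
  have K1 : (1 : ℝ) ≤ K := by exact_mod_cast NeZero.pos K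
  have p0 : (0 : ℝ) ≤ (1 / K) ^ (Fintype.card ι - 1) := by positivity
  have p1 : ((1 : ℝ) / K) ^ (Fintype.card ι - 1) ≤ 1 :=
    pow_le_one₀ (by positivity) ((div_le_one (by linarith)).2 K1)
  have h1 := fun p => av_mono_pt (K := K) φ p j
  have h2 := fun p hp p' hp' hne => av_mono_pair (K := K) φ j (h p hp p' hp' hne)
  generalize ((1 : ℝ) / K) ^ (Fintype.card ι - 1) = ψ at *
  refine (av_sq_sum s (fun p (κ : ι × W → Fin K) => ind (Mono φ (fun l => κ l) p) - ψ)
    (B := 1) (fun p hp p' hp' hne => ?_) fun p _ => ?_).trans_eq (mul_one _)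
  · simp only [mul_sub, sub_mul, av_sub, h2 p hp p' hp' hne, av_mul_left, av_mul_right, h1,
      av_const]
    ring
  · refine av_le fun κ => ?_
    have := ind_nonneg (Mono φ (fun l => (κ l : ℕ)) p)
    have := ind_le_one (Mono φ (fun l => (κ l : ℕ)) p)
    nlinarith

end

theorem av_incr {Λ : Type} [Fintype Λ] [DecidableEq Λ] {K : ℕ} [NeZero K] (l : Λ)
    (e : (Λ → Prop) → ℝ) (e0 : ∀ S, 0 ≤ e S) (e1 : ∀ S, e S ≤ 1) :
    av (fun κ : Λ → Fin K => e (fun l' => l' ≠ l ∧ (κ l' : ℕ) < κ l + 1) -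
      e fun l' => l' ≠ l ∧ (κ l' : ℕ) < κ l) ≤ 1 / K := by
  rw [av_upd l]
  refine av_le fun κ => ?_
  have h : ∀ (j : Fin K) (n : ℕ), (fun l' => l' ≠ l ∧ (update κ l j l' : ℕ) < n) =
      fun l' => l' ≠ l ∧ (κ l' : ℕ) < n := fun j n => by
    funext l'
    exact propext (and_congr_right fun h => by rw [update_of_ne h])
  simp only [h, update_self]
  rw [av_eq, Fintype.card_fin, Fin.sum_univ_eq_sum_range (fun j => e (fun l' => l' ≠ l ∧
    (κ l' : ℕ) < j + 1) - e fun l' => l' ≠ l ∧ (κ l' : ℕ) < j),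
    sum_range_sub fun j => e fun l' => l' ≠ l ∧ (κ l' : ℕ) < j]
  exact div_le_div_of_nonneg_right ((sub_le_self _ (e0 _)).trans (e1 _)) (Nat.cast_nonneg _)

end Pool.Agent.Lib.MP_67c02a_lc
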