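import Pool.Agent.Lib.MP_67c02a_lc.Par

/-!
Short lists of labels cannot agree on most pairs of clause tuples.
-/

namespace Pool.Agent.Lib.MP_67c02a_lc

open Finset Function

set_option maxHeartbeats 400000

variable {M : Type} [Fintype M] [Nonempty M] (var : M × Fin 4 → ℕ) (val : M → (Fin 4 → Bool) → Prop)

noncomputable def gMu (u u' : M) : ℝ := 1 / (2 * Fintype.card M ^ 2) +
  (∑ o, ∑ i, ∑ i', ind (var (u, i) = var o) * ind (var (u', i') = var o) / gCnt var o ^ 2) /
    (8 * Fintype.card M)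

theorem gMu_symm (u u' : M) : gMu var u u' = gMu var u' u := by
  unfold gMu
  congr 2
  refine sum_congr rfl fun o _ => ?_
  rw [sum_comm]
  simp only [mul_comm]

theorem gMu_nonneg (u u' : M) : 0 ≤ gMu var u u' :=
  add_nonneg (by positivity) (div_nonneg (sum_nonneg fun _ _ => sum_nonneg fun _ _ =>
    sum_nonneg fun _ _ => div_nonneg (mul_nonneg (ind_nonneg _) (ind_nonneg _)) (sq_nonneg _))
      (by positivity))

theorem gMu_sum (u : M) : ∑ u', gMu var u u' = 1 / Fintype.card M := by
  have m0 : (0 : ℝ) < Fintype.card M := by exact_mod_cast Fintype.card_pos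
  have : ∑ u', ∑ o, ∑ i, ∑ i', ind (var (u, i) = var o) * ind (var (u', i') = var o) /
      gCnt var o ^ 2 = ∑ _i : Fin 4, (1 : ℝ) := by
    rw [sum_comm, sum_congr rfl fun o _ => sum_comm, sum_comm]
    refine sum_congr rfl fun i _ => ?_
    have e : ∀ o, ∑ u', ∑ i', ind (var (u, i) = var o) * ind (var (u', i') = var o) /
        gCnt var o ^ 2 = ind (var o = var (u, i)) / gCnt var (u, i) := fun o => by
      rw [← Fintype.sum_prod_type fun o' : M × Fin 4 => ind (var (u, i) = var o) *
        ind (var o' = var o) / gCnt var o ^ 2, ← sum_div, ← mul_sum, ← gCnt]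
      by_cases h : var o = var (u, i)
      · have : gCnt var o = gCnt var (u, i) := by simp only [gCnt, h]
        rw [ind_pos h, ind_pos h.symm, this]
        field_simp [(gCnt_pos var (u, i)).ne']
      · rw [ind_neg h, ind_neg fun e => h e.symm]; simp
    rw [sum_congr rfl fun o _ => e o, ← sum_div]
    exact div_self (gCnt_pos var (u, i)).ne'
  unfold gMu
  rw [sum_add_distrib, ← sum_div, ← sum_div, this]
  simp only [sum_const, card_univ, Fintype.card_fin, nsmul_eq_mul]
  field_simp; norm_num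

theorem gMu_eq {u u' : M} {b b' : Fin 4 → Bool} (h : val u b) (h' : val u' b')
    (e : ∀ i i', var (u, i) = var (u', i') → b i = b' i') :
    ∑ v, gW v * (gA var val v (u, b) * gA var val v (u', b')) = gMu var u u' := by
  rw [Fintype.sum_option, Fintype.sum_prod_type, gMu, sum_div]
  simp only [gW, gA, Option.elim, ind_pos h, ind_pos h', one_mul]
  congr 1
  · field_simp
  refine sum_congr rfl fun o _ => ?_
  have k : ∑ c : Bool, (∑ i, ind (var (u, i) = var o) * ind (b i = c)) *
      (∑ i', ind (var (u', i') = var o) * ind (b' i' = c)) =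
      ∑ i, ∑ i', ind (var (u, i) = var o) * ind (var (u', i') = var o) := by
    simp only [sum_mul_sum]
    rw [sum_comm]
    refine sum_congr rfl fun i _ => ?_
    rw [sum_comm]
    refine sum_congr rfl fun i' _ => ?_
    by_cases h1 : var (u, i) = var o
    · by_cases h2 : var (u', i') = var o
      · rw [e i i' (h1.trans h2.symm), ind_pos h1, ind_pos h2]
        cases b' i' <;> simp [ind]
      · simp [ind_neg h2]
    · simp [ind_neg h1]
  simp only [← sum_div]
  rw [← k, ← mul_sum]
  simp only [div_mul_div_comm, ← sum_div]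
  ring

theorem collision {ε : ℝ} (ε0 : 0 < ε) (ε1 : ε ≤ 1)
    (hg : ∀ α : ℕ → Bool, ε ≤ av fun u => ind (¬ val u fun i => α (var (u, i)))) (r : ℕ)
    (J : (Fin r → M) → Finset (Fin r → Fin 4 → Bool)) {L : ℝ} (hL : ∀ u, ((J u).card : ℝ) ≤ L)
    (good : (Fin r → M) → Prop) (h : ∀ u u', good u → good u' → ∃ b ∈ J u, ∃ b' ∈ J u',
      (∀ j, val (u j) (b j)) ∧ (∀ j, val (u' j) (b' j)) ∧
        ∀ j i i', var (u j, i) = var (u' j, i') → b j i = b' j i') :
    1 - 2 * av (fun u => ind (¬ good u)) ≤ (1 - ε ^ 2 / 80) ^ r * L ^ 2 := by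
  classical
  have m0 : (0 : ℝ) < Fintype.card M := by exact_mod_cast Fintype.card_pos
  have c0 : 0 ≤ 1 - ε ^ 2 / 80 := by nlinarith
  have h1 := dom_pow gW_nonneg (gA_nonneg var val) (fun _ => div_nonneg zero_le_one m0.le)
    (fun _ _ => mul_nonneg (ind_nonneg _) (ind_nonneg _)) c0 (base_dom var val ε0 ε1 hg) r
    (fun y => ind ((fun j => (y j).2) ∈ J fun j => (y j).1)) fun _ => ind_nonneg _
  have sp : ∀ F : (Fin r → M × (Fin 4 → Bool)) → ℝ, ∑ y, F y =
      ∑ u : Fin r → M, ∑ b : Fin r → Fin 4 → Bool, F fun j => (u j, b j) := fun F => by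
    rw [← (Equiv.arrowProdEquivProdArrow _ _ _).symm.sum_comp, Fintype.sum_prod_type]; rfl
  have s1 : ∑ _u : Fin r → M, (1 / Fintype.card M : ℝ) ^ r = 1 := by
    simp only [sum_const, card_univ, Fintype.card_fun, Fintype.card_fin, nsmul_eq_mul, Nat.cast_pow,
      ← mul_pow]
    rw [mul_one_div_cancel m0.ne', one_pow]
  refine le_trans ?_ (h1.trans (mul_le_mul_of_nonneg_left ?_ (pow_nonneg c0 r)))
  · have s2 : ∀ u : Fin r → M, ∑ u' : Fin r → M, ∏ j, gMu var (u j) (u' j) =
        (1 / Fintype.card M) ^ r := fun u => by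
      rw [← Fintype.piFinset_univ, ← prod_univ_sum (fun _ => univ) fun j x => gMu var (u j) x]
      simp [gMu_sum]
    have s3 : ∑ u : Fin r → M, ∑ u' : Fin r → M, ind (¬ good u) * ∏ j, gMu var (u j) (u' j) =
        av fun u => ind (¬ good u) := by
      simp only [← mul_sum, s2, ← sum_mul, av_eq, Fintype.card_fun, Fintype.card_fin, Nat.cast_pow]
      rw [one_div, inv_pow, div_eq_mul_inv]
    have s4 : ∑ u : Fin r → M, ∑ u' : Fin r → M, ind (¬ good u') * ∏ j, gMu var (u j) (u' j) =
        av fun u => ind (¬ good u) := by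
      rw [sum_comm, ← s3]; simp only [gMu_symm var]
    have s5 : 1 - 2 * av (fun u => ind (¬ good u)) = ∑ u : Fin r → M, ∑ u' : Fin r → M,
        (1 - ind (¬ good u) - ind (¬ good u')) * ∏ j, gMu var (u j) (u' j) := by
      simp only [sub_mul, sum_sub_distrib, s3, s4, one_mul, s2, s1]; ring
    rw [s5, Qf_expand]
    simp only [sp]
    refine sum_le_sum fun u _ => ?_
    rw [sum_comm]
    refine sum_le_sum fun u' _ => ?_
    have k0 : ∀ b b' : Fin r → Fin 4 → Bool, 0 ≤ (∏ j, ∑ v, gW v * (gA var val v (u j, b j) *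
        gA var val v (u' j, b' j))) * (ind (b ∈ J u) * ind (b' ∈ J u')) := fun b b' =>
      mul_nonneg (prod_nonneg fun _ _ => sum_nonneg fun _ _ => mul_nonneg (gW_nonneg _)
        (mul_nonneg (gA_nonneg _ _ _ _) (gA_nonneg _ _ _ _))) (mul_nonneg (ind_nonneg _) (ind_nonneg _))
    have p0 : 0 ≤ ∏ j, gMu var (u j) (u' j) := prod_nonneg fun _ _ => gMu_nonneg _ _ _
    by_cases hu : good u ∧ good u'
    · obtain ⟨b, hb, b', hb', e1, e2, e3⟩ := h u u' hu.1 hu.2
      refine le_trans ?_ ((single_le_sum (fun b' _ => k0 b b') (mem_univ b')).trans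
        (single_le_sum (fun b _ => sum_nonneg fun b' _ => k0 b b') (mem_univ b)))
      simp only [ind_pos hb, ind_pos hb', ind_neg (not_not.2 hu.1), ind_neg (not_not.2 hu.2),
        fun j => gMu_eq var val (e1 j) (e2 j) (e3 j), sub_zero, one_mul, mul_one, le_refl]
    · refine le_trans (mul_nonpos_of_nonpos_of_nonneg ?_ p0)
        (sum_nonneg fun b _ => sum_nonneg fun b' _ => k0 b b')
      rcases not_and_or.1 hu with e | e <;> rw [ind_pos e] <;>
        linarith [ind_nonneg (¬ good u), ind_nonneg (¬ good u')]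
  · refine le_trans (sum_le_sum (g := fun _ => (1 / Fintype.card M : ℝ) ^ r * L ^ 2) fun u _ => ?_)
      (by rw [← sum_mul, s1, one_mul])
    simp only [rpW, prod_const, card_univ, Fintype.card_fin]
    refine mul_le_mul_of_nonneg_left (pow_le_pow_left₀ (sum_nonneg fun _ _ => mul_nonneg
      (prod_nonneg fun _ _ => mul_nonneg (ind_nonneg _) (ind_nonneg _)) (ind_nonneg _)) ?_ 2)
      (by positivity)
    rw [sp, sum_eq_single u (fun u' _ hne => sum_eq_zero fun b _ => ?_) (by simp)]
    · refine le_trans (sum_le_sum fun b _ => mul_le_of_le_one_left (ind_nonneg _) (prod_le_one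
        (fun _ _ => mul_nonneg (ind_nonneg _) (ind_nonneg _)) fun _ _ =>
          mul_le_one₀ (ind_le_one _) (ind_nonneg _) (ind_le_one _))) ?_
      rw [sum_ind]
      refine le_trans (Nat.cast_le.2 (card_le_card fun b hb => ?_)) (hL u)
      exact (mem_filter.1 hb).2
    · obtain ⟨j, hj⟩ := Function.ne_iff.1 hne
      refine mul_eq_zero_of_left (prod_eq_zero (mem_univ j) ?_) _
      exact mul_eq_zero_of_right _ (ind_neg hj)

end Pool.Agent.Lib.MP_67c02a_lc
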