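import Pool.Agent.Lib.MP_67c02a_lc.Av

/-!
Conditional averages on a finite space, products of martingale factors.
-/

namespace Pool.Agent.Lib.MP_67c02a_lc

open Finset Function

set_option maxHeartbeats 400000

theorem av_upd {Λ Q : Type} [Fintype Λ] [DecidableEq Λ] [Fintype Q] [Nonempty Q] (l : Λ)
    (F : (Λ → Q) → ℝ) : av F = av fun x => av fun a => F (update x l a) := by
  have e : Involutive fun p : (Λ → Q) × Q => (update p.1 l p.2, p.1 l) := fun p => by simp
  have h := av_equiv (e.toPerm _) fun p : (Λ → Q) × Q => F p.1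
  rw [av_prod, av_prod] at h
  simpa using h.symm

theorem le_add_sq (y : ℝ) {η : ℝ} (h : 0 < η) : y ≤ η + y ^ 2 / (4 * η) := by
  have : 0 ≤ (y - 2 * η) ^ 2 / (4 * η) := by positivity
  have e : (y - 2 * η) ^ 2 / (4 * η) = η + y ^ 2 / (4 * η) - y := by field_simp; ring
  linarith

theorem av_sq_sum {Ω P : Type} [Fintype Ω] [DecidableEq P] (s : Finset P) (Y : P → Ω → ℝ) {B : ℝ}
    (h1 : ∀ p ∈ s, ∀ p' ∈ s, p ≠ p' → av (fun ω => Y p ω * Y p' ω) = 0)
    (h2 : ∀ p ∈ s, av (fun ω => Y p ω ^ 2) ≤ B) :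
    av (fun ω => (∑ p ∈ s, Y p ω) ^ 2) ≤ s.card * B := by
  simp only [sq, sum_mul_sum, av_sum] at h2 ⊢
  rw [← nsmul_eq_mul]
  refine sum_le_card_nsmul _ _ _ fun p hp => ?_
  rw [sum_eq_single_of_mem p hp fun p' hp' h => h1 p hp p' hp' h.symm]
  exact h2 p hp

section
variable {Ω Λ Y : Type} (X : Ω → Λ → Y)

def Agree (S : Λ → Prop) (x y : Λ → Y) : Prop := ∀ l, S l → x l = y l

/-- `g` depends only on the coordinates in `S` -/
def Meas {β : Type} (S : Λ → Prop) (g : Ω → β) : Prop :=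
  ∀ ω ω', Agree S (X ω) (X ω') → g ω = g ω'

variable {X}

theorem Meas.mono {β : Type} {S S' : Λ → Prop} {g : Ω → β} (h : Meas X S g) (e : ∀ l, S l → S' l) :
    Meas X S' g := fun ω ω' a => h ω ω' fun l hl => a l (e l hl)

theorem Meas.const {β : Type} (S : Λ → Prop) (c : β) : Meas X S fun _ => c := fun _ _ _ => rfl

theorem Meas.map {β γ : Type} {S : Λ → Prop} {g : Ω → β} (h : Meas X S g) (F : β → γ) :
    Meas X S fun ω => F (g ω) := fun ω ω' a => congrArg F (h ω ω' a)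

theorem Meas.map₂ {β γ δ : Type} {S : Λ → Prop} {g : Ω → β} {g' : Ω → γ} (h : Meas X S g)
    (h' : Meas X S g') (F : β → γ → δ) : Meas X S fun ω => F (g ω) (g' ω) := fun ω ω' a =>
  congrArg₂ F (h ω ω' a) (h' ω ω' a)

theorem Meas.mul {S : Λ → Prop} {g g' : Ω → ℝ} (h : Meas X S g) (h' : Meas X S g') :
    Meas X S fun ω => g ω * g' ω := h.map₂ h' (· * ·)

theorem Meas.prod {σ : Type} {S : Λ → Prop} {s : Finset σ} {F : σ → Ω → ℝ}
    (h : ∀ x ∈ s, Meas X S (F x)) : Meas X S fun ω => ∏ x ∈ s, F x ω := fun ω ω' a =>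
  prod_congr rfl fun x hx => h x hx ω ω' a

variable [Fintype Ω] (X)

noncomputable def cP (S : Λ → Prop) (x : Λ → Y) (f : Ω → ℝ) : ℝ :=
  (∑ ω, ind (Agree S (X ω) x) * f ω) / ∑ ω, ind (Agree S (X ω) x)

noncomputable def cE (S : Λ → Prop) (f : Ω → ℝ) (ω : Ω) : ℝ := cP X S (X ω) f

theorem cP_congr {S : Λ → Prop} {x x' : Λ → Y} (h : Agree S x x') (f : Ω → ℝ) :
    cP X S x f = cP X S x' f := by
  have : ∀ ω, Agree S (X ω) x ↔ Agree S (X ω) x' := fun ω =>
    forall₂_congr fun l hl => by rw [h l hl]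
  simp only [cP, this]

theorem meas_cE (S : Λ → Prop) (f : Ω → ℝ) : Meas X S (cE X S f) := fun _ _ a => cP_congr X a f

theorem fib_pos (S : Λ → Prop) (ω : Ω) : 0 < ∑ ω', ind (Agree S (X ω') (X ω)) :=
  lt_of_lt_of_le (by rw [ind_pos (p := Agree S (X ω) (X ω)) fun _ _ => rfl]; exact one_pos)
    (single_le_sum (f := fun ω' => ind (Agree S (X ω') (X ω))) (fun _ _ => ind_nonneg _)
      (mem_univ ω))

theorem cE_congr {S : Λ → Prop} {f f' : Ω → ℝ} {ω : Ω}
    (h : ∀ ω', Agree S (X ω') (X ω) → f ω' = f' ω') : cE X S f ω = cE X S f' ω := by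
  unfold cE cP
  congr 1
  refine sum_congr rfl fun ω' _ => ?_
  by_cases a : Agree S (X ω') (X ω)
  · rw [h ω' a]
  · rw [ind_neg a, zero_mul, zero_mul]

theorem cE_nonneg (S : Λ → Prop) {f : Ω → ℝ} (h : ∀ ω, 0 ≤ f ω) (ω : Ω) : 0 ≤ cE X S f ω :=
  div_nonneg (sum_nonneg fun _ _ => mul_nonneg (ind_nonneg _) (h _)) (fib_pos X S ω).le

theorem cE_le_one (S : Λ → Prop) {f : Ω → ℝ} (h : ∀ ω, f ω ≤ 1) (ω : Ω) : cE X S f ω ≤ 1 :=
  (div_le_one (fib_pos X S ω)).2 (sum_le_sum fun _ _ => mul_le_of_le_one_right (ind_nonneg _) (h _))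

theorem cE_add (S : Λ → Prop) (f f' : Ω → ℝ) (ω : Ω) :
    cE X S (fun ω => f ω + f' ω) ω = cE X S f ω + cE X S f' ω := by
  simp only [cE, cP, mul_add, sum_add_distrib, add_div]

variable {X}

theorem av_cE {S : Λ → Prop} {g : Ω → ℝ} (hg : Meas X S g) (f : Ω → ℝ) :
    av (fun ω => g ω * cE X S f ω) = av fun ω => g ω * f ω := by
  rw [av_eq, av_eq]
  congr 1
  simp only [cE, cP, sum_div, mul_sum]
  rw [sum_comm]
  refine sum_congr rfl fun ω' _ => ?_
  have : ∀ ω, g ω * (ind (Agree S (X ω') (X ω)) * f ω' / ∑ ω'', ind (Agree S (X ω'') (X ω))) =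
      ind (Agree S (X ω) (X ω')) * (g ω' * f ω' / ∑ ω'', ind (Agree S (X ω'') (X ω'))) := fun ω => by
    by_cases a : Agree S (X ω') (X ω)
    · have a' : Agree S (X ω) (X ω') := fun l hl => (a l hl).symm
      have : ∀ ω'', Agree S (X ω'') (X ω) ↔ Agree S (X ω'') (X ω') := fun ω'' =>
        forall₂_congr fun l hl => by rw [a l hl]
      rw [ind_pos a, ind_pos a', hg ω ω' a']
      simp only [this]; ring
    · rw [ind_neg a, ind_neg fun a' => a fun l hl => (a' l hl).symm]; simp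
  simp only [this, ← sum_mul]
  field_simp [(fib_pos X S ω').ne']

theorem av_cE_one (S : Λ → Prop) (f : Ω → ℝ) : av (cE X S f) = av f := by
  simpa using av_cE (Meas.const (X := X) S 1) f

theorem energy_sub {S S' : Λ → Prop} (e : ∀ l, S l → S' l) (f : Ω → ℝ) :
    av (fun ω => (cE X S' f ω - cE X S f ω) ^ 2) =
      av (fun ω => cE X S' f ω ^ 2) - av fun ω => cE X S f ω ^ 2 := by
  have h1 := av_cE ((meas_cE X S f).mono e) f
  have h2 := av_cE (meas_cE X S f) f
  have : ∀ ω, (cE X S' f ω - cE X S f ω) ^ 2 = cE X S' f ω ^ 2 - 2 * (cE X S f ω * cE X S' f ω) +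
      cE X S f ω * cE X S f ω := fun ω => by ring
  simp only [this, av_add, av_sub, av_mul_left, h1, h2, sq]
  ring

theorem energy_mono {S S' : Λ → Prop} (e : ∀ l, S l → S' l) (f : Ω → ℝ) :
    av (fun ω => cE X S f ω ^ 2) ≤ av fun ω => cE X S' f ω ^ 2 := by
  have := energy_sub (X := X) e f
  linarith [av_nonneg fun ω => sq_nonneg (cE X S' f ω - cE X S f ω)]

theorem energy_le (S : Λ → Prop) {f : Ω → ℝ} (h0 : ∀ ω, 0 ≤ f ω) (h1 : ∀ ω, f ω ≤ 1) :
    av (fun ω => cE X S f ω ^ 2) ≤ av f := by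
  simp only [sq, av_cE (meas_cE X S f) f]
  exact av_mono fun ω => mul_le_of_le_one_left (h0 ω) (cE_le_one X S h1 ω)

variable (X) in
/-- a factor of conditional mean one revealed at time `n` -/
def Mart (key : Λ → ℕ) (n : ℕ) (F : Ω → ℝ) : Prop :=
  Meas X (fun l => key l < n + 1) F ∧
    ∀ g, Meas X (fun l => key l < n) g → av (fun ω => g ω * F ω) = av g

theorem mart_prod {σ : Type} [DecidableEq σ] {key : Λ → ℕ} (κ : σ → ℕ) {F : σ → Ω → ℝ}
    (s : Finset σ) (hi : Set.InjOn κ s) (h : ∀ x ∈ s, Mart X key (κ x) (F x)) {n : ℕ}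
    (hn : ∀ x ∈ s, n ≤ κ x) {g : Ω → ℝ} (hg : Meas X (fun l => key l < n) g) :
    av (fun ω => g ω * ∏ x ∈ s, F x ω) = av g := by
  induction s using Finset.induction_on_max_value κ with
  | empty => simp
  | insert a s ha hm ih =>
    simp only [prod_insert ha, mul_comm (F a _), ← mul_assoc]
    rw [(h a (mem_insert_self _ _)).2 _ ((hg.mono fun l hl => hl.trans_le
      (hn a (mem_insert_self _ _))).mul (Meas.prod fun x hx =>
        (h x (mem_insert_of_mem hx)).1.mono fun l hl => ?_))]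
    · exact ih (hi.mono (by simp)) (fun x hx => h x (mem_insert_of_mem hx))
        fun x hx => hn x (mem_insert_of_mem hx)
    · have : κ x ≠ κ a := fun e => ha (hi (mem_insert_of_mem hx) (mem_insert_self _ _) e ▸ hx)
      have := hm x hx
      omega

open Classical in
variable (X) in
/-- likelihood ratio of the event `e`, switched on by `c` and by a lower bound `θ` -/
noncomputable def fac (S : Λ → Prop) (θ : ℝ) (c e : Ω → Prop) (ω : Ω) : ℝ :=
  if c ω ∧ θ ≤ cE X S (fun ω => ind (e ω)) ω then ind (e ω) / cE X S (fun ω => ind (e ω)) ω else 1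

theorem fac_nonneg (S : Λ → Prop) (θ : ℝ) (c e : Ω → Prop) (ω : Ω) : 0 ≤ fac X S θ c e ω := by
  unfold fac
  split_ifs
  · exact div_nonneg (ind_nonneg _) (cE_nonneg X S (fun _ => ind_nonneg _) ω)
  · exact zero_le_one

theorem fac_le (S : Λ → Prop) {θ : ℝ} (h0 : 0 < θ) (h1 : θ ≤ 1) (c e : Ω → Prop) (ω : Ω) :
    fac X S θ c e ω ≤ 1 / θ := by
  unfold fac
  split_ifs with h
  · exact div_le_div₀ zero_le_one (ind_le_one _) h0 h.2
  · exact (one_le_div h0).2 h1

theorem mart_fac {key : Λ → ℕ} {n : ℕ} {θ : ℝ} (h0 : 0 < θ) {c e : Ω → Prop}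
    (hc : Meas X (fun l => key l < n) c) (he : Meas X (fun l => key l < n + 1) e) :
    Mart X key n (fac X (fun l => key l < n) θ c e) := by
  have h1 := meas_cE X (fun l => key l < n) fun ω => ind (e ω)
  refine ⟨fun ω ω' a => ?_, fun g hg => ?_⟩
  · have a' : Agree (fun l => key l < n) (X ω) (X ω') := fun l hl => a l (by omega)
    have e1 := hc ω ω' a'
    have e2 := he ω ω' a
    have e3 := h1 ω ω' a'
    classical
    unfold fac
    rw [e2, e3]
    by_cases h : c ω' ∧ θ ≤ cE X (fun l => key l < n) (fun ω => ind (e ω)) ω'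
    · rw [if_pos h, if_pos (e1 ▸ h)]
    · rw [if_neg h, if_neg (e1 ▸ h)]
  · set ν := cE X (fun l => key l < n) fun ω => ind (e ω) with hν
    have h2 := av_cE ((hg.mul ((hc.map₂ h1 fun c v => c ∧ θ ≤ v).map ind)).map₂ h1 (· / ·))
      fun ω => ind (e ω)
    rw [← sub_eq_zero, ← av_sub, ← hν] at h2
    rw [← sub_eq_zero, ← av_sub, ← neg_eq_zero, ← av_neg, ← h2]
    refine av_congr fun ω => ?_
    unfold fac
    rw [← hν]
    split_ifs with h
    · rw [ind_pos h]
      field_simp [(h0.trans_le h.2).ne']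
      ring
    · rw [ind_neg h]; simp

end

end Pool.Agent.Lib.MP_67c02a_lc
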