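import Mathlib

namespace Pool.Agent.Lib.MP_67c02a_lc

/-- The line cover number: the least `k` such that `k` lines `a x + b y = c` of the real plane,
with `(a, b) ≠ (0, 0)`, contain all points of `S`. -/
noncomputable def LC (S : List (ℚ × ℚ)) : ℕ :=
  sInf {k | ∃ a b c : Fin k → ℝ, (∀ i, a i ≠ 0 ∨ b i ≠ 0) ∧
    ∀ P ∈ S, ∃ i, a i * P.1 + b i * P.2 = c i}

/-- `L` is a list of lines `a x + b y = c`, with `(a, b) ≠ (0, 0)`, whose union contains `S`. -/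
def Covers (L : List (ℚ × ℚ × ℚ)) (S : List (ℚ × ℚ)) : Prop :=
  (∀ l ∈ L, l.1 ≠ 0 ∨ l.2.1 ≠ 0) ∧ ∀ P ∈ S, ∃ l ∈ L, l.1 * P.1 + l.2.1 * P.2 = l.2.2

end Pool.Agent.Lib.MP_67c02a_lc
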