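import Pool.Prelude.Def_H_3587d628
import Pool.Agent.Lib.MP_67c02a_lc.Defs

namespace Pool.Agent.Lib.MP_67c02a_lc

/-- Randomised time `T`, up to a polynomial: the definition of `BPP` with `T |x|` random bits in
place of polynomially many. The running time is polynomial in `|x| + T |x|`. -/
def BPT (T : ℕ → ℕ) : N68a2faeb.DecisionComplexityClass :=
  {L | ∃ R : List Bool × List Bool → Bool, N68a2faeb.IsPolyTime R ∧
    ∀ x, (2 : ℚ) / 3 ≤ ((Finset.univ.filter fun r : Fin (T x.length) → Bool =>
      R (x, List.ofFn r) = L x).card : ℚ) / 2 ^ T x.length}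

end Pool.Agent.Lib.MP_67c02a_lc
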