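import Pool.Agent.Lib.MP_67c02a_lc.Alg2
import Pool.Agent.Lib.MP_67c02a_lc.Defs2

/-!
Choice of the parameters: the trade off between ratio and randomised time.
-/

namespace Pool.Agent.Lib.MP_67c02a_lc

open Finset Function Pool.Agent.Lib.Complexity N68a2faeb

set_option maxHeartbeats 400000

def szB (n : ℕ) : ℕ := n.bits.length
def qL (T : ℕ) : ℕ := szB T - 1
def qR (c T : ℕ) : ℕ := c * szB (qL T)
def qB (c T m : ℕ) : ℕ := qR c T * (szB m + 14)
def qG (c T m : ℕ) : ℕ := qL T / (4800 * qR c T * qB c T m)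
def qS (c T m : ℕ) : ℕ := 48 * qR c T * qG c T m
def qP (c T : ℕ) : ℕ := nextP (cpw T 16 (qR c T))
def qN (c T m : ℕ) : ℕ := cpw T 2 (3 * qB c T m * (qS c T m + qS c T m) * 16)

def qPts (c : ℕ) (φ : CNF) (w : Str) : List (ℤ × ℤ) :=
  ptsW φ (qR c w.length) (cpw w.length φ.length (qR c w.length)) (cpw w.length 16 (qR c w.length))
    (qP c w.length) (qP c w.length / qG c w.length φ.length)
    (qS c w.length φ.length + qS c w.length φ.length) (qN c w.length φ.length)
    (szB ((qS c w.length φ.length + qS c w.length φ.length) ^ 2 *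
      (qP c w.length * qP c w.length * cpw w.length φ.length (qR c w.length)))) w

def qK (c T m : ℕ) : ℕ := qN c T m / (2 ^ 17 * szB (qL T))

section
variable {α : Type} [Enc α] {T m : α → ℕ} (c : ℕ)

theorem pt_szB (h : PT T) : PT fun x => szB (T x) := PT.length (PTB.of_unary h)
theorem pt_qL (h : PT T) : PT fun x => qL (T x) := (pt_szB h).sub (PT.const _)
theorem pt_qR (h : PT T) : PT fun x => qR c (T x) := (PT.const _).mul (pt_szB (pt_qL h))
theorem pt_qB (h : PT T) (h' : PT m) : PT fun x => qB c (T x) (m x) :=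
  (pt_qR c h).mul ((pt_szB h').add (PT.const _))
theorem pt_qG (h : PT T) (h' : PT m) : PT fun x => qG c (T x) (m x) :=
  (pt_qL h).div (((PT.const _).mul (pt_qR c h)).mul (pt_qB c h h'))
theorem pt_qS (h : PT T) (h' : PT m) : PT fun x => qS c (T x) (m x) :=
  ((PT.const _).mul (pt_qR c h)).mul (pt_qG c h h')
theorem pt_qP (h : PT T) : PT fun x => qP c (T x) :=
  pt_nextP.comp (pt_cpw h (PT.const _) (pt_qR c h))
theorem pt_qN (h : PT T) (h' : PT m) : PT fun x => qN c (T x) (m x) :=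
  pt_cpw h (PT.const _) ((((PT.const _).mul (pt_qB c h h')).mul
    ((pt_qS c h h').add (pt_qS c h h'))).mul (PT.const _))
theorem pt_qK (h : PT T) (h' : PT m) : PT fun x => qK c (T x) (m x) :=
  (pt_qN c h h').div ((PT.const _).mul (pt_szB (pt_qL h)))
theorem pt_qPts {φ : α → CNF} {w : α → Str} (h : PT φ) (h' : PT w) :
    PT fun x => qPts c (φ x) (w x) := by
  have h1 := h.length
  have h2 := h'.length
  have h3 := pt_qR c h2
  have h4 := (pt_qS c h2 h1).add (pt_qS c h2 h1)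
  have h5 := pt_qP c h2
  have h6 := pt_cpw h2 h1 h3
  exact pt_ptsW h h3 h6 (pt_cpw h2 (PT.const _) h3) h5 (h5.div (pt_qG c h2 h1)) h4 (pt_qN c h2 h1)
    (pt_szB ((h4.pow_const 2).mul ((h5.mul h5).mul h6))) h'

end

theorem szB_eq (n : ℕ) : szB n = n.size := Nat.size_eq_bits_len n

theorem nextP_le (n : ℕ) : nextP n ≤ 2 * n + 2 := by
  unfold nextP
  generalize hl : List.filter _ _ = l
  cases l with
  | nil => simp
  | cons a l =>
    have : a ∈ List.range (2 * n + 3) := List.mem_of_mem_filter (hl ▸ List.mem_cons_self)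
    simp at this ⊢; omega

theorem div_aux {P g : ℕ} (g0 : 0 < g) (h : g ≤ P) : P ≤ P / g * (2 * g) := by
  have := Nat.lt_mul_div_succ P g0
  have := Nat.mul_le_mul_left g (Nat.div_pos h g0)
  linarith

theorem eps_aux {y z : ℝ} {c l : ℕ} (y0 : 0 < y) (hc : y ^ c ≤ 1 / 2 ^ 16) (l0 : 0 < l)
    (h : 1 / (2 * 2 ^ l) ≤ z) : y ^ (c * l) * 2048 < z ^ 2 := by
  refine lt_of_lt_of_le ?_ (pow_le_pow_left₀ (by positivity) h 2)
  have h3 := pow_le_pow_left₀ (pow_nonneg y0.le _) hc l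
  have h4 : (2 : ℝ) ^ 14 ≤ (2 ^ 14) ^ l := le_self_pow₀ (by norm_num) l0.ne'
  rw [pow_mul]
  refine (mul_le_mul_of_nonneg_right h3 (by norm_num)).trans_lt ?_
  rw [show (2 : ℝ) ^ 16 = 2 ^ 14 * (2 * 2) by norm_num, div_pow, div_pow, one_pow, one_pow, mul_pow,
    mul_pow, div_mul_eq_mul_div, div_lt_div_iff₀ (by positivity) (by positivity)]
  have : (0 : ℝ) < 2 ^ l * 2 ^ l := by positivity
  nlinarith

theorem qPts_spec {ε : ℝ} (ε0 : 0 < ε) (ε1 : ε ≤ 1) {c T : ℕ} (c0 : 0 < c)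
    (hc : (1 - ε ^ 2 / 80) ^ c ≤ 1 / 2 ^ 16) {φ : CNF} (hw : Width 4 φ)
    (g0 : 0 < qG c T φ.length) :
    (∀ w : Fin T → Bool, (toQ (qPts c φ (List.ofFn w))).length ≤ T ^ 2) ∧
    ((∃ α, φ.Sat α) → av (fun w : Fin T → Bool => ind (20 * (qN c T φ.length / qG c T φ.length : ℝ) <
      LC (toQ (qPts c φ (List.ofFn w))))) ≤ 1 / 10) ∧
    (Gap ε φ → av (fun w : Fin T → Bool => ind (LC (toQ (qPts c φ (List.ofFn w))) ≤
      qK c T φ.length)) ≤ 1 / 10) := by
  have y0 : 0 < 1 - ε ^ 2 / 80 := by nlinarith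
  simp only [qPts, qK, qN, qP, List.length_ofFn, szB_eq]
  obtain ⟨l, hl⟩ : ∃ l, l = (qL T).size := ⟨_, rfl⟩
  have hr : qR c T = c * l := by rw [qR, szB_eq, hl]
  have hB : qB c T φ.length = qR c T * (φ.length.size + 14) := by rw [qB, szB_eq]
  have hs : qS c T φ.length = 48 * qR c T * qG c T φ.length := rfl
  have hg : qG c T φ.length * (4800 * qR c T * qB c T φ.length) ≤ qL T := Nat.div_mul_le_self _ _
  have d0 : 0 < 4800 * qR c T * qB c T φ.length := Nat.pos_of_ne_zero fun h => by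
    rw [qG, h, Nat.div_zero] at g0; omega
  have hL : qL T = T.size - 1 := by rw [qL, szB_eq]
  rw [← hl]
  generalize qR c T = r at *
  generalize qB c T φ.length = B at *
  generalize qS c T φ.length = s at *
  generalize qG c T φ.length = g at *
  generalize qL T = L at *
  have r0 : 0 < r := Nat.pos_of_ne_zero fun h => by simp [h] at d0
  have l0 : 0 < l := Nat.pos_of_ne_zero fun h => by simp [h] at hr; omega
  have lr : l ≤ r := hr ▸ Nat.le_mul_of_pos_left _ c0
  have B1 : 14 * r ≤ B := by rw [hB, mul_add]; omega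
  have s0 : 0 < s := by rw [hs]; positivity
  have a1 : 50 * (B * (s + s)) ≤ L := by rw [hs]; linarith
  have a2 : B ≤ B * (s + s) := Nat.le_mul_of_pos_right _ (by omega)
  have a3 : s + s ≤ B * (s + s) := Nat.le_mul_of_pos_left _ (by omega)
  have a4 : 2 ^ L ≤ T := Nat.lt_size.1 (by omega)
  have a5 : L < 2 ^ l := hl ▸ Nat.lt_size_self L
  have pw : ∀ {a b : ℕ}, a ≤ b → 2 ^ a ≤ 2 ^ b := Nat.pow_le_pow_right (by norm_num)
  have a6 : φ.length ^ r ≤ 2 ^ (φ.length.size * r) := by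
    rw [pow_mul]; exact Nat.pow_le_pow_left (Nat.lt_size_self _).le _
  have a7 : 16 ^ r = 2 ^ (4 * r) := by rw [pow_mul]; norm_num
  have e1 : cpw T φ.length r = φ.length ^ r :=
    min_eq_left (a6.trans ((pw (by rw [mul_add, mul_comm] at hB; omega)).trans a4))
  have e2 : cpw T 16 r = 16 ^ r := min_eq_left (a7 ▸ (pw (by omega)).trans a4)
  have e3 : cpw T 2 (3 * B * (s + s) * 16) = (2 ^ (3 * B * (s + s))) ^ 16 := by
    rw [← pow_mul]; exact min_eq_left ((pw (by linarith)).trans a4)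
  rw [e1, e2, e3]
  obtain ⟨hP, hR⟩ := nextP_spec (16 ^ r)
  have a8 : nextP (16 ^ r) ≤ 2 ^ (6 * r) := (nextP_le _).trans (by
    have : 0 < 16 ^ r := by positivity
    have h := pw (show 4 * r + 2 ≤ 6 * r by omega)
    rw [pow_add, ← a7] at h
    omega)
  generalize nextP (16 ^ r) = P at *
  have gL : g ≤ L := (Nat.le_mul_of_pos_right _ d0).trans hg
  have gP : g ≤ P := gL.trans (a5.le.trans ((pw (by omega)).trans (a7 ▸ hR)))
  have n0 : 0 < P / g := Nat.div_pos gP g0
  have a9 : (((s + s) ^ 2 * (P * P * φ.length ^ r)).size) ≤ B := by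
    rw [Nat.size_le, hB, show r * (φ.length.size + 14) = r * 2 + (6 * r + 6 * r + φ.length.size * r) by
      ring, pow_add, pow_add, pow_add, pow_mul]
    exact Nat.mul_lt_mul_of_lt_of_le (Nat.pow_lt_pow_left (by linarith [pw lr]) two_ne_zero)
      (by gcongr) (by positivity)
  have a10 := Nat.lt_size_self ((s + s) ^ 2 * (P * P * φ.length ^ r))
  have a11 : (s + s) * (2 * ((s + s) * (2 ^ (3 * B * (s + s))) ^ 16)) * B ≤ T := by
    refine le_trans ?_ ((pw a1).trans a4)
    have h := Nat.mul_le_mul (show 2 * (B * (s + s)) ≤ 2 ^ (B * (s + s)) from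
      Nat.mul_le_pow (by norm_num) _) (a3.trans (Nat.lt_two_pow_self (n := B * (s + s))).le)
    rw [show 50 * (B * (s + s)) = B * (s + s) + B * (s + s) + 3 * B * (s + s) * 16 by ring, pow_add,
      pow_add, pow_mul _ _ 16]
    exact le_of_eq_of_le (by ring) (Nat.mul_le_mul_right _ h)
  have a12 := (Nat.mul_le_mul_left _ a9).trans a11
  refine ⟨fun w => (ptsW_length ..).trans ?_, fun ⟨α, h⟩ => le_trans (av_mono fun w => ind_mono
    fun h => lt_of_le_of_lt ?_ h) (alg_yes hw h hP hR n0 (Nat.div_le_self _ _) (by omega)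
      (by positivity) a10.le a12), fun h => alg_no hw ε0 ε1 h (K := 2 ^ (3 * B)) r0 hP hR
        (Nat.div_le_self _ _) ?_ ?_ ?_ ?_ ?_ ?_ (by rw [← pow_mul]) ?_ l0 (by omega)
          (Nat.div_mul_le_self _ _) a12⟩
  · generalize (2 ^ (3 * B * (s + s))) ^ 16 = N at *
    have h1 : (s + s) * N ≤ T := le_trans (le_trans (by omega) (Nat.le_mul_of_pos_left _ (by omega)))
      ((Nat.le_mul_of_pos_right _ (by omega)).trans a11)
    rw [sq]
    exact Nat.mul_le_mul ((Nat.le_mul_of_pos_left _ (by omega)).trans h1) h1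
  · rw [mul_assoc, div_eq_mul_one_div _ (g : ℝ)]
    refine mul_le_mul_of_nonneg_left (mul_le_mul_of_nonneg_left ?_ (Nat.cast_nonneg _)) (by norm_num)
    rw [div_le_div_iff₀ (by exact_mod_cast hP.pos) (by exact_mod_cast g0), one_mul]
    exact_mod_cast Nat.div_mul_le_self _ _
  · rw [hs]
    exact (Nat.mul_le_mul_left _ (div_aux g0 gP)).trans_eq (by ring)
  · rw [hr]
    refine eps_aux y0 hc l0 ?_
    rw [div_le_div_iff₀ (by positivity) (by exact_mod_cast hP.pos), one_mul]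
    exact_mod_cast (div_aux g0 gP).trans (Nat.mul_le_mul_left _ (by omega))
  · exact le_trans (Nat.le_mul_of_pos_left _ (by positivity)) a10.le
  · have : 0 < (s + s) ^ 2 * (P * P * φ.length ^ r) := by
      have := hP.pos
      have := List.length_pos_iff.2 h.1
      positivity
    obtain ⟨b, hb⟩ := Nat.exists_eq_add_one.2 (Nat.size_pos.2 this)
    rw [hb, pow_succ, mul_comm]
    exact Nat.mul_le_mul_left _ (Nat.lt_size.1 (by omega))
  · exact le_trans (by norm_num) (pw (show 7 ≤ 3 * B * (s + s) by rw [mul_assoc]; omega))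
  · generalize Nat.size (_ * _) = b at a9 ⊢
    rw [pow_mul, show 8 * 2 ^ b = 2 ^ (b + 3) by ring]
    exact Nat.pow_le_pow_left (pw (by omega)) _
  · generalize Nat.size (_ * _) = b at a9 ⊢
    refine le_trans (Nat.mul_le_mul_left _ (show s + s ≤ 2 ^ l by omega)) ?_
    rw [show 1024 * (2 ^ b) ^ 2 * 2 ^ l = 2 ^ (b * 2 + l + 10) by ring]
    exact pw (by omega)

theorem poly_size (q : Polynomial ℕ) : ∃ d, ∀ n, q.eval n ≤ 2 ^ (d * (n.size + 1)) := by
  have pw : ∀ {a b : ℕ}, a ≤ b → 2 ^ a ≤ 2 ^ b := Nat.pow_le_pow_right (by norm_num)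
  induction q using Polynomial.induction_on' with
  | add p q hp hq =>
    obtain ⟨d, hd⟩ := hp
    obtain ⟨e, he⟩ := hq
    refine ⟨d + e + 1, fun n => ?_⟩
    have h1 := (hd n).trans (pw (Nat.mul_le_mul_right _ (Nat.le_add_right d e)))
    have h2 := (he n).trans (pw (Nat.mul_le_mul_right _ (Nat.le_add_left e d)))
    have h3 := pw (show (d + e) * (n.size + 1) + 1 ≤ (d + e + 1) * (n.size + 1) by
      rw [add_mul _ 1]; omega)
    rw [pow_succ] at h3
    rw [Polynomial.eval_add]; omega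
  | monomial k a =>
    refine ⟨a + k, fun n => ?_⟩
    rw [Polynomial.eval_monomial, add_mul, pow_add, mul_comm k, pow_mul _ _ k]
    exact Nat.mul_le_mul (Nat.lt_two_pow_self.le.trans (pw (Nat.le_mul_of_pos_right _ (by omega))))
      (Nat.pow_le_pow_left ((Nat.lt_size_self n).le.trans (pw (by omega))) _)

theorem core {A : List (ℚ × ℚ) → List (ℚ × ℚ × ℚ)} (hA : IsPolyTime A)
    (hc : ∀ S, S.Nodup → Covers (A S) S) : ∀ L ∈ NP, ∃ (R : Str × Str → Bool) (C : ℕ), PT R ∧
      ∀ (x : Str) (T : ℕ) (ρ : ℝ), 0 ≤ ρ →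
        (∀ S, S.Nodup → S.length ≤ T ^ 2 → ((A S).length : ℝ) ≤ ρ * LC S) →
        C * (ρ + 1) * (T.size - 1).size ^ 3 * (x.length.size + 1) < (T.size - 1 : ℕ) →
        9 / 10 ≤ av fun w : Fin T → Bool => ind (R (x, List.ofFn w) = L x) := by
  intro L hL
  obtain ⟨ε', ε0, h⟩ := pcp
  obtain ⟨f, hf, e⟩ := h L hL
  obtain ⟨ε, hε⟩ : ∃ ε, ε = min ε' 1 := ⟨_, rfl⟩
  have e0 : 0 < ε := hε ▸ lt_min ε0 one_pos
  have e1 : ε ≤ 1 := hε ▸ min_le_right _ _
  obtain ⟨c', hc'⟩ := exists_pow_lt_of_lt_one (x := (1 : ℝ) / 2 ^ 16) (y := 1 - ε ^ 2 / 80)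
    (by positivity) (by nlinarith [pow_pos e0 2])
  have c0 : 0 < c' := Nat.pos_of_ne_zero fun h => by rw [h] at hc'; norm_num at hc'
  obtain ⟨q, hq⟩ := hf.length.pb_nat
  obtain ⟨d, hd⟩ := poly_size (q.comp (Polynomial.C 2 * Polynomial.X))
  have hφ := hf.comp (PT.fst (PT.id (α := Str × Str)))
  refine ⟨fun p => decide ((A (toQ (qPts c' (f p.1) p.2))).length ≤ qK c' p.2.length (f p.1).length),
    20 * 2 ^ 17 * (4800 * c' ^ 2 * (d + 15)), PT.dec_le ((pt_out hA).comp (pt_qPts c' hφ (PT.snd PT.id)))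
      (pt_qK c' (PT.snd PT.id).length hφ.length), fun x T ρ ρ0 h1 h2 => ?_⟩
  have hm : szB (f x).length + 14 ≤ (d + 15) * (x.length.size + 1) := by
    have : (f x).length < 2 ^ (d * (x.length.size + 1) + 1) := by
      have h3 := (hq x).trans (peval_mono q (PT.sz_str_le x))
      have h4 := hd x.length
      simp only [Polynomial.eval_comp, Polynomial.eval_mul, Polynomial.eval_C, Polynomial.eval_X] at h4
      exact (h3.trans h4).trans_lt (Nat.pow_lt_pow_right (by norm_num) (by omega))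
    rw [← Nat.size_le] at this
    rw [szB_eq, add_mul]; omega
  rw [← szB_eq T, ← qL, ← szB_eq (qL T)] at h2
  have L0 : 0 < qL T := Nat.cast_pos.1 (lt_of_le_of_lt (by positivity) h2)
  have l0 : 0 < szB (qL T) := by rw [szB_eq]; exact Nat.size_pos.2 L0
  have d0 : 0 < 4800 * qR c' T * qB c' T (f x).length := by unfold qB qR; positivity
  have hg : 20 * (2 ^ 17 * szB (qL T)) * (ρ + 1) < qG c' T (f x).length + 1 := by
    have h3 : (qL T : ℝ) < (4800 * qR c' T * qB c' T (f x).length : ℕ) * (qG c' T (f x).length + 1) := by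
      exact_mod_cast Nat.lt_mul_div_succ (qL T) d0
    refine lt_of_mul_lt_mul_left (lt_of_le_of_lt ?_ (h2.trans h3)) (Nat.cast_nonneg _)
    have h4 : ((szB (f x).length : ℝ) + 14) ≤ (d + 15) * (x.length.size + 1) := by exact_mod_cast hm
    unfold qB qR
    push_cast
    refine le_of_eq_of_le (b := 20 * 2 ^ 17 * (4800 * c' ^ 2) * (ρ + 1) * (szB (qL T) : ℝ) ^ 3 *
      (szB (f x).length + 14)) (by ring) (le_of_le_of_eq (mul_le_mul_of_nonneg_left h4
        (by positivity)) (by ring))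
  have l1 : (1 : ℝ) ≤ szB (qL T) := by exact_mod_cast l0
  have hg' : 20 * (2 ^ 17 * szB (qL T)) * ρ < qG c' T (f x).length := by linarith
  have g0 : (0 : ℝ) < qG c' T (f x).length := lt_of_le_of_lt (by positivity) hg'
  obtain ⟨a1, a2, a3⟩ := qPts_spec e0 e1 c0 hc'.le (e x).1 (Nat.cast_pos.1 g0)
  have k : ∀ p : (Fin T → Bool) → Prop, av (fun w => ind (p w)) ≤ 1 / 10 → ∀ p' : (Fin T → Bool) → Prop,
      (∀ w, ¬ p w → p' w) → 9 / 10 ≤ av fun w => ind (p' w) := fun p h p' h' => by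
    have := av_mono fun w => ind_mono (h' w)
    simp only [ind_not, av_sub, av_const] at this
    linarith
  by_cases hx : L x = true
  · refine k _ (a2 ((e x).2.1 hx)) _ fun w hw => ?_
    rw [hx, decide_eq_true_eq, List.length_ofFn, qK, Nat.le_div_iff_mul_le (by positivity),
      ← Nat.cast_le (α := ℝ)]
    have h3 := (h1 _ (ptsW_nodup ..) (a1 w)).trans (mul_le_mul_of_nonneg_left (not_lt.1 hw) ρ0)
    push_cast
    refine (mul_le_mul_of_nonneg_right h3 (by positivity)).trans ?_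
    refine le_of_eq_of_le (b := (qN c' T (f x).length : ℝ) *
      (20 * (2 ^ 17 * szB (qL T)) * ρ / qG c' T (f x).length)) (by ring) ?_
    exact mul_le_of_le_one_right (Nat.cast_nonneg _) ((div_le_one g0).2 hg'.le)
  · refine k _ (a3 (((e x).2.2 hx).mono (hε ▸ min_le_left _ _))) _ fun w hw => ?_
    rw [Bool.eq_false_iff.2 hx, decide_eq_false_iff_not, List.length_ofFn]
    exact fun h => hw ((hc _ (ptsW_nodup ..)).LC_le.trans h)

end Pool.Agent.Lib.MP_67c02a_lc
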