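import Pool.Agent.Lib.MP_67c02a_lc.Cut

/-!
The relative counting lemma (densification).
-/

namespace Pool.Agent.Lib.MP_67c02a_lc

open Finset Function

variable {ι X : Type} [Fintype ι] [DecidableEq ι] [Fintype X] [Nonempty X]

theorem cut_bar_bar {j : ι} {F : (ι → X) → ℝ} {γ p : ℝ} (h : Cut j F γ) (hp : 1 ≤ p)
    (a b : ι → (ι → X) → ℝ) (a1 : ∀ i, Ind i (a i)) (b1 : ∀ i, Ind i (b i))
    (a2 : ∀ i x, |a i x| ≤ p) (b2 : ∀ i x, |b i x| ≤ p) :
    |av fun x => F x * (bar j (fun x => ∏ i ∈ univ.erase j, a i x) x *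
      bar j (fun x => ∏ i ∈ univ.erase j, b i x) x)| ≤ γ * p ^ (2 * Fintype.card ι) := by
  have e : ∀ x, F x * (bar j (fun x => ∏ i ∈ univ.erase j, a i x) x *
      bar j (fun x => ∏ i ∈ univ.erase j, b i x) x) = av fun y => av fun z =>
        F x * ∏ i ∈ univ.erase j, a i (update x j y) * b i (update x j z) := fun x => by
    simp only [bar, prod_mul_distrib, av_mul_left, av_mul_right]
  rw [av_congr e, av_comm]
  refine abs_av_le_of fun y => ?_
  rw [av_comm]
  refine abs_av_le_of fun z => ?_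
  rw [pow_mul]
  refine h.scale (one_le_pow₀ hp) (fun i x => a i (update x j y) * b i (update x j z))
    (fun i x v => ?_) fun i x => ?_
  · by_cases hi : i = j
    · subst hi; simp
    · simp only [update_comm hi, a1 i _ v, b1 i _ v]
  · rw [abs_mul, sq]; exact mul_le_mul (a2 _ _) (b2 _ _) (abs_nonneg _) (by linarith)

theorem prod_nu {ν : ι → (ι → X) → ℝ} {γ p : ℝ} (hp : 1 ≤ p) (ν1 : ∀ i, Ind i (ν i))
    (ν2 : ∀ i x, |ν i x| ≤ p) (hc : ∀ i, Cut i (fun x => ν i x - 1) γ) {j : ι}
    {w : (ι → X) → ℝ} (w1 : Ind j w) (w2 : ∀ x, |w x| ≤ 1) (s : Finset ι) (hs : j ∉ s) :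
    |av fun x => (∏ i ∈ s, ν i x - 1) * w x| ≤ s.card * (γ * p ^ Fintype.card ι) := by
  induction s using Finset.induction_on with
  | empty => simp
  | insert a s ha ih =>
    have hja : j ≠ a := fun h => hs (by simp [h])
    have hjs : j ∉ s := fun h => hs (by simp [h])
    have h1 := (hc a).scale hp (fun i x => (if i ∈ s then ν i x else 1) * if i = j then w x else 1)
      (fun i x y => by
        by_cases h : i = j
        · subst h; simp [hjs, w1 x y]
        · simp [h, ν1 i x y])
      fun i x => by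
        by_cases h : i = j
        · subst h; simpa [hjs] using (w2 x).trans hp
        · by_cases h' : i ∈ s
          · simpa [h, h'] using ν2 i x
          · simpa [h, h'] using hp
    have h2 : univ.erase a ∩ s = s := by
      ext i; simp only [mem_inter, mem_erase, mem_univ, and_true, and_iff_right_iff_imp]
      rintro hi rfl; exact ha hi
    simp only [prod_mul_distrib, prod_ite_mem, h2, prod_ite_eq', mem_erase, mem_univ, and_true,
      ne_eq, hja, not_false_eq_true, if_true] at h1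
    rw [av_congr (g := fun x => (ν a x - 1) * ((∏ i ∈ s, ν i x) * w x)
      + (∏ i ∈ s, ν i x - 1) * w x) fun x => by rw [prod_insert ha]; ring, av_add,
      card_insert_of_notMem ha]
    push_cast
    linarith [abs_add_le (av fun x => (ν a x - 1) * ((∏ i ∈ s, ν i x) * w x))
      (av fun x => (∏ i ∈ s, ν i x - 1) * w x), ih hjs]

theorem count_step {ν f g : ι → (ι → X) → ℝ} {γ p η θ lam : ℝ} (hp : 1 ≤ p) (hl : 0 < lam)
    (hγ : γ * p ^ (2 * Fintype.card ι) ≤ η) (η1 : η ≤ 1) (ν1 : ∀ i, Ind i (ν i))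
    (ν0 : ∀ i x, 0 ≤ ν i x) (ν2 : ∀ i x, ν i x ≤ p) (hc : ∀ i, Cut i (fun x => ν i x - 1) γ)
    {s : Finset ι} {j : ι} (hj : j ∈ s) (f1 : ∀ i, Ind i (f i)) (g1 : ∀ i, Ind i (g i))
    (f0 : ∀ i x, 0 ≤ f i x) (g0 : ∀ i x, 0 ≤ g i x) (g2 : ∀ i x, g i x ≤ 1)
    (f2 : ∀ i ∈ s, ∀ x, f i x ≤ ν i x) (f3 : ∀ i ∉ s, f i = g i)
    (hfg : Cut j (fun x => f j x - g j x) η)
    (ih : ∀ h : (ι → X) → ℝ, Ind j h → (∀ x, 0 ≤ h x) → (∀ x, h x ≤ 1) →
      |av (fun x => ∏ i, update f j h i x) - av fun x => ∏ i, update g j h i x| ≤ θ) :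
    |av (fun x => ∏ i, f i x) - av fun x => ∏ i, g i x| ≤
      η + lam + ((4 + Fintype.card ι) * η + 2 * θ) / (2 * lam) := by
  have γ0 := (hc j).nonneg
  have fp : ∀ i x, |f i x| ≤ p := fun i x => by
    rw [abs_of_nonneg (f0 i x)]
    by_cases h : i ∈ s
    · exact (f2 i h x).trans (ν2 i x)
    · rw [f3 i h]; exact (g2 i x).trans hp
  have gp1 : ∀ i x, |g i x| ≤ 1 := fun i x => by rw [abs_of_nonneg (g0 i x)]; exact g2 i x
  have gp : ∀ i x, |g i x| ≤ p := fun i x => (gp1 i x).trans hp
  have νp : ∀ i x, |ν i x| ≤ p := fun i x => by rw [abs_of_nonneg (ν0 i x)]; exact ν2 i x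
  have c1 := cut_bar_bar (hc j) hp f f f1 f1 fp fp
  have c2 := cut_bar_bar (hc j) hp f g f1 g1 fp gp
  have c3 := cut_bar_bar (hc j) hp g g g1 g1 gp gp
  have c4 := hfg g g1 gp1
  set F : (ι → X) → ℝ := fun x => ∏ i ∈ univ.erase j, f i x with hF
  set G : (ι → X) → ℝ := fun x => ∏ i ∈ univ.erase j, g i x with hG
  set V : (ι → X) → ℝ := fun x => ∏ i ∈ s.erase j, ν i x with hV
  set P := p ^ Fintype.card ι with hP
  have P1 : 1 ≤ P := one_le_pow₀ hp
  have FV : ∀ x, F x ≤ V x := fun x => by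
    have h2 : univ.erase j ∩ s = s.erase j := by ext i; simp
    simp only [hF, hV]
    rw [← h2, ← prod_ite_mem]
    refine prod_le_prod (fun i _ => f0 i x) fun i _ => ?_
    split_ifs with h
    · exact f2 i h x
    · rw [f3 i h]; exact g2 i x
  have F0 : ∀ x, 0 ≤ bar j F x := fun x => av_nonneg fun y => prod_nonneg fun i _ => f0 i _
  have G0 : ∀ x, 0 ≤ bar j G x := fun x => av_nonneg fun y => prod_nonneg fun i _ => g0 i _
  have G1 : ∀ x, bar j G x ≤ 1 := fun x => av_le fun y =>
    prod_le_one (fun i _ => g0 i _) fun i _ => g2 i _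
  have FP : ∀ x, bar j F x ≤ P := fun x => av_le fun y =>
    (prod_le_prod (g := fun _ => p) (fun i _ => f0 i _)
      fun i _ => (le_abs_self _).trans (fp i _)).trans
      ((prod_const p).trans_le (pow_le_pow_right₀ hp (card_le_univ _)))
  have FVb : ∀ x, bar j F x ≤ bar j V x := fun x => av_mono fun y => FV _
  have d1 : ∀ h : (ι → X) → ℝ, Ind j h → (∀ x, 0 ≤ h x) → (∀ x, h x ≤ 1) →
      |av fun x => (bar j F x - bar j G x) * h x| ≤ θ := fun h h1 h2 h3 => by
    have := ih h h1 h2 h3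
    have e : ∀ (a : ι → (ι → X) → ℝ) x, ∏ i, update a j h i x
        = (∏ i ∈ univ.erase j, a i x) * h x := fun a x => by
      rw [← mul_prod_erase _ _ (mem_univ j), update_self, mul_comm]
      congr 1
      exact prod_congr rfl fun i hi => by rw [update_of_ne (ne_of_mem_erase hi)]
    simp only [e] at this
    simpa only [sub_mul, av_sub, av_bar_mul h1] using this
  have d2 : av (fun x => |bar j V x - 1|) ≤ Fintype.card ι * (γ * P) := by
    set w : (ι → X) → ℝ := fun x => if 0 ≤ bar j V x - 1 then 1 else -1 with hw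
    have w1 : Ind j w := fun x y => by simp only [hw, ind_bar j V x y]
    have := prod_nu hp ν1 νp hc w1 (fun x => by simp only [hw]; split_ifs <;> simp) (s.erase j)
      (notMem_erase _ _)
    have e : av (fun x => |bar j V x - 1|) = av fun x => (V x - 1) * w x := by
      rw [← av_bar_mul w1]
      refine av_congr fun x => ?_
      have : bar j (fun x => V x - 1) x = bar j V x - 1 := by simp [bar, av_sub]
      simp only [hw, this]
      split_ifs with h
      · rw [abs_of_nonneg h]; ring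
      · rw [abs_of_neg (not_le.1 h)]; ring
    rw [e]
    refine (le_abs_self _).trans (this.trans (mul_le_mul_of_nonneg_right ?_ (by positivity)))
    exact_mod_cast card_le_univ _
  have d3 := d1 (fun x => min (bar j F x) 1) (fun x y => by simp only [ind_bar j F x y])
    (fun x => le_min (F0 x) zero_le_one) fun x => min_le_right _ _
  have d4 := d1 (bar j G) (ind_bar j G) G0 G1
  have d5 : av (fun x => (bar j F x - bar j G x) ^ 2) ≤ av fun x => P * |bar j V x - 1|
      + (bar j F x - bar j G x) * min (bar j F x) 1 - (bar j F x - bar j G x) * bar j G x :=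
    av_mono fun x => by
      have := FVb x
      have h1 := le_abs_self (bar j V x - 1)
      have h2 := abs_nonneg (bar j V x - 1)
      rcases le_total (bar j F x) 1 with h | h
      · rw [min_eq_left h]; nlinarith
      · rw [min_eq_right h]; nlinarith [F0 x, G0 x, G1 x, FP x]
  rw [av_sub, av_add, av_mul_left] at d5
  have d6 : P * av (fun x => |bar j V x - 1|) ≤ Fintype.card ι * η := by
    refine (mul_le_mul_of_nonneg_left d2 (by linarith)).trans ?_
    rw [two_mul, pow_add] at hγ
    calc P * (Fintype.card ι * (γ * P)) = Fintype.card ι * (γ * (P * P)) := by ring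
      _ ≤ _ := mul_le_mul_of_nonneg_left hγ (Nat.cast_nonneg _)
  have d7 : av (fun x => ν j x * (bar j F x - bar j G x) ^ 2) ≤
      (4 + Fintype.card ι) * η + 2 * θ := by
    rw [av_congr (g := fun x => (bar j F x - bar j G x) ^ 2 + (ν j x - 1) * (bar j F x * bar j F x)
      - 2 * ((ν j x - 1) * (bar j F x * bar j G x)) + (ν j x - 1) * (bar j G x * bar j G x))
      fun x => by ring, av_add, av_sub, av_add, av_mul_left]
    rw [abs_le] at c1 c2 c3 d3 d4
    linarith
  have d8 : av (ν j) ≤ 2 := by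
    have := (abs_le.1 (hc j).abs_av).2
    rw [av_sub, av_const] at this
    have h3 : γ ≤ γ * p ^ (2 * Fintype.card ι) := le_mul_of_one_le_right γ0 (one_le_pow₀ hp)
    linarith
  have d9 : |av fun x => (bar j F x - bar j G x) * f j x| ≤
      lam + ((4 + Fintype.card ι) * η + 2 * θ) / (2 * lam) := by
    refine (abs_av_le _).trans ((av_mono (g := fun x => lam / 2 * ν j x
      + ν j x * (bar j F x - bar j G x) ^ 2 / (2 * lam)) fun x => ?_).trans ?_)
    · rw [abs_mul, abs_of_nonneg (f0 j x), ← sq_abs]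
      generalize |bar j F x - bar j G x| = D, abs_nonneg (bar j F x - bar j G x) = hD
      have h1 : D ≤ lam / 2 + D ^ 2 / (2 * lam) := by
        rw [← sub_le_iff_le_add', le_div_iff₀ (by positivity)]; nlinarith [sq_nonneg (D - lam)]
      calc D * f j x ≤ (lam / 2 + D ^ 2 / (2 * lam)) * ν j x :=
            mul_le_mul h1 (f2 j hj x) (f0 j x) (by positivity)
        _ = _ := by ring
    · rw [av_add, av_mul_left, av_div]
      have := div_le_div_of_nonneg_right d7 (by positivity : 0 ≤ 2 * lam)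
      nlinarith
  have e : av (fun x => ∏ i, f i x) - av (fun x => ∏ i, g i x) =
      av (fun x => (bar j F x - bar j G x) * f j x) + av fun x => (f j x - g j x) * G x := by
    simp only [sub_mul, av_sub, av_bar_mul (f1 j)]
    simp only [← mul_prod_erase _ _ (mem_univ j), hF, hG, mul_comm]
    ring
  rw [e]
  linarith [abs_add_le (av fun x => (bar j F x - bar j G x) * f j x)
    (av fun x => (f j x - g j x) * G x)]

/-- counting lemma -/
theorem counting (ι : Type) [Fintype ι] [DecidableEq ι] (k : ℕ) : ∀ {θ : ℝ}, 0 < θ →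
    ∃ η : ℝ, 0 < η ∧ ∀ (X : Type) [Fintype X] [Nonempty X] (p γ : ℝ) (ν : ι → (ι → X) → ℝ),
      1 ≤ p → γ * p ^ (2 * Fintype.card ι) ≤ η → (∀ i, Ind i (ν i)) → (∀ i x, 0 ≤ ν i x) →
      (∀ i x, ν i x ≤ p) → (∀ i, Cut i (fun x => ν i x - 1) γ) →
      ∀ s : Finset ι, s.card = k → ∀ f g : ι → (ι → X) → ℝ, (∀ i, Ind i (f i)) →
        (∀ i, Ind i (g i)) → (∀ i x, 0 ≤ f i x) → (∀ i x, 0 ≤ g i x) → (∀ i x, g i x ≤ 1) →
        (∀ i ∈ s, ∀ x, f i x ≤ ν i x) → (∀ i ∉ s, f i = g i) →
        (∀ i ∈ s, Cut i (fun x => f i x - g i x) η) →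
        |av (fun x => ∏ i, f i x) - av fun x => ∏ i, g i x| ≤ θ := by
  induction k with
  | zero =>
    intro θ hθ
    refine ⟨1, one_pos, fun X _ _ p γ ν _ _ _ _ _ _ s hs f g _ _ _ _ _ _ f3 _ => ?_⟩
    rw [card_eq_zero] at hs
    obtain rfl : f = g := funext fun i => f3 i (by simp [hs])
    simpa using hθ.le
  | succ k ih =>
    intro θ hθ
    obtain ⟨η', h0, ih⟩ := ih (θ := (θ / 4) ^ 2 / 2) (by positivity)
    have t0 : (0 : ℝ) < 4 + Fintype.card ι := by positivity
    refine ⟨min (min η' 1) (min (θ / 4) ((θ / 4) ^ 2 / (4 + Fintype.card ι))), by positivity,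
      fun X _ _ p γ ν hp hγ ν1 ν0 ν2 hc s hs f g f1 g1 f0 g0 g2 f2 f3 hfg => ?_⟩
    set η := min (min η' 1) (min (θ / 4) ((θ / 4) ^ 2 / (4 + Fintype.card ι))) with hη
    have e1 : η ≤ η' := (min_le_left _ _).trans (min_le_left _ _)
    have e2 : η ≤ 1 := (min_le_left _ _).trans (min_le_right _ _)
    have e3 : η ≤ θ / 4 := (min_le_right _ _).trans (min_le_left _ _)
    have e4 : η ≤ (θ / 4) ^ 2 / (4 + Fintype.card ι) := (min_le_right _ _).trans (min_le_right _ _)
    rw [le_div_iff₀ t0] at e4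
    obtain ⟨j, hj⟩ : s.Nonempty := card_pos.1 (by omega)
    have := count_step (θ := (θ / 4) ^ 2 / 2) (lam := θ / 4) hp (by positivity) hγ e2 ν1 ν0 ν2 hc
      hj f1 g1 f0 g0 g2 f2 f3 (hfg j hj) fun h h1 h2 h3 => by
        refine ih X p γ ν hp (hγ.trans e1) ν1 ν0 ν2 hc (s.erase j)
          (by rw [card_erase_of_mem hj]; omega) _ _ (fun i => ?_) (fun i => ?_) (fun i => ?_)
          (fun i => ?_) (fun i => ?_) (fun i hi => ?_) (fun i hi => ?_) fun i hi => ?_
        any_goals by_cases hij : i = j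
        any_goals first | (subst hij; simp only [update_self]) | simp only [update_of_ne hij]
        any_goals first | assumption | apply f1 | apply g1 | apply f0 | apply g0 | apply g2
        · simp at hi
        · exact f2 i (mem_of_mem_erase hi)
        · exact f3 i fun h => hi (mem_erase.2 ⟨hij, h⟩)
        · simp at hi
        · exact (hfg i (mem_of_mem_erase hi)).mono e1
    refine this.trans ?_
    have : ((4 + Fintype.card ι) * η + 2 * ((θ / 4) ^ 2 / 2)) / (2 * (θ / 4)) ≤ θ / 4 := by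
      rw [div_le_iff₀ (by positivity)]; nlinarith
    linarith

end Pool.Agent.Lib.MP_67c02a_lc
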