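import Pool.Agent.Lib.MP_67c02a_lc.Av

/-!
Cut norms on a product space and the dense model lemma.
-/

namespace Pool.Agent.Lib.MP_67c02a_lc

open Finset Function

variable {ι X : Type} [Fintype ι] [DecidableEq ι] [Fintype X] [Nonempty X]

/-- `u` does not depend on coordinate `i` -/
def Ind {β : Type} (i : ι) (u : (ι → X) → β) : Prop := ∀ x y, u (update x i y) = u x

theorem av_update (i : ι) (F : (ι → X) → ℝ) :
    av (fun x => av fun y => F (update x i y)) = av F := by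
  have hinv : Involutive (fun p : (ι → X) × X => (update p.1 i p.2, p.1 i)) := by
    rintro ⟨x, y⟩; simp
  have h1 := av_equiv hinv.toPerm (fun p : (ι → X) × X => F p.1)
  rw [av_prod, av_prod] at h1
  simpa using h1

/-- average over coordinate `i` -/
noncomputable def bar (i : ι) (F : (ι → X) → ℝ) (x : ι → X) : ℝ := av fun y => F (update x i y)

theorem ind_bar (i : ι) (F : (ι → X) → ℝ) : Ind i (bar i F) := fun x y => by
  simp [bar]

theorem av_bar_mul {i : ι} {w : (ι → X) → ℝ} (hw : Ind i w) (F : (ι → X) → ℝ) :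
    av (fun x => bar i F x * w x) = av fun x => F x * w x := by
  rw [← av_update i fun x => F x * w x]
  refine av_congr fun x => ?_
  simp only [hw x, bar, av_mul_right]

/-- the cut norm of `F` in direction `j` is at most `η` -/
def Cut (j : ι) (F : (ι → X) → ℝ) (η : ℝ) : Prop :=
  ∀ w : ι → (ι → X) → ℝ, (∀ i, Ind i (w i)) → (∀ i x, |w i x| ≤ 1) →
    |av fun x => F x * ∏ i ∈ univ.erase j, w i x| ≤ η

theorem Cut.mono {j : ι} {F : (ι → X) → ℝ} {η η' : ℝ} (h : Cut j F η) (h' : η ≤ η') :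
    Cut j F η' := fun w h1 h2 => (h w h1 h2).trans h'

theorem Cut.abs_av {j : ι} {F : (ι → X) → ℝ} {η : ℝ} (h : Cut j F η) : |av F| ≤ η := by
  simpa using h (fun _ _ => 1) (fun _ _ _ => rfl) (by simp)

theorem Cut.nonneg {j : ι} {F : (ι → X) → ℝ} {η : ℝ} (h : Cut j F η) : 0 ≤ η :=
  (abs_nonneg _).trans h.abs_av

theorem Cut.add {j : ι} {F G : (ι → X) → ℝ} {η η' : ℝ} (h : Cut j F η) (h' : Cut j G η') :
    Cut j (fun x => F x + G x) (η + η') := fun w h1 h2 => by
  simp only [add_mul, av_add]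
  exact (abs_add_le _ _).trans (add_le_add (h w h1 h2) (h' w h1 h2))

theorem abs_prod_le_one {w : ι → (ι → X) → ℝ} (h : ∀ i x, |w i x| ≤ 1) (s : Finset ι) (x : ι → X) :
    |∏ i ∈ s, w i x| ≤ 1 := by
  rw [abs_prod]; exact prod_le_one (fun _ _ => abs_nonneg _) fun i _ => h i x

theorem cut_of_l1 (j : ι) (F : (ι → X) → ℝ) : Cut j F (av fun x => |F x|) := fun w _ h2 =>
  (abs_av_le _).trans (av_mono fun x => by
    rw [abs_mul]; exact mul_le_of_le_one_right (abs_nonneg _) (abs_prod_le_one h2 _ x))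

theorem Cut.mul_test {j : ι} {F : (ι → X) → ℝ} {η : ℝ} (h : Cut j F η) {u : ι → (ι → X) → ℝ}
    (h1 : ∀ i, Ind i (u i)) (h2 : ∀ i x, |u i x| ≤ 1) :
    Cut j (fun x => F x * ∏ i ∈ univ.erase j, u i x) η := fun w h3 h4 => by
  have := h (fun i x => u i x * w i x) (fun i x y => by simp only [h1 i x y, h3 i x y])
    fun i x => by rw [abs_mul]; exact mul_le_one₀ (h2 i x) (abs_nonneg _) (h4 i x)
  simpa only [prod_mul_distrib, mul_assoc] using this

theorem Cut.scale {j : ι} {F : (ι → X) → ℝ} {η M : ℝ} (h : Cut j F η) (hM : 1 ≤ M)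
    (w : ι → (ι → X) → ℝ) (h1 : ∀ i, Ind i (w i)) (h2 : ∀ i x, |w i x| ≤ M) :
    |av fun x => F x * ∏ i ∈ univ.erase j, w i x| ≤ η * M ^ Fintype.card ι := by
  have hM0 : 0 < M := by linarith
  have := h (fun i x => w i x / M) (fun i x y => by simp only [h1 i x y]) fun i x => by
    rw [abs_div, abs_of_pos hM0, div_le_one hM0]; exact h2 i x
  simp only [prod_div_distrib, prod_const, ← mul_div_assoc, av_div, abs_div] at this
  rw [abs_of_pos (pow_pos hM0 _), div_le_iff₀ (pow_pos hM0 _)] at this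
  refine this.trans (mul_le_mul_of_nonneg_left (pow_le_pow_right₀ hM ?_) h.nonneg)
  exact (card_le_univ _)

theorem exists_sign (j : ι) (F : (ι → X) → ℝ) (s : Finset ι) (w : ι → (ι → X) → ℝ)
    (h1 : ∀ i, Ind i (w i)) (h2 : ∀ i x, |w i x| ≤ 1) :
    ∃ u : ι → (ι → X) → ℝ, (∀ i, Ind i (u i)) ∧ (∀ i x, |u i x| ≤ 1) ∧
      (∀ i ∈ s, ∀ x, u i x = 1 ∨ u i x = -1) ∧
      av (fun x => F x * ∏ i ∈ univ.erase j, w i x) ≤
        av fun x => F x * ∏ i ∈ univ.erase j, u i x := by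
  induction s using Finset.induction_on with
  | empty => exact ⟨w, h1, h2, by simp, le_rfl⟩
  | insert a s _ ih =>
    obtain ⟨u, u1, u2, u3, u4⟩ := ih
    set G : (ι → X) → ℝ := fun x => F x * ∏ i ∈ (univ.erase j).erase a, u i x with hG
    set r : (ι → X) → ℝ := fun x => if 0 ≤ bar a G x then 1 else -1 with hr
    have hri : Ind a r := fun x y => by simp only [hr, ind_bar a G x y]
    have hr1 : ∀ x, r x = 1 ∨ r x = -1 := fun x => by simp only [hr]; split_ifs <;> simp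
    refine ⟨update u a r, fun i => ?_, fun i x => ?_, fun i hi x => ?_, u4.trans ?_⟩
    · by_cases h : i = a
      · subst h; simpa using hri
      · simpa [h] using u1 i
    · by_cases h : i = a
      · subst h; rcases hr1 x with h | h <;> simp [h]
      · simpa [h] using u2 i x
    · by_cases h : i = a
      · subst h; simpa using hr1 x
      · simpa [h] using u3 i (by simpa [h] using hi) x
    · by_cases ha : a ∈ univ.erase j
      · have e1 : ∀ (v : ι → (ι → X) → ℝ), (∀ i, i ≠ a → v i = u i) → ∀ x,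
            F x * ∏ i ∈ univ.erase j, v i x = G x * v a x := fun v hv x => by
          rw [← mul_prod_erase _ _ ha, prod_congr rfl (g := fun i => u i x)
            fun i hi => by rw [hv i (ne_of_mem_erase hi)]]
          simp only [hG]; ring
        rw [av_congr (e1 u fun _ _ => rfl), av_congr (e1 _ fun i hi => update_of_ne hi _ _),
          update_self, ← av_bar_mul (u1 a), ← av_bar_mul hri]
        refine av_mono fun x => ?_
        have := abs_le.1 (u2 a x)
        simp only [hr]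
        split_ifs with h
        · nlinarith
        · nlinarith
      · refine le_of_eq (av_congr fun x => ?_)
        rw [prod_congr rfl (g := fun i => update u a r i x)
          fun i hi => by rw [update_of_ne (by rintro rfl; exact ha hi)]]

theorem exists_test {j : ι} {F : (ι → X) → ℝ} {η : ℝ} (hF : Ind j F) (h : ¬ Cut j F η) :
    ∃ (u : ι → (ι → X) → ℝ) (e : ℝ), (∀ i, Ind i (u i)) ∧ (∀ i, Ind j (u i)) ∧
      (∀ i x, u i x = 1 ∨ u i x = -1) ∧ (e = 1 ∨ e = -1) ∧
      η < av fun x => e * F x * ∏ i ∈ univ.erase j, u i x := by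
  simp only [Cut, not_forall, not_le] at h
  obtain ⟨w, h1, h2, h3⟩ := h
  obtain ⟨e, he, h4⟩ : ∃ e : ℝ, (e = 1 ∨ e = -1) ∧
      η < av fun x => e * F x * ∏ i ∈ univ.erase j, w i x := by
    rcases lt_abs.1 h3 with h | h
    · exact ⟨1, Or.inl rfl, by simpa using h⟩
    · exact ⟨-1, Or.inr rfl, by simpa [av_neg] using h⟩
  obtain ⟨u, u1, -, u3, u4⟩ := exists_sign j (fun x => e * F x) univ w h1 h2
  have h5 := h4.trans_le u4
  rw [← av_update j, av_comm] at h5
  obtain ⟨y, hy⟩ := exists_av_le fun y => av fun x =>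
    e * F (update x j y) * ∏ i ∈ univ.erase j, u i (update x j y)
  refine ⟨fun i x => u i (update x j y), e, fun i x z => ?_, fun i x z => by simp,
    fun i x => u3 i (mem_univ _) _, he, ?_⟩
  · by_cases hi : i = j
    · subst hi; simp
    · simp only [update_comm hi, u1 i _ z]
  · simpa only [hF _ y] using h5.trans_le hy

/-- truncation to the unit interval -/
noncomputable def clip (r : ℝ) : ℝ := max 0 (min 1 r)

theorem clip_nonneg (r : ℝ) : 0 ≤ clip r := le_max_left _ _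
theorem clip_le_one (r : ℝ) : clip r ≤ 1 := max_le zero_le_one (min_le_left _ _)
theorem clip_eq {r : ℝ} (h0 : 0 ≤ r) (h1 : r ≤ 1) : clip r = r := by
  simp [clip, h0, h1]
theorem clip_sq {r a : ℝ} (h0 : 0 ≤ a) (h1 : a ≤ 1) : (clip r - a) ^ 2 ≤ (r - a) ^ 2 := by
  unfold clip
  rcases le_total 1 r with h | h
  · rw [min_eq_left h, max_eq_right zero_le_one]; nlinarith
  · rw [min_eq_right h]
    rcases le_total 0 r with h' | h'
    · rw [max_eq_right h']
    · rw [max_eq_left h']; nlinarith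

theorem dense_step {j : ι} {ν h g : (ι → X) → ℝ} {γ η M : ℝ} (hν : Ind j ν) (hh : Ind j h)
    (ν0 : ∀ x, 0 ≤ ν x) (h0 : ∀ x, 0 ≤ h x) (h1 : ∀ x, h x ≤ 1) (hη : 0 < η)
    (hν2 : av ν ≤ 2) (hM : M ≤ η / 2)
    (gi : Ind j g) (g0 : ∀ x, 0 ≤ g x) (g1 : ∀ x, g x ≤ 1)
    (gc : ∀ ψ : ℝ → ℝ, (∀ r, |ψ r| ≤ 1) → Cut j (fun x => (ν x - 1) * ψ (g x)) M)
    (hn : ¬ Cut j (fun x => ν x * h x - g x) η) :
    ∃ g' : (ι → X) → ℝ, Ind j g' ∧ (∀ x, 0 ≤ g' x) ∧ (∀ x, g' x ≤ 1) ∧
      (∀ ψ : ℝ → ℝ, (∀ r, |ψ r| ≤ 1) → Cut j (fun x => (ν x - 1) * ψ (g' x)) (2 * M)) ∧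
      av (fun x => ν x * (g' x - h x) ^ 2) ≤ av (fun x => ν x * (g x - h x) ^ 2) - η ^ 2 / 8 := by
  obtain ⟨u, e, u1, u2, u3, he, hu⟩ := exists_test (F := fun x => ν x * h x - g x)
    (fun x y => by simp only [hν x y, hh x y, gi x y]) hn
  have u4 : ∀ i x, |u i x| ≤ 1 := fun i x => by rcases u3 i x with h | h <;> simp [h]
  set U : (ι → X) → ℝ := fun x => ∏ i ∈ univ.erase j, u i x with hU
  have U1 : ∀ x, U x = 1 ∨ U x = -1 := fun x => by
    rw [← mul_self_eq_one_iff, hU, ← prod_mul_distrib]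
    exact prod_eq_one fun i _ => mul_self_eq_one_iff.2 (u3 i x)
  refine ⟨fun x => clip (g x + η / 4 * e * U x), fun x y => ?_, fun x => clip_nonneg _,
    fun x => clip_le_one _, fun ψ hψ => ?_, ?_⟩
  · simp only [gi x y, hU, u2 _ x y]
  · have b : ∀ (a b c : ℝ), |a| ≤ 1 → |b| ≤ 1 → (c = 1 ∨ c = -1) → |(a + c * b) / 2| ≤ 1 := by
      rintro a b c ha hb (rfl | rfl) <;> rw [abs_le] at * <;> constructor <;> linarith
    have c1 := gc (fun r => (ψ (clip (r + η / 4 * e)) + 1 * ψ (clip (r - η / 4 * e))) / 2)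
      fun r => b _ _ _ (hψ _) (hψ _) (Or.inl rfl)
    have c2 := (gc (fun r => (ψ (clip (r + η / 4 * e)) + -1 * ψ (clip (r - η / 4 * e))) / 2)
      fun r => b _ _ _ (hψ _) (hψ _) (Or.inr rfl)).mul_test u1 u4
    have c3 := c1.add c2
    rw [two_mul]
    convert c3 using 2 with x
    change (ν x - 1) * ψ (clip (g x + η / 4 * e * U x)) = _ + _ * U x
    rcases U1 x with h | h <;> rw [h]
    · rw [mul_one]; ring
    · rw [mul_neg, mul_one, ← sub_eq_add_neg]; ring
  · have c1 := gc clip (fun r => abs_le.2 ⟨by linarith [clip_nonneg r], clip_le_one r⟩) u u1 u4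
    simp only [clip_eq (g0 _) (g1 _)] at c1
    have c2 : e * av (fun x => (ν x - 1) * g x * U x) ≤ M := by
      rcases he with rfl | rfl
      · linarith [le_abs_self (av fun x => (ν x - 1) * g x * U x)]
      · linarith [neg_abs_le (av fun x => (ν x - 1) * g x * U x)]
    have c3 : av (fun x => ν x * (clip (g x + η / 4 * e * U x) - h x) ^ 2) ≤
        av fun x => ν x * (g x - h x) ^ 2 + η / 2 * (e * ((ν x - 1) * g x * U x))
          - η / 2 * (e * (ν x * h x - g x) * U x) + η ^ 2 / 16 * ν x := av_mono fun x => by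
      refine (mul_le_mul_of_nonneg_left (clip_sq (h0 x) (h1 x)) (ν0 x)).trans (le_of_eq ?_)
      rcases he with rfl | rfl <;> rcases U1 x with h | h <;> rw [h] <;> ring
    rw [av_add, av_sub, av_add, av_mul_left, av_mul_left, av_mul_left, av_mul_left] at c3
    change η < av fun x => e * (ν x * h x - g x) * U x at hu
    nlinarith

theorem dense_aux {j : ι} {ν h : (ι → X) → ℝ} {γ η : ℝ} {K : ℕ} (hν : Ind j ν) (hh : Ind j h)
    (ν0 : ∀ x, 0 ≤ ν x) (h0 : ∀ x, 0 ≤ h x) (h1 : ∀ x, h x ≤ 1) (hη : 0 < η) (hη1 : η ≤ 1)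
    (hc : Cut j (fun x => ν x - 1) γ) (hK : 16 < K * η ^ 2) (hγ : 2 ^ K * γ ≤ η / 2) :
    ∃ g : (ι → X) → ℝ, Ind j g ∧ (∀ x, 0 ≤ g x) ∧ (∀ x, g x ≤ 1) ∧
      Cut j (fun x => ν x * h x - g x) η := by
  by_contra hn
  have hγ0 := hc.nonneg
  have hle : ∀ k ≤ K, 2 ^ k * γ ≤ η / 2 := fun k hk =>
    (mul_le_mul_of_nonneg_right (pow_le_pow_right₀ one_le_two hk) hγ0).trans hγ
  have hν2 : av ν ≤ 2 := by
    have := (abs_le.1 hc.abs_av).2
    have h3 := hle 0 (Nat.zero_le _)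
    rw [av_sub, av_const] at this
    norm_num at h3
    linarith
  have key : ∀ k ≤ K, ∃ g : (ι → X) → ℝ, Ind j g ∧ (∀ x, 0 ≤ g x) ∧ (∀ x, g x ≤ 1) ∧
      (∀ ψ : ℝ → ℝ, (∀ r, |ψ r| ≤ 1) → Cut j (fun x => (ν x - 1) * ψ (g x)) (2 ^ k * γ)) ∧
      av (fun x => ν x * (g x - h x) ^ 2) ≤ 2 - k * η ^ 2 / 8 := by
    intro k hk
    induction k with
    | zero =>
      refine ⟨fun _ => 0, fun _ _ => rfl, fun _ => le_rfl, fun _ => zero_le_one,
        fun ψ hψ w w1 w2 => ?_, ?_⟩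
      · have := hc w w1 w2
        rw [av_congr (g := fun x => ψ 0 * ((ν x - 1) * ∏ i ∈ univ.erase j, w i x))
          fun x => by ring, av_mul_left, abs_mul]
        simpa using mul_le_mul (hψ 0) this (abs_nonneg _) zero_le_one
      · simp only [Nat.cast_zero, zero_mul, zero_div, sub_zero]
        refine le_trans (av_mono fun x => ?_) hν2
        refine mul_le_of_le_one_right (ν0 x) ?_
        nlinarith [h0 x, h1 x]
    | succ k ih =>
      obtain ⟨g, gi, g0, g1, gc, gp⟩ := ih (by omega)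
      obtain ⟨g', a1, a2, a3, a4, a5⟩ := dense_step (γ := γ) hν hh ν0 h0 h1 hη hν2
        (hle k (by omega)) gi g0 g1 gc fun hc => hn ⟨g, gi, g0, g1, hc⟩
      refine ⟨g', a1, a2, a3, fun ψ hψ => (a4 ψ hψ).mono (le_of_eq (by ring)), ?_⟩
      push_cast
      linarith
  obtain ⟨g, -, -, -, -, gp⟩ := key K le_rfl
  have : 0 ≤ av fun x => ν x * (g x - h x) ^ 2 :=
    av_nonneg fun x => mul_nonneg (ν0 x) (sq_nonneg _)
  linarith

/-- dense model lemma -/
theorem dense_model {η : ℝ} (hη : 0 < η) : ∃ γ : ℝ, 0 < γ ∧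
    ∀ (ι X : Type) [Fintype ι] [DecidableEq ι] [Fintype X] [Nonempty X] (j : ι)
      (ν h : (ι → X) → ℝ), Ind j ν → Ind j h → (∀ x, 0 ≤ ν x) → (∀ x, 0 ≤ h x) → (∀ x, h x ≤ 1) →
      Cut j (fun x => ν x - 1) γ →
      ∃ g : (ι → X) → ℝ, Ind j g ∧ (∀ x, 0 ≤ g x) ∧ (∀ x, g x ≤ 1) ∧
        Cut j (fun x => ν x * h x - g x) η ∧
        av (fun x => 1 - g x) ≤ 3 * av fun x => ν x * (1 - h x) := by
  set θ := min (η / 2) 1 with hθ
  have θ0 : 0 < θ := lt_min (by linarith) one_pos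
  have θ1 : θ ≤ η / 2 := min_le_left _ _
  obtain ⟨K, hK⟩ := exists_nat_gt (16 / θ ^ 2)
  rw [div_lt_iff₀ (by positivity)] at hK
  have h2 : (1 : ℝ) ≤ 2 ^ K := one_le_pow₀ one_le_two
  have hγ : θ / 2 / 2 ^ K ≤ θ := (div_le_self (by positivity) h2).trans (by linarith)
  refine ⟨θ / 2 / 2 ^ K, by positivity, fun ι X _ _ _ _ j ν h hν hh ν0 h0 h1 hc => ?_⟩
  have e0 : ∀ x, 0 ≤ ν x * (1 - h x) := fun x => mul_nonneg (ν0 x) (sub_nonneg.2 (h1 x))
  rcases le_total (av fun x => ν x * (1 - h x)) θ with hε | hε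
  · refine ⟨fun _ => 1, fun _ _ => rfl, fun _ => zero_le_one, fun _ => le_rfl, ?_, ?_⟩
    · have := hc.add (cut_of_l1 j fun x => -(ν x * (1 - h x)))
      simp only [abs_neg, abs_of_nonneg (e0 _)] at this
      convert this.mono (η' := η) (by linarith) using 2
      ring
    · simpa using av_nonneg e0
  · obtain ⟨g, gi, g0, g1, gc⟩ := dense_aux hν hh ν0 h0 h1 θ0 (min_le_right _ _) hc hK
      (le_of_eq (by field_simp))
    refine ⟨g, gi, g0, g1, gc.mono (by linarith), ?_⟩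
    have a1 := (abs_le.1 hc.abs_av).1
    have a2 := (abs_le.1 gc.abs_av).2
    rw [av_congr (g := fun x => ν x * (1 - h x) + (ν x * h x - g x) - (ν x - 1)) fun x => by ring,
      av_sub, av_add]
    linarith

end Pool.Agent.Lib.MP_67c02a_lc
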