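import Pool.Agent.Lib.MP_67c02a_lc.PP
import Pool.Agent.Lib.MP_67c02a_lc.Blr

/-!
One round of gap amplification on formulas of width four.
-/

namespace Pool.Agent.Lib.MP_67c02a_lc

open Finset Function Pool.Agent.Lib.Complexity

set_option maxHeartbeats 400000

theorem endp_back {V D : Type} {rot : V × D → V × D} (hr : Involutive rot) (v : V) (l : List D) :
    endp rot (endp rot v l) (back rot v l) = v := by
  induction l generalizing v with
  | nil => rfl
  | cons k l ih => simp only [endp, back, endp_append, ih, Prod.mk.eta, hr (v, k)]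

theorem length_back {V D : Type} (rot : V × D → V × D) (v : V) (l : List D) :
    (back rot v l).length = l.length := by
  induction l generalizing v with
  | nil => rfl
  | cons k l ih => simp [back, ih]

theorem endp_val (φ : CNF) (v : Fin φ.length) (l : List Dt) :
    endp (lazyR (rot0 φ)) v.1 l = (endp (lazyR (rot0F φ)) v l).1 ∧
      back (lazyR (rot0 φ)) v.1 l = back (lazyR (rot0F φ)) v l := endp_map (lazy_val φ) v l

theorem endp_lt {φ : CNF} {v : ℕ} (h : v < φ.length) (l : List Dt) :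
    endp (lazyR (rot0 φ)) v l < φ.length := by
  rw [(endp_val φ ⟨v, h⟩ l).1]; exact Fin.is_lt _

def b2 (b : Bool) : ZMod 2 := bif b then 1 else 0

theorem b2_decide (x : ZMod 2) (d : Decidable (x = 1)) : b2 (@decide (x = 1) d) = x := by
  have : ∀ x : ZMod 2, b2 (decide (x = 1)) = x := by decide
  exact (congrArg b2 (decide_eq_decide.2 Iff.rfl)).trans (this x)

def pr5 : Fin 5 → (Fin 4 → ZMod 2) → Prop :=
  ![fun x => x 0 + x 1 = x 2, fun x => x 0 + x 1 = x 2 * x 3, fun x => x 0 + x 1 = 1,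
    fun x => x 0 + x 1 = x 2, fun x => x 0 + x 1 = x 2]

open Classical in
noncomputable def cl (x : Fin 4 → ℕ) (P : Prop) (β : Fin 4 → Bool) : Clause :=
  if P then [(x 0, true), (x 0, false), (x 0, true), (x 0, true)]
  else [(x 0, !β 0), (x 1, !β 1), (x 2, !β 2), (x 3, !β 3)]

theorem cl_length (x : Fin 4 → ℕ) (P : Prop) (β : Fin 4 → Bool) : (cl x P β).length = 4 := by
  unfold cl; split_ifs <;> rfl

theorem cl_var {x : Fin 4 → ℕ} {P : Prop} {β : Fin 4 → Bool} {l : ℕ × Bool} (h : l ∈ cl x P β) :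
    ∃ j, l.1 = x j := by
  unfold cl at h
  split_ifs at h <;> simp only [List.mem_cons, List.not_mem_nil, or_false] at h <;>
    rcases h with rfl | rfl | rfl | rfl <;> exact ⟨_, rfl⟩

theorem cl_viol (x : Fin 4 → ℕ) (P : Prop) (β : Fin 4 → Bool) (α : ℕ → Bool) :
    (∀ l ∈ cl x P β, α l.1 ≠ l.2) ↔ ¬ P ∧ (fun j => α (x j)) = β := by
  unfold cl
  split_ifs with h
  · cases e : α (x 0) <;> simp [h, e]
  · simp [h, funext_iff, Fin.forall_fin_succ]

abbrev Ed (h : ℕ) := Fin (2 * h) × (Fin (2 * h) → Dt)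
abbrev Yv (L : Type) (h : ℕ) := (L → ZMod 2) ⊕ (Ed h × (L × L → ZMod 2))
abbrev Rn (L : Type) := (L × L → ZMod 2) × (L × L → ZMod 2) × (L × L → ZMod 2) × (L → ZMod 2)
abbrev Om (L : Type) (h : ℕ) := Ed h × Rn L × Fin 5 × (Fin 4 → Bool)

variable {L : Type} [Fintype L] [DecidableEq L] (op : L → List Dt → Sg) {h : ℕ}

def wk (e : Ed h) : List Dt := (List.ofFn e.2).take (e.1 + 1)

noncomputable def nm (v : ℕ) (y : Yv L h) : ℕ :=
  v * Fintype.card (Yv L h) + Fintype.equivFin (Yv L h) y

open Classical in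
noncomputable def rel (φ : CNF) (v : ℕ) (e : Ed h) (z : L × L) : ZMod 2 :=
  if Good (lazyR (rot0 φ)) (RN φ) op h e.1 v (wk e) z.1 z.2 then 1 else 0

def tn (r : L × L → ZMod 2) (e : Ed h) (ρ : Rn L) : Fin 5 → Fin 4 → Bool × Yv L h :=
  ![![(false, .inr (e, ρ.1)), (false, .inr (e, ρ.2.1)), (false, .inr (e, ρ.1 + ρ.2.1)),
      (false, .inr (e, ρ.1))],
    ![(false, .inr (e, ρ.2.2.1)), (false, .inr (e, ρ.2.2.1 + ρ.1 * ρ.2.1)), (false, .inr (e, ρ.1)),
      (false, .inr (e, ρ.2.1))],
    ![(false, .inr (e, ρ.1)), (false, .inr (e, ρ.1 + r)), (false, .inr (e, ρ.1)),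
      (false, .inr (e, ρ.1))],
    ![(false, .inr (e, ρ.1)), (false, .inr (e, ρ.1 + fun z => ρ.2.2.2 z.1)), (false, .inl ρ.2.2.2),
      (false, .inr (e, ρ.1))],
    ![(false, .inr (e, ρ.1)), (false, .inr (e, ρ.1 + fun z => ρ.2.2.2 z.2)), (true, .inl ρ.2.2.2),
      (false, .inr (e, ρ.1))]]

noncomputable def vars (r : L × L → ZMod 2) (v w : ℕ) (e : Ed h) (ρ : Rn L) (i : Fin 5)
    (j : Fin 4) : ℕ := nm (bif (tn r e ρ i j).1 then w else v) (tn r e ρ i j).2

noncomputable def clause (φ : CNF) (v : ℕ) (ω : Om L h) : Clause :=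
  cl (vars (rel op φ v ω.1) v (endp (lazyR (rot0 φ)) v (wk ω.1)) ω.1 ω.2.1 ω.2.2.1)
    (pr5 ω.2.2.1 fun j => b2 (ω.2.2.2 j)) ω.2.2.2

variable (h) in
noncomputable def step (φ : CNF) : CNF :=
  (List.range φ.length).flatMap fun v => (univ : Finset (Om L h)).toList.map (clause op φ v)

theorem mem_step {φ : CNF} {c : Clause} :
    c ∈ step op h φ ↔ ∃ v < φ.length, ∃ ω : Om L h, clause op φ v ω = c := by
  simp only [step, List.mem_flatMap, List.mem_range, List.mem_map, mem_toList, mem_univ, true_and]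

theorem step_width (φ : CNF) : Width 4 (step op h φ) := fun c hc => by
  obtain ⟨v, -, ω, rfl⟩ := (mem_step op).1 hc
  exact cl_length _ _ _

theorem step_length (φ : CNF) : (step op h φ).length = φ.length * Fintype.card (Om L h) := by
  simp only [step, List.length_flatMap, List.length_map, length_toList, card_univ, List.map_const',
    List.length_range, List.sum_replicate, smul_eq_mul]

theorem step_sz (φ : CNF) : sz (step op h φ) ≤ φ.length * Fintype.card (Om L h) *
    (4 * (φ.length * Fintype.card (Yv L h) + 2 + 1) + 1) := by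
  rw [← step_length op]
  refine sz_list_le fun c hc => ?_
  refine (sz_list_le (B := φ.length * Fintype.card (Yv L h) + 2) fun l hl => ?_).trans_eq
    (by rw [step_width op φ c hc])
  obtain ⟨v, hv, ω, rfl⟩ := (mem_step op).1 hc
  obtain ⟨j, hj⟩ := cl_var hl
  have h1 : ∀ u < φ.length, ∀ y : Yv L h, nm u y ≤ φ.length * Fintype.card (Yv L h) :=
    fun u hu y => by
      have := (Fintype.equivFin (Yv L h) y).2
      unfold nm; nlinarith
  have h2 := sz_bool l.2
  have h3 : l.1 ≤ φ.length * Fintype.card (Yv L h) := by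
    rw [hj, vars]
    refine h1 _ ?_ _
    cases (tn _ _ _ _ j).1
    · exact hv
    · exact endp_lt hv _
  rw [sz_prod, sz_nat]; omega

theorem pt_step (hop : ∀ s i, PT fun l => op s l i) : PT (step op h) := by
  refine PT.flatMap (by fun_prop) (pt_map_const _ fun ω => ?_)
  have h1 : PT fun p : CNF × ℕ => endp (lazyR (rot0 p.1)) p.2 (wk ω.1) :=
    (pt_endp (by fun_prop) _ (by fun_prop)).1
  refine pt_cases (c := fun p : CNF × ℕ => rel op p.1 p.2 ω.1) (G := fun r p => cl (vars r p.2
    (endp (lazyR (rot0 p.1)) p.2 (wk ω.1)) ω.1 ω.2.1 ω.2.2.1) (pr5 ω.2.2.1 fun j => b2 (ω.2.2.2 j))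
      ω.2.2.2) (fun r => (PP.all fun z => ((pp_good hop (PT.fst PT.id) (PT.snd PT.id) h ω.1.1
        (wk ω.1) z.1 z.2).iff (PP.const (r z = 1)))).congr fun p => ?_) fun r => ?_
  · rw [funext_iff]
    refine forall_congr' fun z => ?_
    unfold rel
    have two : ∀ a : ZMod 2, (¬ a = 1 ↔ a = 0) := by decide
    split_ifs with hg <;> simp [hg, eq_comm, two]
  · have h2 : ∀ j, PT fun p : CNF × ℕ => vars r p.2 (endp (lazyR (rot0 p.1)) p.2 (wk ω.1))
        ω.1 ω.2.1 ω.2.2.1 j := fun j =>
      (((PT.const _).cond h1 (PT.snd PT.id)).mul (PT.const _)).add (PT.const _)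
    unfold cl
    split_ifs
    · exact ((h2 0).prodMk (PT.const _)).cons (((h2 0).prodMk (PT.const _)).cons
        (((h2 0).prodMk (PT.const _)).cons (((h2 0).prodMk (PT.const _)).cons (PT.const _))))
    · exact ((h2 0).prodMk (PT.const _)).cons (((h2 1).prodMk (PT.const _)).cons
        (((h2 2).prodMk (PT.const _)).cons (((h2 3).prodMk (PT.const _)).cons (PT.const _))))

theorem exists_assign (val : ℕ → Yv L h → Bool) : ∃ α : ℕ → Bool, ∀ u y, α (nm u y) = val u y := by
  have c0 : 0 < Fintype.card (Yv L h) := Fintype.card_pos_iff.2 ⟨.inl 0⟩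
  refine ⟨fun n => val (n / Fintype.card (Yv L h))
    ((Fintype.equivFin (Yv L h)).symm ⟨n % Fintype.card (Yv L h), Nat.mod_lt _ c0⟩), fun u y => ?_⟩
  have := (Fintype.equivFin (Yv L h) y).2
  simp only [nm, add_comm (u * _), Nat.add_mul_div_right _ _ c0, Nat.div_eq_of_lt this, zero_add,
    Nat.add_mul_mod_self_right, Nat.mod_eq_of_lt this, Fin.eta, Equiv.symm_apply_apply]

theorem length_wk (e : Ed h) : (wk e).length = e.1 + 1 := by
  have := e.1.2
  simp only [wk, List.length_take, List.length_ofFn]; omega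

theorem endp_split {V D : Type} [Inhabited D] (rot : V × D → V × D) (v : V) {l : List D} {a : ℕ}
    (ha : a < l.length) : endp rot v l =
      endp rot (rot (endp rot v (l.take a), l.getD a default)).1 (l.drop (a + 1)) := by
  conv_lhs => rw [← List.take_append_drop a l, List.drop_eq_getElem_cons ha, endp_append]
  rw [List.getD_eq_getElem _ _ ha]; rfl

theorem step_complete (hop : ∀ F : List Dt → Sg, ∃ s, ∀ l, l.length < h → op s l = F l)
    {φ : CNF} (hw : Width 4 φ) {α : ℕ → Bool} (hs : φ.Sat α) : ∃ α', (step op h φ).Sat α' := by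
  choose s hs' using fun u => hop fun l i => α (vr φ (endp (lazyR (rot0 φ)) u l, i))
  obtain ⟨α', hα⟩ := exists_assign (L := L) (h := h) fun u => Sum.elim
    (fun k => decide (k (s u) = 1))
    fun p => decide (p.2 (s u, s (endp (lazyR (rot0 φ)) u (wk p.1))) = 1)
  refine ⟨α', fun c hc => ?_⟩
  obtain ⟨v, hv, ⟨e, ρ, i, β⟩, rfl⟩ := (mem_step op).1 hc
  by_contra hn
  push Not at hn
  obtain ⟨h1, h2⟩ := (cl_viol _ _ _ _).1 hn
  dsimp only at h1 h2
  rw [← h2] at h1
  have hr : rel op φ v e (s v, s (endp (lazyR (rot0 φ)) v (wk e))) = 1 := if_pos fun p hp => by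
    simp only [mem_filter, mem_product, mem_range] at hp
    have hl := length_wk e
    have hu := endp_lt hv ((wk e).take p.1)
    have hu' := endp_lt hu [(wk e).getD p.1 default]
    rw [hs' _ _ (by rw [List.length_take]; omega),
      hs' _ _ (by rw [length_back, List.length_drop]; omega),
      endp_split _ v (show p.1 < (wk e).length by omega)]
    have e1 := endp_back (lazyR_inv (rot0F_inv φ)) ⟨_, hu'⟩ ((wk e).drop (p.1 + 1))
    have e2 := endp_val φ ⟨_, hu'⟩ ((wk e).drop (p.1 + 1))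
    simp only [endp] at e1 e2
    rw [e2.1, e2.2, (endp_val φ _ _).1, e1]
    exact RN_complete hw hs (d := (_, _)) hu
  refine h1 ?_
  fin_cases i <;> simp [pr5, vars, tn, hα, b2_decide, hr, ← add_assoc, CharTwo.add_self_eq_zero,
    -add_eq_right]

theorem step_sound [Nonempty L] (h0 : 0 < h) {φ : CNF} (hw : Width 4 φ) {ε : ℝ} (hg : Gap ε φ) :
    Gap (min (h * (ε / (129 * 320))) 1 /
      (4 * 16 ^ 4 * (2 * (2 + 2 / (1 / 10240 / 4) ^ 3) + 4)) / 3200) (step op h φ) := by
  have m0 : 0 < φ.length := List.length_pos_iff.2 hg.1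
  haveI : Nonempty (Fin φ.length) := ⟨⟨0, m0⟩⟩
  haveI : Nonempty (Fin (2 * h)) := ⟨⟨0, by omega⟩⟩
  have l0 : 0 < (step op h φ).length := by rw [step_length]; positivity
  refine ⟨List.length_pos_iff.1 l0, fun α => ?_⟩
  choose Λ hΛ using fun u : ℕ => exists_decode fun k : L → ZMod 2 => b2 (α (nm (h := h) u (.inl k)))
  have h1 := power_gap (lazyR_inv (rot0F_inv φ)) (by norm_num) (by norm_num) (graph_gap φ)
    (fun d => RN φ (d.1.1, d.2)) op h0 (RN_sound hw hg.2) fun v => Λ v
  have h2 : (viol (step op h φ) α : ℝ) = (step op h φ).length *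
      av fun v : Fin φ.length => av fun ω : Om L h => ind (∀ l ∈ clause op φ v ω, α l.1 ≠ l.2) := by
    have : (viol (step op h φ) α : ℝ) = ∑ v ∈ range φ.length, ∑ ω : Om L h,
        ind (∀ l ∈ clause op φ v ω, α l.1 ≠ l.2) := by
      rw [viol, step, List.countP_flatMap, Nat.cast_list_sum, List.map_map, ← List.sum_toFinset _
        List.nodup_range, List.toFinset_range]
      refine sum_congr rfl fun v _ => ?_
      rw [sum_ind, comp_apply, comp_apply, List.countP_map, comp_def,
        List.countP_eq_length_filter, ← Multiset.coe_card, ← Multiset.filter_coe, coe_toList]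
      rfl
    rw [this, sum_range, step_length]
    simp only [av_eq, ← sum_div, Fintype.card_fin]
    push_cast
    field_simp
  rw [h2, mul_comm]
  refine mul_le_mul_of_nonneg_left ?_ (Nat.cast_nonneg _)
  rw [show (Fintype.card Sg : ℝ) = 16 by simp] at h1
  refine (div_le_div_of_nonneg_right h1 (by norm_num)).trans ?_
  rw [← av_div]
  refine av_mono fun v => ?_
  rw [av_prod, av_prod, ← av_div]
  refine av_mono fun n => ?_
  rw [EW, ← av_div]
  refine av_mono fun κ => ?_
  set w := endp (lazyR (rot0 φ)) v (wk (n, κ)) with hwd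
  set bad : Fin 5 → Rn L → Prop := fun i ρ =>
    ¬ pr5 i fun j => b2 (α (vars (rel op φ v (n, κ)) v w (n, κ) ρ i j)) with hbad
  refine le_trans (b := (∑ i, av fun ρ => ind (bad i ρ)) / 80) ?_ ?_
  · have b0 : ∀ i, 0 ≤ av fun ρ => ind (bad i ρ) := fun i => av_nonneg fun _ => ind_nonneg _
    by_contra hn
    rw [not_le] at hn
    by_cases hG : Good (lazyR (rot0 φ)) (RN φ) op h n v (wk (n, κ)) (Λ v) (Λ w)
    · have hG' : Good (lazyR (rot0F φ)) (fun d => RN φ (d.1.1, d.2)) op h n v
          ((List.ofFn κ).take (n + 1)) (Λ v)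
          (Λ (endp (lazyR (rot0F φ)) v ((List.ofFn κ).take (n + 1))).1) := fun p hp => by
        have := hG p hp
        simp only [hwd, wk, (endp_val φ _ _).1, lazy_val, (endp_val φ _ _).2] at this
        exact this
      rw [ind_neg (not_not.2 hG')] at hn
      linarith [sum_nonneg fun i (_ : i ∈ univ) => b0 i]
    have b1 : ∀ i, av (fun ρ => ind (bad i ρ)) ≤ 1 / 40 := fun i => by
      linarith [single_le_sum (fun i _ => b0 i) (mem_univ i), ind_le_one (¬ Good (lazyR (rot0F φ))
        (fun d => RN φ (d.1.1, d.2)) op h n v ((List.ofFn κ).take (n + 1)) (Λ v)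
        (Λ (endp (lazyR (rot0F φ)) v ((List.ofFn κ).take (n + 1))).1))]
    have b2 := long_code (fun f => b2 (α (nm v (.inr ((n, κ), f))))) _ _ (rel op φ v (n, κ))
      (hΛ v) (hΛ w) (by simpa [hbad, av_prod, pr5, vars, tn] using b1 0)
      (by simpa [hbad, av_prod, pr5, vars, tn] using b1 1)
      (by simpa [hbad, av_prod, pr5, vars, tn] using b1 2)
      (by simpa [hbad, av_prod, pr5, vars, tn] using b1 3)
      (by simpa [hbad, av_prod, pr5, vars, tn] using b1 4)
    rw [rel, if_neg hG] at b2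
    exact zero_ne_one b2
  · rw [av_prod, ← av_sum, ← av_div]
    refine av_mono fun ρ => ?_
    rw [av_eq, Fintype.sum_prod_type, show (Fintype.card (Fin 5 × (Fin 4 → Bool)) : ℝ) = 80 by simp]
    refine div_le_div_of_nonneg_right (sum_le_sum fun i _ => le_trans (ind_mono fun hb => ?_)
      (single_le_sum (f := fun β => ind (∀ l ∈ clause op φ v ((n, κ), ρ, i, β), α l.1 ≠ l.2))
        (fun _ _ => ind_nonneg _)
        (mem_univ fun j => α (vars (rel op φ v (n, κ)) v w (n, κ) ρ i j)))) (by norm_num)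
    exact (cl_viol _ _ _ _).2 ⟨hb, rfl⟩

end Pool.Agent.Lib.MP_67c02a_lc
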