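import Pool.Agent.Lib.MP_67c02a_lc.Marg
import Pool.Agent.Lib.Complexity.CookLevin

/-!
Constant degree expanders on every number of vertices, given by rotation maps.
-/

namespace Pool.Agent.Lib.MP_67c02a_lc

open Finset Function Pool.Agent.Lib.Complexity

set_option maxHeartbeats 400000

theorem sum_le_of_inj {α β : Type} [DecidableEq β] (s : Finset α) (t : Finset β) (i : α → β)
    (h1 : ∀ a ∈ s, i a ∈ t) (h2 : Set.InjOn i s) {f : α → ℝ} {g : β → ℝ}
    (h3 : ∀ a ∈ s, f a ≤ g (i a)) (h4 : ∀ b ∈ t, 0 ≤ g b) : ∑ a ∈ s, f a ≤ ∑ b ∈ t, g b :=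
  (sum_le_sum h3).trans ((sum_image h2).symm.trans_le (sum_le_sum_of_subset_of_nonneg
    (image_subset_iff.2 h1) fun b hb _ => h4 b hb))

abbrev Pt := Fin 4 × Fin 4 × Bool

def stepN (s : ℕ) (k : Fin 4) (c z : ℕ) : ℕ :=
  if k = 0 then (z / s + c) % s * s + z % s else if k = 1 then z / s % s * s + (z + c) % s
  else if k = 2 then (z / s + 3 * c * z) % s * s + z % s
  else z / s % s * s + (z + 3 * c * (z / s)) % s

def cod {s : ℕ} (g : ZMod s × ZMod s) : ℕ := g.1.val * s + g.2.val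
def dec (s z : ℕ) : ZMod s × ZMod s := (((z / s : ℕ) : ZMod s), (z : ZMod s))

section
variable {s : ℕ} [NeZero s]

theorem stepN_eq (k : Fin 4) (c z : ℕ) : stepN s k c z = cod (gen k (c : ZMod s) (dec s z)) := by
  unfold stepN gen cod dec
  split_ifs <;> simp only [← ZMod.val_natCast] <;> push_cast <;> rfl

theorem cod_lt (g : ZMod s × ZMod s) : cod g < s * s := by
  have h1 := ZMod.val_lt g.1
  have h2 := ZMod.val_lt g.2
  unfold cod; nlinarith

theorem dec_cod (g : ZMod s × ZMod s) : dec s (cod g) = g := by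
  have h2 := ZMod.val_lt g.2
  have : (g.1.val * s + g.2.val) / s = g.1.val := by
    rw [add_comm, Nat.add_mul_div_right _ _ (NeZero.pos s), Nat.div_eq_of_lt h2, zero_add]
  simp [dec, cod, this]

theorem cod_dec {z : ℕ} (h : z < s * s) : cod (dec s z) = z := by
  simp only [cod, dec, ZMod.val_natCast]
  rw [Nat.mod_eq_of_lt (Nat.div_lt_of_lt_mul h), Nat.div_add_mod']

theorem cast_sign (b : Bool) :
    ((bif b then 1 else s - 1 : ℕ) : ZMod s) = if b then 1 else -1 := by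
  cases b
  · simp [Nat.cast_sub (NeZero.pos s)]
  · simp

end

def stepE (n : ℕ) (x : ℕ × Pt) : ℕ :=
  stepN (n.sqrt + 1) x.2.2.1 (bif x.2.2.2 then 1 else n.sqrt + 1 - 1) (x.1 + x.2.1 * n)

/-- rotation map of the expander on `n` vertices -/
def rotE (n : ℕ) (x : ℕ × Pt) : ℕ × Pt :=
  if x.1 + x.2.1 * n < (n.sqrt + 1) * (n.sqrt + 1) then
    (stepE n x % n, Fin.ofNat 4 (stepE n x / n), x.2.2.1, !x.2.2.2) else x

theorem stepE_eq (n : ℕ) (x : ℕ × Pt) : stepE n x = cod (gen x.2.2.1 (if x.2.2.2 then 1 else -1)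
    (dec (n.sqrt + 1) (x.1 + x.2.1 * n))) := by rw [stepE, stepN_eq, cast_sign]

theorem sq_le {n : ℕ} (h : 0 < n) : (n.sqrt + 1) * (n.sqrt + 1) ≤ 4 * n := by
  have h1 := Nat.sqrt_le n
  have h2 := Nat.sqrt_le_self n
  nlinarith

theorem split_lt {n z : ℕ} (h : 0 < n) (hz : z < (n.sqrt + 1) * (n.sqrt + 1)) :
    z % n + (Fin.ofNat 4 (z / n) : ℕ) * n = z := by
  have : z / n < 4 := Nat.div_lt_of_lt_mul (by linarith [sq_le h])
  simp only [Fin.ofNat, Nat.mod_eq_of_lt this]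
  exact Nat.mod_add_div' z n

theorem rotE_lt {n : ℕ} {x : ℕ × Pt} (h : x.1 < n) : (rotE n x).1 < n := by
  unfold rotE; split_ifs
  · exact Nat.mod_lt _ (by omega)
  · exact h

theorem rotE_rotE {n : ℕ} {x : ℕ × Pt} (h : x.1 < n) : rotE n (rotE n x) = x := by
  have n0 : 0 < n := by omega
  by_cases hx : x.1 + x.2.1 * n < (n.sqrt + 1) * (n.sqrt + 1)
  · have h1 : stepE n x < (n.sqrt + 1) * (n.sqrt + 1) := by rw [stepE_eq]; exact cod_lt _
    have h2 : rotE n x = (stepE n x % n, Fin.ofNat 4 (stepE n x / n), x.2.2.1, !x.2.2.2) :=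
      if_pos hx
    have h3 : stepE n (rotE n x) = x.1 + x.2.1 * n := by
      rw [stepE_eq, h2]
      simp only [split_lt n0 h1]
      rw [stepE_eq, dec_cod, ← cod_dec hx, dec_cod]
      congr 1
      cases x.2.2.2
      · simpa using gen_neg (s := n.sqrt + 1) x.2.2.1 (-1) _
      · simpa using gen_neg (s := n.sqrt + 1) x.2.2.1 1 _
    rw [rotE, h3, if_pos (by rw [h2]; simpa only [split_lt n0 h1] using h1), h2]
    obtain ⟨u, f, k, b⟩ := x
    simp only [Nat.add_mul_mod_self_right, Nat.mod_eq_of_lt h, Nat.add_mul_div_right _ _ n0,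
      Nat.div_eq_of_lt h, zero_add, Bool.not_not, Prod.mk.injEq, and_true, true_and]
    exact Fin.ext (Nat.mod_eq_of_lt f.2)
  · have h2 : rotE n x = x := if_neg hx
    rw [h2, h2]

theorem poincare (n : ℕ) (F : ℕ → ℝ) : ∑ u ∈ range n, ∑ v ∈ range n, (F u - F v) ^ 2 ≤
    128 * n * ∑ u ∈ range n, ∑ κ : Pt, (F u - F (rotE n (u, κ)).1) ^ 2 := by
  rcases n.eq_zero_or_pos with rfl | n0
  · simp
  have hn : ∀ u ∈ range n, cod (dec (n.sqrt + 1) u) = u := fun u hu =>
    cod_dec ((mem_range.1 hu).trans (Nat.lt_succ_sqrt n))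
  have a1 : ∀ G : ℕ → ℝ, (∀ u, 0 ≤ G u) → ∑ u ∈ range n, G u ≤
      ∑ x : ZMod (n.sqrt + 1) × ZMod (n.sqrt + 1), G (cod x % n) := fun G hG =>
    sum_le_of_inj _ _ (dec (n.sqrt + 1)) (fun _ _ => mem_univ _)
      (fun u hu v hv h => by rw [← hn u hu, h, hn v hv])
      (fun u hu => by rw [hn u hu, Nat.mod_eq_of_lt (mem_range.1 hu)]) fun _ _ => hG _
  have a2 := poincare_torus fun x : ZMod (n.sqrt + 1) × ZMod (n.sqrt + 1) => F (cod x % n)
  have a3 : ∑ x : ZMod (n.sqrt + 1) × ZMod (n.sqrt + 1), ∑ k : Fin 4, ∑ b : Bool,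
      (F (cod x % n) - F (cod (gen k (if b then 1 else -1) x) % n)) ^ 2 ≤
      ∑ u ∈ range n, ∑ κ : Pt, (F u - F (rotE n (u, κ)).1) ^ 2 := by
    simp only [Fintype.sum_prod_type (α₁ := Fin 4)]
    rw [← sum_product' (range n) (univ : Finset (Fin 4))]
    refine sum_le_of_inj _ (range n ×ˢ univ) (fun x => (cod x % n, Fin.ofNat 4 (cod x / n)))
      (fun x _ => by simpa using Nat.mod_lt _ n0) (fun x _ y _ h => ?_) (fun x _ => le_of_eq ?_)
      fun _ _ => by positivity
    · rw [Prod.mk.injEq] at h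
      rw [← dec_cod x, ← split_lt n0 (cod_lt x), h.1, h.2, split_lt n0 (cod_lt y), dec_cod]
    · refine sum_congr rfl fun k _ => sum_congr rfl fun b _ => ?_
      rw [rotE, stepE_eq]
      simp only [split_lt n0 (cod_lt x), dec_cod, if_pos (cod_lt x)]
  have a4 : ((n.sqrt + 1 : ℕ) : ℝ) ^ 2 ≤ 4 * n := by rw [sq]; exact_mod_cast sq_le n0
  refine (a1 _ fun u => sum_nonneg fun _ _ => sq_nonneg _).trans ((sum_le_sum fun x _ =>
    a1 (fun v => (F (cod x % n) - F v) ^ 2) fun _ => sq_nonneg _).trans (a2.trans ?_))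
  exact mul_le_mul (by linarith) a3 (by positivity) (by positivity)

theorem majority (n : ℕ) (b : ℕ → Bool) : ∃ β : Bool, ∑ u ∈ range n, ind (b u ≠ β) ≤
    128 * ∑ u ∈ range n, ∑ κ : Pt, ind (b u ≠ b (rotE n (u, κ)).1) := by
  rcases n.eq_zero_or_pos with rfl | n0
  · simp
  have e : ∀ u v, (ind (b u = true) - ind (b v = true)) ^ 2 = ind (b u ≠ b v) := fun u v => by
    cases b u <;> cases b v <;> simp [ind]
  have h := poincare n fun u => ind (b u = true)
  have e2 : ∑ u ∈ range n, ind (b u ≠ true) + ∑ u ∈ range n, ind (b u ≠ false) = n := by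
    rw [← sum_add_distrib, sum_congr rfl (g := fun _ => 1) fun u _ => by cases b u <;> simp [ind]]
    simp
  have e3 : ∑ u ∈ range n, ∑ v ∈ range n, ind (b u ≠ b v) =
      2 * ((∑ u ∈ range n, ind (b u ≠ true)) * ∑ u ∈ range n, ind (b u ≠ false)) := by
    rw [two_mul, sum_mul_sum]
    nth_rewrite 2 [sum_comm]
    simp only [← sum_add_distrib]
    exact sum_congr rfl fun u _ => sum_congr rfl fun v _ => by
      cases b u <;> cases b v <;> simp [ind]
  simp only [e, e3] at h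
  have n1 : (0 : ℝ) < n := by exact_mod_cast n0
  have p1 : 0 ≤ ∑ u ∈ range n, ind (b u ≠ true) := sum_nonneg fun _ _ => ind_nonneg _
  have p2 : 0 ≤ ∑ u ∈ range n, ind (b u ≠ false) := sum_nonneg fun _ _ => ind_nonneg _
  rcases le_total (∑ u ∈ range n, ind (b u ≠ true)) (∑ u ∈ range n, ind (b u ≠ false)) with h' | h'
  · exact ⟨true, le_of_mul_le_mul_left (by nlinarith) n1⟩
  · exact ⟨false, le_of_mul_le_mul_left (by nlinarith) n1⟩

@[fun_prop] theorem pt_sqrt {α : Type} [Enc α] {f : α → ℕ} (h : PT f) :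
    PT fun a => (f a).sqrt := by
  have : PT fun a => ((List.range (f a + 1)).filter fun i => decide (i * i ≤ f a)).length - 1 := by
    fun_prop
  refine this.of_eq fun a => ?_
  have e : (range (f a + 1)).filter (fun i => i * i ≤ f a) = range ((f a).sqrt + 1) := by
    ext i
    simp only [mem_filter, mem_range, Nat.lt_succ_iff, Nat.le_sqrt, and_iff_right_iff_imp]
    exact fun h => (Nat.le_mul_self i).trans h
  have := congrArg card e
  rw [card_range] at this
  exact (congrArg (· - 1) this).trans (Nat.add_sub_cancel _ _)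

@[fun_prop] theorem pt_ofNat {α : Type} [Enc α] {f : α → ℕ} (h : PT f) :
    PT fun a => Fin.ofNat 4 (f a) := (h.mod (PT.const 4)).out fun _ => rfl

@[fun_prop] theorem pt_rotE {α : Type} [Enc α] {f : α → ℕ} {x : α → ℕ × Pt} (h : PT f)
    (h' : PT x) : PT fun a => rotE (f a) (x a) := by
  have h1 : PT fun a => stepE (f a) (x a) := by unfold stepE stepN; fun_prop
  unfold rotE; fun_prop

end Pool.Agent.Lib.MP_67c02a_lc
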