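import Pool.Agent.Lib.MP_67c02a_lc.Core

/-!
Nearly logarithmic hardness of approximation for line cover.
-/

namespace Pool.Agent.Lib.MP_67c02a_lc

open Finset Function Pool.Agent.Lib.Complexity N68a2faeb Filter Asymptotics

set_option maxHeartbeats 400000

theorem bpt_of {L : DecisionProblem} {R : Str × Str → Bool} (hR : PT R) {T : ℕ → ℕ}
    (h : ∀ᶠ n in atTop, ∀ x : Str, x.length = n →
      9 / 10 ≤ av fun w : Fin (T n) → Bool => ind (R (x, List.ofFn w) = L x)) : L ∈ BPT T := by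
  obtain ⟨n0, h⟩ := eventually_atTop.1 h
  obtain ⟨l, hl⟩ : ∃ l : List Str, ∀ x, x.length < n0 → (x ∈ l ↔ L x = true) :=
    ⟨((List.finite_length_lt Bool n0).toFinset.filter fun x => L x = true).toList,
      fun x hx => by simp [hx]⟩
  refine ⟨fun p => if p.1.length < n0 then decide (p.1 ∈ l) else R p, PT.isPolyTime_rel
    (PT.ite (by fun_prop) (PT.dec_mem (PT.fst PT.id) (PT.const _)) hR), fun x => ?_⟩
  by_cases hx : x.length < n0
  · simp only [if_pos hx, hl x hx, Bool.decide_eq_true, filter_true, card_univ, Fintype.card_fun,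
      Fintype.card_bool, Fintype.card_fin]
    push_cast
    rw [div_self (by positivity)]; norm_num
  · have := h _ (not_lt.1 hx) x rfl
    rw [av_ind, Fintype.card_fun, Fintype.card_bool, Fintype.card_fin] at this
    simp only [if_neg hx]
    rw [← Rat.cast_le (K := ℝ)]
    push_cast at this ⊢
    linarith

theorem core_exp {ρ : ℕ → ℝ} {A : List (ℚ × ℚ) → List (ℚ × ℚ × ℚ)} (hA : IsPolyTime A)
    (h : ∀ S, S.Nodup → Covers (A S) S ∧ ((A S).length : ℝ) ≤ ρ S.length * LC S) :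
    ∀ L ∈ NP, ∃ C : ℕ, ∀ E : ℕ → ℕ, (∀ᶠ n in atTop, ∃ b, 0 ≤ b ∧ (∀ m ≤ (2 ^ E n) ^ 2, ρ m ≤ b) ∧
      C * (b + 1) * (E n).size ^ 3 * (n.size + 1) < E n) → L ∈ BPT fun n => 2 ^ E n := by
  intro L hL
  obtain ⟨R, C, hR, e⟩ := core hA (fun S hS => (h S hS).1) L hL
  refine ⟨C, fun E hE => bpt_of hR (hE.mono fun n ⟨b, b0, h1, h2⟩ x hx => e x _ b b0
    (fun S hS hl => (h S hS).2.trans (mul_le_mul_of_nonneg_right (h1 _ hl) (Nat.cast_nonneg _))) ?_)⟩
  rwa [Nat.size_pow, Nat.add_sub_cancel, hx]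

theorem sup_bound {ρ : ℕ → ℝ} {φ : ℝ → ℝ} {c y : ℝ} (c0 : 0 ≤ c)
    (h : ∀ᶠ n : ℕ in atTop, ρ n ≤ c * φ (Real.log n)) (hm : MonotoneOn φ (Set.Ici y))
    (h0 : ∀ x, 0 ≤ x → 0 ≤ φ x) : ∃ b, 0 ≤ b ∧ ∀ E : ℕ, y ≤ E → ∀ m ≤ (2 ^ E) ^ 2,
      ρ m ≤ b + c * φ (2 * E) := by
  obtain ⟨n0, hn⟩ := eventually_atTop.1 (h.and ((Real.tendsto_log_atTop.comp
    tendsto_natCast_atTop_atTop).eventually_ge_atTop y) |>.and (eventually_gt_atTop 0))
  have s0 : 0 ≤ ∑ i ∈ range n0, |ρ i| := sum_nonneg fun _ _ => abs_nonneg _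
  refine ⟨_, s0, fun E hE m hm' => ?_⟩
  have E0 : (0 : ℝ) ≤ E := Nat.cast_nonneg _
  rcases lt_or_ge m n0 with h1 | h1
  · exact le_add_of_le_of_nonneg ((le_abs_self _).trans (single_le_sum (f := fun i => |ρ i|)
      (fun _ _ => abs_nonneg _) (mem_range.2 h1))) (mul_nonneg c0 (h0 _ (by positivity)))
  · obtain ⟨⟨h2, h3⟩, h4⟩ := hn m h1
    refine le_add_of_nonneg_of_le s0 (h2.trans (mul_le_mul_of_nonneg_left
      (hm h3 (show y ≤ _ by linarith) ?_) c0))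
    have : Real.log m ≤ Real.log ((2 ^ E) ^ 2) :=
      Real.log_le_log (by exact_mod_cast h4) (by exact_mod_cast hm')
    rw [Real.log_pow, Real.log_pow] at this
    have := Real.log_two_lt_d9
    push_cast at *
    show Real.log m ≤ _
    nlinarith

theorem size_le_log {n : ℕ} (h : 3 ≤ n) : (n.size : ℝ) ≤ 3 * Real.log n := by
  obtain ⟨k, hk⟩ := Nat.exists_eq_add_one.2 (Nat.size_pos.2 (by omega : 0 < n))
  have h1 : Real.log (2 ^ k) ≤ Real.log n :=
    Real.log_le_log (by positivity) (by exact_mod_cast Nat.lt_size.1 (by omega))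
  have h2 : 1 ≤ Real.log n := by
    rw [Real.le_log_iff_exp_le (by positivity)]
    exact Real.exp_one_lt_d9.le.trans (le_trans (by norm_num) (Nat.cast_le.2 h))
  have := Real.log_two_gt_d9
  rw [Real.log_pow] at h1
  rw [hk]; push_cast
  nlinarith [Nat.cast_nonneg (α := ℝ) k]

theorem near_log_quasi {a : ℝ} (ha : a < 1) {ρ : ℕ → ℝ}
    (hρ : ρ =O[atTop] fun n => Real.log n ^ a) {A : List (ℚ × ℚ) → List (ℚ × ℚ × ℚ)}
    (hA : IsPolyTime A)
    (h : ∀ S, S.Nodup → Covers (A S) S ∧ ((A S).length : ℝ) ≤ ρ S.length * LC S) :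
    ∀ L ∈ NP, ∃ d : ℕ, L ∈ BPT fun n => 2 ^ Nat.log 2 n ^ d := by
  intro L hL
  obtain ⟨C, hC⟩ := core_exp hA h L hL
  obtain ⟨c, c0, hc⟩ := hρ.exists_pos
  obtain ⟨a', ha'⟩ : ∃ a', a' = max a 0 := ⟨_, rfl⟩
  have a0 : 0 ≤ a' := ha' ▸ le_max_right _ _
  have a1 : a' < 1 := ha' ▸ max_lt ha one_pos
  obtain ⟨b, b0, hb⟩ := sup_bound (ρ := ρ) (φ := fun x => x ^ a') (y := 0) c0.le (by
    filter_upwards [hc.bound, (Real.tendsto_log_atTop.comp
      tendsto_natCast_atTop_atTop).eventually_ge_atTop 1] with n h1 h2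
    rw [Real.norm_eq_abs, Real.norm_eq_abs, abs_of_nonneg (Real.rpow_nonneg (by linarith!) _)] at h1
    exact ((le_abs_self _).trans h1).trans (mul_le_mul_of_nonneg_left
      (Real.rpow_le_rpow_of_exponent_le h2 (ha' ▸ le_max_left _ _)) c0.le))
    (fun x hx y _ e => Real.rpow_le_rpow hx e a0) fun x hx => Real.rpow_nonneg hx _
  obtain ⟨d, hd⟩ := exists_nat_ge (2 / (1 - a'))
  have d0 : (0 : ℝ) < d := lt_of_lt_of_le (div_pos two_pos (by linarith)) hd
  have d1 : d ≠ 0 := (Nat.cast_pos.1 d0).ne'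
  have t1 : Tendsto (Nat.log 2) atTop atTop :=
    (Nat.log_monotone (b := 2)).tendsto_atTop_atTop fun k => ⟨2 ^ k, by simp⟩
  have t2 : Tendsto (fun n => ((Nat.log 2 n ^ d : ℕ) : ℝ)) atTop atTop :=
    tendsto_natCast_atTop_atTop.comp ((tendsto_pow_atTop d1).comp t1)
  have k0 : (0 : ℝ) < 1 / (C * (b + 2 * c + 1) * 81 + 1) := by positivity
  refine ⟨d, hC _ ?_⟩
  filter_upwards [t2.eventually ((isLittleO_log_rpow_rpow_atTop (3 : ℕ)
    (show 0 < (1 - a') / 2 by linarith)).bound k0), t1.eventually_ge_atTop 3] with n h1 h2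
  have h3 : 3 ≤ Nat.log 2 n ^ d := h2.trans (Nat.le_self_pow d1 _)
  have h4 := size_le_log h3
  have h5 : (n.size : ℝ) + 1 ≤ 3 * ((Nat.log 2 n ^ d : ℕ) : ℝ) ^ ((1 - a') / 2) := by
    have e1 : n.size ≤ Nat.log 2 n + 1 := Nat.size_le.2 (Nat.lt_pow_succ_log_self (by norm_num) _)
    have e2 : (Nat.log 2 n : ℝ) ≤ ((Nat.log 2 n ^ d : ℕ) : ℝ) ^ ((1 - a') / 2) := by
      rw [Nat.cast_pow, ← Real.rpow_natCast, ← Real.rpow_mul (Nat.cast_nonneg _)]
      refine Real.self_le_rpow_of_one_le (by exact_mod_cast (by omega)) ?_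
      rw [div_le_iff₀ (by linarith)] at hd
      linarith
    have : (n.size : ℝ) + 1 ≤ 3 * Nat.log 2 n := by exact_mod_cast (by omega)
    linarith
  refine ⟨_, by positivity, hb _ (Nat.cast_nonneg _), ?_⟩
  have h6 : (3 : ℝ) ≤ (Nat.log 2 n ^ d : ℕ) := by exact_mod_cast h3
  have l0 : (0 : ℝ) ≤ (Nat.log 2 n ^ d).size := Nat.cast_nonneg _
  generalize ((Nat.log 2 n ^ d).size : ℝ) = l at *
  generalize ((Nat.log 2 n ^ d : ℕ) : ℝ) = X at *
  have g0 : 0 ≤ Real.log X := Real.log_nonneg (by linarith)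
  have X0 : 0 < X := by linarith
  rw [Real.rpow_natCast, Real.norm_of_nonneg (by positivity), Real.norm_of_nonneg (by positivity)] at h1
  have g1 : 1 ≤ X ^ a' := Real.one_le_rpow (by linarith) a0
  have g2 : b + c * (2 * X) ^ a' + 1 ≤ (b + 2 * c + 1) * X ^ a' := by
    have := Real.rpow_le_self_of_one_le (x := 2) (by norm_num) a1.le
    rw [Real.mul_rpow (by norm_num) X0.le]
    nlinarith [mul_le_mul_of_nonneg_left (mul_le_mul_of_nonneg_right this (by linarith : 0 ≤ X ^ a')) c0.le]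
  have g3 : X ^ a' * X ^ ((1 - a') / 2) * X ^ ((1 - a') / 2) = X := by
    rw [← Real.rpow_add X0, ← Real.rpow_add X0]; ring_nf; exact Real.rpow_one X
  calc _ ≤ C * ((b + 2 * c + 1) * X ^ a') * (3 * Real.log X) ^ 3 * (3 * X ^ ((1 - a') / 2)) := by gcongr
    _ = C * (b + 2 * c + 1) * 81 * (X ^ a' * Real.log X ^ 3 * X ^ ((1 - a') / 2)) := by ring
    _ ≤ C * (b + 2 * c + 1) * 81 * (X ^ a' * (1 / (C * (b + 2 * c + 1) * 81 + 1) *
      X ^ ((1 - a') / 2)) * X ^ ((1 - a') / 2)) := by gcongr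
    _ = C * (b + 2 * c + 1) * 81 / (C * (b + 2 * c + 1) * 81 + 1) * X := by
      conv_rhs => rw [← g3]
      ring
    _ < _ := mul_lt_of_lt_one_left X0 ((div_lt_one (by positivity)).2 (lt_add_one _))

theorem near_log_subexp {ρ : ℕ → ℝ}
    (hρ : ρ =o[atTop] fun n => Real.log n / Real.log (Real.log n) ^ 4)
    {A : List (ℚ × ℚ) → List (ℚ × ℚ × ℚ)} (hA : IsPolyTime A)
    (h : ∀ S, S.Nodup → Covers (A S) S ∧ ((A S).length : ℝ) ≤ ρ S.length * LC S) :
    ∀ L ∈ NP, ∀ d : ℕ, 0 < d → L ∈ BPT fun n => 2 ^ ⌊(n : ℝ) ^ (1 / d : ℝ)⌋₊ := by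
  intro L hL d d0
  obtain ⟨C, hC⟩ := core_exp hA h L hL
  obtain ⟨K, hK⟩ : ∃ K : ℝ, K = C * (d + 1) * 81 := ⟨_, rfl⟩
  have K0 : 0 ≤ K := by rw [hK]; positivity
  obtain ⟨b, b0, hb⟩ := sup_bound (ρ := ρ) (φ := fun x => x / Real.log x ^ 4) (y := Real.exp 4)
    (c := 1 / (4 * K + 1)) (by positivity) (by
      filter_upwards [hρ.bound (c := 1 / (4 * K + 1)) (by positivity)] with n h1
      rw [Real.norm_eq_abs, Real.norm_of_nonneg (by positivity)] at h1
      exact (le_abs_self _).trans h1) (fun x hx y hy e => by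
      have x0 : 0 < x := (Real.exp_pos 4).trans_le hx
      have y0 : 0 < y := x0.trans_le e
      have l0 : 0 < Real.log y := lt_of_lt_of_le (by norm_num) ((Real.le_log_iff_exp_le y0).2 hy)
      have := pow_le_pow_left₀ (by positivity) (Real.log_div_self_rpow_antitoneOn
        (a := (4 : ℕ)⁻¹) (by norm_num) (by simpa using hx) (by simpa using hy) e) 4
      simp only [div_pow, Real.rpow_inv_natCast_pow x0.le (by norm_num : 4 ≠ 0),
        Real.rpow_inv_natCast_pow y0.le (by norm_num : 4 ≠ 0)] at this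
      simpa using inv_anti₀ (by positivity) this) fun x hx => by positivity
  have t1 : Tendsto (fun n : ℕ => ⌊(n : ℝ) ^ (1 / d : ℝ)⌋₊) atTop atTop :=
    tendsto_nat_floor_atTop.comp ((tendsto_rpow_atTop (by positivity)).comp
      tendsto_natCast_atTop_atTop)
  have t2 := tendsto_natCast_atTop_atTop (R := ℝ).comp t1
  refine hC _ ?_
  filter_upwards [t2.eventually ((Real.isLittleO_pow_log_id_atTop (n := 4)).bound
    (c := 1 / (2 * (K * (b + 1)) + 1)) (by positivity)), t1.eventually_ge_atTop 3,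
    t2.eventually_ge_atTop (Real.exp 4)] with n h1 h2 h3
  have h4 := size_le_log h2
  have h5 : n.size + 1 ≤ (d + 1) * ⌊(n : ℝ) ^ (1 / d : ℝ)⌋₊.size := by
    have e1 := Nat.lt_floor_add_one ((n : ℝ) ^ (1 / d : ℝ))
    have e2 := pow_lt_pow_left₀ e1 (by positivity) d0.ne'
    rw [one_div, Real.rpow_inv_natCast_pow (Nat.cast_nonneg _) d0.ne', ← one_div] at e2
    generalize ⌊(n : ℝ) ^ (1 / d : ℝ)⌋₊ = E at *
    have e3 : n < 2 ^ (E.size * d) := lt_of_lt_of_le (by exact_mod_cast e2)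
      (pow_mul 2 _ _ ▸ Nat.pow_le_pow_left (Nat.lt_size_self E) d)
    have := Nat.size_le.2 e3
    have : 0 < E.size := Nat.size_pos.2 (by omega)
    rw [add_mul, mul_comm]; omega
  refine ⟨_, by positivity, hb _ h3, ?_⟩
  simp only [Function.comp_apply, id] at h1 h3
  have h6 : (3 : ℝ) ≤ ⌊(n : ℝ) ^ (1 / d : ℝ)⌋₊ := by exact_mod_cast h2
  have h7 : (n.size : ℝ) + 1 ≤ (d + 1) * ⌊(n : ℝ) ^ (1 / d : ℝ)⌋₊.size := by exact_mod_cast h5
  have l0 : (0 : ℝ) ≤ ⌊(n : ℝ) ^ (1 / d : ℝ)⌋₊.size := Nat.cast_nonneg _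
  generalize (⌊(n : ℝ) ^ (1 / d : ℝ)⌋₊.size : ℝ) = l at *
  generalize (⌊(n : ℝ) ^ (1 / d : ℝ)⌋₊ : ℝ) = X at *
  have g0 : 0 < Real.log X := Real.log_pos (by linarith)
  have X0 : 0 < X := by linarith
  rw [Real.norm_of_nonneg (by positivity), Real.norm_of_nonneg X0.le] at h1
  have g1 : Real.log X ≤ Real.log (2 * X) := Real.log_le_log X0 (by linarith)
  have g2 : K / (4 * K + 1) ≤ 1 / 4 := by rw [div_le_iff₀ (by positivity)]; linarith
  have g3 : K * (b + 1) / (2 * (K * (b + 1)) + 1) < 1 / 2 := by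
    rw [div_lt_iff₀ (by positivity)]; linarith
  calc _ ≤ C * (b + 1 / (4 * K + 1) * (2 * X / Real.log X ^ 4) + 1) * (3 * Real.log X) ^ 3 *
      ((d + 1) * (3 * Real.log X)) := by gcongr; exact h7.trans (by gcongr)
    _ = K * (b + 1) * Real.log X ^ 4 + K / (4 * K + 1) * (2 * X) := by
      rw [hK]; field_simp; ring
    _ ≤ K * (b + 1) * (1 / (2 * (K * (b + 1)) + 1) * X) + 1 / 4 * (2 * X) := by gcongr
    _ < _ := by
      rw [← mul_assoc, mul_one_div]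
      nlinarith

end Pool.Agent.Lib.MP_67c02a_lc
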