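import Pool.Agent.Lib.MP_67c02a_lc.Wt

/-!
The counting inequality for a fixed order of the lines.
-/

namespace Pool.Agent.Lib.MP_67c02a_lc

open Finset Function

set_option maxHeartbeats 400000

theorem sum_lines {ι W P : Type} [Fintype ι] [Fintype W] [Fintype P] [DecidableEq W]
    (φ : ι → P → W) (F : ι × W → P → ℝ) :
    ∑ p, ∑ i, F (i, φ i p) p = ∑ l : ι × W, ∑ p with φ l.1 p = l.2, F l p := by
  rw [sum_comm, Fintype.sum_prod_type]
  refine sum_congr rfl fun i _ => ?_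
  rw [← sum_fiberwise univ (φ i)]
  exact sum_congr rfl fun w _ => sum_congr rfl fun p hp => by rw [(mem_filter.1 hp).2]

section
variable {Ω ι W Q P τ : Type} [Fintype Ω] [Nonempty Ω] [Fintype ι] [DecidableEq ι] [Fintype W]
  [DecidableEq W] [Fintype Q] [Fintype P] [DecidableEq P] {X : Ω → ι × W → Q × Bool}
  {φ : ι → P → W} {key : ι × W → ℕ} {θ : ℝ}

/-- total weight lost at lines whose conditional probability dropped -/
theorem exit_le (hkey : Injective key) (h0 : 0 < θ) (h1 : θ ≤ 1) {z : P → Ω → ι → Q}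
    {c : P → Ω → Prop} {m : P → Prop} {n : P → ℕ} {tm : ι × W → ℕ}
    (hz : ∀ p, Meas X (fun l => key l < n p) (z p)) (hc : ∀ p, Meas X (fun l => key l < n p) (c p))
    (hn : ∀ p ω, c p ω → ∀ i, n p ≤ key (i, φ i p)) (hm : ∀ p ω, c p ω → m p)
    (hν : ∀ p ω, c p ω → ∀ i, 2 * θ ≤ cnu X key (tm (i, φ i p)) (i, φ i p) (z p ω i) ω)
    {D η : ℝ} (η0 : 0 < η) (hD : ∀ l : ι × W, ((univ.filter fun p => φ l.1 p = l.2).card : ℝ) ≤ D)
    (hl : ∀ p p' i j, p ≠ p' → φ i p = φ i p' → j ≠ i → φ j p ≠ φ j p') :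
    ∑ p, ∑ i, av (fun ω => ind (c p ω ∧ cnu X key (key (i, φ i p)) (i, φ i p) (z p ω i) ω < θ) *
      Wt X φ key θ (z p) (c p) p univ ω) ≤
    (∑ l : ι × W, (∑ p with φ l.1 p = l.2, ind (m p)) *
      ∑ a, av fun ω => (cnu X key (key l) l a ω - cnu X key (tm l) l a ω) ^ 2) / θ ^ 2 +
    Fintype.card (ι × W) * (Fintype.card Q * (η + D * (1 / θ) ^ Fintype.card ι / (4 * η))) := by
  have A : ∀ p, Adm X φ key (z p) (c p) p := fun p => ⟨n p, hz p, hc p, hn p⟩
  simp only [fun p i => av_bad hkey h0 (A p) i]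
  rw [sum_lines φ fun l p => av fun ω => ind (c p ω ∧ cnu X key (key l) l (z p ω l.1) ω < θ) *
    Wt X φ key θ (z p) (c p) p (univ.filter fun j => key (j, φ j p) < key l) ω, sum_div,
    ← nsmul_eq_mul, ← card_univ, ← sum_const, ← sum_add_distrib]
  refine sum_le_sum fun l _ => ?_
  have e : ∀ p ω, ind (c p ω ∧ cnu X key (key l) l (z p ω l.1) ω < θ) =
      ∑ a, ind (cnu X key (key l) l a ω < θ) * ind (c p ω ∧ z p ω l.1 = a) := fun p ω => by
    rw [sum_eq_single (z p ω l.1) (fun a _ h => by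
      rw [ind_neg (p := c p ω ∧ z p ω l.1 = a) fun e => h e.2.symm, mul_zero])
      (by simp), ← ind_and]
    exact ind_congr (by tauto)
  simp only [e, sum_mul, av_sum]
  rw [sum_comm, ← sum_mul, mul_sum, sum_div, ← nsmul_eq_mul, ← card_univ, ← sum_const,
    ← sum_add_distrib]
  refine sum_le_sum fun a _ => ?_
  obtain ⟨Y, Y0, Y1, Y2⟩ := av_count (c := c) (c' := fun p ω => c p ω ∧ z p ω l.1 = a) hkey h0 h1
    (fun _ _ h => h.1) (fun p => ⟨n p, hz p, (hc p).map₂ (hz p) fun c z => c ∧ z l.1 = a,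
      fun ω h => hn p ω h.1⟩) (fun p => univ.filter fun j => key (j, φ j p) < key l)
    (univ.filter fun p => φ l.1 p = l.2) (fun p hp p' hp' hne i hi =>
      hl p p' l.1 i hne ((mem_filter.1 hp).2.trans (mem_filter.1 hp').2.symm) fun e => by
        have := (mem_filter.1 hi).2
        rw [e, (mem_filter.1 hp).2] at this
        exact lt_irrefl _ this) η0
  rw [← av_sum, ← av_mul_left, ← av_div]
  refine le_trans (av_mono (g := fun ω => (∑ p with φ l.1 p = l.2, ind (m p)) *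
    (cnu X key (key l) l a ω - cnu X key (tm l) l a ω) ^ 2 / θ ^ 2 + η + Y ω) fun ω => ?_) ?_
  · simp only [mul_assoc, ← mul_sum]
    have s0 : 0 ≤ ∑ p with φ l.1 p = l.2, ind (m p) := sum_nonneg fun _ _ => ind_nonneg _
    by_cases hb : cnu X key (key l) l a ω < θ
    swap
    · rw [ind_neg hb, zero_mul]; have := Y0 ω; positivity
    rw [ind_pos hb, one_mul]
    refine (Y2 ω).trans (add_le_add_left (add_le_add_left ?_ _) _)
    rw [sum_mul, sum_div]
    refine sum_le_sum fun p hp => ?_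
    by_cases h : c p ω ∧ z p ω l.1 = a
    · have := hν p ω h.1 l.1
      rw [(mem_filter.1 hp).2, h.2] at this
      rw [ind_pos h, ind_pos (hm p ω h.1), one_mul, one_le_div (by positivity)]
      nlinarith
    · rw [ind_neg h]; have := ind_nonneg (m p); positivity
  · rw [av_add, av_add, av_const, add_assoc]
    refine add_le_add_right (add_le_add_right (Y1.trans ?_) _) _
    gcongr
    exact hD l

/-- total weight on the unlabelled lines of the cover -/
theorem other_le (hkey : Injective key) (h0 : 0 < θ) (h1 : θ ≤ 1) {z : P → Ω → ι → Q}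
    {c : P → Ω → Prop} {m : P → Prop} (A : ∀ p, Adm X φ key (z p) (c p) p)
    (hm : ∀ p ω, c p ω → m p) (T : Finset τ) (U : τ → Finset P) {E k η : ℝ} (η0 : 0 < η)
    (hE : ∀ t ∈ T, ((U t).card : ℝ) ≤ E)
    (hU : ∀ t ∈ T, ∀ p ∈ U t, ∀ p' ∈ U t, p ≠ p' → ∀ i, φ i p ≠ φ i p') (V : Ω → Finset τ)
    (hV : ∀ ω, V ω ⊆ T) (hk : ∀ ω, ((V ω).card : ℝ) ≤ k) :
    av (fun ω => ∑ t ∈ V ω, ∑ p ∈ U t, ind (c p ω) * Wt X φ key θ (z p) (c p) p univ ω) ≤
      av (fun ω => ∑ t ∈ V ω, ∑ p ∈ U t, ind (m p)) + k * η +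
        T.card * (E * (1 / θ) ^ Fintype.card ι / (4 * η)) := by
  choose! Y Y0 Y1 Y2 using fun t ht => av_count (c := c) (c' := c) hkey h0 h1 (fun _ _ h => h) A
    (fun _ => univ) (U t) (fun p hp p' hp' hne i _ => hU t ht p hp p' hp' hne i) η0
  refine le_trans (av_mono (g := fun ω => ∑ t ∈ V ω, ∑ p ∈ U t, ind (m p) + k * η +
    ∑ t ∈ T, Y t ω) fun ω => ?_) ?_
  · refine (sum_le_sum fun t ht => Y2 t (hV ω ht) ω).trans ?_
    rw [sum_add_distrib, sum_add_distrib, sum_const, nsmul_eq_mul]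
    exact add_le_add (add_le_add (sum_le_sum fun _ _ => sum_le_sum fun p _ => ind_mono (hm p ω))
      (mul_le_mul_of_nonneg_right (hk ω) η0.le))
      (sum_le_sum_of_subset_of_nonneg (hV ω) fun t ht _ => Y0 t ht ω)
  · rw [av_add, av_add, av_const, av_sum, ← nsmul_eq_mul]
    refine add_le_add_right (sum_le_card_nsmul _ _ _ fun t ht => (Y1 t ht).trans ?_) _
    gcongr
    exact hE t ht

theorem fixed [Inhabited ι] [Nonempty Q] (hkey : Injective key) (h0 : 0 < θ) (h1 : θ ≤ 1)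
    {cls : ι × W → ℕ} {M : ℕ} (hcl : ∀ l, cls l * M ≤ key l) {H : (ι → Q) → Prop} {γ : ℝ}
    (γ0 : 0 < γ) (hH : ∀ C : ι → Q → Prop, ∑ i, av (fun a => ind (C i a)) ≤ γ →
      ∃ z, H z ∧ ∀ i, ¬ C i (z i)) {D E F k η η' : ℝ} (η0 : 0 < η) (η1 : 0 < η')
    (hD : ∀ l : ι × W, ((univ.filter fun p => φ l.1 p = l.2).card : ℝ) ≤ D)
    (hl : ∀ p p' i j, p ≠ p' → φ i p = φ i p' → j ≠ i → φ j p ≠ φ j p')
    (T : Finset τ) (U : τ → Finset P) (hE : ∀ t ∈ T, ((U t).card : ℝ) ≤ E)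
    (hU : ∀ t ∈ T, ∀ p ∈ U t, ∀ p' ∈ U t, p ≠ p' → ∀ i, φ i p ≠ φ i p') (V : Ω → Finset τ)
    (hV : ∀ ω, V ω ⊆ T) (hk : ∀ ω, ((V ω).card : ℝ) ≤ k) (R : Ω → Finset P)
    (hR : ∀ ω, ((R ω).card : ℝ) ≤ F)
    (hcov : ∀ ω p, H (fun i => (X ω (i, φ i p)).1) →
      (∃ i, (X ω (i, φ i p)).2 = true) ∨ p ∈ R ω ∨ ∃ t ∈ V ω, p ∈ U t) :
    ∑ p, ind (Mono φ cls p) ≤
      (∑ l : ι × W, (∑ p with φ l.1 p = l.2, ind (Mono φ cls p)) *
        av fun ω => av fun a => ind (cnu X key (cls l * M) l a ω < 2 * θ)) / γ +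
      ((∑ l : ι × W, (∑ p with φ l.1 p = l.2, ind (Mono φ cls p)) *
        ∑ a, av fun ω => (cnu X key (key l) l a ω - cnu X key (cls l * M) l a ω) ^ 2) / θ ^ 2 +
      Fintype.card (ι × W) * (Fintype.card Q * (η + D * (1 / θ) ^ Fintype.card ι / (4 * η))) +
      F * (1 / θ) ^ Fintype.card ι +
      (av (fun ω => ∑ t ∈ V ω, ∑ p ∈ U t, ind (Mono φ cls p)) + k * η' +
        T.card * (E * (1 / θ) ^ Fintype.card ι / (4 * η')))) := by
  choose! ζ hζ using hH
  obtain ⟨n, hn⟩ : ∃ n : P → ℕ, ∀ p, n p = cls (default, φ default p) * M := ⟨_, fun _ => rfl⟩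
  obtain ⟨C, hC⟩ : ∃ C : P → Ω → ι → Q → Prop, ∀ p ω, C p ω =
    fun i a => cnu X key (n p) (i, φ i p) a ω < 2 * θ := ⟨_, fun _ _ => rfl⟩
  have mC : ∀ p, Meas X (fun l => key l < n p) (C p) := fun p ω ω' a => by
    simp only [hC, cnu, fun f => meas_cE X _ f ω ω' a]
  obtain ⟨c, hc⟩ : ∃ c : P → Ω → Prop, ∀ p ω, c p ω =
    (Mono φ cls p ∧ ∑ i, av (fun a => ind (C p ω i a)) ≤ γ) := ⟨_, fun _ _ => rfl⟩
  have mc : ∀ p, Meas X (fun l => key l < n p) (c p) := fun p ω ω' a => by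
    rw [hc, hc, mC p ω ω' a]
  have mz : ∀ p, Meas X (fun l => key l < n p) fun ω => ζ (C p ω) := fun p => (mC p).map ζ
  have hm : ∀ p ω, c p ω → Mono φ cls p := fun p ω h => (hc p ω ▸ h).1
  have e1 : ∀ p, Mono φ cls p → ∀ i, cls (i, φ i p) * M = n p := fun p h i => by
    rw [hn, h i default]
  have e2 : ∀ p ω, c p ω → ∀ i, n p ≤ key (i, φ i p) := fun p ω h i =>
    e1 p (hm p ω h) i ▸ hcl _
  have A : ∀ p, Adm X φ key (fun ω => ζ (C p ω)) (c p) p := fun p => ⟨n p, mz p, mc p, e2 p⟩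
  have B1 := exit_le (tm := fun l => cls l * M) hkey h0 h1 mz mc e2 hm (fun p ω h i => by
    have := (hζ _ (hc p ω ▸ h).2).2 i
    rw [e1 p (hm p ω h) i]
    rw [hC] at this ⊢
    exact not_lt.1 this) η0 hD hl
  have B2 := other_le hkey h0 h1 A hm T U η1 hE hU V hV hk
  have B3 : ∑ p, ind (Mono φ cls p) ≤ (∑ l : ι × W, (∑ p with φ l.1 p = l.2, ind (Mono φ cls p)) *
      av fun ω => av fun a => ind (cnu X key (cls l * M) l a ω < 2 * θ)) / γ +
      ∑ p, av fun ω => ind (c p ω) := by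
    simp only [sum_mul]
    rw [← sum_lines φ fun l p => ind (Mono φ cls p) * av fun ω => av fun a =>
      ind (cnu X key (cls l * M) l a ω < 2 * θ), sum_div, ← sum_add_distrib]
    refine sum_le_sum fun p _ => ?_
    by_cases h : Mono φ cls p
    · simp only [ind_pos h, one_mul, e1 p h]
      rw [← av_sum, ← av_div, ← av_add]
      refine le_av fun ω => ?_
      have s0 : 0 ≤ ∑ i, av fun a => ind (cnu X key (n p) (i, φ i p) a ω < 2 * θ) :=
        sum_nonneg fun _ _ => av_nonneg fun _ => ind_nonneg _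
      by_cases h' : c p ω
      · rw [ind_pos h']; exact le_add_of_nonneg_left (by positivity)
      · rw [ind_neg h', add_zero, one_le_div γ0]
        rw [hc, hC] at h'
        exact (not_le.1 fun e => h' ⟨h, e⟩).le
    · simp only [ind_neg h, zero_mul, sum_const_zero, zero_div, zero_add]
      exact av_nonneg fun _ => ind_nonneg _
  refine B3.trans (add_le_add_right (le_trans ?_ (add_le_add (add_le_add_left B1 _) B2)) _)
  have B4 : ∀ p, av (fun ω => ind (c p ω)) = av fun ω => ind (c p ω) *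
      Wt X φ key θ (fun ω => ζ (C p ω)) (c p) p univ ω := fun p => by
    by_cases h : ∃ ω, c p ω
    · obtain ⟨ω, h⟩ := h
      exact (av_Wt hkey h0 (A p) univ (fun i _ => e2 p ω h i) ((mc p).map ind)).symm
    · push Not at h
      simp [ind, h]
  simp only [B4, ← av_sum]
  rw [← av_const (α := Ω) (F * _), ← av_add, ← av_add]
  refine av_mono fun ω => ?_
  have w0 := fun p => Wt_nonneg (X := X) (φ := φ) (key := key) (θ := θ) (fun ω => ζ (C p ω))
    (c p) p univ ω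
  have w1 := fun p => Wt_le (X := X) (φ := φ) (key := key) h0 h1 (fun ω => ζ (C p ω))
    (c p) p univ ω
  have B5 : ∑ p, ind (p ∈ R ω) * (1 / θ) ^ Fintype.card ι ≤ F * (1 / θ) ^ Fintype.card ι := by
    rw [← sum_mul, sum_ind, filter_mem_eq_inter, univ_inter]
    exact mul_le_mul_of_nonneg_right (hR ω) (by positivity)
  have B6 : ∀ t (G : P → ℝ), ∑ p ∈ U t, G p = ∑ p, ind (p ∈ U t) * G p := fun t G => by
    simp [ind]
  simp only [B6]
  rw [sum_comm (s := V ω)]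
  refine le_trans ?_ (add_le_add_left (add_le_add_right B5 _) _)
  rw [← sum_add_distrib, ← sum_add_distrib]
  refine sum_le_sum fun p _ => ?_
  have t1 : ∀ i, 0 ≤ ind (c p ω ∧ cnu X key (key (i, φ i p)) (i, φ i p) (ζ (C p ω) i) ω < θ) *
      Wt X φ key θ (fun ω => ζ (C p ω)) (c p) p univ ω := fun i => mul_nonneg (ind_nonneg _) (w0 p)
  have t2 : ∀ t, 0 ≤ ind (p ∈ U t) * (ind (c p ω) *
      Wt X φ key θ (fun ω => ζ (C p ω)) (c p) p univ ω) :=
    fun t => mul_nonneg (ind_nonneg _) (mul_nonneg (ind_nonneg _) (w0 p))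
  have t3 : 0 ≤ ind (p ∈ R ω) * (1 / θ) ^ Fintype.card ι := mul_nonneg (ind_nonneg _) (by positivity)
  have s1 := sum_nonneg fun i (_ : i ∈ univ) => t1 i
  have s2 := sum_nonneg fun t (_ : t ∈ V ω) => t2 t
  by_cases h : c p ω
  swap
  · rw [ind_neg h, zero_mul] at *; linarith
  by_cases hb : ∃ i, cnu X key (key (i, φ i p)) (i, φ i p) (ζ (C p ω) i) ω < θ
  · obtain ⟨i, hb⟩ := hb
    have := single_le_sum (fun i _ => t1 i) (mem_univ i)
    rw [ind_pos ⟨h, hb⟩] at this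
    rw [ind_pos h] at *
    linarith
  push Not at hb
  by_cases hw : ∀ i, X ω (i, φ i p) = (ζ (C p ω) i, false)
  swap
  · push Not at hw
    obtain ⟨i, hw⟩ := hw
    have : Wt X φ key θ (fun ω => ζ (C p ω)) (c p) p univ ω = 0 := prod_eq_zero (mem_univ i) (by
      rw [fc, fac, fc_bad ((mz p).mono fun l hl => hl.trans_le (e2 p ω h i)), if_pos ⟨h, hb i⟩,
        ind_neg hw, zero_div])
    have e : ind (c p ω) * Wt X φ key θ (fun ω => ζ (C p ω)) (c p) p univ ω = 0 := by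
      rw [this, mul_zero]
    linarith
  rcases hcov ω p (by simpa only [hw] using (hζ _ (hc p ω ▸ h).2).1) with ⟨i, e⟩ | e | ⟨t, ht, e⟩
  · simp [hw] at e
  · have := w1 p
    rw [ind_pos h, ind_pos e] at *
    linarith
  · have := single_le_sum (fun t _ => t2 t) ht
    rw [ind_pos e, one_mul] at this
    linarith

end

end Pool.Agent.Lib.MP_67c02a_lc
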