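import Mathlib

/-!
An embedding of a grid into the integer plane whose only collinear triples lie on grid lines.
-/

namespace Pool.Agent.Lib.MP_67c02a_lc

open Finset

theorem zero_digits {M : ℤ} : ∀ {n : ℕ} (f : Fin n → ℤ), (∀ i, |f i| < M) →
    ∑ i, f i * M ^ (i : ℕ) = 0 → ∀ i, f i = 0
  | 0, _, _, _ => fun i => i.elim0
  | n + 1, f, h, e => by
    have hM : 0 < M := (abs_nonneg _).trans_lt (h 0)
    have e1 : f 0 + M * ∑ i : Fin n, f i.succ * M ^ (i : ℕ) = 0 := by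
      rw [← e, Fin.sum_univ_succ, mul_sum]
      simp only [Fin.val_zero, pow_zero, mul_one, Fin.val_succ, pow_succ]
      congr 1
      exact sum_congr rfl fun i _ => by ring
    have e2 : f 0 = 0 := Int.eq_zero_of_abs_lt_dvd 
      ⟨-∑ i : Fin n, f i.succ * M ^ (i : ℕ), by linear_combination e1⟩ (h 0)
    rw [e2, zero_add, mul_eq_zero] at e1
    have := zero_digits (fun i => f i.succ) (fun i => h _) (e1.resolve_left hM.ne')
    exact fun i => Fin.cases e2 this i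

def pW (N : ℤ) : ℤ := 4 * N ^ 3
def pM (t : ℕ) (N : ℤ) : ℤ := 8 * pW N ^ (2 * t) * N ^ 4 + 1
def pL (t : ℕ) (N : ℤ) : ℤ := t * pM t N ^ (t + 1) + 1
def th (N : ℤ) (i : ℕ) (a : ℤ) : ℤ := a + pW N ^ (i + 1) * a ^ 2
def emb (t : ℕ) (N : ℤ) (x : Fin t → ℤ) : ℤ × ℤ :=
  (∑ i : Fin t, th N i (x i) * pM t N ^ (i : ℕ), ∑ i : Fin t, th N i (x i) * pL t N ^ (i : ℕ))

variable {N : ℤ}

theorem one_le_pW (hN : 1 ≤ N) : 1 ≤ pW N := by
  have := one_le_pow₀ (n := 3) hN
  unfold pW; linarith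

theorem th_sub (i : ℕ) (a b : ℤ) :
    th N i b - th N i a = (b - a) * (1 + pW N ^ (i + 1) * (a + b)) := by unfold th; ring

theorem th_inj (hN : 1 ≤ N) {i : ℕ} {a b : ℤ} (ha : 0 ≤ a) (hb : 0 ≤ b)
    (h : th N i b - th N i a = 0) : a = b := by
  have := one_le_pW hN
  have h1 : 0 < 1 + pW N ^ (i + 1) * (a + b) := by positivity
  rw [th_sub, mul_eq_zero] at h
  have := h.resolve_right h1.ne'
  omega

theorem th_abs (hN : 1 ≤ N) (i : ℕ) {a b : ℤ} (ha : 0 ≤ a) (hb : 0 ≤ b) (ha' : a < N)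
    (hb' : b < N) : |th N i b - th N i a| ≤ 2 * pW N ^ (i + 1) * N ^ 2 := by
  have h0 := one_le_pow₀ (n := i + 1) (one_le_pW hN)
  have key : ∀ a, 0 ≤ a → a < N → 0 ≤ th N i a ∧ th N i a ≤ 2 * pW N ^ (i + 1) * N ^ 2 := by
    intro a h1 h2
    unfold th
    refine ⟨by positivity, ?_⟩
    have h3 : a ^ 2 ≤ N ^ 2 := by nlinarith
    have h4 : a ≤ N ^ 2 := by nlinarith
    nlinarith
  have := key a ha ha'
  have := key b hb hb'
  rw [abs_le]; constructor <;> linarith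

theorem two_coord (hN : 1 ≤ N) {i k : ℕ} (hik : i < k) {D D' a b c : ℤ}
    (hD : |D| ≤ 2 * pW N ^ (i + 1) * N ^ 2) (hD' : |D'| ≤ 2 * pW N ^ (i + 1) * N ^ 2)
    (ha : 0 ≤ a) (hb : 0 ≤ b) (hc : 0 ≤ c) (ha' : a < N) (hb' : b < N) (hc' : c < N)
    (h : D * (th N k c - th N k a) - (th N k b - th N k a) * D' = 0) :
    D * (c - a) * (c - b) = 0 := by
  have h0 := one_le_pow₀ (n := i + 1) (one_le_pW hN)
  have h1 : |D * (c - a) - (b - a) * D'| < pW N ^ (k + 1) := by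
    have e1 : |c - a| ≤ N - 1 := by rw [abs_le]; constructor <;> linarith
    have e2 : |b - a| ≤ N - 1 := by rw [abs_le]; constructor <;> linarith
    have e3 : |D * (c - a)| ≤ 2 * pW N ^ (i + 1) * N ^ 2 * (N - 1) := by
      rw [abs_mul]; exact mul_le_mul hD e1 (abs_nonneg _) (by positivity)
    have e4 : |(b - a) * D'| ≤ 2 * pW N ^ (i + 1) * N ^ 2 * (N - 1) := by
      rw [abs_mul, mul_comm]; exact mul_le_mul hD' e2 (abs_nonneg _) (by positivity)
    have e5 : pW N ^ (i + 1 + 1) ≤ pW N ^ (k + 1) := pow_le_pow_right₀ (one_le_pW hN) (by omega)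
    have e6 : pW N ^ (i + 1 + 1) = pW N ^ (i + 1) * (4 * N ^ 3) := pow_succ _ _
    have e7 : 0 < pW N ^ (i + 1) * N ^ 2 := by positivity
    have := abs_sub (D * (c - a)) ((b - a) * D')
    nlinarith
  rw [th_sub, th_sub] at h
  have h2 : D * (c - a) - (b - a) * D' = 0 := Int.eq_zero_of_abs_lt_dvd
    ⟨-(D * (c - a) * (a + c) - (b - a) * D' * (a + b)), by linear_combination h⟩ h1
  have h3 : pW N ^ (k + 1) * (D * (c - a) * (c - b)) = 0 := by
    linear_combination h - (1 + pW N ^ (k + 1) * (a + b)) * h2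
  exact (mul_eq_zero.1 h3).resolve_left (pow_pos (by linarith [one_le_pW hN]) _).ne'

theorem one_le_pM (t : ℕ) (hN : 1 ≤ N) : 1 ≤ pM t N := by
  have := one_le_pW hN
  have : 0 ≤ 8 * pW N ^ (2 * t) * N ^ 4 := by positivity
  unfold pM; linarith

theorem one_le_pL (t : ℕ) (hN : 1 ≤ N) : 1 ≤ pL t N := by
  have := one_le_pM t hN
  have : 0 ≤ t * pM t N ^ (t + 1) := by positivity
  unfold pL; linarith

theorem collinear {t : ℕ} (hN : 1 ≤ N) {x y z : Fin t → ℤ} (x0 : ∀ i, 0 ≤ x i) (y0 : ∀ i, 0 ≤ y i)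
    (z0 : ∀ i, 0 ≤ z i) (x1 : ∀ i, x i < N) (y1 : ∀ i, y i < N) (z1 : ∀ i, z i < N)
    (hxy : x ≠ y) (hxz : x ≠ z) (hyz : y ≠ z) {a b c : ℝ} (hab : a ≠ 0 ∨ b ≠ 0)
    (hx : a * (emb t N x).1 + b * (emb t N x).2 = c)
    (hy : a * (emb t N y).1 + b * (emb t N y).2 = c)
    (hz : a * (emb t N z).1 + b * (emb t N z).2 = c) :
    ∃ j, ∀ i, i ≠ j → x i = y i ∧ x i = z i := by
  have hdet : ((emb t N y).1 - (emb t N x).1) * ((emb t N z).2 - (emb t N x).2)
      - ((emb t N z).1 - (emb t N x).1) * ((emb t N y).2 - (emb t N x).2) = 0 := by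
    have : (((emb t N y).1 - (emb t N x).1) * ((emb t N z).2 - (emb t N x).2)
      - ((emb t N z).1 - (emb t N x).1) * ((emb t N y).2 - (emb t N x).2) : ℝ) = 0 := by
      rcases hab with h | h
      · apply mul_left_cancel₀ h
        linear_combination (((emb t N z).2 : ℝ) - (emb t N x).2) * (hy - hx)
          - (((emb t N y).2 : ℝ) - (emb t N x).2) * (hz - hx)
      · apply mul_left_cancel₀ h
        linear_combination (((emb t N y).1 : ℝ) - (emb t N x).1) * (hz - hx)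
          - (((emb t N z).1 : ℝ) - (emb t N x).1) * (hy - hx)
    exact_mod_cast this
  set D : Fin t → ℤ := fun i => th N i (y i) - th N i (x i) with hD
  set E : Fin t → ℤ := fun i => th N i (z i) - th N i (x i) with hE
  have D1 : ∀ i, |D i| ≤ 2 * pW N ^ ((i : ℕ) + 1) * N ^ 2 := fun i =>
    th_abs hN i (x0 i) (y0 i) (x1 i) (y1 i)
  have E1 : ∀ i, |E i| ≤ 2 * pW N ^ ((i : ℕ) + 1) * N ^ 2 := fun i =>
    th_abs hN i (x0 i) (z0 i) (x1 i) (z1 i)
  have hW := one_le_pW hN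
  have hM := one_le_pM t hN
  have B : ∀ i : Fin t, 2 * pW N ^ ((i : ℕ) + 1) * N ^ 2 ≤ 2 * pW N ^ t * N ^ 2 := fun i => by
    have := pow_le_pow_right₀ hW (show (i : ℕ) + 1 ≤ t from i.2)
    gcongr
  have hμ : ∀ i k, |D i * E k - D k * E i| < pM t N := fun i k => by
    have e1 : |D i * E k| ≤ 2 * pW N ^ t * N ^ 2 * (2 * pW N ^ t * N ^ 2) := by
      rw [abs_mul]
      exact mul_le_mul ((D1 i).trans (B i)) ((E1 k).trans (B k)) (abs_nonneg _) (by positivity)
    have e2 : |D k * E i| ≤ 2 * pW N ^ t * N ^ 2 * (2 * pW N ^ t * N ^ 2) := by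
      rw [abs_mul]
      exact mul_le_mul ((D1 k).trans (B k)) ((E1 i).trans (B i)) (abs_nonneg _) (by positivity)
    have := abs_sub (D i * E k) (D k * E i)
    have e3 : pM t N = 2 * (2 * pW N ^ t * N ^ 2 * (2 * pW N ^ t * N ^ 2)) + 1 := by
      unfold pM; ring
    linarith
  have hz : ∀ k i, D i * E k - D k * E i = 0 := fun k =>
    zero_digits (fun i => D i * E k - D k * E i) (fun i => hμ i k) (zero_digits (M := pL t N)
      (fun k => ∑ i : Fin t, (D i * E k - D k * E i) * pM t N ^ (i : ℕ)) (fun k => by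
        refine (abs_sum_le_sum_abs _ _).trans_lt ((sum_le_card_nsmul _ _ (pM t N ^ (t + 1))
          fun i _ => ?_).trans_lt (by simp [pL]))
        rw [abs_mul, pow_succ', abs_of_nonneg (by positivity : 0 ≤ pM t N ^ (i : ℕ))]
        exact mul_le_mul (hμ i k).le (pow_le_pow_right₀ hM i.2.le) (by positivity) (by linarith))
      (by
        rw [← hdet]
        simp only [emb, ← sum_sub_distrib, ← sub_mul]
        rw [sum_mul_sum, sum_mul_sum, ← sum_sub_distrib]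
        simp only [← sum_sub_distrib, sum_mul]
        rw [sum_comm]
        exact sum_congr rfl fun i _ => sum_congr rfl fun k _ => by simp only [hD, hE]; ring) k)
  obtain ⟨k1, hk1⟩ := Function.ne_iff.1 hxy
  obtain ⟨k2, hk2⟩ := Function.ne_iff.1 hxz
  obtain ⟨k3, hk3⟩ := Function.ne_iff.1 hyz
  have n1 : D k1 ≠ 0 := fun h => hk1 (th_inj hN (x0 _) (y0 _) h)
  have n2 : E k2 ≠ 0 := fun h => hk2 (th_inj hN (x0 _) (z0 _) h)
  have n3 : E k3 - D k3 ≠ 0 := fun h => hk3 (th_inj (i := k3) hN (y0 _) (z0 _)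
    (by simp only [hD, hE] at h; linarith))
  have key : ∀ i, ¬ (x i = y i ∧ x i = z i) → D i ≠ 0 ∧ z i - x i ≠ 0 ∧ z i - y i ≠ 0 := by
    intro i hi
    have a1 : D i ≠ 0 := fun h => by
      have := hz k1 i
      rw [h, zero_mul, zero_sub, neg_eq_zero, mul_eq_zero] at this
      exact hi ⟨th_inj hN (x0 _) (y0 _) h, th_inj hN (x0 _) (z0 _) (this.resolve_left n1)⟩
    refine ⟨a1, fun h => ?_, fun h => ?_⟩
    · have e : E i = 0 := by simp only [hE]; rw [sub_eq_zero.1 h, sub_self]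
      have := hz k2 i
      rw [e, mul_zero, sub_zero] at this
      exact mul_ne_zero a1 n2 this
    · have e : E i = D i := by simp only [hE, hD]; rw [sub_eq_zero.1 h]
      have := hz k3 i
      rw [e] at this
      exact mul_ne_zero a1 n3 (by linear_combination this)
  have main : ∀ i k : Fin t, i < k → ¬ (x i = y i ∧ x i = z i) → ¬ (x k = y k ∧ x k = z k) →
      False := fun i k hik hi hk =>
    mul_ne_zero (mul_ne_zero (key i hi).1 (key k hk).2.1) (key k hk).2.2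
      (two_coord hN hik (D1 i) (E1 i) (x0 k) (y0 k) (z0 k) (x1 k) (y1 k) (z1 k) (hz k i))
  refine ⟨k1, fun i hi => by_contra fun h => ?_⟩
  rcases lt_or_gt_of_ne hi with h' | h'
  · exact main i k1 h' h fun e => hk1 e.1
  · exact main k1 i h' (fun e => hk1 e.1) h

theorem emb_line {t : ℕ} (j : Fin t) {x y : Fin t → ℤ} (h : ∀ i, i ≠ j → y i = x i) :
    pL t N ^ (j : ℕ) * (emb t N y).1 - pM t N ^ (j : ℕ) * (emb t N y).2
      = pL t N ^ (j : ℕ) * (emb t N x).1 - pM t N ^ (j : ℕ) * (emb t N x).2 := by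
  simp only [emb, ← add_sum_erase _ _ (mem_univ j)]
  have e : ∀ M : ℤ, ∑ i ∈ univ.erase j, th N i (y i) * M ^ (i : ℕ)
      = ∑ i ∈ univ.erase j, th N i (x i) * M ^ (i : ℕ) := fun M =>
    sum_congr rfl fun i hi => by rw [h i (ne_of_mem_erase hi)]
  rw [e, e]; ring

end Pool.Agent.Lib.MP_67c02a_lc
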