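import Pool.Agent.Lib.MP_67c02a_lc.Cut

/-!
Generalised inner products over a prime field have tiny cut norm.
-/

namespace Pool.Agent.Lib.MP_67c02a_lc

open Finset Function
open scoped BigOperators ComplexConjugate

theorem pow_av_le {α : Type} [Fintype α] [Nonempty α] {f : α → ℝ} (h : ∀ x, 0 ≤ f x) (k : ℕ) :
    av f ^ 2 ^ k ≤ av fun x => f x ^ 2 ^ k := by
  induction k with
  | zero => simp
  | succ k ih =>
    simp only [pow_succ, pow_mul]
    exact (pow_le_pow_left₀ (pow_nonneg (av_nonneg h) _) ih 2).trans (sq_av_le _)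

theorem av_pi {κ Y : Type} [Fintype κ] [DecidableEq κ] [Fintype Y] (g : κ → Y → ℝ) :
    av (fun z : κ → Y => ∏ l, g l (z l)) = ∏ l, av (g l) := by
  simp only [av_eq, prod_div_distrib, prod_univ_sum, Fintype.piFinset_univ, Fintype.card_pi]
  push_cast; rfl

theorem expect_update {ι X : Type} [Fintype ι] [DecidableEq ι] [Fintype X] [Nonempty X] (i : ι)
    (F : (ι → X) → ℂ) : 𝔼 x, F x = 𝔼 x, 𝔼 y, F (update x i y) := by
  have hinv : Involutive (fun p : (ι → X) × X => (update p.1 i p.2, p.1 i)) := by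
    rintro ⟨x, y⟩; simp
  have h1 := Fintype.expect_equiv hinv.toPerm (fun p => F (update p.1 i p.2))
    (fun p : (ι → X) × X => F p.1) fun _ => rfl
  rw [← univ_product_univ, expect_product, expect_product] at h1
  simpa [Fintype.expect_const] using h1.symm

variable {ι : Type} [Fintype ι] [DecidableEq ι] {p m : ℕ} [Fact p.Prime]

noncomputable def chi (c : Fin m → ZMod p) (s : Finset ι) (x : ι → Fin m → ZMod p) : ℂ :=
  ZMod.stdAddChar (∑ l, c l * ∏ i ∈ s, x i l)

noncomputable def qq (k : ℕ) (c : ZMod p) : ℝ := if c = 0 then 1 else k / p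

theorem qq_nonneg (k : ℕ) (c : ZMod p) : 0 ≤ qq k c := by
  unfold qq; split_ifs <;> positivity

theorem av_qq (k : ℕ) (c : ZMod p) : av (fun z => qq k (c * z)) ≤ qq (k + 1) c := by
  by_cases h : c = 0
  · simp [qq, h]
  · refine (av_mono (g := fun z => ind (z = 0) + k / p) fun z => ?_).trans ?_
    · by_cases hz : z = 0
      · simp only [qq, hz, mul_zero, if_true, ind_pos]
        exact le_add_of_nonneg_right (by positivity)
      · simp [qq, h, hz, ind_neg]
    · rw [av_add, av_ind, av_const]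
      simp only [qq, h, if_false, filter_eq', mem_univ, if_true, card_singleton, ZMod.card]
      push_cast
      exact le_of_eq (by ring)

theorem expect_lin {c : Fin m → ZMod p} (hc : c ≠ 0) :
    𝔼 y : Fin m → ZMod p, (ZMod.stdAddChar (∑ l, c l * y l) : ℂ) = 0 := by
  obtain ⟨a, ha⟩ := Function.ne_iff.1 hc
  have h1 := Fintype.expect_equiv (Equiv.addRight (Pi.single a (c a)⁻¹ : Fin m → ZMod p))
    (fun y => (ZMod.stdAddChar (∑ l, c l * y l) : ℂ) * ZMod.stdAddChar (1 : ZMod p))
    (fun y => (ZMod.stdAddChar (∑ l, c l * y l) : ℂ)) fun y => by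
      rw [← AddChar.map_add_eq_mul]
      simp only [Equiv.coe_addRight, Pi.add_apply, mul_add, sum_add_distrib]
      congr 2
      rw [sum_eq_single a (fun b _ hb => by simp [hb]) (by simp)]
      simp [mul_inv_cancel₀ ha]
  rw [← expect_mul] at h1
  by_contra h
  have h2 : (ZMod.stdAddChar (1 : ZMod p) : ℂ) = ZMod.stdAddChar (0 : ZMod p) := by
    rw [AddChar.map_zero_eq_one]; exact mul_left_cancel₀ h (by rw [h1, mul_one])
  exact one_ne_zero (ZMod.injective_stdAddChar h2)

theorem box (k : ℕ) : ∀ (s : Finset ι), s.card = k + 1 → ∀ (c : Fin m → ZMod p)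
    (u : ι → (ι → Fin m → ZMod p) → ℂ), (∀ i, Ind i (u i)) → (∀ i x, ‖u i x‖ ≤ 1) →
    ‖𝔼 x, chi c s x * ∏ i ∈ s, u i x‖ ^ 2 ^ k ≤ ∏ l, qq k (c l) := by
  induction k with
  | zero =>
    intro s hs c u u1 u2
    obtain ⟨a, rfl⟩ := card_eq_one.1 hs
    simp only [prod_singleton, pow_zero, pow_one, chi]
    by_cases hc : c = 0
    · subst hc
      simp only [Pi.zero_apply, zero_mul, sum_const_zero, AddChar.map_zero_eq_one, one_mul, qq,
        if_true, prod_const_one]
      exact (RCLike.norm_expect_le (K := ℂ)).trans (av_le (u2 a))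
    · rw [expect_update a]
      simp only [update_self, u1 a _ _, ← expect_mul, expect_lin hc, zero_mul, expect_const_zero,
        norm_zero]
      exact prod_nonneg fun l _ => qq_nonneg _ _
  | succ k ih =>
    intro s hs c u u1 u2
    obtain ⟨a, s, ha, rfl, hs'⟩ := card_eq_succ.1 hs
    set W : (ι → Fin m → ZMod p) → ℂ := fun x => chi c (insert a s) x * ∏ i ∈ s, u i x with hW
    have e1 : 𝔼 x, chi c (insert a s) x * ∏ i ∈ insert a s, u i x
        = 𝔼 x, (𝔼 y, W (update x a y)) * u a x := by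
      rw [expect_update a]
      refine expect_congr rfl fun x _ => ?_
      rw [expect_mul]
      refine expect_congr rfl fun y _ => ?_
      simp only [hW, prod_insert ha, u1 a x y]; ring
    set v : (Fin m → ZMod p) → (Fin m → ZMod p) → ι → (ι → Fin m → ZMod p) → ℂ :=
      fun y z i x => u i (update x a y) * conj (u i (update x a z)) with hv
    have e2 : ∀ x y z, W (update x a y) * conj (W (update x a z))
        = chi (fun l => c l * (y - z) l) s x * ∏ i ∈ s, v y z i x := fun x y z => by
      have : ∀ w l, ∏ i ∈ insert a s, update x a w i l = w l * ∏ i ∈ s, x i l := fun w l => by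
        rw [prod_insert ha, update_self]
        congr 1
        exact prod_congr rfl fun i hi => by rw [update_of_ne (by rintro rfl; exact ha hi)]
      simp only [hW, hv, chi, this, map_mul, map_prod, prod_mul_distrib, ← AddChar.map_neg_eq_conj]
      rw [mul_mul_mul_comm, ← AddChar.map_add_eq_mul, ← sum_neg_distrib, ← sum_add_distrib]
      congr 2
      exact sum_congr rfl fun l _ => by simp only [Pi.sub_apply]; ring
    have e3 : ‖𝔼 x, (𝔼 y, W (update x a y)) * u a x‖ ^ 2 ≤
        av fun y => av fun z => ‖𝔼 x, chi (fun l => c l * (y - z) l) s x * ∏ i ∈ s, v y z i x‖ := by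
      have h1 : ‖𝔼 x, (𝔼 y, W (update x a y)) * u a x‖ ≤ av fun x => ‖𝔼 y, W (update x a y)‖ :=
        (RCLike.norm_expect_le (K := ℂ)).trans (av_mono fun x => by
          rw [norm_mul]; exact mul_le_of_le_one_right (norm_nonneg _) (u2 a x))
      refine (pow_le_pow_left₀ (norm_nonneg _) h1 2).trans ((sq_av_le _).trans ?_)
      have h2 : ∀ x, ‖𝔼 y, W (update x a y)‖ ^ 2 =
          (𝔼 y, 𝔼 z, W (update x a y) * conj (W (update x a z))).re := fun x => by
        rw [← expect_mul_expect, ← map_expect (starRingEnd ℂ), Complex.mul_conj,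
          Complex.ofReal_re, Complex.normSq_eq_norm_sq]
      simp only [h2, e2, av, ← Complex.re_expect]
      refine (Complex.re_le_norm _).trans ?_
      rw [expect_comm]
      refine (RCLike.norm_expect_le (K := ℂ)).trans (expect_le_expect fun y _ => ?_)
      rw [expect_comm]
      exact RCLike.norm_expect_le (K := ℂ)
    rw [e1, pow_succ', pow_mul]
    refine (pow_le_pow_left₀ (sq_nonneg _) e3 _).trans
      ((pow_av_le (fun y => av_nonneg fun z => norm_nonneg _) k).trans ?_)
    refine av_le fun y => (pow_av_le (fun z => norm_nonneg _) k).trans ?_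
    refine (av_mono (g := fun z => ∏ l, qq k (c l * (y - z) l)) fun z => ?_).trans ?_
    · refine ih s hs' _ (v y z) (fun i x w => ?_) fun i x => ?_
      · by_cases hi : i = a
        · subst hi; simp [hv]
        · simp only [hv, update_comm hi, u1 i _ w]
      · simp only [hv, norm_mul, Complex.norm_conj]
        exact mul_le_one₀ (u2 _ _) (norm_nonneg _) (u2 _ _)
    · refine (av_equiv (Equiv.subLeft y) fun z => ∏ l, qq k (c l * z l)).trans_le ?_
      rw [av_pi fun l z => qq k (c l * z)]
      exact prod_le_prod (fun l _ => av_nonneg fun z => qq_nonneg _ _) fun l _ => av_qq k _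

/-- the label of the line in direction `j` through `x` -/
def lab (j : ι) (x : ι → Fin m → ZMod p) : ZMod p := ∑ l, ∏ i ∈ univ.erase j, x i l

theorem ind_lab (j : ι) : Ind j (lab (p := p) (m := m) j) := fun x y =>
  sum_congr rfl fun l _ => prod_congr rfl fun i hi => by rw [update_of_ne (ne_of_mem_erase hi)]

noncomputable def nu (j : ι) (a : ZMod p) (x : ι → Fin m → ZMod p) : ℝ := p * ind (lab j x = a)

theorem ind_nu (j : ι) (a : ZMod p) : Ind j (nu (m := m) j a) := fun x y => by
  simp only [nu, ind_lab j x y]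

theorem gip {k : ℕ} (hk : Fintype.card ι = k + 2) {γ : ℝ} (hγ : 0 ≤ γ)
    (h : ((k : ℝ) / p) ^ m ≤ (γ / p) ^ 2 ^ k) (j : ι) (a : ZMod p) :
    Cut j (fun x => nu (m := m) j a x - 1) γ := fun w w1 w2 => by
  have p0 : (0 : ℝ) < p := by exact_mod_cast (Fact.out : p.Prime).pos
  have e1 : ∀ x : ι → Fin m → ZMod p, ((nu j a x - 1 : ℝ) : ℂ) = ∑ ξ ∈ univ.erase (0 : ZMod p),
      ZMod.stdAddChar (-(ξ * a)) * chi (fun _ => ξ) (univ.erase j) x := fun x => by
    have := AddChar.sum_mulShift (lab j x - a) (ZMod.isPrimitive_stdAddChar p)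
    rw [← add_sum_erase _ _ (mem_univ 0), zero_mul, AddChar.map_zero_eq_one, ZMod.card] at this
    have e : ∀ ξ : ZMod p, (ZMod.stdAddChar (-(ξ * a)) * chi (fun _ => ξ) (univ.erase j) x : ℂ)
        = ZMod.stdAddChar (ξ * (lab j x - a)) := fun ξ => by
      rw [chi, ← AddChar.map_add_eq_mul, ← mul_sum, lab]; congr 1; ring
    simp only [e, eq_sub_of_add_eq' this, nu, sub_eq_zero]
    by_cases hx : lab j x = a
    · simp [hx, ind_pos]
    · simp [hx, ind_neg]
  rw [← Real.norm_eq_abs, ← Complex.norm_real, av, Complex.ofReal_expect]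
  simp only [Complex.ofReal_mul, e1, sum_mul, expect_sum_comm, mul_assoc, ← mul_expect,
    Complex.ofReal_prod]
  refine (norm_sum_le _ _).trans ((sum_le_card_nsmul _ _ (γ / p) fun ξ hξ => ?_).trans ?_)
  · rw [norm_mul, AddChar.norm_apply, one_mul]
    have := box k (univ.erase j) (by rw [card_erase_of_mem (mem_univ _), card_univ, hk]; rfl)
      (fun _ : Fin m => ξ) (fun i x => (w i x : ℂ)) (fun i x y => by simp only [w1 i x y])
      fun i x => by simpa using w2 i x
    simp only [qq, ne_of_mem_erase hξ, if_false, prod_const, card_univ, Fintype.card_fin] at this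
    exact le_of_pow_le_pow_left₀ (by positivity) (by positivity) (this.trans h)
  · rw [nsmul_eq_mul, mul_div_assoc', div_le_iff₀ p0, mul_comm]
    refine mul_le_mul_of_nonneg_left ?_ hγ
    exact_mod_cast (card_le_univ _).trans_eq (ZMod.card p)

/-- choice of the dimension -/
theorem exists_dim (k T : ℕ) {η : ℝ} (hη : 0 < η) : ∃ m0 : ℕ, ∀ m ≥ m0, ∀ p : ℕ, 2 ≤ p →
    k ^ 2 ≤ p → ((k : ℝ) / p) ^ m ≤ (η / p ^ T / p) ^ 2 ^ k := by
  obtain ⟨u, hu⟩ := exists_pow_lt_of_lt_one hη (by norm_num : (1 / 2 : ℝ) < 1)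
  refine ⟨2 * ((T + 1 + u) * 2 ^ k), fun m hm p h2 hp => ?_⟩
  have p2 : (2 : ℝ) ≤ p := by exact_mod_cast h2
  have hp' : (k : ℝ) ^ 2 ≤ p := by exact_mod_cast hp
  have a1 : ((k : ℝ) / p) ^ 2 ≤ 1 / p := by
    rw [div_pow, div_le_div_iff₀ (by positivity) (by positivity)]; nlinarith
  have a2 : (k : ℝ) / p ≤ 1 := by
    have : (1 : ℝ) / p ≤ 1 := by rw [div_le_one (by positivity)]; linarith
    exact (sq_le_one_iff₀ (by positivity)).1 (a1.trans this)
  refine (pow_le_pow_of_le_one (by positivity) a2 hm).trans ?_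
  rw [pow_mul, pow_mul]
  refine pow_le_pow_left₀ (by positivity) ((pow_le_pow_left₀ (by positivity) a1 _).trans ?_) _
  have a3 : ((1 : ℝ) / p) ^ u ≤ η :=
    (pow_le_pow_left₀ (by positivity) (one_div_le_one_div_of_le two_pos p2) u).trans hu.le
  calc ((1 : ℝ) / p) ^ (T + 1 + u) = (1 / p) ^ u / p ^ T / p := by
        simp only [pow_add, div_pow, one_pow]; field_simp
    _ ≤ _ := by gcongr

end Pool.Agent.Lib.MP_67c02a_lc
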