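import Pool.Agent.Lib.MP_67c02a_lc.Av

/-!
Random walks on regular graphs and gap amplification by powering.
-/

namespace Pool.Agent.Lib.MP_67c02a_lc

open Finset Function

set_option maxHeartbeats 400000

section
variable {V D : Type} (rot : V × D → V × D)

def endp : V → List D → V
  | v, [] => v
  | v, k :: l => endp (rot (v, k)).1 l

def back : V → List D → List D
  | _, [] => []
  | v, k :: l => back (rot (v, k)).1 l ++ [(rot (v, k)).2]

theorem endp_append (v : V) (l l' : List D) :
    endp rot v (l ++ l') = endp rot (endp rot v l) l' := by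
  induction l generalizing v with
  | nil => rfl
  | cons k l ih => exact ih _

/-- the constraint of the powered graph attached to the walk `l` from `v` -/
def Good {S L : Type} [Inhabited D] (R : V × D → S → S → Prop) (op : L → List D → S) (h n : ℕ)
    (v : V) (l : List D) (s s' : L) : Prop :=
  ∀ p ∈ (range h ×ˢ range h).filter fun p => p.1 + p.2 = n,
    R (endp rot v (l.take p.1), l.getD p.1 default) (op s (l.take p.1))
      (op s' (back rot (rot (endp rot v (l.take p.1), l.getD p.1 default)).1 (l.drop (p.1 + 1))))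

end

variable {V D : Type} [Fintype V] [Fintype D] [Nonempty V] [Inhabited D]

noncomputable def EW (n : ℕ) (F : List D → ℝ) : ℝ := av fun κ : Fin n → D => F (List.ofFn κ)

theorem EW_zero (F : List D → ℝ) : EW 0 F = F [] := by simp [EW]

theorem EW_succ (n : ℕ) (F : List D → ℝ) :
    EW (n + 1) F = av fun k => EW n fun l => F (k :: l) := by
  rw [EW, ← av_equiv (Fin.consEquiv fun _ => D), av_prod]
  simp [EW, Fin.consEquiv]

theorem EW_mono {n : ℕ} {F G : List D → ℝ} (h : ∀ l, l.length = n → F l ≤ G l) :
    EW n F ≤ EW n G := av_mono fun κ => h _ (by simp)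

theorem EW_congr {n : ℕ} {F G : List D → ℝ} (h : ∀ l, l.length = n → F l = G l) :
    EW n F = EW n G := av_congr fun κ => h _ (by simp)

theorem EW_append (a b : ℕ) (F : List D → ℝ) :
    EW (a + b) F = EW a fun l => EW b fun l' => F (l ++ l') := by
  induction a generalizing F with
  | zero => simp [EW_zero]
  | succ a ih => simp only [Nat.succ_add, EW_succ, ih, List.cons_append]

theorem EW_snoc (n : ℕ) (F : List D → ℝ) :
    EW (n + 1) F = av fun k => EW n fun l => F (l ++ [k]) := by
  rw [EW_append]
  simp only [EW_succ 0, EW_zero]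
  exact av_comm _

theorem EW_take {n m : ℕ} (h : n ≤ m) (F : List D → ℝ) :
    EW m (fun l => F (l.take n)) = EW n F := by
  obtain ⟨b, rfl⟩ := Nat.exists_eq_add_of_le h
  rw [EW_append]
  exact EW_congr fun l hl => by simp [← hl, EW]

variable {rot : V × D → V × D}

theorem av_rot (hr : Involutive rot) (G : V × D → ℝ) :
    av (fun v => av fun k => G (rot (v, k))) = av fun v => av fun k => G (v, k) := by
  rw [← av_prod, ← av_prod fun d => G (rot d)]; exact av_equiv hr.toPerm G

theorem av_nb (hr : Involutive rot) (f : V → ℝ) :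
    av (fun v => av fun k => f (rot (v, k)).1) = av f := by
  simpa using av_rot hr fun d => f d.1

theorem reversal (hr : Involutive rot) (n : ℕ) (Φ : V → List D → V → ℝ) :
    av (fun v => EW n fun l => Φ v l (endp rot v l)) =
      av fun u => EW n fun l => Φ (endp rot u l) (back rot u l) u := by
  induction n generalizing Φ with
  | zero => simp only [EW_zero, endp, back]
  | succ n ih =>
    have := av_rot hr fun d => EW n fun l =>
      Φ (endp rot d.1 l) (back rot d.1 l ++ [d.2]) (rot d).1
    simp only [hr _] at this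
    simp only [EW_succ n (fun l => Φ _ (back rot _ l) _), endp, back]
    have e := fun k => ih fun v l e => Φ v (l ++ [k]) (rot (e, k)).1
    rw [this, av_comm]
    simp only [← e, EW_snoc, endp_append, endp]
    exact av_comm _

noncomputable def cnt (rot : V × D → V × D) (F : V × D → Prop) : V → List D → ℝ
  | _, [] => 0
  | v, k :: l => ind (F (v, k)) + cnt rot F (rot (v, k)).1 l

theorem cnt_eq (F : V × D → Prop) (v : V) (l : List D) : cnt rot F v l =
    ∑ a ∈ range l.length, ind (F (endp rot v (l.take a), l.getD a default)) := by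
  induction l generalizing v with
  | nil => simp [cnt]
  | cons k l ih =>
    rw [cnt, ih, List.length_cons, sum_range_succ', add_comm]
    rfl

theorem second_moment (hr : Involutive rot) {g : ℝ} (g0 : 0 < g) (g1 : g ≤ 1)
    (hgap : ∀ f : V → ℝ, av f = 0 →
      av (fun v => av (fun k => f (rot (v, k)).1) ^ 2) ≤ (1 - g) * av fun v => f v ^ 2)
    (F : V × D → Prop) (n : ℕ) : av (fun v => EW n fun l => cnt rot F v l ^ 2) ≤
      n * ((2 + 2 / g ^ 3) * av fun d => ind (F d)) + n ^ 2 * av (fun d => ind (F d)) ^ 2 := by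
  set ε := av fun d => ind (F d) with hε
  have ε0 : 0 ≤ ε := av_nonneg fun _ => ind_nonneg _
  have hy : av (fun v => av fun k => ind (F (v, k))) = ε := (av_prod fun d => ind (F d)).symm
  have h1 : ∀ n v, EW (n + 1) (cnt rot F v) - (n + 1 : ℕ) * ε = (av (fun k => ind (F (v, k))) - ε)
      + av fun k => EW n (cnt rot F (rot (v, k)).1) - n * ε := fun n v => by
    simp only [EW_succ, cnt]
    simp only [EW, av_add, av_sub, av_const]
    push_cast; ring
  have h2 : av (fun v => (av (fun k => ind (F (v, k))) - ε) ^ 2) ≤ ε := by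
    refine (av_mono (g := fun v => (1 - 2 * ε) * av (fun k => ind (F (v, k))) + ε ^ 2)
      fun v => ?_).trans ?_
    · have a0 : 0 ≤ av fun k => ind (F (v, k)) := av_nonneg fun _ => ind_nonneg _
      have a1 : av (fun k => ind (F (v, k))) ≤ 1 := av_le fun _ => ind_le_one _
      nlinarith
    · rw [av_add, av_mul_left, hy, av_const]; nlinarith
  have h3 : ∀ n : ℕ, av (fun v => EW n (cnt rot F v) - n * ε) = 0 ∧
      av (fun v => (EW n (cnt rot F v) - n * ε) ^ 2) ≤ 2 / g ^ 3 * ε := fun n => by
    induction n with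
    | zero => simp only [EW_zero, cnt]; simp; positivity
    | succ n ih =>
      simp only [h1]
      have b0 := av_nb hr fun v => EW n (cnt rot F v) - n * ε
      refine ⟨by rw [av_add, av_sub, hy, av_const, b0, ih.1]; ring, ?_⟩
      refine (av_mono (g := fun v => (1 + 1 / g) * (av (fun k => ind (F (v, k))) - ε) ^ 2
        + (1 + g) * av (fun k => EW n (cnt rot F (rot (v, k)).1) - n * ε) ^ 2) fun v => ?_).trans ?_
      · generalize av (fun k => ind (F (v, k))) - ε = a,
          av (fun k => EW n (cnt rot F (rot (v, k)).1) - n * ε) = b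
        have : (1 + 1 / g) * a ^ 2 + (1 + g) * b ^ 2 - (a + b) ^ 2 = (a - g * b) ^ 2 / g := by
          field_simp; ring
        have : 0 ≤ (a - g * b) ^ 2 / g := by positivity
        linarith
      · rw [av_add, av_mul_left, av_mul_left]
        have b1 := (hgap _ ih.1).trans (mul_le_mul_of_nonneg_left ih.2 (by linarith))
        have b2 : (1 + g) * ((1 - g) * (2 / g ^ 3 * ε)) = 2 / g ^ 3 * ε - 2 * (1 / g) * ε := by
          field_simp; ring
        have b3 : 1 ≤ 1 / g := one_le_one_div g0 g1
        nlinarith [mul_le_mul_of_nonneg_left b1 (by linarith : 0 ≤ 1 + g),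
          mul_le_mul_of_nonneg_left h2 (by linarith : 0 ≤ 1 + 1 / g)]
  induction n with
  | zero => simp [EW_zero, cnt]
  | succ n ih =>
    refine (av_mono (g := fun v => av fun k => (2 + 2 * n * ε) * ind (F (v, k))
      + (EW n (cnt rot F (rot (v, k)).1) - n * ε) ^ 2
      + EW n fun l => cnt rot F (rot (v, k)).1 l ^ 2) fun v => ?_).trans ?_
    · rw [EW_succ]
      refine av_mono fun k => ?_
      simp only [cnt, add_sq, ind_sq]
      simp only [EW, av_add, av_const, av_mul_left]
      nlinarith [ind_sq (F (v, k)), sq_nonneg (ind (F (v, k)) - (av (fun κ : Fin n → D =>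
        cnt rot F (rot (v, k)).1 (List.ofFn κ)) - n * ε))]
    · simp only [av_add, av_mul_left, hy]
      rw [av_nb hr fun v => (EW n (cnt rot F v) - n * ε) ^ 2,
        av_nb hr fun v => EW n fun l => cnt rot F v l ^ 2]
      push_cast
      nlinarith [(h3 n).2, sq_nonneg ε]

theorem power_gap (hr : Involutive rot) {g : ℝ} (g0 : 0 < g) (g1 : g ≤ 1)
    (hgap : ∀ f : V → ℝ, av f = 0 →
      av (fun v => av (fun k => f (rot (v, k)).1) ^ 2) ≤ (1 - g) * av fun v => f v ^ 2)
    {S L : Type} [Fintype S] [Nonempty S] (R : V × D → S → S → Prop) (op : L → List D → S)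
    {h : ℕ} (h0 : 0 < h) {ε0 : ℝ}
    (hR : ∀ σ : V → S, ε0 ≤ av fun d => ind (¬ R d (σ d.1) (σ (rot d).1))) (Λ : V → L) :
    min (h * ε0) 1 / (4 * Fintype.card S ^ 4 * (2 * (2 + 2 / g ^ 3) + 4)) ≤
      av fun v => av fun n : Fin (2 * h) => EW (2 * h) fun l =>
        ind (¬ Good rot R op h n v (l.take (n + 1)) (Λ v) (Λ (endp rot v (l.take (n + 1))))) := by
  classical
  haveI : Nonempty (Fin (2 * h)) := ⟨⟨0, by omega⟩⟩
  have c0 : (0 : ℝ) < Fintype.card S := by positivity
  have h1 : (0 : ℝ) < h := by positivity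
  have hσ : ∀ u, ∃ s : S, (h : ℝ) / Fintype.card S ≤
      ∑ a ∈ range h, EW a fun l => ind (op (Λ (endp rot u l)) (back rot u l) = s) := fun u => by
    obtain ⟨s, -, hs⟩ := exists_le_of_sum_le (s := univ) univ_nonempty
      (f := fun _ => (h : ℝ) / Fintype.card S) (g := fun s => ∑ a ∈ range h,
        EW a fun l => ind (op (Λ (endp rot u l)) (back rot u l) = s)) (by
      rw [sum_comm]
      simp only [EW, ← av_sum, sum_ind, filter_eq, mem_univ, if_true, card_singleton]
      simp [mul_div_cancel₀ _ c0.ne'])
    exact ⟨s, hs⟩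
  choose σ hσ using hσ
  set p : ℕ → V → ℝ := fun a u =>
    EW a fun l => ind (op (Λ (endp rot u l)) (back rot u l) = σ u) with hp
  set F : V × D → Prop := fun d => ¬ R d (σ d.1) (σ (rot d).1) with hF
  have hm := second_moment hr g0 g1 hgap F
  have hε0 := hR σ
  set ε := av fun d => ind (F d) with hε
  have ε0' : 0 ≤ ε := av_nonneg fun _ => ind_nonneg _
  set I : V → List D → D → List D → ℝ := fun v l1 k l2 => ind (op (Λ v) l1 = σ (endp rot v l1)) *
    (ind (F (endp rot v l1, k)) * ind (op (Λ (endp rot (rot (endp rot v l1, k)).1 l2))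
      (back rot (rot (endp rot v l1, k)).1 l2) = σ (rot (endp rot v l1, k)).1)) with hI
  have t1 : ∀ a b, av (fun v => EW (a + b + 1) fun l =>
      I v (l.take a) (l.getD a default) (l.drop (a + 1)))
      = av fun u => av fun k => ind (F (u, k)) * (p a u * p b (rot (u, k)).1) := fun a b => by
    have := reversal hr a fun v l e => ind (op (Λ v) l = σ e) *
      av fun k => ind (F (e, k)) * p b (rot (e, k)).1
    rw [av_congr (g := fun u => EW a fun l => ind (op (Λ (endp rot u l)) (back rot u l) = σ u) *
      av fun k => ind (F (u, k)) * p b (rot (u, k)).1) (f := fun u => av fun k =>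
        ind (F (u, k)) * (p a u * p b (rot (u, k)).1)) fun u => by
      rw [EW, av_mul_right, ← av_mul_left]
      exact av_congr fun k => by simp only [hp, EW]; ring, ← this]
    refine av_congr fun v => ?_
    rw [add_assoc, EW_append]
    refine EW_congr fun l hl => ?_
    rw [EW_succ, ← av_mul_left]
    refine av_congr fun k => ?_
    subst hl
    simp only [hI, hp, List.take_left', List.getD_append_right _ _ _ _ le_rfl, Nat.sub_self,
      List.getD_cons_zero, List.drop_length_add_append, List.drop_succ_cons, List.drop_zero]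
    simp only [EW, av_mul_left]
  set A : ℕ → Finset (ℕ × ℕ) := fun n => (range h ×ˢ range h).filter fun p => p.1 + p.2 = n
    with hA
  have t2 : ε * (h / Fintype.card S) ^ 2 ≤ ∑ n ∈ range (2 * h), av fun v => EW (n + 1) fun l =>
      ∑ q ∈ A n, I v (l.take q.1) (l.getD q.1 default) (l.drop (q.1 + 1)) := by
    rw [sum_congr rfl (g := fun n => ∑ q ∈ A n, av fun u => av fun k =>
      ind (F (u, k)) * (p q.1 u * p q.2 (rot (u, k)).1)) fun n _ => by
        simp only [EW, av_sum]
        exact sum_congr rfl fun q hq => by rw [← t1, (mem_filter.1 hq).2]; rfl,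
      sum_fiberwise_of_maps_to (fun q hq => by
        simp only [mem_product, mem_range] at hq ⊢; omega), sum_product]
    simp only [← av_sum, ← mul_sum, ← sum_mul]
    rw [hε, av_prod, ← av_mul_right]
    refine av_mono fun u => ?_
    rw [← av_mul_right]
    refine av_mono fun k => mul_le_mul_of_nonneg_left ?_ (ind_nonneg _)
    rw [sq]
    exact mul_le_mul (hσ u) (hσ _) (by positivity) (le_trans (by positivity) (hσ u))
  have t3 : ∀ (β : ℝ) (n : ℕ) v l, l.length = n + 1 →
      2 * β * ∑ q ∈ A n, I v (l.take q.1) (l.getD q.1 default) (l.drop (q.1 + 1))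
        - β ^ 2 * cnt rot F v l ^ 2 ≤ ind (¬ Good rot R op h n v l (Λ v) (Λ (endp rot v l))) := by
    intro β n v l hl
    have I0 : ∀ v l1 k l2, 0 ≤ I v l1 k l2 := fun _ _ _ _ =>
      mul_nonneg (ind_nonneg _) (mul_nonneg (ind_nonneg _) (ind_nonneg _))
    have N0 : 0 ≤ ∑ q ∈ A n, I v (l.take q.1) (l.getD q.1 default) (l.drop (q.1 + 1)) :=
      sum_nonneg fun _ _ => I0 _ _ _ _
    have N1 : ∑ q ∈ A n, I v (l.take q.1) (l.getD q.1 default) (l.drop (q.1 + 1))
        ≤ cnt rot F v l := by
      rw [cnt_eq]
      refine (sum_le_sum (g := fun q : ℕ × ℕ => ind (F (endp rot v (l.take q.1), l.getD q.1 default)))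
        fun q _ => (mul_le_of_le_one_left (mul_nonneg (ind_nonneg _) (ind_nonneg _))
          (ind_le_one _)).trans (mul_le_of_le_one_right (ind_nonneg _) (ind_le_one _))).trans ?_
      rw [← sum_image (g := Prod.fst) (f := fun a => ind (F (endp rot v (l.take a),
        l.getD a default))) fun q hq q' hq' e => Prod.ext e (by
          have := (mem_filter.1 hq).2
          have := (mem_filter.1 hq').2
          omega)]
      refine sum_le_sum_of_subset_of_nonneg (image_subset_iff.2 fun q hq => ?_)
        fun _ _ _ => ind_nonneg _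
      have := (mem_filter.1 hq).2
      rw [mem_range]; omega
    by_cases hg : Good rot R op h n v l (Λ v) (Λ (endp rot v l))
    · rw [ind_neg (not_not.2 hg), sum_eq_zero fun q hq => ?_]
      · nlinarith [sq_nonneg (β * cnt rot F v l)]
      · by_contra hne
        have e1 : op (Λ v) (l.take q.1) = σ (endp rot v (l.take q.1)) :=
          by_contra fun hc => hne (by simp only [hI, ind_neg hc, zero_mul])
        have e2 : F (endp rot v (l.take q.1), l.getD q.1 default) :=
          by_contra fun hc => hne (by simp only [hI, ind_neg hc, zero_mul, mul_zero])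
        have hq' : q.1 < l.length := by have := (mem_filter.1 hq).2; omega
        have e3 : endp rot v l = endp rot (rot (endp rot v (l.take q.1), l.getD q.1 default)).1
            (l.drop (q.1 + 1)) := by
          conv_lhs => rw [← List.take_append_drop q.1 l, List.drop_eq_getElem_cons hq', endp_append]
          rw [List.getD_eq_getElem _ _ hq']; rfl
        have e4 := hg q hq
        rw [e1, e3] at e4
        by_cases hc : op (Λ (endp rot (rot (endp rot v (l.take q.1), l.getD q.1 default)).1
            (l.drop (q.1 + 1)))) (back rot (rot (endp rot v (l.take q.1), l.getD q.1 default)).1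
            (l.drop (q.1 + 1))) = σ (rot (endp rot v (l.take q.1), l.getD q.1 default)).1
        · exact e2 (hc ▸ e4)
        · exact hne (by simp only [hI, ind_neg hc, mul_zero])
    · rw [ind_pos hg]
      generalize ∑ q ∈ A n, I v (l.take q.1) (l.getD q.1 default) (l.drop (q.1 + 1)) = N at *
      nlinarith [sq_nonneg (β * N - 1), mul_le_mul_of_nonneg_left (pow_le_pow_left₀ N0 N1 2)
        (sq_nonneg β)]
  set C := 2 + 2 / g ^ 3 with hC
  have C0 : 0 < C := by positivity
  have t4 : ∀ β : ℝ, 0 ≤ β → β * (ε * h / Fintype.card S ^ 2)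
      - β ^ 2 * (2 * C * (h * ε) + 4 * (h * ε) ^ 2) ≤
      av fun v => av fun n : Fin (2 * h) => EW (2 * h) fun l =>
        ind (¬ Good rot R op h n v (l.take (n + 1)) (Λ v) (Λ (endp rot v (l.take (n + 1))))) := by
    intro β β0
    rw [av_comm]
    refine le_trans ?_ (av_mono (f := fun n : Fin (2 * h) => 2 * β * (av fun v => EW (n + 1)
      fun l => ∑ q ∈ A n, I v (l.take q.1) (l.getD q.1 default) (l.drop (q.1 + 1)))
      - β ^ 2 * (2 * C * (h * ε) + 4 * (h * ε) ^ 2)) fun n => ?_)
    · rw [av_sub, av_const, av_mul_left, av_eq, Fin.sum_univ_eq_sum_range (fun n => av fun v =>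
        EW (n + 1) fun l => ∑ q ∈ A n, I v (l.take q.1) (l.getD q.1 default) (l.drop (q.1 + 1))),
        Fintype.card_fin]
      have := div_le_div_of_nonneg_right t2 (Nat.cast_nonneg (2 * h))
      rw [show ε * (h / Fintype.card S) ^ 2 / (2 * h : ℕ) = ε * h / Fintype.card S ^ 2 / 2 by
        push_cast; field_simp] at this
      nlinarith
    · have b1 := hm (n + 1)
      have b2 : ((n + 1 : ℕ) : ℝ) ≤ 2 * h := by exact_mod_cast n.2
      have b3 : ((n + 1 : ℕ) : ℝ) * (C * ε) + ((n + 1 : ℕ) : ℝ) ^ 2 * ε ^ 2
          ≤ 2 * C * (h * ε) + 4 * (h * ε) ^ 2 :=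
        (by gcongr : _ ≤ 2 * h * (C * ε) + (2 * h) ^ 2 * ε ^ 2).trans_eq (by ring)
      refine (sub_le_sub_left (mul_le_mul_of_nonneg_left (b1.trans b3) (sq_nonneg β)) _).trans ?_
      rw [← av_mul_left, ← av_mul_left, ← av_sub]
      refine av_mono fun v => ?_
      rw [EW_take n.2 fun l => ind (¬ Good rot R op h n v l (Λ v) (Λ (endp rot v l)))]
      refine le_trans (le_of_eq ?_) (EW_mono (t3 β n v))
      simp only [EW, av_sub, av_mul_left]
  have m1 : min (h * ε0) 1 ≤ min (h * ε) 1 := min_le_min_right _ (by gcongr)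
  refine (div_le_div_of_nonneg_right m1 (by positivity)).trans ?_
  rcases le_total (h * ε) 1 with hc | hc
  · refine le_trans ?_ (t4 (1 / (2 * Fintype.card S ^ 2 * (2 * C + 4))) (by positivity))
    rw [min_eq_left hc]
    have : 2 * C * (h * ε) + 4 * (h * ε) ^ 2 ≤ (2 * C + 4) * (h * ε) := by
      nlinarith [mul_nonneg h1.le ε0']
    refine le_trans (le_of_eq ?_) (sub_le_sub_left (mul_le_mul_of_nonneg_left this (sq_nonneg _)) _)
    field_simp; ring
  · refine le_trans ?_ (t4 (1 / (2 * Fintype.card S ^ 2 * (2 * C + 4) * (h * ε))) (by positivity))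
    rw [min_eq_right hc]
    have : 2 * C * (h * ε) + 4 * (h * ε) ^ 2 ≤ (2 * C + 4) * (h * ε) ^ 2 := by
      nlinarith [mul_nonneg C0.le (mul_nonneg (sub_nonneg.2 hc) (zero_le_one.trans hc))]
    refine le_trans (le_of_eq ?_) (sub_le_sub_left (mul_le_mul_of_nonneg_left this (sq_nonneg _)) _)
    have : 0 < ε := pos_of_mul_pos_left (one_pos.trans_le (hc.trans_eq (mul_comm _ _))) h1.le
    field_simp; ring

end Pool.Agent.Lib.MP_67c02a_lc
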