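import Pool.Agent.Lib.MP_67c02a_lc.Exp
import Pool.Agent.Lib.MP_67c02a_lc.Walk
import Pool.Agent.Lib.MP_67c02a_lc.Base

/-!
The regular expanding constraint graph of a formula of width four.
-/

namespace Pool.Agent.Lib.MP_67c02a_lc

open Finset Function Pool.Agent.Lib.Complexity

set_option maxHeartbeats 400000

def lazyR {V D : Type} (rot : V × D → V × D) (d : V × D × Bool) : V × D × Bool :=
  bif d.2.2 then ((rot (d.1, d.2.1)).1, (rot (d.1, d.2.1)).2, true) else d

theorem lazyR_inv {V D : Type} {rot : V × D → V × D} (h : Involutive rot) :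
    Involutive (lazyR rot) := by
  rintro ⟨v, k, _ | _⟩ <;> simp [lazyR, h (v, k)]

theorem lazy_gap {V D : Type} [Fintype V] [Fintype D] [Nonempty V] [Inhabited D]
    {rot : V × D → V × D} (hr : Involutive rot) {c : ℝ} (f : V → ℝ)
    (h : c * av (fun v => f v ^ 2) ≤ av fun v => av fun k => (f v - f (rot (v, k)).1) ^ 2) :
    av (fun v => av (fun k => f (lazyR rot (v, k)).1) ^ 2) ≤ (1 - c / 4) * av fun v => f v ^ 2 := by
  refine (av_mono (g := fun v => av fun k => 1 / 2 * f v ^ 2 + 1 / 2 * f (rot (v, k)).1 ^ 2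
    - 1 / 4 * (f v - f (rot (v, k)).1) ^ 2) fun v => ?_).trans ?_
  · rw [av_prod]
    refine (sq_av_le _).trans (av_mono fun k => le_of_eq ?_)
    simp only [av_eq, Fintype.sum_bool, lazyR, Fintype.card_bool, cond_true, cond_false]
    push_cast; ring
  · simp only [av_sub, av_add, av_mul_left, av_const]
    rw [av_nb hr fun v => f v ^ 2]
    linarith

theorem endp_map {V V' D : Type} {rot : V × D → V × D} {rot' : V' × D → V' × D} {ι : V → V'}
    (h : ∀ v k, rot' (ι v, k) = (ι (rot (v, k)).1, (rot (v, k)).2)) (v : V) (l : List D) :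
    endp rot' (ι v) l = ι (endp rot v l) ∧ back rot' (ι v) l = back rot v l := by
  induction l generalizing v with
  | nil => exact ⟨rfl, rfl⟩
  | cons k l ih => simp only [endp, back, h, ih, and_self]

theorem sum_toFinset_eq {β : Type} [DecidableEq β] {l : List β} (h : l.Nodup) (d : β)
    (G : β → ℝ) : ∑ a ∈ l.toFinset, G a = ∑ u ∈ range l.length, G (l.getD u d) := by
  induction l with
  | nil => simp
  | cons a l ih =>
    rw [List.nodup_cons] at h
    rw [List.toFinset_cons, sum_insert (by simpa using h.1), ih h.2, List.length_cons,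
      sum_range_succ', add_comm]
    rfl

abbrev D0 := Option (Fin 4) × Pt
abbrev Dt := D0 × Bool
abbrev Sg := Fin 4 → Bool

def vr (φ : CNF) (o : ℕ × Fin 4) : ℕ := (lit φ (o.1, o.2)).1

def occL (φ : CNF) (x : ℕ) : List (ℕ × Fin 4) :=
  ((List.range φ.length).product (List.finRange 4)).filter fun o => decide (vr φ o = x)

def cloud (φ : CNF) (o : ℕ × Fin 4) (κ : Pt) : ℕ × Pt :=
  rotE (occL φ (vr φ o)).length ((occL φ (vr φ o)).idxOf o, κ)

def cloudNb (φ : CNF) (o : ℕ × Fin 4) (κ : Pt) : ℕ × Fin 4 :=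
  (occL φ (vr φ o)).getD (cloud φ o κ).1 (0, 0)

def rot0 (φ : CNF) (d : ℕ × D0) : ℕ × D0 :=
  d.2.1.elim ((rotE φ.length (d.1, d.2.2)).1, none, (rotE φ.length (d.1, d.2.2)).2) fun i =>
    ((cloudNb φ (d.1, i) d.2.2).1, some (cloudNb φ (d.1, i) d.2.2).2, (cloud φ (d.1, i) d.2.2).2)

theorem mem_occL {φ : CNF} {x : ℕ} {o : ℕ × Fin 4} :
    o ∈ occL φ x ↔ o.1 < φ.length ∧ vr φ o = x := by
  obtain ⟨a, b⟩ := o
  simp [occL]

theorem occL_nodup (φ : CNF) (x : ℕ) : (occL φ x).Nodup :=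
  (List.nodup_range.product (List.nodup_finRange 4)).filter _

theorem cloud_lt {φ : CNF} {o : ℕ × Fin 4} (h : o.1 < φ.length) (κ : Pt) :
    (cloud φ o κ).1 < (occL φ (vr φ o)).length :=
  rotE_lt (List.idxOf_lt_length_of_mem (mem_occL.2 ⟨h, rfl⟩))

theorem cloudNb_mem {φ : CNF} {o : ℕ × Fin 4} (h : o.1 < φ.length) (κ : Pt) :
    cloudNb φ o κ ∈ occL φ (vr φ o) := by
  rw [cloudNb, List.getD_eq_getElem _ _ (cloud_lt h κ)]; exact List.getElem_mem _

theorem cloud_cloud {φ : CNF} {o : ℕ × Fin 4} (h : o.1 < φ.length) (κ : Pt) :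
    cloud φ (cloudNb φ o κ) (cloud φ o κ).2 = ((occL φ (vr φ o)).idxOf o, κ) := by
  rw [cloud, (mem_occL.1 (cloudNb_mem h κ)).2, cloudNb, List.getD_eq_getElem _ _ (cloud_lt h κ),
    (occL_nodup φ _).idxOf_getElem]
  exact rotE_rotE (List.idxOf_lt_length_of_mem (mem_occL.2 ⟨h, rfl⟩))

theorem rot0_lt {φ : CNF} {d : ℕ × D0} (h : d.1 < φ.length) : (rot0 φ d).1 < φ.length := by
  obtain ⟨v, _ | i, κ⟩ := d
  · exact rotE_lt h
  · exact (mem_occL.1 (cloudNb_mem (o := (v, i)) h κ)).1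

theorem rot0_rot0 {φ : CNF} {d : ℕ × D0} (h : d.1 < φ.length) : rot0 φ (rot0 φ d) = d := by
  obtain ⟨v, _ | i, κ⟩ := d
  · simp only [rot0, Option.elim_none, Prod.mk.eta, rotE_rotE (x := (v, κ)) h]
  · have e : cloudNb φ (cloudNb φ (v, i) κ) (cloud φ (v, i) κ).2 = (v, i) := by
      have hm := List.idxOf_lt_length_of_mem (mem_occL.2 ⟨h, rfl⟩ : (v, i) ∈ occL φ _)
      rw [cloudNb, cloud_cloud h, (mem_occL.1 (cloudNb_mem (o := (v, i)) h κ)).2,
        List.getD_eq_getElem _ _ hm, List.getElem_idxOf]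
    simp only [rot0, Option.elim_some, Prod.mk.eta, e, cloud_cloud (o := (v, i)) h]

def rot0F (φ : CNF) (d : Fin φ.length × D0) : Fin φ.length × D0 :=
  (⟨(rot0 φ (d.1, d.2)).1, rot0_lt d.1.2⟩, (rot0 φ (d.1, d.2)).2)

theorem rot0F_inv (φ : CNF) : Involutive (rot0F φ) := fun d => by
  simp only [rot0F, Prod.mk.eta, rot0_rot0 (d := (d.1.1, d.2)) d.1.2]

theorem lazy_val (φ : CNF) (v : Fin φ.length) (k : Dt) : lazyR (rot0 φ) (v.1, k) =
    ((lazyR (rot0F φ) (v, k)).1.1, (lazyR (rot0F φ) (v, k)).2) := by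
  obtain ⟨k, _ | _⟩ := k <;> rfl

theorem graph_gap (φ : CNF) [Nonempty (Fin φ.length)] (f : Fin φ.length → ℝ) (h : av f = 0) :
    av (fun v => av (fun k => f (lazyR (rot0F φ) (v, k)).1) ^ 2) ≤
      (1 - 1 / 10240 / 4) * av fun v => f v ^ 2 := by
  refine lazy_gap (rot0F_inv φ) f ?_
  have m0 : (0 : ℝ) < φ.length := by
    exact_mod_cast Fin.pos_iff_nonempty.2 ‹_›
  have h1 := poincare φ.length fun u => if h : u < φ.length then f ⟨u, h⟩ else 0
  simp only [sum_range, Fin.is_lt, dite_true, Fin.eta, rotE_lt (x := (_, _)) (Fin.is_lt _)] at h1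
  have h2 : ∑ u, ∑ v, (f u - f v) ^ 2 = 2 * φ.length ^ 2 * av fun v => f v ^ 2 := by
    rw [av_eq, div_eq_zero_iff] at h
    have h := h.resolve_right (by simpa using m0.ne')
    simp only [sub_sq, sum_add_distrib, sum_sub_distrib, ← mul_sum, h, av_eq, sum_const, card_univ,
      Fintype.card_fin, nsmul_eq_mul, mul_zero]
    field_simp; ring
  refine le_trans ?_ (av_mono (f := fun v : Fin φ.length => (∑ κ : Pt, (f v - f ⟨(rotE φ.length (v, κ)).1,
    rotE_lt v.2⟩) ^ 2) / 160) fun v => ?_)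
  · rw [av_div, av_eq fun v => ∑ _κ : Pt, _, Fintype.card_fin, div_div,
      le_div_iff₀ (by positivity)]
    rw [h2] at h1
    nlinarith
  · rw [av_eq, Fintype.sum_prod_type (α₁ := Option (Fin 4)), Fintype.sum_option]
    have : (Fintype.card D0 : ℝ) = 160 := by simp
    rw [this]
    exact div_le_div_of_nonneg_right (le_add_of_nonneg_right (by positivity)) (by norm_num)

/-- the constraint on a dart -/
def RN (φ : CNF) (d : ℕ × Dt) (s s' : Sg) : Prop :=
  (∃ i : Fin 4, s i = (lit φ (d.1, i)).2) ∧ ∀ i i' : Fin 4, d.2.2 = true → d.2.1.1 = some i →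
    (cloudNb φ (d.1, i) d.2.1.2).2 = i' → s i = s' i'

theorem RN_complete {φ : CNF} (hw : Width 4 φ) {α : ℕ → Bool} (hs : φ.Sat α) {d : ℕ × Dt}
    (h : d.1 < φ.length) : RN φ d (fun i => α (vr φ (d.1, i)))
      fun i => α (vr φ ((lazyR (rot0 φ) d).1, i)) := by
  obtain ⟨i, hi, e⟩ := sat_lit hw hs h
  refine ⟨⟨⟨i, hi⟩, e⟩, ?_⟩
  obtain ⟨v, ⟨o, κ⟩, b⟩ := d
  rintro i _ rfl rfl rfl
  exact congrArg α (mem_occL.1 (cloudNb_mem (o := (v, i)) h κ)).2.symm

theorem RN_sound {φ : CNF} (hw : Width 4 φ) [Nonempty (Fin φ.length)] {ε : ℝ}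
    (hg : ∀ α, ε * φ.length ≤ viol φ α) (σ : Fin φ.length → Sg) :
    ε / (129 * 320) ≤ av fun d : Fin φ.length × Dt =>
      ind (¬ RN φ (d.1, d.2) (σ d.1) (σ (lazyR (rot0F φ) d).1)) := by
  have m0 : (0 : ℝ) < φ.length := by
    exact_mod_cast Fin.pos_iff_nonempty.2 ‹_›
  set τ : ℕ × Fin 4 → Bool := fun o => if h : o.1 < φ.length then σ ⟨o.1, h⟩ o.2 else false with hτ
  choose α hα using fun x => majority (occL φ x).length fun u => τ ((occL φ x).getD u (0, 0))
  set O := range φ.length ×ˢ (univ : Finset (Fin 4)) with hO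
  have fibre : ∀ G : ℕ × Fin 4 → ℝ, ∑ o ∈ O, G o = ∑ x ∈ O.image (vr φ),
      ∑ u ∈ range (occL φ x).length, G ((occL φ x).getD u (0, 0)) := fun G => by
    rw [← sum_fiberwise_of_maps_to (fun o ho => mem_image_of_mem (vr φ) ho) G]
    refine sum_congr rfl fun x _ => ?_
    rw [← sum_toFinset_eq (occL_nodup φ x)]
    exact sum_congr (by ext o; simp [hO, mem_occL]) fun _ _ => rfl
  have a1 : ∑ o ∈ O, ind (τ o ≠ α (vr φ o)) ≤
      128 * ∑ o ∈ O, ∑ κ : Pt, ind (τ o ≠ τ (cloudNb φ o κ)) := by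
    rw [fibre, fibre, mul_sum]
    refine sum_le_sum fun x _ => ?_
    have e : ∀ u ∈ range (occL φ x).length, vr φ ((occL φ x).getD u (0, 0)) = x ∧
        (occL φ x).idxOf ((occL φ x).getD u (0, 0)) = u := fun u hu => by
      rw [List.getD_eq_getElem _ _ (mem_range.1 hu)]
      exact ⟨(mem_occL.1 (List.getElem_mem _)).2, (occL_nodup φ _).idxOf_getElem _ _⟩
    refine (sum_congr rfl fun u hu => by rw [(e u hu).1]).trans_le ((hα x).trans_eq ?_)
    congr 1
    exact sum_congr rfl fun u hu => by simp only [cloudNb, cloud, e u hu]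
  set U := ∑ v : Fin φ.length, ∑ k : Dt,
    ind (¬ RN φ (v, k) (σ v) (σ (lazyR (rot0F φ) (v, k)).1)) with hU
  have a2 : ∑ o ∈ O, ∑ κ : Pt, ind (τ o ≠ τ (cloudNb φ o κ)) ≤ U := by
    rw [hO, sum_product, sum_range]
    refine sum_le_sum fun v _ => ?_
    rw [← sum_product']
    refine sum_le_of_inj _ _ (fun p => ((some p.1, p.2), true)) (fun _ _ => mem_univ _)
      (fun p _ q _ h => by simpa [Prod.ext_iff] using h) (fun p _ => ind_mono fun h hR => h ?_)
      fun _ _ => ind_nonneg _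
    simp only [hτ, Fin.is_lt, dite_true, (mem_occL.1 (cloudNb_mem (o := (v.1, p.1)) v.2 p.2)).1]
    exact hR.2 p.1 _ rfl rfl rfl
  have a3 : (viol φ α : ℝ) ≤ U + ∑ o ∈ O, ind (τ o ≠ α (vr φ o)) := by
    rw [viol_eq hw, hO, sum_product, sum_range, sum_range, ← sum_add_distrib]
    refine sum_le_sum fun v _ => ?_
    have b1 := single_le_sum
      (f := fun k : Dt => ind (¬ RN φ (v, k) (σ v) (σ (lazyR (rot0F φ) (v, k)).1)))
      (fun _ _ => ind_nonneg _) (mem_univ ((none, 0, 0, false), false))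
    have b2 := ind_exists_le univ fun i => τ (v, i) ≠ α (vr φ (v, i))
    refine (ind_mono fun hv => ?_).trans ((ind_or_le _ _).trans (add_le_add b1 b2))
    by_contra hn
    push Not at hn
    obtain ⟨i, hi⟩ := hn.1.1
    have := hn.2 i (mem_univ _)
    simp only [hτ, Fin.is_lt, dite_true] at this
    exact hv i i.2 (this.symm.trans hi)
  rw [av_eq, Fintype.sum_prod_type, ← hU]
  have : (Fintype.card (Fin φ.length × Dt) : ℝ) = φ.length * 320 := by simp
  rw [this, div_le_div_iff₀ (by positivity) (by positivity)]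
  nlinarith [hg α]

end Pool.Agent.Lib.MP_67c02a_lc
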