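import Pool.Agent.Lib.MP_67c02a_lc.Hyper
import Pool.Agent.Lib.MP_67c02a_lc.Count
import Pool.Agent.Lib.MP_67c02a_lc.Gip

/-!
Covers of the selected grid points by grid lines against vertex covers of the hypergraph.
-/

namespace Pool.Agent.Lib.MP_67c02a_lc

open Finset Function

section
variable {t p m : ℕ} [Fact p.Prime]

def labv (x : Fin t → Fin m → ZMod p) (j : ℕ) : ℕ :=
  (∑ l, ∏ i : Fin t, if (i : ℕ) = j then 1 else x i l).val

theorem labv_eq (x : Fin t → Fin m → ZMod p) (j : Fin t) : labv x j = (lab j x).val := by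
  unfold labv lab
  congr 1
  refine sum_congr rfl fun l _ => ?_
  rw [← mul_prod_erase _ _ (mem_univ j), if_pos rfl, one_mul]
  exact prod_congr rfl fun i hi => if_neg fun h => ne_of_mem_erase hi (Fin.ext h)

def InS (H : HG) (x : Fin t → Fin m → ZMod p) : Prop := ∃ e ∈ H, ∀ v ∈ e, labv x v.1 = v.2

theorem card_omega : (Fintype.card (Fin t → Fin m → ZMod p) : ℝ) = (p ^ m) ^ t := by
  simp [ZMod.card]

theorem line_av (j : Fin t) (b : Fin t → Fin m → ZMod p) :
    av (fun x : Fin t → Fin m → ZMod p => ind (∀ i, i ≠ j → x i = b i)) ≤ p ^ m / (p ^ m) ^ t := by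
  rw [av_ind, card_omega]
  refine div_le_div_of_nonneg_right ?_ (by positivity)
  have : (univ.filter fun x : Fin t → Fin m → ZMod p => ∀ i, i ≠ j → x i = b i).card ≤ p ^ m := by
    refine (card_le_card (t := univ.image (update b j)) fun x hx => ?_).trans
      (card_image_le.trans (by simp [ZMod.card]))
    refine mem_image.2 ⟨x j, mem_univ _, funext fun i => ?_⟩
    by_cases hi : i = j
    · subst hi; simp
    · rw [update_of_ne hi, (mem_filter.1 hx).2 i hi]
  exact_mod_cast this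

theorem nu_nonneg (j : Fin t) (a : ZMod p) (x : Fin t → Fin m → ZMod p) : 0 ≤ nu j a x :=
  mul_nonneg (Nat.cast_nonneg _) (ind_nonneg _)

theorem nu_le (j : Fin t) (a : ZMod p) (x : Fin t → Fin m → ZMod p) : nu j a x ≤ p :=
  mul_le_of_le_one_right (Nat.cast_nonneg _) (ind_le_one _)

theorem sum_nu (j : Fin t) (x : Fin t → Fin m → ZMod p) : ∑ a, nu j a x = p := by
  simp only [nu, ← mul_sum, sum_ind, filter_eq, mem_univ, if_true, card_singleton]
  simp

end

theorem pow_split (P : ℝ) (k : ℕ) {m : ℕ} (hm : 0 < m) :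
    (P ^ m) ^ (k + 2) = P ^ (m * (k + 1) - 1) * P * P ^ m := by
  have : 0 < m * (k + 1) := by positivity
  rw [← pow_mul, ← pow_succ, ← pow_add]; congr 1
  rw [Nat.sub_add_cancel this]; ring

theorem sound (k : ℕ) {δ c : ℝ} (δ0 : 0 < δ) (c0 : 0 < c) : ∃ m0 : ℕ, ∀ m ≥ m0,
    ∀ (p : ℕ) [Fact p.Prime], k ^ 2 ≤ p → ∀ (H : HG) (q B : ℕ) (K : ℝ), Full (k + 2) q H →
    q ≤ p → B ≤ p → 0 < B → Robust H K δ → 24 * c * B ≤ K →
    ∀ (n : ℕ) (dir : Fin n → Fin (k + 2)) (bs : Fin n → Fin (k + 2) → Fin m → ZMod p)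
      (sm : Fin n → Finset (Fin (k + 2) → Fin m → ZMod p)), (∀ l, (sm l).card ≤ 2) →
      (∀ x, InS H x → ∃ l, x ∈ sm l ∨ ∀ i, i ≠ dir l → x i = bs l i) →
      c * (2 * B * p ^ (m * (k + 1) - 1) : ℕ) < n := by
  set θ := δ / 2 ^ (k + 2) / 4 with hθ
  have θ0 : 0 < θ := by positivity
  obtain ⟨η, η0, hcount⟩ := counting (Fin (k + 2)) (k + 2) θ0
  obtain ⟨γ1, γ0, hdense⟩ := dense_model η0
  obtain ⟨m1, hm1⟩ := exists_dim k (2 * (k + 2)) (lt_min γ0 η0)
  obtain ⟨u, hu⟩ := pow_unbounded_of_one_lt (4 * c / θ) (one_lt_two (α := ℝ))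
  refine ⟨max m1 (k + 2 + u), fun m hm p _ hp H q B K hF hq hB B0 hR hK n dir bs sm hsm hcov => ?_⟩
  have p2 := (Fact.out : p.Prime).two_le
  have P2 : (2 : ℝ) ≤ p := by exact_mod_cast p2
  have P1 : (1 : ℝ) ≤ p := by linarith
  have m2 : k + 2 + u ≤ m := (le_max_right _ _).trans hm
  have K0 : 0 < K := lt_of_lt_of_le (by positivity) hK
  have hcut := gip (ι := Fin (k + 2)) (p := p) (m := m) (Fintype.card_fin _) (by positivity)
    (hm1 m ((le_max_left _ _).trans hm) p p2 hp)
  by_contra hn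
  rw [not_lt] at hn
  push_cast at hn
  have hM := pow_split (p : ℝ) k (m := m) (by omega)
  set M : ℝ := p ^ (m * (k + 1) - 1) with hMd
  have M0 : 0 < M := by positivity
  set h : Fin (k + 2) → (Fin (k + 2) → Fin m → ZMod p) → ℝ :=
    fun j x => ind (¬ ∃ l ∈ univ.filter (dir · = j), ∀ i, i ≠ j → x i = bs l i) with hh
  have hi : ∀ j, Ind j (h j) := fun j x y => ind_congr (not_congr (exists_congr fun l =>
    and_congr_right fun _ => forall₂_congr fun i hi => by rw [update_of_ne hi]))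
  choose g g1 g0 g2 gc gm using fun (j : Fin (k + 2)) (a : ZMod p) =>
    hdense _ _ j (nu j a) (h j) (ind_nu j a) (hi j) (nu_nonneg j a) (fun _ => ind_nonneg _)
      (fun _ => ind_le_one _) ((hcut j a).mono
        ((div_le_self (by positivity) (one_le_pow₀ P1)).trans (min_le_left _ _)))
  set C : (Fin (k + 2) → Fin m → ZMod p) → Finset Vx := fun x =>
    (univ.filter fun v : Fin (k + 2) × ZMod p => g v.1 v.2 x < 1 / 2).image
      fun v => (v.1.1, v.2.val) with hC
  have a1 : av (fun x => ((C x).card : ℝ)) ≤ K / 2 := by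
    have b1 : ∀ x, ((C x).card : ℝ) ≤ ∑ j, ∑ a, 2 * (1 - g j a x) := fun x => by
      refine (Nat.cast_le.2 card_image_le).trans ?_
      rw [← sum_ind, ← univ_product_univ, sum_product]
      refine sum_le_sum fun j _ => sum_le_sum fun a _ => ?_
      by_cases hx : g j a x < 1 / 2
      · rw [ind_pos hx]; linarith
      · rw [ind_neg hx]; linarith [g2 j a x]
    have b2 : ∀ j, ∑ a, av (fun x => 2 * (1 - g j a x)) ≤
        6 * p * ((univ.filter (dir · = j)).card * (p ^ m / (p ^ m) ^ (k + 2))) := fun j => by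
      refine (sum_le_sum (g := fun a => 6 * av fun x => nu j a x * (1 - h j x))
        fun a _ => by rw [av_mul_left]; linarith [gm j a]).trans ?_
      rw [← mul_sum, ← av_sum]
      simp only [← sum_mul, sum_nu, av_mul_left, mul_assoc]
      gcongr
      simp only [hh, ind_not, sub_sub_cancel]
      refine (av_mono fun x => ind_exists_le _ _).trans ?_
      rw [av_sum, ← nsmul_eq_mul]
      exact sum_le_card_nsmul _ _ _ fun l _ => line_av j (bs l)
    refine (av_mono b1).trans ?_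
    simp only [av_sum]
    refine (sum_le_sum fun j _ => b2 j).trans ?_
    rw [← mul_sum, ← sum_mul, ← Nat.cast_sum, ← card_eq_sum_card_fiberwise (by simp), card_univ,
      Fintype.card_fin, hM, show 6 * (p : ℝ) * (n * (p ^ m / (M * p * p ^ m))) = 6 * n / M by
        field_simp, div_le_iff₀ M0]
    nlinarith
  set s := univ.filter fun x => ((C x).card : ℝ) < K with hs
  have a2 : (1 : ℝ) / 2 ≤ s.card / Fintype.card (Fin (k + 2) → Fin m → ZMod p) := by
    rw [hs, ← av_ind]
    refine le_trans ?_ (av_mono (f := fun x => 1 - ((C x).card : ℝ) / K) fun x => ?_)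
    · rw [av_sub, av_const, av_div]
      have : av (fun x => ((C x).card : ℝ)) / K ≤ 1 / 2 := by rw [div_le_iff₀ K0]; linarith
      linarith
    · by_cases hx : ((C x).card : ℝ) < K
      · rw [ind_pos hx]; exact sub_le_self _ (by positivity)
      · rw [ind_neg hx, sub_nonpos, one_le_div K0]; exact not_lt.1 hx
  obtain ⟨e, he, a3⟩ := hR _ s C fun x hx => (mem_filter.1 hx).2
  obtain ⟨a, aq, ae⟩ := hF e he
  have av' : ∀ j, ((a j : ℕ) : ZMod p).val = a j := fun j => ZMod.val_cast_of_lt ((aq j).trans_le hq)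
  have a4 : 2 * θ ≤ av fun x => ∏ j, g j (a j) x := by
    refine le_trans ?_ (av_mono (f := fun x => (1 / 2) ^ (k + 2) *
      ind (x ∈ s.filter fun ω => Unhit (C ω) e)) fun x => ?_)
    · rw [av_mul_left, av_ind, filter_mem_eq_inter, univ_inter]
      have N0 : (0 : ℝ) < Fintype.card (Fin (k + 2) → Fin m → ZMod p) := by positivity
      have := div_le_div_of_nonneg_right a3 N0.le
      rw [mul_div_assoc] at this
      rw [show 2 * θ = (1 / 2) ^ (k + 2) * (δ * (1 / 2)) by rw [hθ, one_div, inv_pow]; ring]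
      exact mul_le_mul_of_nonneg_left ((mul_le_mul_of_nonneg_left a2 δ0.le).trans this)
        (by positivity)
    · by_cases hx : x ∈ s.filter fun ω => Unhit (C ω) e
      · rw [ind_pos hx, mul_one]
        refine le_trans (by simp) (prod_le_prod (f := fun _ => (1 / 2 : ℝ))
          (fun _ _ => by norm_num) fun j _ => not_lt.1 fun hlt => ?_)
        exact (mem_filter.1 hx).2 _ ((ae _).2 ⟨j, rfl⟩)
          (mem_image.2 ⟨(j, a j), mem_filter.2 ⟨mem_univ _, hlt⟩, by rw [av']⟩)
      · rw [ind_neg hx, mul_zero]; exact prod_nonneg fun j _ => g0 _ _ _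
  have a5 := hcount _ p _ (fun j => nu j (a j)) P1 (by
      rw [Fintype.card_fin, div_mul_cancel₀ _ (by positivity)]; exact min_le_right _ _)
    (fun j => ind_nu j _) (fun j => nu_nonneg j _) (fun j => nu_le j _) (fun j => hcut j _)
    univ (by simp) (fun j x => nu j (a j) x * h j x) (fun j => g j (a j))
    (fun j x y => by simp only [ind_nu j _ x y, hi j x y]) (fun j => g1 j _)
    (fun j x => mul_nonneg (nu_nonneg _ _ _) (ind_nonneg _)) (fun j => g0 j _) (fun j => g2 j _)
    (fun j _ x => mul_le_of_le_one_right (nu_nonneg _ _ _) (ind_le_one _)) (by simp)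
    fun j _ => gc j _
  have a6 : av (fun x => ∏ j, nu j (a j) x * h j x) ≤
      p ^ (k + 2) * (n * (2 / (p ^ m) ^ (k + 2))) := by
    refine (av_mono (g := fun x => (p : ℝ) ^ (k + 2) * ind (∃ l ∈ univ, x ∈ sm l))
      fun x => ?_).trans ?_
    · by_cases hx : ∃ l ∈ univ, x ∈ sm l
      · rw [ind_pos hx, mul_one]
        refine (prod_le_prod (g := fun _ => (p : ℝ))
          (fun j _ => mul_nonneg (nu_nonneg _ _ _) (ind_nonneg _)) fun j _ =>
          (mul_le_of_le_one_right (nu_nonneg _ _ _) (ind_le_one _)).trans (nu_le _ _ _)).trans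
          (by simp)
      · rw [ind_neg hx, mul_zero]
        refine le_of_eq (by_contra fun hne => ?_)
        replace hne := fun j => prod_ne_zero_iff.1 hne j (mem_univ j)
        obtain ⟨l, hl | hl⟩ := hcov x ⟨e, he, fun v hv => by
          obtain ⟨j, rfl⟩ := (ae v).1 hv
          have : lab j x = a j := by_contra fun hc => hne j (by simp [nu, ind_neg hc])
          rw [labv_eq, this, av']⟩
        · exact hx ⟨l, mem_univ _, hl⟩
        · exact hne (dir l) (by
            rw [hh]; simp only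
            rw [ind_neg (not_not.2 ⟨l, by simp, hl⟩), mul_zero])
    · rw [av_mul_left]
      gcongr
      refine (av_mono fun x => ind_exists_le _ _).trans ?_
      rw [av_sum]
      refine (sum_le_card_nsmul _ _ (2 / ((p : ℝ) ^ m) ^ (k + 2)) fun l _ => ?_).trans (by simp)
      rw [av_ind, filter_mem_eq_inter, univ_inter, card_omega]
      gcongr
      exact_mod_cast hsm l
  have a7 : θ ≤ p ^ (k + 2) * (n * (2 / (p ^ m) ^ (k + 2))) := by
    linarith [(abs_le.1 a5).1]
  have a8 : (p : ℝ) ^ (k + 2) * 2 ^ u ≤ p ^ m :=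
    (mul_le_mul_of_nonneg_left (pow_le_pow_left₀ zero_le_two P2 u) (by positivity)).trans
      ((pow_add _ _ _).symm.trans_le (pow_le_pow_right₀ P1 m2))
  have hB' : (B : ℝ) ≤ p := by exact_mod_cast hB
  rw [hM, ← mul_div_assoc, ← mul_div_assoc, le_div_iff₀ (by positivity)] at a7
  rw [div_lt_iff₀ θ0] at hu
  have a9 : (n : ℝ) ≤ c * (2 * p * M) := hn.trans (by gcongr)
  have a10 : θ * (M * p * (p ^ (k + 2) * 2 ^ u)) ≤ p ^ (k + 2) * (c * (2 * p * M) * 2) :=
    (by gcongr : _ ≤ θ * (M * p * p ^ m)).trans (a7.trans (by gcongr))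
  have a11 : 0 < M * p * p ^ (k + 2) := by positivity
  nlinarith

theorem complete (k : ℕ) : ∃ m0 : ℕ, ∀ m ≥ m0,
    ∀ (p : ℕ) [Fact p.Prime], k ^ 2 ≤ p → ∀ (H : HG) (q B : ℕ) (C : Finset Vx), Full (k + 2) q H →
    IsCover H C → C.card ≤ B →
    ∃ T : Finset (Fin (k + 2) × (Fin (k + 2) → Fin m → ZMod p)),
      T.card ≤ 2 * B * p ^ (m * (k + 1) - 1) ∧
      ∀ x, InS H x → ∃ τ ∈ T, ∀ i, i ≠ τ.1 → x i = τ.2 i := by
  obtain ⟨m1, hm1⟩ := exists_dim k 0 one_pos
  refine ⟨max m1 1, fun m hm p _ hp H q B C hF hC hB => ?_⟩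
  have p2 := (Fact.out : p.Prime).two_le
  have P0 : (0 : ℝ) < p := by exact_mod_cast (by omega : 0 < p)
  have hcut := gip (ι := Fin (k + 2)) (p := p) (m := m) (Fintype.card_fin _) (by positivity)
    (hm1 m ((le_max_left _ _).trans hm) p p2 hp)
  have hM := pow_split (p : ℝ) k (m := m) ((le_max_right _ _).trans hm)
  set V := univ.filter fun v : Fin (k + 2) × ZMod p => (v.1.1, v.2.val) ∈ C with hV
  refine ⟨V.biUnion fun v => (univ.filter fun x : Fin (k + 2) → Fin m → ZMod p =>
    x v.1 = 0 ∧ lab v.1 x = v.2).image fun x => (v.1, x), ?_, fun x ⟨e, he, hx⟩ => ?_⟩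
  · have b1 : V.card ≤ B := (card_le_card_of_injOn (fun v => (v.1.1, v.2.val))
      (fun v hv => (mem_filter.1 hv).2) fun v _ w _ h => Prod.ext (Fin.ext (congrArg Prod.fst h))
        (ZMod.val_injective p (congrArg Prod.snd h))).trans hB
    refine (card_biUnion_le_card_mul _ _ (2 * p ^ (m * (k + 1) - 1)) fun v _ =>
      card_image_le.trans ?_).trans (by rw [mul_comm 2 B, mul_assoc]; gcongr)
    have b2 : av (nu (m := m) v.1 v.2) ≤ 2 := by
      have := (abs_le.1 (hcut v.1 v.2).abs_av).2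
      rw [av_sub, av_const] at this
      norm_num at this
      linarith
    have b3 := av_bar_mul (ind_nu (m := m) v.1 v.2) fun x => ind (x v.1 = 0)
    have b4 : ∀ x : Fin (k + 2) → Fin m → ZMod p,
        bar v.1 (fun x => ind (x v.1 = 0)) x = 1 / p ^ m := fun x => by
      simp only [bar, update_self]
      rw [av_ind]; simp [filter_eq', ZMod.card]
    simp only [b4, av_mul_left] at b3
    rw [av_congr (f := fun x => ind (x v.1 = 0) * nu v.1 v.2 x) (g := fun x => p * ind (x v.1 = 0 ∧ lab v.1 x = v.2))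
      fun x => by rw [nu, ind_and]; ring, av_mul_left, av_ind, card_omega, hM] at b3
    have b5 : (((univ.filter fun x : Fin (k + 2) → Fin m → ZMod p =>
        x v.1 = 0 ∧ lab v.1 x = v.2).card : ℕ) : ℝ) ≤ 2 * p ^ (m * (k + 1) - 1) := by
      field_simp at b3
      rw [← b3]
      gcongr
    exact_mod_cast b5
  · obtain ⟨v, h1, h2⟩ := hC e he
    obtain ⟨a, -, ae⟩ := hF e he
    obtain ⟨j, rfl⟩ := (ae v).1 h1
    have h3 := hx _ h1
    rw [labv_eq] at h3
    refine ⟨(j, update x j 0), mem_biUnion.2 ⟨(j, lab j x), mem_filter.2 ⟨mem_univ _, by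
      simp only at h3 ⊢; rwa [h3]⟩, mem_image.2 ⟨update x j 0, mem_filter.2 ⟨mem_univ _,
      update_self _ _ _, ind_lab j x 0⟩, rfl⟩⟩, fun i hi => (update_of_ne hi _ _).symm⟩

end Pool.Agent.Lib.MP_67c02a_lc
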