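import Pool.Agent.Lib.MP_67c02a_lc.Defs
import Pool.Agent.Lib.MP_67c02a_lc.Geo
import Pool.Agent.Lib.MP_67c02a_lc.Base
import Pool.Agent.Lib.MP_67c02a_lc.Sound

/-!
The gap preserving reduction from formulas to planar point sets.
-/

namespace Pool.Agent.Lib.MP_67c02a_lc

open Finset Function Pool.Agent.Lib.Complexity

set_option maxHeartbeats 400000

theorem pt_sum {α ι : Type} [Enc α] (s : Finset ι) {f : ι → α → ℕ} (h : ∀ i, PT (f i)) :
    PT fun a => ∑ i ∈ s, f i a := by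
  classical
  induction s using Finset.induction_on with
  | empty => exact PT.const 0
  | insert i s hi ih => exact ((h i).add ih).of_eq fun a => by rw [sum_insert hi]

theorem pt_prod {α ι : Type} [Enc α] (s : Finset ι) {f : ι → α → ℕ} (h : ∀ i, PT (f i)) :
    PT fun a => ∏ i ∈ s, f i a := by
  classical
  induction s using Finset.induction_on with
  | empty => exact PT.const 1
  | insert i s hi ih => exact ((h i).mul ih).of_eq fun a => by rw [prod_insert hi]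

theorem pt_isum {α ι : Type} [Enc α] (s : Finset ι) {f : ι → α → ℤ} (h : ∀ i, PT (f i)) :
    PT fun a => ∑ i ∈ s, f i a := by
  classical
  induction s using Finset.induction_on with
  | empty => exact PT.const 0
  | insert i s hi ih => exact ((h i).int_add ih).of_eq fun a => by rw [sum_insert hi]

def ent (m p z i l : ℕ) : ℕ := z / p ^ (l + m * i) % p

def labN (t m p z j : ℕ) : ℕ :=
  (∑ l : Fin m, ∏ i : Fin t, if (i : ℕ) = j then 1 else ent m p z i l) % p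

def codeN (m p z i : ℕ) : ℕ := ∑ l : Fin m, ent m p z i l * p ^ (l : ℕ)

def pts (t m p : ℕ) (H : HG) : List (ℤ × ℤ) :=
  ((List.range (p ^ (t * m))).filter fun z => H.any fun e => e.all fun v =>
    decide (labN t m p z v.1 = v.2)).map fun z =>
      emb t ((p ^ m : ℕ) : ℤ) fun i => (codeN m p z i : ℤ)

theorem pt_ent {α : Type} [Enc α] (m i l : ℕ) {p z : α → ℕ} (hp : PT p) (hz : PT z) :
    PT fun a => ent m (p a) (z a) i l := by unfold ent; fun_prop

theorem pt_pts (t m : ℕ) : PT fun x : ℕ × HG => pts t m x.1 x.2 := by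
  have h1 : PT fun x : ℕ × ℕ × ℕ => labN t m x.1 x.2.1 x.2.2 :=
    PT.mod (pt_sum _ fun l => pt_prod _ fun i => PT.ite (by fun_prop) (PT.const 1)
      (pt_ent m i l (by fun_prop) (by fun_prop))) (by fun_prop)
  have h2 : ∀ i, PT fun x : ℕ × ℕ => codeN m x.1 x.2 i := fun i =>
    pt_sum _ fun l => PT.mul (pt_ent m i l (by fun_prop) (by fun_prop)) (by fun_prop)
  have h3 : PT fun x : ℕ × ℕ => emb t ((x.1 ^ m : ℕ) : ℤ) fun i => (codeN m x.1 x.2 i : ℤ) := by
    refine PT.prodMk (pt_isum _ fun i => ?_) (pt_isum _ fun i => ?_) <;>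
    · have := h2 i
      unfold th
      try unfold pL
      unfold pM pW
      fun_prop
  refine PT.map (PT.filter (by fun_prop) (PT.any (by fun_prop) (PT.all (by fun_prop)
    (PT.dec_eq (h1.comp (f := fun x : (((ℕ × HG) × ℕ) × List Vx) × Vx =>
      (x.1.1.1.1, x.1.1.2, x.2.1)) (by fun_prop)) (by fun_prop)))))
    (h3.comp (f := fun x : (ℕ × HG) × ℕ => (x.1.1, x.2)) (by fun_prop))

section
variable {t m p : ℕ} [Fact p.Prime]

def xOf (t m p z : ℕ) : Fin t → Fin m → ZMod p := fun i l => (ent m p z i l : ZMod p)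

def code (y : Fin m → ZMod p) : ℕ := ∑ l, (y l).val * p ^ (l : ℕ)

theorem code_eq (y : Fin m → ZMod p) :
    code y = finFunctionFinEquiv fun l => (⟨(y l).val, ZMod.val_lt _⟩ : Fin p) := by
  rw [finFunctionFinEquiv_apply]; rfl

theorem code_lt (y : Fin m → ZMod p) : code y < p ^ m := by rw [code_eq]; exact Fin.is_lt _

theorem code_inj : Injective (code : (Fin m → ZMod p) → ℕ) := fun y y' h => by
  rw [code_eq, code_eq] at h
  have := finFunctionFinEquiv.injective (Fin.ext h)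
  exact funext fun l => ZMod.val_injective p (congrArg Fin.val (congrFun this l))

theorem val_xOf (z : ℕ) (i : Fin t) (l : Fin m) : (xOf t m p z i l).val = ent m p z i l :=
  ZMod.val_cast_of_lt (Nat.mod_lt _ (Fact.out : p.Prime).pos)

theorem xOf_surj (x : Fin t → Fin m → ZMod p) : ∃ z < p ^ (t * m), xOf t m p z = x := by
  set f : Fin (t * m) → Fin p := fun n =>
    ⟨(x (finProdFinEquiv.symm n).1 (finProdFinEquiv.symm n).2).val, ZMod.val_lt _⟩ with hf
  refine ⟨finFunctionFinEquiv f, Fin.is_lt _, funext fun i => funext fun l => ?_⟩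
  have := finFunctionFinEquiv_symm_apply_val (finFunctionFinEquiv f) (finProdFinEquiv (i, l))
  rw [Equiv.symm_apply_apply] at this
  simp only [hf, Equiv.symm_apply_apply, finProdFinEquiv_apply_val] at this
  rw [xOf, ent, ← this, ZMod.natCast_zmod_val]

def pnt (x : Fin t → Fin m → ZMod p) : ℤ × ℤ := emb t ((p ^ m : ℕ) : ℤ) fun i => (code (x i) : ℤ)

theorem mem_pts {H : HG} {P : ℤ × ℤ} :
    P ∈ pts t m p H ↔ ∃ x : Fin t → Fin m → ZMod p, InS H x ∧ pnt x = P := by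
  have e1 : ∀ z j, labN t m p z j = labv (xOf t m p z) j := fun z j => by
    rw [labN, labv, ← ZMod.val_natCast]; push_cast; rfl
  have e2 : ∀ z, (emb t ((p ^ m : ℕ) : ℤ) fun i => (codeN m p z i : ℤ)) = pnt (xOf t m p z) :=
    fun z => by simp only [pnt, code, codeN, val_xOf]
  simp only [pts, List.mem_map, List.mem_filter, List.mem_range, List.any_eq_true,
    List.all_eq_true, decide_eq_true_eq, e1, e2]
  constructor
  · rintro ⟨z, ⟨-, h⟩, rfl⟩; exact ⟨_, h, rfl⟩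
  · rintro ⟨x, h, rfl⟩
    obtain ⟨z, hz, rfl⟩ := xOf_surj x
    exact ⟨z, ⟨hz, h⟩, rfl⟩

theorem one_le_N : (1 : ℤ) ≤ ((p ^ m : ℕ) : ℤ) := by
  exact_mod_cast Nat.one_le_pow _ _ (Fact.out : p.Prime).pos

theorem line_cases [Nonempty (Fin t)] {a b c : ℝ} (hab : a ≠ 0 ∨ b ≠ 0) :
    ∃ (j : Fin t) (y : Fin t → Fin m → ZMod p) (s : Finset (Fin t → Fin m → ZMod p)),
      s.card ≤ 2 ∧ ∀ x, a * (pnt x).1 + b * (pnt x).2 = c → x ∈ s ∨ ∀ i, i ≠ j → x i = y i := by
  classical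
  set Z := univ.filter fun x : Fin t → Fin m → ZMod p => a * (pnt x).1 + b * (pnt x).2 = c
  by_cases h : Z.card ≤ 2
  · exact ⟨Classical.arbitrary _, 0, Z, h, fun x hx => Or.inl (mem_filter.2 ⟨mem_univ _, hx⟩)⟩
  have ne : ∀ {x y : Fin t → Fin m → ZMod p}, x ≠ y →
      (fun i => (code (x i) : ℤ)) ≠ fun i => (code (y i) : ℤ) := fun h e =>
    h (funext fun i => code_inj (by exact_mod_cast congrFun e i))
  have key : ∀ x ∈ Z, ∀ y ∈ Z, ∀ z ∈ Z, x ≠ y → x ≠ z → y ≠ z →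
      ∃ j, ∀ i, i ≠ j → x i = y i ∧ x i = z i := fun x hx y hy z hz h1 h2 h3 => by
    obtain ⟨j, hj⟩ := collinear one_le_N (fun _ => Nat.cast_nonneg _) (fun _ => Nat.cast_nonneg _)
      (fun _ => Nat.cast_nonneg _) (fun i => Nat.cast_lt.2 (code_lt (x i)))
      (fun i => Nat.cast_lt.2 (code_lt (y i))) (fun i => Nat.cast_lt.2 (code_lt (z i)))
      (ne h1) (ne h2) (ne h3) hab (mem_filter.1 hx).2 (mem_filter.1 hy).2 (mem_filter.1 hz).2
    exact ⟨j, fun i hi => ⟨code_inj (Nat.cast_injective (hj i hi).1),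
      code_inj (Nat.cast_injective (hj i hi).2)⟩⟩
  obtain ⟨x, hx, y, hy, z, hz, h1, h2, h3⟩ := two_lt_card.1 (not_le.1 h)
  obtain ⟨j, hj⟩ := key x hx y hy z hz h1 h2 h3
  refine ⟨j, x, ∅, by simp, fun u hu => Or.inr fun i hi => ?_⟩
  by_cases e1 : x = u
  · rw [e1]
  by_cases e2 : y = u
  · rw [← e2, (hj i hi).1]
  obtain ⟨j', hj'⟩ := key x hx y hy u (mem_filter.2 ⟨mem_univ _, hu⟩) h1 e1 e2
  by_cases e3 : j' = j
  · exact (hj' i (e3 ▸ hi)).2.symm
  · refine (h1 (funext fun i => ?_)).elim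
    by_cases e4 : i = j
    · exact (hj' i (e4 ▸ Ne.symm e3)).1
    · exact (hj i e4).1

end

def toQ (S : List (ℤ × ℤ)) : List (ℚ × ℚ) := S.map fun P => ((P.1 : ℚ), (P.2 : ℚ))

theorem LC_le {S : List (ℚ × ℚ)} {κ : Type} (T : Finset κ) (a b c : κ → ℝ)
    (h1 : ∀ i, a i ≠ 0 ∨ b i ≠ 0) (h2 : ∀ P ∈ S, ∃ i ∈ T, a i * P.1 + b i * P.2 = c i) :
    LC S ≤ T.card :=
  Nat.sInf_le ⟨fun i => a (T.equivFin.symm i), fun i => b (T.equivFin.symm i),
    fun i => c (T.equivFin.symm i), fun _ => h1 _, fun P hP => by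
      obtain ⟨i, hi, e⟩ := h2 P hP
      exact ⟨T.equivFin ⟨i, hi⟩, by simpa using e⟩⟩

theorem LC_spec (S : List (ℚ × ℚ)) : ∃ a b c : Fin (LC S) → ℝ, (∀ i, a i ≠ 0 ∨ b i ≠ 0) ∧
    ∀ P ∈ S, ∃ i, a i * P.1 + b i * P.2 = c i :=
  Nat.sInf_mem (s := {k | ∃ a b c : Fin k → ℝ, (∀ i, a i ≠ 0 ∨ b i ≠ 0) ∧
    ∀ P ∈ S, ∃ i, a i * P.1 + b i * P.2 = c i}) ⟨S.length, fun _ => 1, fun _ => 0,
      fun i => S[i].1, fun _ => Or.inl one_ne_zero, fun P hP => by
        obtain ⟨i, hi, rfl⟩ := List.getElem_of_mem hP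
        exact ⟨⟨i, hi⟩, by simp⟩⟩

theorem geo (k : ℕ) {δ c : ℝ} (δ0 : 0 < δ) (c0 : 0 < c) : ∃ m : ℕ,
    ∀ (p : ℕ), p.Prime → k ^ 2 ≤ p → ∀ (H : HG) (q B : ℕ), Full (k + 2) q H → q ≤ p → B ≤ p →
    ((∃ C, IsCover H C ∧ C.card ≤ B) →
      LC (toQ (pts (k + 2) m p H)) ≤ 2 * B * p ^ (m * (k + 1) - 1)) ∧
    (0 < B → Robust H (24 * c * B) δ →
      c * (2 * B * p ^ (m * (k + 1) - 1) : ℕ) < LC (toQ (pts (k + 2) m p H))) := by
  obtain ⟨m1, h1⟩ := sound k δ0 c0
  obtain ⟨m2, h2⟩ := complete k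
  refine ⟨max m1 m2, fun p hp hk H q B hF hq hB => ⟨fun ⟨C, hC, hc⟩ => ?_, fun B0 hR => ?_⟩⟩
  · haveI := Fact.mk hp
    obtain ⟨T, hT, h⟩ := h2 _ (le_max_right m1 m2) p hk H q B C hF hC hc
    set N : ℤ := ((p ^ max m1 m2 : ℕ) : ℤ) with hN
    refine (LC_le T (fun τ => (pL (k + 2) N ^ (τ.1 : ℕ) : ℤ)) (fun τ => -(pM (k + 2) N ^ (τ.1 : ℕ) : ℤ))
      (fun τ => (pL (k + 2) N ^ (τ.1 : ℕ) * (pnt τ.2).1 - pM (k + 2) N ^ (τ.1 : ℕ) * (pnt τ.2).2 : ℤ))
      (fun τ => Or.inl ?_) fun P hP => ?_).trans hT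
    · have := one_le_pL (k + 2) (one_le_N (p := p) (m := max m1 m2))
      exact Int.cast_ne_zero.2 (pow_pos (lt_of_lt_of_le one_pos this) _).ne'
    · obtain ⟨P, hP', rfl⟩ := List.mem_map.1 hP
      obtain ⟨x, hx, rfl⟩ := mem_pts.1 hP'
      obtain ⟨τ, h3, h4⟩ := h x hx
      refine ⟨τ, h3, ?_⟩
      have := emb_line (N := N) τ.1 (x := fun i => (code (τ.2 i) : ℤ))
        (y := fun i => (code (x i) : ℤ)) fun i hi => by rw [h4 i hi]
      rw [pnt, pnt, ← hN, ← this]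
      push_cast; ring
  · haveI := Fact.mk hp
    obtain ⟨a, b, d, h3, h4⟩ := LC_spec (toQ (pts (k + 2) (max m1 m2) p H))
    choose dir bs sm s1 s2 using fun l =>
      line_cases (t := k + 2) (m := max m1 m2) (p := p) (c := d l) (h3 l)
    refine h1 _ (le_max_left m1 m2) p hk H q B _ hF hq hB B0 hR le_rfl _ dir bs sm s1
      fun x hx => ?_
    obtain ⟨l, hl⟩ := h4 _ (List.mem_map_of_mem (mem_pts.2 ⟨x, hx, rfl⟩))
    exact ⟨l, s2 l x (by simpa using hl)⟩

def nextP (n : ℕ) : ℕ := ((List.range (2 * n + 3)).filter fun k =>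
  decide (n ≤ k ∧ 2 ≤ k ∧ ∀ d ∈ List.range k, d < 2 ∨ k % d ≠ 0)).headD 2

theorem nextP_spec (n : ℕ) : (nextP n).Prime ∧ n ≤ nextP n := by
  obtain ⟨p, h1, h2, h3⟩ := Nat.exists_prime_lt_and_le_two_mul (n + 1) (by omega)
  have hm : nextP n ∈ (List.range (2 * n + 3)).filter fun k =>
      decide (n ≤ k ∧ 2 ≤ k ∧ ∀ d ∈ List.range k, d < 2 ∨ k % d ≠ 0) := by
    have : p ∈ (List.range (2 * n + 3)).filter fun k =>
        decide (n ≤ k ∧ 2 ≤ k ∧ ∀ d ∈ List.range k, d < 2 ∨ k % d ≠ 0) := by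
      simp only [List.mem_filter, List.mem_range, decide_eq_true_eq]
      refine ⟨by omega, by omega, h1.two_le, fun d hd => ?_⟩
      by_contra hn
      push Not at hn
      exact (Nat.prime_def_lt'.1 h1).2 d hn.1 hd (Nat.dvd_of_mod_eq_zero hn.2)
    unfold nextP
    generalize List.filter _ _ = l at *
    cases l <;> simp at this ⊢
  simp only [List.mem_filter, List.mem_range, decide_eq_true_eq] at hm
  exact ⟨Nat.prime_def_lt'.2 ⟨hm.2.2.1, fun d h4 h5 h6 =>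
    (hm.2.2.2 d h5).elim (by omega) fun h => h (Nat.mod_eq_zero_of_dvd h6)⟩, hm.2.1⟩

theorem pt_nextP : PT nextP := by unfold nextP; fun_prop

@[fun_prop] theorem pt_lit {α : Type} [Enc α] {φ : α → CNF} {o : α → ℕ × ℕ} (h1 : PT φ)
    (h2 : PT o) : PT fun a => lit (φ a) (o a) := by unfold lit; fun_prop

@[fun_prop] theorem pt_toNat {α : Type} [Enc α] {b : α → Bool} (h : PT b) :
    PT fun a => (b a).toNat := (PT.of_fintype Bool.toNat).comp h

theorem pt_base (w : ℕ) : PT (base w) := by unfold base clE occs vx; fun_prop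

theorem pt_ext (k : ℕ) : PT fun x : HG × List Vx => ext x.1 k x.2 := by
  induction k with
  | zero => exact PT.const _
  | succ k ih =>
    unfold ext pr
    refine PT.list_casesOn (by fun_prop) (by fun_prop) (PT.flatMap (by fun_prop) (PT.map
      (ih.comp (f := fun x : ((HG × List Vx) × Vx × List Vx) × List Vx => (x.1.1.1, x.1.2.2))
        (by fun_prop)) (by fun_prop)))

theorem pt_iter (k r : ℕ) : PT fun H : HG => iter k H r := by
  induction r with
  | zero => exact PT.const _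
  | succ r ih =>
    exact PT.flatMap PT.id ((pt_ext k).comp (f := fun x : HG × List Vx => (iter k x.1 r, x.2))
      (PT.prodMk (ih.comp (by fun_prop)) (by fun_prop)))

theorem pt_tb (r : ℕ) : PT fun n : ℕ => tb n r := by
  induction r with
  | zero => exact PT.const _
  | succ r ih => unfold tb; fun_prop

theorem pt_pad (t : ℕ) : PT fun x : ℕ × ℕ × HG => pad t x.1 x.2.1 x.2.2 := by
  unfold pad padE; fun_prop

end Pool.Agent.Lib.MP_67c02a_lc
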