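import Pool.Agent.Lib.MP_67c02a_lc.Lift
import Pool.Agent.Lib.MP_67c02a_lc.Red

/-!
Lines of the plane against a rectangular grid with `t` labelled directions.
-/

namespace Pool.Agent.Lib.MP_67c02a_lc

open Finset Function

set_option maxHeartbeats 400000

abbrev GP (t N : ℕ) := Fin N × Fin (t * N)

def sl {t N : ℕ} (i : Fin t) (p : GP t N) : Fin (2 * (t * N)) :=
  ⟨p.2 + i * p.1, by
    have := p.2.2
    have := Nat.mul_le_mul i.2.le p.1.2.le
    omega⟩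

def gU (t N : ℕ) (d : ℤ × ℤ × ℤ) : Finset (GP t N) :=
  univ.filter fun p => d.2.1 * (p.1 : ℕ) - d.1 * (p.2 : ℕ) = d.2.2

noncomputable def gT (t N h : ℕ) : Finset (ℤ × ℤ × ℤ) :=
  (Icc (-h : ℤ) h ×ˢ Icc (-(t * h) : ℤ) (t * h) ×ˢ Icc (-(2 * (t * h * N)) : ℤ) (2 * (t * h * N))).filter
    fun d => (d.1 ≠ 0 ∨ d.2.1 ≠ 0) ∧ ∀ i : Fin t, d.2.1 + (i : ℕ) * d.1 ≠ 0

variable {t N h : ℕ}

theorem sl_eq {i : Fin t} {p p' : GP t N} : sl i p = sl i p' ↔
    ((p.2 : ℕ) : ℤ) + (i : ℕ) * (p.1 : ℕ) = (p'.2 : ℕ) + (i : ℕ) * (p'.1 : ℕ) := by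
  rw [Fin.ext_iff]; unfold sl; norm_cast

theorem gp_ext {p p' : GP t N} (h1 : ((p.1 : ℕ) : ℤ) = (p'.1 : ℕ)) (h2 : ((p.2 : ℕ) : ℤ) = (p'.2 : ℕ)) :
    p = p' := Prod.ext (Fin.ext (by exact_mod_cast h1)) (Fin.ext (by exact_mod_cast h2))

theorem sl_deg (l : Fin t × Fin (2 * (t * N))) :
    ((univ.filter fun p : GP t N => sl l.1 p = l.2).card : ℝ) ≤ N := by
  have := card_le_card_of_injOn (s := univ.filter fun p : GP t N => sl l.1 p = l.2) (t := univ)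
    Prod.fst (fun _ _ => mem_univ _) fun p hp p' hp' e => by
      have := sl_eq.1 ((mem_filter.1 hp).2.trans (mem_filter.1 hp').2.symm)
      rw [e] at this
      exact gp_ext (by rw [e]) (by linarith)
  rw [card_univ, Fintype.card_fin] at this
  exact_mod_cast this

theorem sl_lin (p p' : GP t N) (i j : Fin t) (hne : p ≠ p') (e : sl i p = sl i p') (hij : j ≠ i) :
    sl j p ≠ sl j p' := fun e' => by
  rw [sl_eq] at e e'
  have h1 : (((j : ℕ) : ℤ) - (i : ℕ)) * ((p.1 : ℕ) - (p'.1 : ℕ)) = 0 := by linarith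
  rcases mul_eq_zero.1 h1 with h | h
  · exact hij (Fin.ext (by exact_mod_cast sub_eq_zero.1 h))
  · rw [sub_eq_zero] at h
    rw [h] at e
    exact hne (gp_ext h (by linarith))

theorem gU_card (t0 : 0 < t) : ∀ d ∈ gT t N h, ((gU t N d).card : ℝ) ≤ t * N := fun d hd => by
  have hd := (mem_filter.1 hd).2.1
  by_cases h1 : d.1 = 0
  · have := card_le_card_of_injOn (s := gU t N d) (t := univ) Prod.snd (fun _ _ => mem_univ _)
      fun p hp p' hp' e => by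
        have := (mem_filter.1 hp).2.trans (mem_filter.1 hp').2.symm
        rw [e, sub_left_inj] at this
        exact gp_ext (mul_left_cancel₀ (hd.resolve_left fun h => h h1) this) (by rw [e])
    rw [card_univ, Fintype.card_fin] at this
    exact_mod_cast this
  · have := card_le_card_of_injOn (s := gU t N d) (t := univ) Prod.fst (fun _ _ => mem_univ _)
      fun p hp p' hp' e => by
        have := (mem_filter.1 hp).2.trans (mem_filter.1 hp').2.symm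
        rw [e, sub_right_inj] at this
        exact gp_ext (by rw [e]) (mul_left_cancel₀ h1 this)
    rw [card_univ, Fintype.card_fin] at this
    exact_mod_cast this.trans (Nat.le_mul_of_pos_left _ t0)

theorem gU_lin : ∀ d ∈ gT t N h, ∀ p ∈ gU t N d, ∀ p' ∈ gU t N d, p ≠ p' → ∀ i, sl i p ≠ sl i p' :=
  fun d hd p hp p' hp' hne i e => by
    rw [sl_eq] at e
    have h1 := (mem_filter.1 hp).2.trans (mem_filter.1 hp').2.symm
    have h2 : (d.2.1 + (i : ℕ) * d.1) * (((p.1 : ℕ) : ℤ) - (p'.1 : ℕ)) = 0 := by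
      linear_combination h1 + d.1 * e
    have h3 := sub_eq_zero.1 ((mul_eq_zero.1 h2).resolve_left ((mem_filter.1 hd).2.2 i))
    rw [h3] at e
    exact hne (gp_ext h3 (by linarith))

theorem gT_card : ((gT t N h).card : ℝ) ≤ (2 * h + 1) * ((2 * (t * h) + 1) * (4 * (t * h * N) + 1)) := by
  have := card_filter_le (Icc (-h : ℤ) h ×ˢ Icc (-(t * h) : ℤ) (t * h) ×ˢ
    Icc (-(2 * (t * h * N)) : ℤ) (2 * (t * h * N)))
    fun d => (d.1 ≠ 0 ∨ d.2.1 ≠ 0) ∧ ∀ i : Fin t, d.2.1 + (i : ℕ) * d.1 ≠ 0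
  rw [card_product, card_product, Int.card_Icc, Int.card_Icc, Int.card_Icc,
    show (h + 1 - -h : ℤ) = (2 * h + 1 : ℕ) by push_cast; ring,
    show (t * h + 1 - -(t * h) : ℤ) = (2 * (t * h) + 1 : ℕ) by push_cast; ring,
    show (2 * (t * h * N) + 1 - -(2 * (t * h * N)) : ℤ) = (4 * (t * h * N) + 1 : ℕ) by push_cast; ring,
    Int.toNat_natCast, Int.toNat_natCast, Int.toNat_natCast] at this
  exact_mod_cast this

theorem close_of_div {x y : ℕ} (h0 : 0 < h) (e : x / h = y / h) : |(x : ℤ) - y| ≤ h := by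
  have h1 := Nat.div_add_mod x h
  have h2 := Nat.div_add_mod y h
  have h3 := Nat.mod_lt x h0
  have h4 := Nat.mod_lt y h0
  rw [e] at h1
  generalize h * (y / h) = u at *
  rw [abs_le]; omega

theorem close_pair (t0 : 0 < t) (h0 : 0 < h) {a b c : ℝ} (hab : a ≠ 0 ∨ b ≠ 0) (G : Finset (GP t N))
    (hG : ∀ p ∈ G, a * (p.1 : ℕ) + b * (p.2 : ℕ) = c) (hc : 2 * (N / h) + 1 < G.card) :
    ∃ p ∈ G, ∃ p' ∈ G, p ≠ p' ∧ |((p.1 : ℕ) : ℤ) - (p'.1 : ℕ)| ≤ h ∧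
      |((p.2 : ℕ) : ℤ) - (p'.2 : ℕ)| ≤ (t * h : ℕ) := by
  have b1 : ∀ p : GP t N, p.1 / h ≤ N / h := fun p => Nat.div_le_div_right p.1.2.le
  have b2 : ∀ p : GP t N, p.2 / (t * h) ≤ N / h := fun p =>
    (Nat.div_le_div_right p.2.2.le).trans_eq (Nat.mul_div_mul_left _ _ t0)
  have m1 : ∀ p p' : GP t N, ((p.1 : ℕ) : ℝ) ≤ (p'.1 : ℕ) → p.1 / h ≤ p'.1 / h := fun p p' e =>
    Nat.div_le_div_right (by exact_mod_cast e)
  have m2 : ∀ p p' : GP t N, ((p.2 : ℕ) : ℝ) ≤ (p'.2 : ℕ) → p.2 / (t * h) ≤ p'.2 / (t * h) :=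
    fun p p' e => Nat.div_le_div_right (by exact_mod_cast e)
  have e0 : ∀ p ∈ G, ∀ p' ∈ G, ∀ s : ℝ, 0 ≤ s * (a * b) →
      s * ((((p.1 : ℕ) : ℝ) - (p'.1 : ℕ)) * (((p.2 : ℕ) : ℝ) - (p'.2 : ℕ))) ≤ 0 := fun p hp p' hp' s hs => by
    have h1 : a * (((p.1 : ℕ) : ℝ) - (p'.1 : ℕ)) + b * (((p.2 : ℕ) : ℝ) - (p'.2 : ℕ)) = 0 := by
      linarith [hG p hp, hG p' hp']
    generalize ((p.1 : ℕ) : ℝ) - (p'.1 : ℕ) = u at *
    generalize ((p.2 : ℕ) : ℝ) - (p'.2 : ℕ) = v at *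
    have h2 : 0 < a ^ 2 + b ^ 2 := by rcases hab with h | h <;> positivity
    have h3 : (a ^ 2 + b ^ 2) * (s * (u * v)) = - (s * (a * b) * (u ^ 2 + v ^ 2)) := by
      linear_combination (s * (a * v + b * u)) * h1
    by_contra hn
    have := mul_pos h2 (not_le.1 hn)
    have := mul_nonneg hs (add_nonneg (sq_nonneg u) (sq_nonneg v))
    linarith
  suffices ∃ p ∈ G, ∃ p' ∈ G, p ≠ p' ∧ p.1 / h = p'.1 / h ∧ p.2 / (t * h) = p'.2 / (t * h) by
    obtain ⟨p, hp, p', hp', e1, e2, e3⟩ := this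
    exact ⟨p, hp, p', hp', e1, close_of_div h0 e2, close_of_div (by positivity) e3⟩
  rcases le_total 0 (a * b) with hs | hs
  · obtain ⟨p, hp, p', hp', e1, e2⟩ := exists_ne_map_eq_of_card_lt_of_maps_to
      (t := range (2 * (N / h) + 1)) (by rwa [card_range]) (f := fun p : GP t N =>
        p.1 / h + (N / h - p.2 / (t * h))) fun p _ => by
          have := b1 p
          have := Nat.sub_le (N / h) (p.2 / (t * h))
          simp only [coe_range, Set.mem_Iio]; omega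
    refine ⟨p, hp, p', hp', e1, ?_⟩
    have := e0 p hp p' hp' 1 (by linarith)
    have := b2 p
    have := b2 p'
    rcases mul_nonpos_iff.1 (show (((p.1 : ℕ) : ℝ) - (p'.1 : ℕ)) * (((p.2 : ℕ) : ℝ) - (p'.2 : ℕ)) ≤ 0
      by linarith) with ⟨c1, c2⟩ | ⟨c1, c2⟩
    · have := m1 p' p (by linarith); have := m2 p p' (by linarith); omega
    · have := m1 p p' (by linarith); have := m2 p' p (by linarith); omega
  · obtain ⟨p, hp, p', hp', e1, e2⟩ := exists_ne_map_eq_of_card_lt_of_maps_to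
      (t := range (2 * (N / h) + 1)) (by rwa [card_range]) (f := fun p : GP t N =>
        p.1 / h + p.2 / (t * h)) fun p _ => by
          have := b1 p
          have := b2 p
          simp only [coe_range, Set.mem_Iio]; omega
    refine ⟨p, hp, p', hp', e1, ?_⟩
    have := e0 p hp p' hp' (-1) (by linarith)
    rcases mul_nonneg_iff.1 (show 0 ≤ (((p.1 : ℕ) : ℝ) - (p'.1 : ℕ)) * (((p.2 : ℕ) : ℝ) - (p'.2 : ℕ))
      by linarith) with ⟨c1, c2⟩ | ⟨c1, c2⟩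
    · have := m1 p' p (by linarith); have := m2 p' p (by linarith); omega
    · have := m1 p p' (by linarith); have := m2 p p' (by linarith); omega

theorem line_kind (t0 : 0 < t) (h0 : 0 < h) {a b c : ℝ} (hab : a ≠ 0 ∨ b ≠ 0) :
    ∃ (Z : Finset (Fin t × Fin (2 * (t * N)))) (R : Finset (GP t N)) (V : Finset (ℤ × ℤ × ℤ)),
      Z.card ≤ 1 ∧ R.card ≤ 2 * (N / h) + 1 ∧ V.card ≤ 1 ∧ V ⊆ gT t N h ∧
      ∀ p : GP t N, a * (p.1 : ℕ) + b * (p.2 : ℕ) = c →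
        (∃ i, (i, sl i p) ∈ Z) ∨ p ∈ R ∨ ∃ d ∈ V, p ∈ gU t N d := by
  classical
  by_cases hc : (univ.filter fun p : GP t N => a * (p.1 : ℕ) + b * (p.2 : ℕ) = c).card ≤
    2 * (N / h) + 1
  · exact ⟨∅, _, ∅, by simp, hc, by simp, by simp, fun p hp => .inr (.inl (by simpa using hp))⟩
  obtain ⟨p, hp, p', hp', e1, e2, e3⟩ := close_pair t0 h0 hab _ (fun p hp => (mem_filter.1 hp).2)
    (not_le.1 hc)
  have hp := (mem_filter.1 hp).2
  have hp' := (mem_filter.1 hp').2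
  obtain ⟨u, hu⟩ : ∃ u : ℤ, u = ((p.1 : ℕ) : ℤ) - (p'.1 : ℕ) := ⟨_, rfl⟩
  obtain ⟨v, hv⟩ : ∃ v : ℤ, v = ((p.2 : ℕ) : ℤ) - (p'.2 : ℕ) := ⟨_, rfl⟩
  have d0 : u ≠ 0 ∨ v ≠ 0 := by
    by_contra hn
    push Not at hn
    exact e1 (gp_ext (by omega) (by omega))
  have d1 : ∀ q : GP t N, a * (q.1 : ℕ) + b * (q.2 : ℕ) = c →
      v * (q.1 : ℕ) - u * (q.2 : ℕ) = v * (p.1 : ℕ) - u * (p.2 : ℕ) := fun q hq => by
    have : (v : ℝ) * (q.1 : ℕ) - u * (q.2 : ℕ) = v * (p.1 : ℕ) - u * (p.2 : ℕ) := by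
      rw [hu, hv]; push_cast
      rcases hab with h | h
      · exact mul_left_cancel₀ h (by
          linear_combination (((p.2 : ℕ) : ℝ) - (p'.2 : ℕ)) * (hq - hp) -
            (((q.2 : ℕ) : ℝ) - (p.2 : ℕ)) * (hp - hp'))
      · exact mul_left_cancel₀ h (by
          linear_combination (((q.1 : ℕ) : ℝ) - (p.1 : ℕ)) * (hp - hp') -
            (((p.1 : ℕ) : ℝ) - (p'.1 : ℕ)) * (hq - hp))
    exact_mod_cast this
  rw [← hu] at e2
  rw [← hv] at e3
  by_cases hi : ∃ i : Fin t, v + (i : ℕ) * u = 0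
  · obtain ⟨i, hi⟩ := hi
    refine ⟨{(i, sl i p)}, ∅, ∅, by simp, by simp, by simp, by simp, fun q hq => .inl ⟨i, ?_⟩⟩
    have u0 : u ≠ 0 := fun e => by
      rw [e, mul_zero, add_zero] at hi
      exact d0.elim (fun h => h e) fun h => h hi
    rw [mem_singleton, Prod.mk.injEq, sl_eq]
    exact ⟨rfl, mul_left_cancel₀ u0 (by
      linear_combination (((q.1 : ℕ) : ℤ) - (p.1 : ℕ)) * hi - d1 q hq)⟩
  · push Not at hi
    refine ⟨∅, ∅, {(u, v, v * (p.1 : ℕ) - u * (p.2 : ℕ))}, by simp, by simp, by simp, ?_,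
      fun q hq => .inr (.inr ⟨_, mem_singleton_self _, mem_filter.2 ⟨mem_univ _, d1 q hq⟩⟩)⟩
    rw [singleton_subset_iff, gT, mem_filter]
    refine ⟨?_, d0, hi⟩
    simp only [mem_product, mem_Icc, ← abs_le]
    refine ⟨e2, by exact_mod_cast e3, (abs_sub _ _).trans ?_⟩
    have x1 : ((p.1 : ℕ) : ℤ) ≤ N := by exact_mod_cast p.1.2.le
    have x2 : ((p.2 : ℕ) : ℤ) ≤ t * N := by exact_mod_cast p.2.2.le
    rw [abs_mul, abs_mul, Nat.abs_cast, Nat.abs_cast]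
    push_cast at e3
    have := mul_le_mul e3 x1 (by positivity) (by positivity)
    have := mul_le_mul e2 x2 (by positivity) (by positivity)
    linarith

end Pool.Agent.Lib.MP_67c02a_lc
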