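import Pool.Agent.Lib.MP_67c02a_lc.Coll
import Pool.Agent.Lib.MP_67c02a_lc.Gip

/-!
Pairwise independent hashing: dense families of sets cover everything outside a short list.
-/

namespace Pool.Agent.Lib.MP_67c02a_lc

open Finset Function

set_option maxHeartbeats 400000

theorem list_cover {ι A W : Type} [Fintype ι] [Fintype A] [Fintype W] [Nonempty W]
    (hit : W → A → Prop) {ρ B : ℝ} (ρ0 : 0 < ρ) (h1 : ∀ a, av (fun w => ind (hit w a)) = ρ)
    (h2 : ∀ a a', a ≠ a' → av (fun w => ind (hit w a) * ind (hit w a')) = ρ ^ 2)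
    (hB : (Fintype.card A : ℝ) < Real.exp B) (I : Finset ι) (hI : 4 * B ≤ I.card * ρ)
    (C : ι → W → Prop) (hC : ∀ i ∈ I, av (fun w => ind (C i w)) ≤ 1 / 2) :
    ∃ J : Finset A, J.card * ρ ≤ 16 ∧ ∃ z : ι → W, (∀ i ∈ I, ¬ C i (z i)) ∧
      ∀ a ∉ J, ∃ i ∈ I, hit (z i) a := by
  classical
  obtain ⟨μ, hμ⟩ : ∃ μ : ι → A → ℝ, ∀ i a, μ i a = av fun w => ind (¬ C i w) * ind (hit w a) :=
    ⟨_, fun _ _ => rfl⟩
  have μ0 : ∀ i a, 0 ≤ μ i a := fun i a => hμ i a ▸ av_nonneg fun _ =>
    mul_nonneg (ind_nonneg _) (ind_nonneg _)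
  have d0 : ∀ i ∈ I, 1 / 2 ≤ av fun w => ind (¬ C i w) := fun i hi => by
    simp only [ind_not, av_sub, av_const]; linarith [hC i hi]
  refine ⟨univ.filter fun a => ∑ i ∈ I, μ i a < B, ?_, ?_⟩
  · generalize hJ : (univ.filter fun a => ∑ i ∈ I, μ i a < B) = J
    by_contra hn
    rw [not_le] at hn
    have J0 : J.Nonempty := card_pos.1 (by
      by_contra h
      rw [not_lt, Nat.le_zero] at h
      rw [h] at hn; norm_num at hn)
    have v := av_sq_sum J (fun a w => ind (hit w a) - ρ) (B := ρ) (fun a _ a' _ hne => by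
      simp only [sub_mul, mul_sub, av_sub, av_mul_left, av_mul_right, h1, h2 a a' hne, av_const]
      ring) fun a _ => by
      simp only [sub_sq, ind_sq, av_add, av_sub, av_mul_right, av_mul_left, h1, av_const]
      nlinarith [sq_nonneg ρ]
    have k : ∀ i ∈ I, J.card * ρ / 4 ≤ ∑ a ∈ J, μ i a := fun i hi => by
      have e := av_mono (f := fun w => ind (¬ C i w) * (J.card * ρ) - J.card * ρ / 8 -
        (∑ a ∈ J, (ind (hit w a) - ρ)) ^ 2 / (4 * (J.card * ρ / 8)))
        (g := fun w => ∑ a ∈ J, ind (¬ C i w) * ind (hit w a)) fun w => by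
          have := le_add_sq (-∑ a ∈ J, (ind (hit w a) - ρ)) (η := J.card * ρ / 8) (by linarith)
          have p : 0 ≤ (∑ a ∈ J, (ind (hit w a) - ρ)) ^ 2 / (4 * (J.card * ρ / 8)) :=
            div_nonneg (sq_nonneg _) (by linarith)
          rw [neg_sq] at this
          rw [← mul_sum]
          by_cases h : C i w
          · rw [ind_neg (not_not.2 h)]; linarith
          · rw [ind_pos h]
            generalize (∑ a ∈ J, (ind (hit w a) - ρ)) ^ 2 / (4 * (J.card * ρ / 8)) = y at *
            rw [sum_sub_distrib, sum_const, nsmul_eq_mul] at this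
            linarith
      simp only [av_sub, av_sum, av_mul_right, av_div, av_const, ← hμ] at e
      have e2 : av (fun w => (∑ a ∈ J, (ind (hit w a) - ρ)) ^ 2) / (4 * (J.card * ρ / 8)) ≤ 2 := by
        rw [div_le_iff₀ (by linarith)]; linarith
      nlinarith [d0 i hi]
    have k2 := sum_le_sum k
    rw [sum_comm, sum_const, nsmul_eq_mul] at k2
    have k3 := sum_lt_sum_of_nonempty J0 (f := fun a => ∑ i ∈ I, μ i a) (g := fun _ => B)
      fun a ha => by rw [← hJ] at ha; exact (mem_filter.1 ha).2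
    rw [sum_const, nsmul_eq_mul] at k3
    have := mul_le_mul_of_nonneg_left hI (Nat.cast_nonneg (α := ℝ) J.card)
    nlinarith
  · by_contra hn
    have e := av_mono (f := fun z : ι → W => ∏ i, if i ∈ I then ind (¬ C i (z i)) else 1)
      (g := fun z => ∑ a ∈ univ.filter fun a => ¬ ∑ i ∈ I, μ i a < B,
        ∏ i, if i ∈ I then ind (¬ C i (z i)) - ind (¬ C i (z i)) * ind (hit (z i) a) else 1)
      fun z => by
        have p : ∀ a i, 0 ≤ if i ∈ I then ind (¬ C i (z i)) - ind (¬ C i (z i)) * ind (hit (z i) a)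
            else (1 : ℝ) := fun a i => by
          split_ifs
          · exact sub_nonneg.2 (mul_le_of_le_one_right (ind_nonneg _) (ind_le_one _))
          · exact zero_le_one
        by_cases h : ∀ i ∈ I, ¬ C i (z i)
        · obtain ⟨a, h3, h4⟩ : ∃ a, ¬ ∑ i ∈ I, μ i a < B ∧ ∀ i ∈ I, ¬ hit (z i) a := by
            by_contra h5
            push Not at h5
            exact hn ⟨z, h, fun a ha => h5 a (by simpa using ha)⟩
          refine le_trans (le_of_eq (prod_congr rfl fun i _ => ?_)) (single_le_sum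
            (fun a _ => prod_nonneg fun i _ => p a i) (mem_filter.2 ⟨mem_univ a, h3⟩))
          split_ifs with hi
          · rw [ind_neg (h4 i hi), mul_zero, sub_zero]
          · rfl
        · push Not at h
          obtain ⟨i, h3, h4⟩ := h
          rw [prod_eq_zero (mem_univ i) (by rw [if_pos h3, ind_neg (not_not.2 h4)])]
          exact sum_nonneg fun a _ => prod_nonneg fun i _ => p a i
    rw [av_sum, av_pi fun i w => if i ∈ I then ind (¬ C i w) else 1] at e
    have t : ∀ (i) (F : W → ℝ), av (fun w => if i ∈ I then F w else 1) =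
        if i ∈ I then av F else 1 := fun i F => by split_ifs <;> simp
    have D0 : 0 < ∏ i ∈ I, av fun w => ind (¬ C i w) := prod_pos fun i hi => by linarith [d0 i hi]
    have e2 : ∀ a ∈ univ.filter fun a => ¬ ∑ i ∈ I, μ i a < B, av (fun z : ι → W =>
        ∏ i, if i ∈ I then ind (¬ C i (z i)) - ind (¬ C i (z i)) * ind (hit (z i) a) else 1) ≤
        (∏ i ∈ I, av fun w => ind (¬ C i w)) * Real.exp (-B) := fun a ha => by
      rw [av_pi fun i w => if i ∈ I then ind (¬ C i w) - ind (¬ C i w) * ind (hit w a) else 1]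
      simp only [t, av_sub, ← hμ, prod_ite_mem, univ_inter]
      refine le_trans (prod_le_prod (g := fun i => av (fun w => ind (¬ C i w)) * Real.exp (-μ i a))
        (fun i _ => ?_) fun i hi => ?_) ?_
      · rw [hμ, ← av_sub]
        exact av_nonneg fun _ => sub_nonneg.2 (mul_le_of_le_one_right (ind_nonneg _) (ind_le_one _))
      · have := Real.add_one_le_exp (-μ i a)
        have d1 : av (fun w => ind (¬ C i w)) ≤ 1 := av_le fun _ => ind_le_one _
        nlinarith [d0 i hi, μ0 i a]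
      · rw [prod_mul_distrib, ← Real.exp_sum, sum_neg_distrib]
        gcongr
        exact not_lt.1 (mem_filter.1 ha).2
    have e3 := e.trans (sum_le_card_nsmul _ _ _ e2)
    simp only [t, prod_ite_mem, univ_inter, nsmul_eq_mul] at e3
    have e4 : ((univ.filter fun a => ¬ ∑ i ∈ I, μ i a < B).card : ℝ) * Real.exp (-B) < 1 := by
      rw [Real.exp_neg, mul_inv_lt_iff₀ (Real.exp_pos _), one_mul]
      exact lt_of_le_of_lt (by exact_mod_cast card_le_univ _) hB
    nlinarith

section
variable {M A Q : Type} (var : M × Fin 4 → ℕ) (val : M → (Fin 4 → Bool) → Prop) {r t : ℕ}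
  (dec : A → Fin r → Fin 4 → Bool) (cov : Q → (Fin r → M) → A → Prop)

def HH (z : Fin t → Q) : Prop := ∃ u u' : Fin r → M, ∀ a a', (∀ j, val (u j) (dec a j)) →
  (∀ j, val (u' j) (dec a' j)) →
    (∀ j i i', var (u j, i) = var (u' j, i') → dec a j i = dec a' j i') →
      ∃ i, cov (z i) u a ∨ cov (z i) u' a'

theorem hh_complete (hd : Surjective dec) {α : ℕ → Bool} (hα : ∀ u, val u fun i => α (var (u, i))) :
    ∃ σ : (Fin r → M) → A, ∀ z : Fin t → Q, HH var val dec cov z → ∃ i u, cov (z i) u (σ u) := by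
  choose σ hσ using fun u : Fin r → M => hd fun j i => α (var (u j, i))
  refine ⟨σ, fun z ⟨u, u', h⟩ => ?_⟩
  obtain ⟨i, h | h⟩ := h (σ u) (σ u') (fun j => by rw [hσ]; exact hα _)
    (fun j => by rw [hσ]; exact hα _) fun j i i' e => by simp only [hσ, e]
  exacts [⟨i, _, h⟩, ⟨i, _, h⟩]

theorem hh_sound [Fintype M] [Nonempty M] [Fintype A] [Fintype Q] [Nonempty Q] {W : Type} [Fintype W]
    [Nonempty W] {ε : ℝ} (ε0 : 0 < ε) (ε1 : ε ≤ 1)
    (hg : ∀ α : ℕ → Bool, ε ≤ av fun u => ind (¬ val u fun i => α (var (u, i))))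
    (hit : W → A → Prop) {ρ B γ : ℝ} (ρ0 : 0 < ρ) (h1 : ∀ a, av (fun w => ind (hit w a)) = ρ)
    (h2 : ∀ a a', a ≠ a' → av (fun w => ind (hit w a) * ind (hit w a')) = ρ ^ 2)
    (hB : (Fintype.card A : ℝ) < Real.exp B) {s : ℕ} (s0 : 0 < s) (hs : 8 * B ≤ s * ρ)
    (hr : (1 - ε ^ 2 / 80) ^ r * 2048 < ρ ^ 2) (emb : (Fin r → M) × W → Q) (he : Injective emb)
    (hc : ∀ u w a, hit w a → cov (emb (u, w)) u a) (γ1 : γ < 1)
    (hγ : γ * Fintype.card Q * 16 ≤ s * Fintype.card ((Fin r → M) × W))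
    (C : Fin (s + s) → Q → Prop) (hC : ∑ i, av (fun a => ind (C i a)) ≤ γ) :
    ∃ z, HH var val dec cov z ∧ ∀ i, ¬ C i (z i) := by
  classical
  obtain ⟨c, hcc⟩ : ∃ c : (Fin r → M) → Fin (s + s) → ℝ, ∀ u i,
    c u i = av fun w => ind (C i (emb (u, w))) := ⟨_, fun _ _ => rfl⟩
  have c0 : ∀ u i, 0 ≤ c u i := fun u i => hcc u i ▸ av_nonneg fun _ => ind_nonneg _
  have s0' : (0 : ℝ) < s := by exact_mod_cast s0
  have k1 : av (fun u => ∑ i, c u i) ≤ s / 16 := by
    have q0 : (0 : ℝ) < Fintype.card Q := by exact_mod_cast Fintype.card_pos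
    have w0 : (0 : ℝ) < Fintype.card ((Fin r → M) × W) := by exact_mod_cast Fintype.card_pos
    rw [av_sum]
    refine le_trans (sum_le_sum (g := fun i => av (fun a => ind (C i a)) *
      (Fintype.card Q / Fintype.card ((Fin r → M) × W))) fun i _ => ?_) ?_
    · simp only [hcc]
      rw [← av_prod fun x => ind (C i (emb x)), av_eq, av_eq, div_mul_div_cancel₀ q0.ne']
      gcongr
      rw [← sum_image (g := emb) (f := fun a => ind (C i a)) fun _ _ _ _ e => he e]
      exact sum_le_sum_of_subset_of_nonneg (subset_univ _) fun _ _ _ => ind_nonneg _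
    · rw [← sum_mul, mul_div_assoc', div_le_div_iff₀ w0 (by norm_num)]
      exact le_trans (by gcongr) hγ
  have k2 : av (fun u => ind (¬ ∑ i, c u i ≤ s / 4)) ≤ 1 / 4 := by
    refine (av_mono (g := fun u => (∑ i, c u i) / (s / 4)) fun u => ?_).trans ?_
    · by_cases h : ∑ i, c u i ≤ s / 4
      · rw [ind_neg (not_not.2 h)]; exact div_nonneg (sum_nonneg fun _ _ => c0 _ _) (by positivity)
      · rw [ind_pos h, one_le_div (by positivity)]; linarith
    · rw [av_div, div_le_iff₀ (by positivity)]; linarith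
  have k3 : ∀ (e : Fin s → Fin (s + s)) (_ : Injective e) (u), ∃ J : Finset A, J.card * ρ ≤ 16 ∧
      (∑ i, c u i ≤ s / 4 → ∃ (I : Finset (Fin s)) (z : Fin s → W),
        (∀ i ∈ I, ¬ C (e i) (emb (u, z i))) ∧ ∀ a ∉ J, ∃ i ∈ I, hit (z i) a) := fun e h3 u => by
    by_cases h : ∑ i, c u i ≤ s / 4
    · have e1 : ∑ i, c u (e i) ≤ ∑ i, c u i := by
        rw [← sum_image (g := e) (f := c u) fun _ _ _ _ e => h3 e]
        exact sum_le_sum_of_subset_of_nonneg (subset_univ _) fun _ _ _ => c0 _ _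
      have e2 := sum_le_sum (s := univ) (f := fun i => 1 / 2 - ind (c u (e i) ≤ 1 / 2) / 2)
        (g := fun i => c u (e i)) fun i _ => by
          by_cases h : c u (e i) ≤ 1 / 2
          · rw [ind_pos h]; linarith [c0 u (e i)]
          · rw [ind_neg h]; linarith
      rw [sum_sub_distrib, ← sum_div, ← sum_div, sum_ind, sum_const, card_univ, Fintype.card_fin,
        nsmul_eq_mul] at e2
      obtain ⟨J, e1, e2⟩ := list_cover hit ρ0 h1 h2 hB (univ.filter fun i => c u (e i) ≤ 1 / 2)
        (by nlinarith) (fun i w => C (e i) (emb (u, w))) fun i hi => hcc u (e i) ▸ (mem_filter.1 hi).2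
      exact ⟨J, e1, fun _ => ⟨_, e2⟩⟩
    · exact ⟨∅, by simp, fun h' => absurd h' h⟩
  choose J1 a1 b1 using k3 (Fin.castAdd s) (Fin.castAdd_injective _ _)
  choose J2 a2 b2 using k3 (Fin.natAdd s) (Fin.natAdd_injective _ _)
  have k4 : ∀ i, ∃ a, ¬ C i a := fun i => by
    by_contra h
    push Not at h
    have := single_le_sum (f := fun i => av fun a => ind (C i a))
      (fun _ _ => av_nonneg fun _ => ind_nonneg _) (mem_univ i)
    simp only [fun a => ind_pos (h a), av_const] at this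
    linarith
  choose d hd using k4
  by_contra hn
  have k5 := collision var val ε0 ε1 hg r (fun u => (J1 u ∪ J2 u).image dec) (L := 32 / ρ)
    (fun u => by
      rw [le_div_iff₀ ρ0]
      have : (((J1 u ∪ J2 u).image dec).card : ℝ) ≤ (J1 u).card + (J2 u).card := by
        exact_mod_cast card_image_le.trans (card_union_le _ _)
      nlinarith [a1 u, a2 u]) (fun u => ∑ i, c u i ≤ s / 4) fun u u' hu hu' => by
      obtain ⟨I, z, e1, e2⟩ := b1 u hu
      obtain ⟨I', z', e3, e4⟩ := b2 u' hu'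
      by_contra h5
      refine hn ⟨Fin.addCases (fun i => if i ∈ I then emb (u, z i) else d (Fin.castAdd s i))
        fun i => if i ∈ I' then emb (u', z' i) else d (Fin.natAdd s i),
        ⟨u, u', fun a a' f1 f2 f3 => ?_⟩, fun i => ?_⟩
      · by_cases h : a ∈ J1 u
        · by_cases h' : a' ∈ J2 u'
          · exact absurd ⟨_, mem_image_of_mem _ (mem_union_left _ h), _,
              mem_image_of_mem _ (mem_union_right _ h'), f1, f2, f3⟩ h5
          · obtain ⟨i, g1, g2⟩ := e4 a' h'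
            exact ⟨Fin.natAdd s i, .inr (by
              simp only [Fin.addCases_right, if_pos g1]; exact hc _ _ _ g2)⟩
        · obtain ⟨i, g1, g2⟩ := e2 a h
          exact ⟨Fin.castAdd s i, .inl (by
            simp only [Fin.addCases_left, if_pos g1]; exact hc _ _ _ g2)⟩
      · refine Fin.addCases (fun i => ?_) (fun i => ?_) i
        · simp only [Fin.addCases_left]
          split_ifs with h
          exacts [e1 i h, hd _]
        · simp only [Fin.addCases_right]
          split_ifs with h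
          exacts [e3 i h, hd _]
  rw [div_pow, mul_div_assoc', le_div_iff₀ (by positivity)] at k5
  nlinarith [sq_nonneg ρ]

end

theorem av_lin {P a a' : ℕ} (hP : P.Prime) (h : a < P) (h' : a' < P) (hne : a ≠ a') (f g : ℕ → ℝ) :
    av (fun w : Fin (P * P) => f ((w % P * a + w / P) % P) * g ((w % P * a' + w / P) % P)) =
      av (fun x : Fin P => f x) * av fun x : Fin P => g x := by
  haveI := Fact.mk hP
  have hi : Injective fun w : Fin (P * P) => ((⟨(w % P * a + w / P) % P, Nat.mod_lt _ hP.pos⟩,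
      ⟨(w % P * a' + w / P) % P, Nat.mod_lt _ hP.pos⟩) : Fin P × Fin P) := fun w w' e => by
    simp only [Prod.mk.injEq, Fin.mk.injEq, ← ZMod.natCast_eq_natCast_iff'] at e
    push_cast at e
    have e1 : ((a : ZMod P) - a') * ((w : ℕ) - (w' : ℕ)) = 0 := by
      simp only [ZMod.natCast_mod] at e
      linear_combination e.1 - e.2
    have e2 : (a : ZMod P) - a' ≠ 0 := fun e => hne (by
      rwa [sub_eq_zero, ZMod.natCast_eq_natCast_iff', Nat.mod_eq_of_lt h, Nat.mod_eq_of_lt h'] at e)
    have e3 := sub_eq_zero.1 ((mul_eq_zero.1 e1).resolve_left e2)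
    have e4 := e.1
    simp only [ZMod.natCast_mod] at e4
    rw [e3, add_right_inj, ZMod.natCast_eq_natCast_iff',
      Nat.mod_eq_of_lt (Nat.div_lt_of_lt_mul w.2), Nat.mod_eq_of_lt (Nat.div_lt_of_lt_mul w'.2)] at e4
    rw [ZMod.natCast_eq_natCast_iff'] at e3
    exact Fin.ext (by rw [← Nat.div_add_mod w P, e3, e4, Nat.div_add_mod])
  rw [av_mul_av, ← av_prod fun x : Fin P × Fin P => f x.1 * g x.2,
    ← av_equiv (Equiv.ofBijective _ ((Fintype.bijective_iff_injective_and_card _).2 ⟨hi, by simp⟩))]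
  rfl

theorem av_lt {P n : ℕ} (h : n ≤ P) : av (fun x : Fin P => ind ((x : ℕ) < n)) = n / P := by
  rw [av_ind, Fin.card_filter_val_lt, Fintype.card_fin, min_eq_right h]

end Pool.Agent.Lib.MP_67c02a_lc
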