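import Pool.Agent.Lib.MP_67c02a_lc.Av

/-!
Coloured hypergraphs, robust lower bounds for vertex covers, composition and padding.
-/

namespace Pool.Agent.Lib.MP_67c02a_lc

open Finset Function

abbrev Vx := ℕ × ℕ
abbrev HG := List (List Vx)

def Unhit (C : Finset Vx) (e : List Vx) : Prop := ∀ v ∈ e, v ∉ C

instance (C : Finset Vx) (e : List Vx) : Decidable (Unhit C e) := by unfold Unhit; infer_instance

def IsCover (H : HG) (C : Finset Vx) : Prop := ∀ e ∈ H, ∃ v ∈ e, v ∈ C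

/-- every distribution on sets of size less than `K` misses some edge with probability `δ` -/
def Robust (H : HG) (K δ : ℝ) : Prop :=
  ∀ (α : Type) (s : Finset α) (C : α → Finset Vx), (∀ ω ∈ s, ((C ω).card : ℝ) < K) →
    ∃ e ∈ H, δ * s.card ≤ (s.filter fun ω => Unhit (C ω) e).card

def WF (t q : ℕ) (H : HG) : Prop :=
  ∀ e ∈ H, (e.map Prod.fst).Nodup ∧ ∀ v ∈ e, v.1 < t ∧ v.2 < q

theorem Robust.mono {H : HG} {K δ K' δ' : ℝ} (h : Robust H K δ) (hK : K' ≤ K) (hδ : δ' ≤ δ) :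
    Robust H K' δ' := fun α s C hC => by
  obtain ⟨e, he, h⟩ := h α s C fun ω hω => (hC ω hω).trans_le hK
  exact ⟨e, he, (mul_le_mul_of_nonneg_right hδ (Nat.cast_nonneg _)).trans h⟩

theorem robust_of_weights {H : HG} {K δ W : ℝ} {I : Type} (J : Finset I) (E : I → List Vx)
    (wt : I → ℝ) (hJ : J.Nonempty) (hE : ∀ i ∈ J, E i ∈ H) (w0 : ∀ i ∈ J, 0 < wt i)
    (hW : ∑ i ∈ J, wt i ≤ W) (hδ : 0 ≤ δ)
    (h : ∀ C : Finset Vx, (C.card : ℝ) < K → δ * W ≤ ∑ i ∈ J, wt i * ind (Unhit C (E i))) :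
    Robust H K δ := fun α s C hC => by
  by_contra hn
  push Not at hn
  have h1 : ∑ i ∈ J, wt i * ((s.filter fun ω => Unhit (C ω) (E i)).card : ℝ)
      < ∑ i ∈ J, wt i * (δ * s.card) :=
    sum_lt_sum_of_nonempty hJ fun i hi => mul_lt_mul_of_pos_left (hn _ (hE i hi)) (w0 i hi)
  simp only [← sum_ind, mul_sum] at h1
  rw [sum_comm, ← sum_mul] at h1
  have h2 := card_nsmul_le_sum s _ _ fun ω hω => h _ (hC ω hω)
  have h3 := mul_le_mul_of_nonneg_right hW (mul_nonneg hδ (Nat.cast_nonneg s.card))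
  rw [nsmul_eq_mul] at h2
  nlinarith

def pr (v v' : Vx) : Vx := (Nat.pair v.1 v'.1, Nat.pair v.2 v'.2)

theorem pr_inj {v v' w w' : Vx} (h : pr v v' = pr w w') : v = w ∧ v' = w' := by
  simp only [pr, Prod.mk.injEq, Nat.pair_eq_pair] at h
  exact ⟨Prod.ext h.1.1 h.2.1, Prod.ext h.1.2 h.2.2⟩

def ext (H' : HG) : ℕ → List Vx → HG
  | 0, _ => [[]]
  | k + 1, e => List.casesOn (motive := fun _ => HG) e [[]] fun v e =>
      H'.flatMap fun e' => (ext H' k e).map fun r => e'.map (pr v) ++ r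

def comp (k : ℕ) (H H' : HG) : HG := H.flatMap (ext H' k)

theorem mem_ext_cons {H' : HG} {k : ℕ} {v : Vx} {e r : List Vx} : r ∈ ext H' (k + 1) (v :: e) ↔
    ∃ e' ∈ H', ∃ r' ∈ ext H' k e, r = e'.map (pr v) ++ r' := by
  simp [ext, eq_comm]

theorem ext_nil (H' : HG) (k : ℕ) : ext H' k [] = [[]] := by cases k <;> rfl

theorem ext_sub {H' : HG} : ∀ (k : ℕ) (e : List Vx), e.length ≤ k → ∀ r ∈ ext H' k e, ∀ v ∈ e,
    ∃ e' ∈ H', ∀ v' ∈ e', pr v v' ∈ r
  | _, [], _, _, _, _, hv => by simp at hv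
  | 0, _ :: _, h, _, _, _, _ => by simp at h
  | k + 1, w :: e, h, r, hr, v, hv => by
    obtain ⟨e', he', r', hr', rfl⟩ := mem_ext_cons.1 hr
    rcases List.mem_cons.1 hv with rfl | hv
    · exact ⟨e', he', fun v' hv' => List.mem_append_left _ (List.mem_map_of_mem hv')⟩
    · obtain ⟨e'', h1, h2⟩ := ext_sub k e (by simpa using h) r' hr' v hv
      exact ⟨e'', h1, fun v' hv' => List.mem_append_right _ (h2 v' hv')⟩

theorem ext_mem {H' : HG} : ∀ (k : ℕ) (e : List Vx), ∀ r ∈ ext H' k e, ∀ u ∈ r,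
    ∃ v ∈ e, ∃ e' ∈ H', ∃ v' ∈ e', u = pr v v'
  | k, [], r, hr, u, hu => by simp [ext_nil] at hr; simp [hr] at hu
  | 0, _ :: _, r, hr, u, hu => by simp [ext] at hr; simp [hr] at hu
  | k + 1, w :: e, r, hr, u, hu => by
    obtain ⟨e', he', r', hr', rfl⟩ := mem_ext_cons.1 hr
    rcases List.mem_append.1 hu with hu | hu
    · obtain ⟨v', h1, rfl⟩ := List.mem_map.1 hu
      exact ⟨w, by simp, e', he', v', h1, rfl⟩
    · obtain ⟨v, h1, h2⟩ := ext_mem k e r' hr' u hu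
      exact ⟨v, by simp [h1], h2⟩

theorem ext_nodup {H' : HG} (h' : ∀ e ∈ H', (e.map Prod.fst).Nodup) : ∀ (k : ℕ) (e : List Vx),
    (e.map Prod.fst).Nodup → ∀ r ∈ ext H' k e, (r.map Prod.fst).Nodup
  | k, [], _, r, hr => by simp [ext_nil] at hr; simp [hr]
  | 0, _ :: _, _, r, hr => by simp [ext] at hr; simp [hr]
  | k + 1, w :: e, h, r, hr => by
    obtain ⟨e', he', r', hr', rfl⟩ := mem_ext_cons.1 hr
    rw [List.map_cons, List.nodup_cons] at h
    rw [List.map_append, List.nodup_append]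
    refine ⟨?_, ext_nodup h' k e h.2 r' hr', fun a ha b hb hab => ?_⟩
    · have := (h' e' he').map (f := Nat.pair w.1) fun a b h => (Nat.pair_eq_pair.1 h).2
      simpa [List.map_map, comp_def, pr] using this
    · obtain ⟨u, hu, rfl⟩ := List.mem_map.1 hb
      obtain ⟨v, h1, _, _, v', _, rfl⟩ := ext_mem k e r' hr' u hu
      simp only [List.map_map, List.mem_map, comp_apply, pr] at ha
      obtain ⟨x, _, rfl⟩ := ha
      exact h.1 (List.mem_map.2 ⟨v, h1, (Nat.pair_eq_pair.1 hab).1.symm⟩)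

theorem pair_lt {a b c d : ℕ} (h1 : a < c) (h2 : b < d) : Nat.pair a b < (c + d) ^ 2 :=
  (Nat.pair_lt_max_add_one_sq a b).trans_le (Nat.pow_le_pow_left (by omega) 2)

theorem WF.comp {t q t' q' k : ℕ} {H H' : HG} (h : WF t q H) (h' : WF t' q' H') :
    WF ((t + t') ^ 2) ((q + q') ^ 2) (comp k H H') := fun r hr => by
  obtain ⟨e, he, hr⟩ := List.mem_flatMap.1 hr
  refine ⟨ext_nodup (fun e he => (h' e he).1) k e (h e he).1 r hr, fun u hu => ?_⟩
  obtain ⟨v, h1, e', h2, v', h3, rfl⟩ := ext_mem k e r hr u hu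
  exact ⟨pair_lt ((h e he).2 v h1).1 ((h' e' h2).2 v' h3).1,
    pair_lt ((h e he).2 v h1).2 ((h' e' h2).2 v' h3).2⟩

theorem IsCover.comp {k : ℕ} {H H' : HG} {C C' : Finset Vx} (hk : ∀ e ∈ H, e.length ≤ k)
    (h : IsCover H C) (h' : IsCover H' C') :
    IsCover (comp k H H') ((C ×ˢ C').image fun p => pr p.1 p.2) := fun r hr => by
  obtain ⟨e, he, hr⟩ := List.mem_flatMap.1 hr
  obtain ⟨v, h1, h2⟩ := h e he
  obtain ⟨e', h3, h4⟩ := ext_sub k e (hk e he) r hr v h1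
  obtain ⟨v', h5, h6⟩ := h' e' h3
  exact ⟨_, h4 v' h5, mem_image.2 ⟨(v, v'), mem_product.2 ⟨h2, h6⟩, rfl⟩⟩

def p1 (u : Vx) : Vx := (u.1.unpair.1, u.2.unpair.1)
def p2 (u : Vx) : Vx := (u.1.unpair.2, u.2.unpair.2)
def fib (C : Finset Vx) (v : Vx) : Finset Vx := (C.filter fun u => p1 u = v).image p2

theorem mem_fib {C : Finset Vx} {v v' : Vx} (h : pr v v' ∈ C) : v' ∈ fib C v :=
  mem_image.2 ⟨_, mem_filter.2 ⟨h, by simp [p1, pr]⟩, by simp [p2, pr]⟩

theorem ext_robust {H' : HG} {K' δ' : ℝ} (h' : Robust H' K' δ') (δ0 : 0 ≤ δ') (δ1 : δ' ≤ 1)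
    {α : Type} (C : α → Finset Vx) : ∀ (k : ℕ) (e : List Vx) (s : Finset α),
    (∀ ω ∈ s, ∀ v ∈ e, ((fib (C ω) v).card : ℝ) < K') →
    ∃ r ∈ ext H' k e, δ' ^ k * s.card ≤ (s.filter fun ω => Unhit (C ω) r).card
  | k, [], s, _ => ⟨[], by simp [ext_nil], by
      simpa [Unhit] using mul_le_of_le_one_left (Nat.cast_nonneg s.card) (pow_le_one₀ δ0 δ1)⟩
  | 0, _ :: _, s, _ => ⟨[], by simp [ext], by simp [Unhit]⟩
  | k + 1, v :: e, s, h => by
    obtain ⟨e', h1, h2⟩ := h' α s (fun ω => fib (C ω) v) fun ω hω => h ω hω v (by simp)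
    obtain ⟨r, h3, h4⟩ := ext_robust h' δ0 δ1 C k e (s.filter fun ω => Unhit (fib (C ω) v) e')
      fun ω hω w hw => h ω (mem_filter.1 hω).1 w (by simp [hw])
    refine ⟨_, mem_ext_cons.2 ⟨e', h1, r, h3, rfl⟩, ?_⟩
    rw [pow_succ, mul_assoc]
    refine (mul_le_mul_of_nonneg_left h2 (pow_nonneg δ0 _)).trans (h4.trans ?_)
    refine Nat.cast_le.2 (card_le_card fun ω hω => ?_)
    simp only [mem_filter] at hω ⊢
    refine ⟨hω.1.1, fun u hu => ?_⟩
    rcases List.mem_append.1 hu with hu | hu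
    · obtain ⟨v', h5, rfl⟩ := List.mem_map.1 hu
      exact fun hc => hω.1.2 v' h5 (mem_fib hc)
    · exact hω.2 u hu

theorem Robust.comp {k : ℕ} {H H' : HG} {K δ K' δ' : ℝ} (h : Robust H K δ) (h' : Robust H' K' δ')
    (K0 : 0 < K') (δ0 : 0 ≤ δ') (δ1 : δ' ≤ 1) :
    Robust (comp k H H') (K * K') (δ' ^ k * δ) := fun α s C hC => by
  obtain ⟨e, h1, h2⟩ := h α s
    (fun ω => ((C ω).image p1).filter fun v => K' ≤ (fib (C ω) v).card) fun ω hω => by
      refine lt_of_mul_lt_mul_right (lt_of_le_of_lt ?_ (hC ω hω)) K0.le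
      rw [card_eq_sum_card_image p1 (C ω), ← nsmul_eq_mul]
      push_cast
      refine (card_nsmul_le_sum _ (fun v => (((C ω).filter fun u => p1 u = v).card : ℝ)) _
        fun v hv => (mem_filter.1 hv).2.trans (Nat.cast_le.2 card_image_le)).trans ?_
      exact sum_le_sum_of_subset_of_nonneg (filter_subset _ _) fun _ _ _ => Nat.cast_nonneg _
  obtain ⟨r, h3, h4⟩ := ext_robust h' δ0 δ1 C k e (s.filter fun ω => Unhit
      (((C ω).image p1).filter fun v => K' ≤ (fib (C ω) v).card) e) fun ω hω v hv => by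
    have := (mem_filter.1 hω).2 v hv
    by_contra hn
    rw [not_lt] at hn
    obtain ⟨v', hv'⟩ : (fib (C ω) v).Nonempty := card_pos.1 (by exact_mod_cast K0.trans_le hn)
    obtain ⟨u, hu, -⟩ := mem_image.1 hv'
    exact this (mem_filter.2 ⟨mem_image.2 ⟨u, (mem_filter.1 hu).1, (mem_filter.1 hu).2⟩, hn⟩)
  refine ⟨r, List.mem_flatMap.2 ⟨e, h1, h3⟩, ?_⟩
  rw [mul_assoc]
  refine (mul_le_mul_of_nonneg_left h2 (pow_nonneg δ0 _)).trans (h4.trans ?_)
  exact Nat.cast_le.2 (card_le_card (filter_subset_filter _ (filter_subset _ _)))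

def iter (k : ℕ) (H : HG) : ℕ → HG
  | 0 => [[(0, 0)]]
  | r + 1 => comp k H (iter k H r)

def tb (t : ℕ) : ℕ → ℕ
  | 0 => 1
  | r + 1 => (t + tb t r) ^ 2

noncomputable def db (k : ℕ) (δ : ℝ) : ℕ → ℝ
  | 0 => 1
  | r + 1 => db k δ r ^ k * δ

theorem db_pos (k : ℕ) {δ : ℝ} (h0 : 0 < δ) (h1 : δ ≤ 1) (r : ℕ) :
    0 < db k δ r ∧ db k δ r ≤ 1 := by
  induction r with
  | zero => simp [db]
  | succ r ih =>
    exact ⟨mul_pos (pow_pos ih.1 _) h0, mul_le_one₀ (pow_le_one₀ ih.1.le ih.2) h0.le h1⟩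

theorem WF.iter {t q k : ℕ} {H : HG} (h : WF t q H) (r : ℕ) :
    WF (tb t r) (tb q r) (iter k H r) := by
  induction r with
  | zero => simp [WF, MP_67c02a_lc.iter, tb]
  | succ r ih => exact h.comp ih

theorem IsCover.iter {k : ℕ} {H : HG} {C : Finset Vx} (hk : ∀ e ∈ H, e.length ≤ k)
    (h : IsCover H C) (r : ℕ) : ∃ C', IsCover (iter k H r) C' ∧ C'.card ≤ C.card ^ r := by
  induction r with
  | zero => exact ⟨{(0, 0)}, by simp [IsCover, MP_67c02a_lc.iter], by simp⟩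
  | succ r ih =>
    obtain ⟨C', h1, h2⟩ := ih
    refine ⟨_, h.comp hk h1, card_image_le.trans ?_⟩
    rw [card_product, pow_succ']
    exact Nat.mul_le_mul_left _ h2

theorem Robust.iter {k : ℕ} {H : HG} {K δ : ℝ} (h : Robust H K δ) (K0 : 0 < K) (h0 : 0 < δ)
    (h1 : δ ≤ 1) (r : ℕ) : Robust (iter k H r) (K ^ r) (db k δ r) := by
  induction r with
  | zero =>
    refine fun α s C hC => ⟨[(0, 0)], by simp [MP_67c02a_lc.iter], ?_⟩
    rw [filter_true_of_mem fun ω hω => ?_]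
    · simp [db]
    · have := hC ω hω
      rw [pow_zero, Nat.cast_lt_one, card_eq_zero] at this
      simp [Unhit, this]
  | succ r ih =>
    rw [pow_succ']
    exact h.comp ih (pow_pos K0 _) (db_pos k h0 h1 r).1.le (db_pos k h0 h1 r).2

def padE (t q d : ℕ) (e : List Vx) : List Vx :=
  e ++ ((List.range t).filter fun j => decide (j ∉ e.map Prod.fst)).map fun j => (j, q + d)

def pad (t q M : ℕ) (H : HG) : HG := H.flatMap fun e => (List.range M).map fun d => padE t q d e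

def Full (t q : ℕ) (H : HG) : Prop :=
  ∀ e ∈ H, ∃ a : Fin t → ℕ, (∀ j, a j < q) ∧ ∀ v, v ∈ e ↔ ∃ j : Fin t, v = (j.1, a j)

theorem mem_pad {t q M : ℕ} {H : HG} {r : List Vx} :
    r ∈ pad t q M H ↔ ∃ e ∈ H, ∃ d < M, r = padE t q d e := by
  simp [pad, eq_comm]

theorem mem_padE {t q d : ℕ} {e : List Vx} {v : Vx} : v ∈ padE t q d e ↔
    v ∈ e ∨ (v.1 < t ∧ v.1 ∉ e.map Prod.fst ∧ v.2 = q + d) := by
  obtain ⟨a, b⟩ := v
  simp only [padE, List.mem_append, List.mem_map (f := fun j => (j, q + d)), List.mem_filter,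
    List.mem_range, decide_eq_true_eq, Prod.mk.injEq]
  constructor
  · rintro (h | ⟨j, ⟨h1, h2⟩, rfl, rfl⟩)
    · exact Or.inl h
    · exact Or.inr ⟨h1, h2, rfl⟩
  · rintro (h | ⟨h1, h2, rfl⟩)
    · exact Or.inl h
    · exact Or.inr ⟨a, ⟨h1, h2⟩, rfl, rfl⟩

theorem WF.pad {t q M : ℕ} {H : HG} (h : WF t q H) : Full t (q + M) (pad t q M H) := fun r hr => by
  obtain ⟨e, he, d, hd, rfl⟩ := mem_pad.1 hr
  have ex : ∀ j : Fin t, ∃ a, a < q + M ∧ (j.1, a) ∈ padE t q d e := fun j => by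
    by_cases hj : j.1 ∈ e.map Prod.fst
    · obtain ⟨v, h1, h2⟩ := List.mem_map.1 hj
      exact ⟨v.2, by have := ((h e he).2 v h1).2; omega, mem_padE.2 (Or.inl (h2 ▸ h1))⟩
    · exact ⟨q + d, by omega, mem_padE.2 (Or.inr ⟨j.2, hj, rfl⟩)⟩
  choose a a1 a2 using ex
  refine ⟨a, a1, fun v => ⟨fun hv => ?_, by rintro ⟨j, rfl⟩; exact a2 j⟩⟩
  have h1 : v.1 < t := by
    rcases mem_padE.1 hv with h' | h'
    · exact ((h e he).2 v h').1
    · exact h'.1
  refine ⟨⟨v.1, h1⟩, ?_⟩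
  rcases mem_padE.1 hv with h' | h' <;> rcases mem_padE.1 (a2 ⟨v.1, h1⟩) with h'' | h''
  · exact List.inj_on_of_nodup_map (h e he).1 h' h'' rfl
  · exact (h''.2.1 (List.mem_map.2 ⟨v, h', rfl⟩)).elim
  · exact (h'.2.1 (List.mem_map.2 ⟨_, h'', rfl⟩)).elim
  · exact Prod.ext rfl (h'.2.2.trans h''.2.2.symm)

theorem IsCover.pad {t q M : ℕ} {H : HG} {C : Finset Vx} (h : IsCover H C) :
    IsCover (pad t q M H) C := fun r hr => by
  obtain ⟨e, he, d, -, rfl⟩ := mem_pad.1 hr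
  obtain ⟨v, h1, h2⟩ := h e he
  exact ⟨v, mem_padE.2 (Or.inl h1), h2⟩

theorem Robust.pad {t q M : ℕ} {H : HG} {K δ : ℝ} (h : Robust H K δ) (hM : 2 * K ≤ M)
    (M0 : 0 < M) (δ0 : 0 ≤ δ) : Robust (pad t q M H) K (δ / 2) := fun α s C hC => by
  obtain ⟨d, hd, h1⟩ : ∃ d ∈ range M, (s.card : ℝ) / 2
      ≤ (s.filter fun ω => q + d ∉ (C ω).image Prod.snd).card := by
    refine exists_le_of_sum_le (nonempty_range_iff.2 M0.ne') ?_
    simp only [← sum_ind]
    rw [sum_comm, sum_const, card_range, nsmul_eq_mul,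
      show (M : ℝ) * (s.card / 2) = s.card • ((M : ℝ) / 2) by rw [nsmul_eq_mul]; ring]
    refine card_nsmul_le_sum _ _ _ fun ω hω => ?_
    simp only [ind_not, sum_sub_distrib, sum_const, card_range, nsmul_eq_mul, mul_one, sum_ind]
    have : ((range M).filter fun d => q + d ∈ (C ω).image Prod.snd).card ≤ (C ω).card :=
      (card_le_card_of_injOn (fun d => q + d) (fun d hd => (mem_filter.1 hd).2)
        fun a _ b _ h => Nat.add_left_cancel h).trans card_image_le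
    have h2 : (((range M).filter fun d => q + d ∈ (C ω).image Prod.snd).card : ℝ) ≤ (C ω).card :=
      Nat.cast_le.2 this
    linarith [hC ω hω]
  obtain ⟨e, h2, h3⟩ := h α (s.filter fun ω => q + d ∉ (C ω).image Prod.snd) C
    fun ω hω => hC ω (mem_filter.1 hω).1
  refine ⟨_, mem_pad.2 ⟨e, h2, d, mem_range.1 hd, rfl⟩, ?_⟩
  rw [show δ / 2 * s.card = δ * (s.card / 2) by ring]
  refine (mul_le_mul_of_nonneg_left h1 δ0).trans (h3.trans ?_)
  refine Nat.cast_le.2 (card_le_card fun ω hω => ?_)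
  simp only [mem_filter] at hω ⊢
  refine ⟨hω.1.1, fun v hv hc => ?_⟩
  rcases mem_padE.1 hv with h' | h'
  · exact hω.2 v h' hc
  · exact hω.1.2 (mem_image.2 ⟨v, hc, h'.2.2⟩)

end Pool.Agent.Lib.MP_67c02a_lc
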