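import Pool.Agent.Lib.MP_67c02a_lc.Fixed
import Pool.Agent.Lib.MP_67c02a_lc.Budget

/-!
The lifting inequality: a cheap cover on a large set of label vectors forces a numerical bound.
-/

namespace Pool.Agent.Lib.MP_67c02a_lc

open Finset Function

set_option maxHeartbeats 400000

theorem cost_le {Ω Λ Q : Type} [Fintype Ω] [Fintype Q] [Nonempty Q] (X : Ω → Λ → Q × Bool)
    (S : Λ → Prop) (l : Λ) :
    av (fun ω => av fun a => ind (cE X S (fun ω => ind (X ω l = (a, false))) ω <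
      2 * (1 / (8 * Fintype.card Q)))) ≤
    av (fun ω => av fun a => ind (cE X S (fun ω' => ind ((X ω' l).1 = a)) ω <
      1 / (2 * Fintype.card Q))) + 4 * av fun ω => ind ((X ω l).2 = true) := by
  have q0 : (0 : ℝ) < Fintype.card Q := by exact_mod_cast Fintype.card_pos
  have e1 : 4 * av (fun ω => ind ((X ω l).2 = true)) = av fun ω => av fun a =>
      4 * Fintype.card Q * cE X S (fun ω => ind (X ω l = (a, true))) ω := by
    rw [av_comm]
    simp only [av_mul_left, av_cE_one]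
    rw [av_comm, mul_assoc, ← av_mul_left (Fintype.card Q : ℝ)]
    refine congrArg _ (av_congr fun ω => ?_)
    rw [av_eq, mul_div_cancel₀ _ q0.ne', sum_eq_single (X ω l).1 (fun a _ h => ind_neg fun e =>
      h (by rw [e])) (by simp)]
    exact ind_congr (by simp [Prod.ext_iff])
  rw [e1, ← av_add]
  refine av_mono fun ω => ?_
  rw [← av_add]
  refine av_mono fun a => ?_
  have e2 : cE X S (fun ω' => ind ((X ω' l).1 = a)) ω = cE X S (fun ω => ind (X ω l = (a, false))) ω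
      + cE X S (fun ω => ind (X ω l = (a, true))) ω := by
    rw [← cE_add]
    refine cE_congr X fun ω' _ => ?_
    rcases X ω' l with ⟨b, _ | _⟩ <;> by_cases h : b = a <;> simp [ind, h]
  have e3 := cE_nonneg X S (f := fun ω => ind (X ω l = (a, true))) (fun _ => ind_nonneg _) ω
  rw [e2]
  generalize cE X S (fun ω => ind (X ω l = (a, false))) ω = u at *
  generalize cE X S (fun ω => ind (X ω l = (a, true))) ω = v at *
  by_cases h : u < 2 * (1 / (8 * Fintype.card Q))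
  · rw [ind_pos h]
    by_cases h' : u + v < 1 / (2 * Fintype.card Q)
    · rw [ind_pos h']; exact le_add_of_nonneg_right (by positivity)
    · rw [ind_neg h', zero_add]
      rw [not_lt, div_le_iff₀ (by positivity)] at h'
      rw [mul_one_div, lt_div_iff₀ (by positivity)] at h
      nlinarith
  · rw [ind_neg h]; exact add_nonneg (ind_nonneg _) (by positivity)

theorem dev_mul {P : Type} (s : Finset P) (m : P → Prop) {ψ D y η : ℝ} (ψ0 : 0 ≤ ψ)
    (hD : (s.card : ℝ) ≤ D) (y0 : 0 ≤ y) (y1 : y ≤ 1) (η0 : 0 < η) :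
    (∑ p ∈ s, ind (m p)) * y ≤ D * ψ * y + (η + (∑ p ∈ s, (ind (m p) - ψ)) ^ 2 / (4 * η)) := by
  have h1 := le_add_sq |∑ p ∈ s, (ind (m p) - ψ)| η0
  rw [sq_abs] at h1
  have h2 := le_abs_self (∑ p ∈ s, (ind (m p) - ψ))
  have h3 := abs_nonneg (∑ p ∈ s, (ind (m p) - ψ))
  have h4 : ∑ p ∈ s, ind (m p) = s.card * ψ + ∑ p ∈ s, (ind (m p) - ψ) := by
    rw [sum_sub_distrib, sum_const, nsmul_eq_mul]; ring
  have h5 : s.card * ψ * y ≤ D * ψ * y := by gcongr
  rw [h4]
  nlinarith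

theorem lift {Ω ι W Q P τ : Type} [Fintype Ω] [Nonempty Ω] [Fintype ι] [DecidableEq ι] [Fintype W]
    [DecidableEq W] [Fintype Q] [Fintype P] [DecidableEq P] [Inhabited ι] [Nonempty Q]
    (X : Ω → ι × W → Q × Bool) (φ : ι → P → W) (hinj : Injective fun ω l => (X ω l).1)
    {μ x γ D E F k η η' θ ψ Θ Λ : ℝ} {K : ℕ} [NeZero K] (μ0 : 0 < μ)
    (hμ : μ * (Fintype.card Q : ℝ) ^ Fintype.card (ι × W) ≤ Fintype.card Ω) (x0 : 0 < x)
    (x1 : x ≤ 1) (hZ : ∀ ω, ∑ l, ind ((X ω l).2 = true) ≤ k) {H : (ι → Q) → Prop}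
    (γ0 : 0 < γ) (hH : ∀ C : ι → Q → Prop, ∑ i, av (fun a => ind (C i a)) ≤ γ →
      ∃ z, H z ∧ ∀ i, ¬ C i (z i)) (η0 : 0 < η) (η1 : 0 < η')
    (hD : ∀ l : ι × W, ((univ.filter fun p => φ l.1 p = l.2).card : ℝ) ≤ D)
    (hl : ∀ p p' i j, p ≠ p' → φ i p = φ i p' → j ≠ i → φ j p ≠ φ j p')
    (T : Finset τ) (U : τ → Finset P) (hE : ∀ t ∈ T, ((U t).card : ℝ) ≤ E)
    (hU : ∀ t ∈ T, ∀ p ∈ U t, ∀ p' ∈ U t, p ≠ p' → ∀ i, φ i p ≠ φ i p') (V : Ω → Finset τ)
    (hV : ∀ ω, V ω ⊆ T) (hk : ∀ ω, ((V ω).card : ℝ) ≤ k) (R : Ω → Finset P)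
    (hR : ∀ ω, ((R ω).card : ℝ) ≤ F)
    (hcov : ∀ ω p, H (fun i => (X ω (i, φ i p)).1) →
      (∃ i, (X ω (i, φ i p)).2 = true) ∨ p ∈ R ω ∨ ∃ t ∈ V ω, p ∈ U t) (D0 : 0 ≤ D) (E0 : 0 ≤ E)
    (hθ : θ = 1 / (8 * Fintype.card Q)) (hψ : ψ = (1 / K) ^ (Fintype.card ι - 1))
    (hΘ : Θ = (1 / θ) ^ Fintype.card ι) (hΛ : Λ = Fintype.card (ι × W)) :
    Fintype.card P * ψ ≤
      (D * ψ * (7 * (Real.log (1 / μ) + x * Λ + k * Real.log (1 / x)) + 4 * k) +
        Λ * (η + D / (4 * η))) / γ +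
      ((D * ψ * (Λ / K) + Λ * (η + D / (4 * η))) / θ ^ 2 +
      Λ * (Fintype.card Q * (η + D * Θ / (4 * η))) + F * Θ +
      (k * (E * ψ + η') + T.card * (E / (4 * η')) + k * η' + T.card * (E * Θ / (4 * η')))) := by
  have q1 : (1 : ℝ) ≤ Fintype.card Q := by exact_mod_cast Fintype.card_pos
  have h0 : 0 < θ := by rw [hθ]; positivity
  have h1 : θ ≤ 1 := by rw [hθ, div_le_one (by positivity)]; linarith
  have ψ0 : 0 ≤ ψ := by rw [hψ]; positivity
  obtain ⟨e, he⟩ : ∃ e : ι × W → (ι × W → Prop) → ℝ, ∀ l S, e l S =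
    ∑ a, av fun ω => cE X S (fun ω => ind (X ω l = (a, false))) ω ^ 2 := ⟨_, fun _ _ => rfl⟩
  have e0 : ∀ l S, 0 ≤ e l S := fun l S =>
    he l S ▸ sum_nonneg fun _ _ => av_nonneg fun _ => sq_nonneg _
  have e1 : ∀ l S, e l S ≤ 1 := fun l S => by
    rw [he]
    refine (sum_le_sum fun a _ => energy_le S (fun _ => ind_nonneg _) fun _ => ind_le_one _).trans ?_
    rw [← av_sum]
    refine av_le fun ω => ?_
    rw [sum_eq_single (X ω l).1 (fun a _ h => ind_neg fun e => h (by rw [e])) (by simp)]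
    exact ind_le_one _
  have e2 : ∀ l S S', (∀ l', S l' → S' l') → e l S ≤ e l S' := fun l S S' h => by
    rw [he, he]; exact sum_le_sum fun a _ => energy_mono h _
  obtain ⟨dv, hdv⟩ : ∃ dv : Finset P → (ι × W → Fin K) → ℝ, ∀ s κ, dv s κ =
    (∑ p ∈ s, (ind (Mono φ (fun l => κ l) p) - ψ)) ^ 2 := ⟨_, fun _ _ => rfl⟩
  obtain ⟨δ, hδ⟩ : ∃ δ : ι × W → (ι × W → Fin K) → ℝ, ∀ l κ, δ l κ =
    e l (fun l' => l' ≠ l ∧ (κ l' : ℕ) < κ l + 1) - e l fun l' => l' ≠ l ∧ (κ l' : ℕ) < κ l :=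
    ⟨_, fun _ _ => rfl⟩
  have key : ∀ κ : ι × W → Fin K, ∑ p, ind (Mono φ (fun l => κ l) p) ≤
      (D * ψ * (7 * (Real.log (1 / μ) + x * Λ + k * Real.log (1 / x)) + 4 * k) +
        ∑ l : ι × W, (η + dv (univ.filter fun p => φ l.1 p = l.2) κ / (4 * η))) / γ +
      ((D * ψ * ∑ l, δ l κ + ∑ l : ι × W,
        (η + dv (univ.filter fun p => φ l.1 p = l.2) κ / (4 * η))) / θ ^ 2 +
      Λ * (Fintype.card Q * (η + D * Θ / (4 * η))) + F * Θ +
      (k * (E * ψ + η') + ∑ t ∈ T, dv (U t) κ / (4 * η') + k * η' +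
        T.card * (E * Θ / (4 * η')))) := fun κ => by
    obtain ⟨key, hkey⟩ : ∃ key : ι × W → ℕ, ∀ l, key l =
      κ l * Fintype.card (ι × W) + Fintype.equivFin _ l := ⟨_, fun _ => rfl⟩
    have k0 : ∀ l : ι × W, (Fintype.equivFin _ l : ℕ) < Fintype.card (ι × W) := fun l => Fin.is_lt _
    have k1 : ∀ l l', key l' < key l → (κ l' : ℕ) < κ l + 1 := fun l l' h => by
      by_contra hn
      have := Nat.mul_le_mul_right (Fintype.card (ι × W)) (not_lt.1 hn)
      have := k0 l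
      rw [hkey, hkey] at h
      nlinarith
    have k2 : Injective key := fun l l' h => by
      have h2 := congrArg (· % Fintype.card (ι × W)) h
      simp only [hkey, Nat.mul_add_mod_self_right, Nat.mod_eq_of_lt (k0 _)] at h2
      exact (Fintype.equivFin _).injective (Fin.ext h2)
    have k3 : ∀ l, κ l * Fintype.card (ι × W) ≤ key l := fun l => hkey l ▸ Nat.le_add_right _ _
    have k4 : ∀ l l', (κ l' : ℕ) < κ l → key l' < κ l * Fintype.card (ι × W) := fun l l' h => by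
      have := Nat.mul_le_mul_right (Fintype.card (ι × W)) (Nat.succ_le_of_lt h)
      have := k0 l'
      rw [hkey]
      nlinarith
    refine (fixed k2 h0 h1 (cls := fun l => κ l) k3 γ0 hH η0 η1 hD hl T U hE hU V hV hk R hR
      hcov).trans ?_
    rw [← hΘ, ← hΛ]
    simp only [hdv]
    gcongr
    · refine (sum_le_sum fun l _ => dev_mul _ _ ψ0 (hD l) (av_nonneg fun _ => av_nonneg fun _ =>
        ind_nonneg _) (av_le fun _ => av_le fun _ => ind_le_one _) η0).trans ?_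
      rw [sum_add_distrib, ← mul_sum]
      gcongr
      simp only [hθ, cnu]
      refine (sum_le_sum fun l _ => cost_le X _ l).trans ?_
      rw [sum_add_distrib, ← mul_sum, ← av_sum (α := Ω) univ fun l ω => ind ((X ω l).2 = true), hΛ]
      exact add_le_add (budget X hinj μ0 hμ x0 x1 hZ k2
        (fun l l' => key l' < κ l * Fintype.card (ι × W)) fun l l' h => h.trans_le (k3 l))
        (mul_le_mul_of_nonneg_left (av_le hZ) (by norm_num))
    · have d1 : ∀ l, ∑ a, av (fun ω => (cnu X key (key l) l a ω -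
          cnu X key (κ l * Fintype.card (ι × W)) l a ω) ^ 2) = e l (fun l' => key l' < key l) -
          e l fun l' => key l' < κ l * Fintype.card (ι × W) := fun l => by
        rw [he, he, ← sum_sub_distrib]
        exact sum_congr rfl fun a _ => energy_sub (fun l' h => h.trans_le (k3 l)) _
      refine (sum_le_sum fun l _ => dev_mul _ _ ψ0 (hD l) (sum_nonneg fun _ _ => av_nonneg fun _ =>
        sq_nonneg _) (by rw [d1]; exact (sub_le_self _ (e0 _ _)).trans (e1 _ _)) η0).trans ?_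
      rw [sum_add_distrib, ← mul_sum]
      gcongr with l
      rw [d1, hδ]
      exact sub_le_sub (e2 _ _ _ fun l' h => ⟨by rintro rfl; exact lt_irrefl _ h, k1 l l' h⟩)
        (e2 _ _ _ fun l' h => k4 l l' h.2)
    · refine av_le fun ω => ?_
      refine (sum_le_sum fun t ht => (mul_one _).symm.trans_le (dev_mul _ _ ψ0 (hE t (hV ω ht))
        zero_le_one le_rfl η1)).trans ?_
      simp only [mul_one, ← add_assoc]
      rw [sum_add_distrib, sum_const, nsmul_eq_mul]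
      exact add_le_add (mul_le_mul_of_nonneg_right (hk ω) (by positivity))
        (sum_le_sum_of_subset_of_nonneg (hV ω) fun _ _ _ => by positivity)
  have a1 : ∀ l : ι × W, av (dv (univ.filter fun p => φ l.1 p = l.2)) ≤ D := fun l => by
    rw [funext (hdv _), hψ]
    exact (av_dev φ l.1 _ fun p hp p' hp' hne i hi => hl p p' l.1 i hne
      ((mem_filter.1 hp).2.trans (mem_filter.1 hp').2.symm) hi).trans (hD l)
  have a2 : ∀ t ∈ T, av (dv (U t)) ≤ E := fun t ht => by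
    rw [funext (hdv _), hψ]
    exact (av_dev φ default _ fun p hp p' hp' hne i _ => hU t ht p hp p' hp' hne i).trans (hE t ht)
  have a3 : ∀ l, av (δ l) ≤ 1 / K := fun l => by
    rw [funext (hδ l)]; exact av_incr l (e l) (e0 l) (e1 l)
  have a4 : ∑ l : ι × W, (η + av (dv (univ.filter fun p => φ l.1 p = l.2)) / (4 * η)) ≤
      Λ * (η + D / (4 * η)) := by
    rw [hΛ, ← nsmul_eq_mul]
    exact sum_le_card_nsmul _ _ _ fun l _ => by gcongr; exact a1 l
  have := av_mono key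
  simp only [av_sum, av_add, av_div, av_const, av_mul_left, av_mono_pt φ _ default, ← hψ, sum_const,
    card_univ, nsmul_eq_mul] at this
  refine this.trans ?_
  gcongr
  · rw [hΛ, div_eq_mul_one_div, ← nsmul_eq_mul]
    exact sum_le_card_nsmul _ _ _ fun l _ => a3 l
  · rw [← nsmul_eq_mul]
    exact sum_le_card_nsmul _ _ _ fun t ht => by gcongr; exact a2 t ht

end Pool.Agent.Lib.MP_67c02a_lc
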