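import Pool.Agent.Lib.MP_67c02a_lc.Av

/-!
A Poincare inequality for Margulis type graphs on the discrete torus.
-/

namespace Pool.Agent.Lib.MP_67c02a_lc

open Finset Function
open scoped ComplexConjugate

set_option maxHeartbeats 400000

variable {s : ℕ} [NeZero s]

def gen (k : Fin 4) (e : ZMod s) (x : ZMod s × ZMod s) : ZMod s × ZMod s :=
  if k = 0 then (x.1 + e, x.2) else if k = 1 then (x.1, x.2 + e)
  else if k = 2 then (x.1 + 3 * e * x.2, x.2) else (x.1, x.2 + 3 * e * x.1)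

theorem gen_neg (k : Fin 4) (e : ZMod s) (x : ZMod s × ZMod s) : gen k (-e) (gen k e x) = x := by
  unfold gen; split_ifs <;> simp

def genE (k : Fin 4) (e : ZMod s) : (ZMod s × ZMod s) ≃ (ZMod s × ZMod s) :=
  ⟨gen k e, gen k (-e), gen_neg k e, fun x => by simpa using gen_neg k (-e) x⟩

noncomputable def hat (F : ZMod s × ZMod s → ℝ) (ξ : ZMod s × ZMod s) : ℂ :=
  ∑ x, F x * ZMod.stdAddChar (ξ.1 * x.1 + ξ.2 * x.2)

theorem parseval (F : ZMod s × ZMod s → ℝ) :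
    ∑ ξ, ‖hat F ξ‖ ^ 2 = s ^ 2 * ∑ x, F x ^ 2 := by
  have h1 : ∀ z : ZMod s × ZMod s, ∑ ξ : ZMod s × ZMod s,
      (ZMod.stdAddChar (ξ.1 * z.1 + ξ.2 * z.2) : ℂ) = if z = 0 then (s : ℂ) ^ 2 else 0 := by
    intro z
    simp only [AddChar.map_add_eq_mul, Fintype.sum_prod_type, ← sum_mul_sum,
      AddChar.sum_mulShift _ (ZMod.isPrimitive_stdAddChar s), ZMod.card, Prod.ext_iff]
    by_cases h1 : z.1 = 0 <;> by_cases h2 : z.2 = 0 <;> simp [h1, h2, sq]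
  have h2 : ∀ ξ, ((‖hat F ξ‖ ^ 2 : ℝ) : ℂ) = ∑ x, ∑ y, (F x * F y : ℂ) *
      ZMod.stdAddChar (ξ.1 * (x - y).1 + ξ.2 * (x - y).2) := fun ξ => by
    rw [← Complex.normSq_eq_norm_sq, ← Complex.mul_conj, hat, map_sum, sum_mul_sum]
    refine sum_congr rfl fun x _ => sum_congr rfl fun y _ => ?_
    rw [map_mul, Complex.conj_ofReal, ← AddChar.map_neg_eq_conj, mul_mul_mul_comm,
      ← AddChar.map_add_eq_mul]
    congr 2; simp only [Prod.fst_sub, Prod.snd_sub]; ring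
  apply Complex.ofReal_injective
  rw [Complex.ofReal_sum]
  simp only [h2]
  rw [sum_comm]
  push_cast
  rw [mul_sum]
  refine sum_congr rfl fun x _ => ?_
  rw [sum_comm]
  simp only [← mul_sum, h1, sub_eq_zero, mul_ite, mul_zero, sum_ite_eq, mem_univ, if_true]
  ring

theorem hat_sub (F G : ZMod s × ZMod s → ℝ) (ξ : ZMod s × ZMod s) :
    hat (fun x => F x - G x) ξ = hat F ξ - hat G ξ := by
  simp [hat, sub_mul]

theorem hat_gen (F : ZMod s × ZMod s → ℝ) (k : Fin 4) (e : ZMod s) (ξ : ZMod s × ZMod s) :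
    hat (fun x => F (gen k e x)) ξ = ∑ y, F y *
      ZMod.stdAddChar (ξ.1 * (gen k (-e) y).1 + ξ.2 * (gen k (-e) y).2) :=
  Fintype.sum_equiv (genE k e) _ _ fun x => by
    simp only [genE, Equiv.coe_fn_mk, gen_neg]

theorem energy (F : ZMod s × ZMod s → ℝ) (k : Fin 4) (e : ZMod s) :
    ∑ ξ, ‖hat F ξ - hat (fun x => F (gen k e x)) ξ‖ ^ 2 = s ^ 2 * ∑ x, (F x - F (gen k e x)) ^ 2 := by
  simp only [← hat_sub, parseval]

theorem far_char {a : ZMod s} (h : ¬ 8 * |a.valMinAbs| < s) :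
    1 ≤ 4 * ‖(1 : ℂ) - ZMod.stdAddChar (-a)‖ ^ 2 := by
  have s0 : (0 : ℝ) < s := by exact_mod_cast NeZero.pos s
  have e : (ZMod.stdAddChar a : ℂ) = Complex.exp ((2 * Real.pi * a.valMinAbs / s : ℝ) * Complex.I) := by
    conv_lhs => rw [← a.coe_valMinAbs, ZMod.stdAddChar_coe]
    congr 1; push_cast; ring
  have h1 : (s : ℝ) ≤ 8 * |(a.valMinAbs : ℝ)| := by exact_mod_cast not_lt.1 h
  have h2 : 2 * |(a.valMinAbs : ℝ)| ≤ s := by
    have := a.valMinAbs_mem_Ioc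
    have : 2 * |a.valMinAbs| ≤ s := by
      rcases abs_cases a.valMinAbs with h | h <;> linarith [this.1, this.2, h.1]
    exact_mod_cast this
  have pi0 := Real.pi_pos
  have h3 := Real.cos_le_one_sub_mul_cos_sq (x := 2 * Real.pi * a.valMinAbs / s) (by
    rw [abs_div, abs_mul, abs_of_pos s0, abs_of_pos (by positivity), div_le_iff₀ s0]; nlinarith)
  have h4 : 1 / 8 ≤ 2 / Real.pi ^ 2 * (2 * Real.pi * a.valMinAbs / s) ^ 2 := by
    rw [show 2 / Real.pi ^ 2 * (2 * Real.pi * a.valMinAbs / s) ^ 2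
      = 8 * (a.valMinAbs : ℝ) ^ 2 / s ^ 2 by field_simp; ring, le_div_iff₀ (by positivity),
      ← sq_abs (a.valMinAbs : ℝ)]
    nlinarith
  rw [← Complex.normSq_eq_norm_sq, Complex.normSq_sub, AddChar.map_neg_eq_conj, Complex.conj_conj,
    Complex.normSq_conj, Complex.normSq_eq_norm_sq (ZMod.stdAddChar a), AddChar.norm_apply, one_mul,
    e, Complex.exp_ofReal_mul_I_re]
  simp only [map_one, one_pow]
  linarith

theorem shear_bound (f : ZMod s × ZMod s → ℂ) (k : Fin 4) (e : ZMod s)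
    (P Q : ZMod s × ZMod s → Prop) (h : ∀ ξ, P ξ → Q (gen k e ξ)) :
    ∑ ξ, ind (P ξ) * ‖f ξ‖ ^ 2 ≤ 3 / 2 * ∑ ξ, ind (Q ξ) * ‖f ξ‖ ^ 2
      + 3 * ∑ ξ, ‖f ξ - f (gen k e ξ)‖ ^ 2 := by
  rw [← Equiv.sum_comp (genE k e) fun ξ => ind (Q ξ) * ‖f ξ‖ ^ 2, mul_sum, mul_sum,
    ← sum_add_distrib]
  refine sum_le_sum fun ξ _ => ?_
  simp only [genE, Equiv.coe_fn_mk]
  by_cases hp : P ξ
  · rw [ind_pos hp, ind_pos (h ξ hp)]
    have := norm_le_insert' (f ξ) (f (gen k e ξ))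
    nlinarith [norm_nonneg (f ξ), norm_nonneg (f (gen k e ξ)), norm_nonneg (f ξ - f (gen k e ξ)),
      sq_nonneg (‖f (gen k e ξ)‖ - 2 * ‖f ξ - f (gen k e ξ)‖)]
  · rw [ind_neg hp, zero_mul]
    have := ind_nonneg (Q (gen k e ξ))
    positivity

theorem val_shear {a b : ZMod s} {e : ℤ} (he : e = 1 ∨ e = -1) (ha : 8 * |a.valMinAbs| < s)
    (hb : 8 * |b.valMinAbs| < s) :
    (a + 3 * e * b).valMinAbs = a.valMinAbs + 3 * e * b.valMinAbs := by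
  refine (ZMod.valMinAbs_spec _ _).2 ⟨by simp, ?_⟩
  rcases he with rfl | rfl <;> rcases abs_cases a.valMinAbs with h | h <;>
    rcases abs_cases b.valMinAbs with h' | h' <;> constructor <;> linarith [h.1, h'.1]

theorem ping {a b e : ℤ} (he : e = 1 ∨ e = -1) (h1 : |a| ≤ |b|) (h2 : b ≠ 0) :
    |b| < |a + 3 * e * b| ∧ 0 < e * (a + 3 * e * b) * b := by
  rcases he with rfl | rfl <;> rcases abs_cases a with h | h <;> rcases abs_cases b with h' | h' <;>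
    refine ⟨lt_abs.2 (by omega), ?_⟩ <;> rcases lt_or_gt_of_ne h2 with h3 | h3 <;> nlinarith

theorem poincare_torus (F : ZMod s × ZMod s → ℝ) : ∑ x, ∑ y, (F x - F y) ^ 2 ≤
    32 * s ^ 2 * ∑ x, ∑ k : Fin 4, ∑ b : Bool,
      (F x - F (gen k (if b then 1 else -1) x)) ^ 2 := by
  set μ : ZMod s × ZMod s → ℝ := fun ξ => ‖hat F ξ‖ ^ 2 with hμ
  have μ0 : ∀ ξ, 0 ≤ μ ξ := fun ξ => sq_nonneg _
  have e0 : ∑ x, ∑ y, (F x - F y) ^ 2 = 2 * ∑ ξ, ind (ξ ≠ 0) * μ ξ := by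
    have h1 : μ 0 = (∑ x, F x) ^ 2 := by
      simp only [hμ, hat, Prod.fst_zero, Prod.snd_zero, zero_mul, add_zero,
        AddChar.map_zero_eq_one, mul_one, ← Complex.ofReal_sum, Complex.norm_real,
        Real.norm_eq_abs, sq_abs]
    have h2 : ∑ ξ, ind (ξ = 0) * μ ξ = μ 0 := by
      rw [sum_eq_single 0 (fun b _ hb => by rw [ind_neg hb, zero_mul]) (by simp), ind_pos rfl,
        one_mul]
    simp only [ne_eq, ind_not, sub_mul, one_mul, sum_sub_distrib, h2, h1]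
    simp only [hμ, parseval, sub_sq, sum_sub_distrib,
      sum_add_distrib, sum_const, card_univ, Fintype.card_prod, ZMod.card, nsmul_eq_mul,
      ← mul_sum, ← sum_mul]
    push_cast; ring
  set B : ZMod s × ZMod s → Prop := fun ξ => 8 * |ξ.1.valMinAbs| < s ∧ 8 * |ξ.2.valMinAbs| < s
  set Q : ℤ → ZMod s → ZMod s → Prop := fun e a b =>
    |b.valMinAbs| < |a.valMinAbs| ∧ 0 < e * a.valMinAbs * b.valMinAbs with hQ
  have hY : ∀ e : ℤ, e = 1 ∨ e = -1 → _ := fun e he => shear_bound (hat F) 2 (e : ZMod s)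
    (fun ξ => B ξ ∧ |ξ.1.valMinAbs| ≤ |ξ.2.valMinAbs| ∧ ξ.2.valMinAbs ≠ 0)
    (fun ξ => Q e ξ.1 ξ.2) fun ξ h => by
      simp only [hQ, gen, Fin.reduceEq, if_false, if_true, val_shear he h.1.1 h.1.2]
      exact ping he h.2.1 h.2.2
  have hX : ∀ e : ℤ, e = 1 ∨ e = -1 → _ := fun e he => shear_bound (hat F) 3 (e : ZMod s)
    (fun ξ => B ξ ∧ |ξ.2.valMinAbs| < |ξ.1.valMinAbs|)
    (fun ξ => Q e ξ.2 ξ.1) fun ξ h => by
      simp only [hQ, gen, Fin.reduceEq, if_false, val_shear he h.1.2 h.1.1]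
      exact ping he h.2.le (abs_pos.1 ((abs_nonneg _).trans_lt h.2))
  have s2 : ∀ e ξ, hat F (gen 2 e ξ) = hat (fun x => F (gen 3 (-e) x)) ξ := fun e ξ => by
    rw [hat_gen, hat]
    exact sum_congr rfl fun y _ => by simp only [gen, Fin.reduceEq, if_false, if_true]; ring_nf
  have s3 : ∀ e ξ, hat F (gen 3 e ξ) = hat (fun x => F (gen 2 (-e) x)) ξ := fun e ξ => by
    rw [hat_gen, hat]
    exact sum_congr rfl fun y _ => by simp only [gen, Fin.reduceEq, if_false, if_true]; ring_nf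
  have t0 : ∀ ξ, ‖hat F ξ - hat (fun x => F (gen 0 1 x)) ξ‖ ^ 2
      = ‖(1 : ℂ) - ZMod.stdAddChar (-ξ.1)‖ ^ 2 * μ ξ := fun ξ => by
    rw [hμ, ← mul_pow, ← norm_mul, sub_mul, one_mul, hat_gen, hat, mul_sum]
    congr 3
    exact sum_congr rfl fun y _ => by
      rw [mul_left_comm, ← AddChar.map_add_eq_mul]; simp only [gen, if_true]; ring_nf
  have t1 : ∀ ξ, ‖hat F ξ - hat (fun x => F (gen 1 1 x)) ξ‖ ^ 2
      = ‖(1 : ℂ) - ZMod.stdAddChar (-ξ.2)‖ ^ 2 * μ ξ := fun ξ => by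
    rw [hμ, ← mul_pow, ← norm_mul, sub_mul, one_mul, hat_gen, hat, mul_sum]
    congr 3
    exact sum_congr rfl fun y _ => by
      rw [mul_left_comm, ← AddChar.map_add_eq_mul]
      simp only [gen, Fin.reduceEq, if_false, if_true]; ring_nf
  have y1 := hY 1 (Or.inl rfl)
  have y2 := hY (-1) (Or.inr rfl)
  have x1 := hX 1 (Or.inl rfl)
  have x2 := hX (-1) (Or.inr rfl)
  simp only [s2, s3, energy, Int.cast_one, Int.cast_neg, neg_neg] at y1 y2 x1 x2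
  have q1 : ∑ ξ, ind (Q 1 ξ.1 ξ.2) * μ ξ + ∑ ξ, ind (Q (-1) ξ.1 ξ.2) * μ ξ
      + ∑ ξ, ind (Q 1 ξ.2 ξ.1) * μ ξ + ∑ ξ, ind (Q (-1) ξ.2 ξ.1) * μ ξ
      ≤ ∑ ξ, ind (ξ ≠ 0) * μ ξ := by
    simp only [← sum_add_distrib, ← add_mul]
    refine sum_le_sum fun ξ _ => mul_le_mul_of_nonneg_right ?_ (μ0 ξ)
    by_cases h0 : ξ = 0
    · simp [h0, hQ, ind_neg]
    rw [ind_pos h0]
    simp only [hQ, one_mul, neg_mul, mul_comm ξ.2.valMinAbs, ind]
    generalize ξ.1.valMinAbs * ξ.2.valMinAbs = a, |ξ.1.valMinAbs| = b, |ξ.2.valMinAbs| = c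
    split_ifs <;> first | (exfalso; omega) | norm_num
  have q2 : ∑ ξ, ind (ξ ≠ 0) * μ ξ ≤
      ∑ ξ, ind (B ξ ∧ |ξ.1.valMinAbs| ≤ |ξ.2.valMinAbs| ∧ ξ.2.valMinAbs ≠ 0) * μ ξ
      + ∑ ξ, ind (B ξ ∧ |ξ.2.valMinAbs| < |ξ.1.valMinAbs|) * μ ξ
      + 4 * (s ^ 2 * ∑ x, (F x - F (gen 0 1 x)) ^ 2)
      + 4 * (s ^ 2 * ∑ x, (F x - F (gen 1 1 x)) ^ 2) := by
    rw [← energy, ← energy]
    simp only [t0, t1, mul_sum, ← mul_assoc, ← sum_add_distrib, ← add_mul]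
    refine sum_le_sum fun ξ _ => mul_le_mul_of_nonneg_right ?_ (μ0 ξ)
    have i1 := ind_nonneg (B ξ ∧ |ξ.1.valMinAbs| ≤ |ξ.2.valMinAbs| ∧ ξ.2.valMinAbs ≠ 0)
    have i2 := ind_nonneg (B ξ ∧ |ξ.2.valMinAbs| < |ξ.1.valMinAbs|)
    have i3 := sq_nonneg ‖(1 : ℂ) - ZMod.stdAddChar (-ξ.1)‖
    have i4 := sq_nonneg ‖(1 : ℂ) - ZMod.stdAddChar (-ξ.2)‖
    have i5 := ind_le_one (ξ ≠ 0)
    by_cases h1 : 8 * |ξ.1.valMinAbs| < s
    · by_cases h2 : 8 * |ξ.2.valMinAbs| < s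
      · by_cases h0 : ξ = 0
        · rw [ind_neg (not_not.2 h0)]; linarith
        rcases le_or_gt |ξ.1.valMinAbs| |ξ.2.valMinAbs| with h | h
        · rw [ind_pos (p := _ ∧ _ ∧ _) ⟨⟨h1, h2⟩, h, fun h3 => h0 ?_⟩]
          · linarith
          · rw [h3, abs_zero, abs_nonpos_iff] at h
            exact Prod.ext ((ZMod.valMinAbs_eq_zero _).1 h) ((ZMod.valMinAbs_eq_zero _).1 h3)
        · rw [ind_pos (p := _ ∧ _ < _) ⟨⟨h1, h2⟩, h⟩]; linarith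
      · linarith [far_char h2]
    · linarith [far_char h1]
  have n0 : ∀ k e, 0 ≤ (s : ℝ) ^ 2 * ∑ x, (F x - F (gen k e x)) ^ 2 := fun k e =>
    mul_nonneg (sq_nonneg _) (sum_nonneg fun _ _ => sq_nonneg _)
  simp only [Fin.sum_univ_four, Fintype.sum_bool, if_true, Bool.false_eq_true, if_false,
    sum_add_distrib, mul_add, mul_assoc]
  rw [e0]
  linarith [n0 0 (-1), n0 1 (-1), n0 2 1, n0 2 (-1), n0 3 1, n0 3 (-1)]

end Pool.Agent.Lib.MP_67c02a_lc
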