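import Pool.Agent.Lib.MP_67c02a_lc.Graph

/-!
Polynomial time predicates; the walks of the constraint graph are polynomial time.
-/

namespace Pool.Agent.Lib.MP_67c02a_lc

open Finset Function Pool.Agent.Lib.Complexity

set_option maxHeartbeats 400000

variable {α β γ : Type} [Enc α] [Enc β] [Enc γ]

def PP (p : α → Prop) : Prop := ∃ f : α → Bool, PT f ∧ ∀ a, f a = true ↔ p a

theorem PP.congr {p q : α → Prop} (h : PP p) (e : ∀ a, p a ↔ q a) : PP q := by
  rwa [← funext fun a => propext (e a)]

theorem PP.const (p : Prop) : PP fun _ : α => p := by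
  classical exact ⟨fun _ => decide p, PT.const _, fun _ => by simp⟩

theorem PP.eq {f g : α → β} (hf : PT f) (hg : PT g) : PP fun a => f a = g a := by
  classical exact ⟨_, PT.dec_eq hf hg, fun _ => by simp⟩

theorem PP.not {p : α → Prop} (h : PP p) : PP fun a => ¬ p a := by
  obtain ⟨f, h1, h2⟩ := h
  exact ⟨_, h1.not, fun a => by simp [← h2]⟩

theorem PP.and {p q : α → Prop} (h : PP p) (h' : PP q) : PP fun a => p a ∧ q a := by
  obtain ⟨f, h1, h2⟩ := h
  obtain ⟨g, h3, h4⟩ := h'
  exact ⟨_, h1.and h3, fun a => by simp [← h2, ← h4]⟩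

theorem PP.imp {p q : α → Prop} (h : PP p) (h' : PP q) : PP fun a => p a → q a :=
  (h.and h'.not).not.congr fun _ => by tauto

theorem PP.iff {p q : α → Prop} (h : PP p) (h' : PP q) : PP fun a => p a ↔ q a :=
  ((h.imp h').and (h'.imp h)).congr fun _ => by tauto

theorem PP.ball {ι : Type} (s : Finset ι) {p : ι → α → Prop} (h : ∀ i, PP (p i)) :
    PP fun a => ∀ i ∈ s, p i a := by
  classical
  induction s using Finset.induction_on with
  | empty => exact (PP.const True).congr fun _ => by simp
  | insert i s _ ih => exact ((h i).and ih).congr fun _ => by simp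

theorem PP.all {ι : Type} [Fintype ι] {p : ι → α → Prop} (h : ∀ i, PP (p i)) :
    PP fun a => ∀ i, p i a := (PP.ball univ h).congr fun _ => by simp

theorem PP.ex {ι : Type} [Fintype ι] {p : ι → α → Prop} (h : ∀ i, PP (p i)) :
    PP fun a => ∃ i, p i a := (PP.all fun i => (h i).not).not.congr fun _ => by simp

theorem pt_cases {C : Type} [Fintype C] [Nonempty C] {c : α → C} (h : ∀ x, PP fun a => c a = x)
    {G : C → α → β} (hG : ∀ x, PT (G x)) : PT fun a => G (c a) a := by
  classical
  have key : ∀ s : Finset C,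
      PT fun a => if c a ∈ s then G (c a) a else G (Classical.arbitrary C) a := fun s => by
    induction s using Finset.induction_on with
    | empty => exact (hG (Classical.arbitrary C)).of_eq fun _ => by simp
    | insert x s _ ih =>
      obtain ⟨f, h1, h2⟩ := h x
      refine (h1.cond (hG x) ih).of_eq fun a => ?_
      by_cases e : c a = x
      · simp [(h2 a).2 e, e]
      · simp [Bool.eq_false_iff.2 (mt (h2 a).1 e), e]
  exact (key univ).of_eq fun _ => by simp

theorem pt_map_const {ι : Type} (l : List ι) {f : ι → α → β} (h : ∀ i, PT (f i)) :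
    PT fun a => l.map fun i => f i a := by
  induction l with
  | nil => exact PT.const _
  | cons i l ih => exact (h i).cons ih

@[fun_prop] theorem pt_idxOf [BEq β] [LawfulBEq β] {x : α → β} {l : α → List β} (hx : PT x)
    (hl : PT l) : PT fun a => (l a).idxOf (x a) :=
  (PT.foldr_add' (f := fun a b n => bif b == x a then 0 else n + 1) (g := fun _ _ => 1) hl
    (PT.const 0) (by fun_prop) (PT.const 1) fun a b n => by
      cases b == x a <;> simp).of_eq fun a => by
    induction l a with
    | nil => rfl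
    | cons b l ih => rw [List.foldr_cons, ih, List.idxOf_cons]

@[fun_prop] theorem pt_vr {φ : α → CNF} {o : α → ℕ × Fin 4} (h1 : PT φ) (h2 : PT o) :
    PT fun a => vr (φ a) (o a) := by unfold vr lit; fun_prop

@[fun_prop] theorem pt_occL {φ : α → CNF} {x : α → ℕ} (h1 : PT φ) (h2 : PT x) :
    PT fun a => occL (φ a) (x a) := by unfold occL; fun_prop

@[fun_prop] theorem pt_cloud {φ : α → CNF} {o : α → ℕ × Fin 4} {κ : α → Pt} (h1 : PT φ)
    (h2 : PT o) (h3 : PT κ) : PT fun a => cloud (φ a) (o a) (κ a) := by unfold cloud; fun_prop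

@[fun_prop] theorem pt_cloudNb {φ : α → CNF} {o : α → ℕ × Fin 4} {κ : α → Pt} (h1 : PT φ)
    (h2 : PT o) (h3 : PT κ) : PT fun a => cloudNb (φ a) (o a) (κ a) := by
  unfold cloudNb; fun_prop

@[fun_prop] theorem pt_rot0 {φ : α → CNF} {d : α → ℕ × D0} (h1 : PT φ) (h2 : PT d) :
    PT fun a => rot0 (φ a) (d a) := by unfold rot0; fun_prop

@[fun_prop] theorem pt_rotN {φ : α → CNF} {d : α → ℕ × Dt} (h1 : PT φ) (h2 : PT d) :
    PT fun a => lazyR (rot0 (φ a)) (d a) := by unfold lazyR; fun_prop

theorem pt_endp {φ : α → CNF} (h1 : PT φ) (l : List Dt) {v : α → ℕ} (h2 : PT v) :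
    (PT fun a => endp (lazyR (rot0 (φ a))) (v a) l) ∧
      PT fun a => back (lazyR (rot0 (φ a))) (v a) l := by
  induction l generalizing v with
  | nil => exact ⟨h2, PT.const []⟩
  | cons k l ih =>
    have h3 : PT fun a => lazyR (rot0 (φ a)) (v a, k) := by fun_prop
    exact ⟨(ih h3.fst).1, (ih h3.fst).2.append (h3.snd.cons (PT.const []))⟩

theorem pp_RN {φ : α → CNF} {v : α → ℕ} (h1 : PT φ) (h2 : PT v) (k : Dt) {s s' : α → Sg}
    (h3 : ∀ i, PT fun a => s a i) (h4 : ∀ i, PT fun a => s' a i) :
    PP fun a => RN (φ a) (v a, k) (s a) (s' a) :=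
  (PP.ex fun i => PP.eq (h3 i) (by unfold lit; fun_prop)).and (PP.all fun i => PP.all fun i' =>
    (PP.const (k.2 = true)).imp ((PP.const (k.1.1 = some i)).imp ((PP.eq (pt_cloudNb h1 (h2.prodMk (PT.const i))
      (PT.const k.1.2)).snd (PT.const i')).imp
      (PP.eq (h3 i) (h4 i')))))

theorem pp_good {L : Type} {op : L → List Dt → Sg} (hop : ∀ s i, PT fun l => op s l i)
    {φ : α → CNF} {v : α → ℕ} (h1 : PT φ) (h2 : PT v) (h n : ℕ) (l : List Dt) (s s' : L) :
    PP fun a => Good (lazyR (rot0 (φ a))) (RN (φ a)) op h n (v a) l s s' :=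
  PP.ball _ fun p => pp_RN h1 (pt_endp h1 _ h2).1 _ (fun _ => PT.const _) fun i =>
    (hop s' i).comp (pt_endp h1 _
      (pt_rotN h1 ((pt_endp h1 (l.take p.1) h2).1.prodMk (PT.const _))).fst).2

def Pth (h : ℕ) : Type := {l : List Dt // l.length < h}

noncomputable instance (h : ℕ) : Fintype (Pth h) := (List.finite_length_lt Dt h).fintype

theorem exists_labels (h : ℕ) : ∃ (L : Type) (_ : Fintype L) (_ : Nonempty L)
    (op : L → List Dt → Sg), (∀ s i, PT fun l => op s l i) ∧
      ∀ F : List Dt → Sg, ∃ s, ∀ l, l.length < h → op s l = F l := by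
  classical
  refine ⟨Pth h → Sg, inferInstance, inferInstance,
    fun s l => (if h : l.length < h then some ⟨l, h⟩ else none : Option (Pth h)).elim default s,
    fun s i => pt_cases (G := fun x _ => (Option.elim x default s) i) ?_ fun _ => PT.const _,
    fun F => ⟨fun p => F p.1, fun l hl => by simp [hl]⟩⟩
  rintro (_ | ⟨x, hx⟩)
  · exact (PP.eq (f := fun l : List Dt => decide (l.length < h)) (by fun_prop)
      (PT.const false)).congr fun l => by simp
  · refine (PP.eq PT.id (PT.const x)).congr fun l => ⟨fun e => by simp [e, hx], fun e => ?_⟩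
    split_ifs at e
    exact congrArg Subtype.val (Option.some.inj e)

end Pool.Agent.Lib.MP_67c02a_lc
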