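import Pool.Agent.Lib.MP_67c02a_lc.Cond

/-!
Parallel repetition for the clause against clause game, after Dinur and Steurer.
-/

namespace Pool.Agent.Lib.MP_67c02a_lc

open Finset Function

set_option maxHeartbeats 400000

section
variable {V V' Y Y' : Type} [Fintype V] [Fintype V'] [Fintype Y] [Fintype Y']

def Qf (w : V → ℝ) (a : V → Y → ℝ) (f : Y → ℝ) : ℝ := ∑ v, w v * (∑ y, a v y * f y) ^ 2

def rpW (r : ℕ) (w : V → ℝ) (v : Fin r → V) : ℝ := ∏ j, w (v j)

def rpA (r : ℕ) (a : V → Y → ℝ) (v : Fin r → V) (y : Fin r → Y) : ℝ := ∏ j, a (v j) (y j)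

theorem Qf_swap (w : V → ℝ) (a : V → Y → ℝ) (w' : V' → ℝ) (a' : V' → Y' → ℝ) (F : Y → Y' → ℝ) :
    ∑ v, w v * Qf w' a' (fun y' => ∑ y, a v y * F y y') =
      ∑ v', w' v' * Qf w a fun y => ∑ y', a' v' y' * F y y' := by
  simp only [Qf, mul_sum]
  rw [sum_comm]
  refine sum_congr rfl fun v' _ => sum_congr rfl fun v _ => ?_
  rw [sum_comm, mul_left_comm]
  simp only [mul_left_comm]

theorem Qf_succ (r : ℕ) (w : V → ℝ) (a : V → Y → ℝ) (f : (Fin (r + 1) → Y) → ℝ) :
    Qf (rpW (r + 1) w) (rpA (r + 1) a) f =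
      ∑ v, w v * Qf (rpW r w) (rpA r a) fun ys => ∑ y, a v y * f (Fin.cons y ys) := by
  simp only [Qf, ← (Fin.consEquiv fun _ => V).sum_comp, ← (Fin.consEquiv fun _ => Y).sum_comp,
    Fintype.sum_prod_type, Fin.consEquiv_apply, rpW, rpA, Fin.prod_univ_succ, Fin.cons_zero,
    Fin.cons_succ, mul_sum]
  refine sum_congr rfl fun v _ => sum_congr rfl fun vs _ => ?_
  rw [sum_comm, mul_assoc]
  congr 3
  refine sum_congr rfl fun ys _ => sum_congr rfl fun y _ => ?_
  rw [show (Fin.consEquiv fun _ => Y) (y, ys) = Fin.cons y ys from rfl]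
  ring

theorem dom_pow {w : V → ℝ} {a : V → Y → ℝ} {w' : V' → ℝ} {a' : V' → Y → ℝ} {c : ℝ}
    (hw : ∀ v, 0 ≤ w v) (ha : ∀ v y, 0 ≤ a v y) (hw' : ∀ v, 0 ≤ w' v) (ha' : ∀ v y, 0 ≤ a' v y)
    (c0 : 0 ≤ c) (h : ∀ f, (∀ y, 0 ≤ f y) → Qf w a f ≤ c * Qf w' a' f) (r : ℕ) :
    ∀ f, (∀ y, 0 ≤ f y) → Qf (rpW r w) (rpA r a) f ≤ c ^ r * Qf (rpW r w') (rpA r a') f := by
  induction r with
  | zero => intro f _; simp [Qf, rpW, rpA]
  | succ r ih =>
    intro f hf
    rw [Qf_succ, Qf_swap, Qf_succ]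
    refine (sum_le_sum fun vs _ => mul_le_mul_of_nonneg_left (h _ fun y => sum_nonneg fun ys _ =>
      mul_nonneg (prod_nonneg fun _ _ => ha _ _) (hf _)) (prod_nonneg fun _ _ => hw _)).trans ?_
    simp only [mul_left_comm _ c]
    rw [← mul_sum, ← Qf_swap, pow_succ', mul_assoc, mul_sum _ _ (c ^ r)]
    refine mul_le_mul_of_nonneg_left (sum_le_sum fun u _ => ?_) c0
    rw [mul_left_comm]
    exact mul_le_mul_of_nonneg_left (ih _ fun ys => sum_nonneg fun y _ =>
      mul_nonneg (ha' _ _) (hf _)) (hw' u)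

theorem Qf_expand (r : ℕ) (w : V → ℝ) (a : V → Y → ℝ) (f : (Fin r → Y) → ℝ) :
    Qf (rpW r w) (rpA r a) f =
      ∑ y, ∑ y', (∏ j, ∑ v, w v * (a v (y j) * a v (y' j))) * (f y * f y') := by
  classical
  simp only [Qf, sq, sum_mul_sum, mul_sum, prod_univ_sum, Fintype.piFinset_univ, sum_mul]
  rw [sum_comm]
  refine sum_congr rfl fun y _ => ?_
  rw [sum_comm]
  refine sum_congr rfl fun y' _ => sum_congr rfl fun v _ => ?_
  simp only [rpW, rpA, prod_mul_distrib]
  ring

end

section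
variable {M : Type} [Fintype M] [Nonempty M] (var : M × Fin 4 → ℕ) (val : M → (Fin 4 → Bool) → Prop)

noncomputable def gCnt (o : M × Fin 4) : ℝ := ∑ o', ind (var o' = var o)

noncomputable def gW : Option ((M × Fin 4) × Bool) → ℝ :=
  fun v => v.elim (1 / 2) fun _ => 1 / (8 * Fintype.card M)

noncomputable def gA (v : Option ((M × Fin 4) × Bool)) (y : M × (Fin 4 → Bool)) : ℝ :=
  ind (val y.1 y.2) * v.elim (1 / (Fintype.card M : ℝ)) fun p =>
    (∑ i, ind (var (y.1, i) = var p.1) * ind (y.2 i = p.2)) / gCnt var p.1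

noncomputable def tA (u : M) (y : M × (Fin 4 → Bool)) : ℝ := ind (val y.1 y.2) * ind (y.1 = u)

theorem gCnt_pos (o : M × Fin 4) : 0 < gCnt var o :=
  lt_of_lt_of_le (by rw [ind_pos rfl]; exact one_pos)
    (single_le_sum (f := fun o' => ind (var o' = var o)) (fun _ _ => ind_nonneg _) (mem_univ o))

theorem gW_nonneg (v : Option ((M × Fin 4) × Bool)) : 0 ≤ gW v := by
  cases v <;> simp only [gW, Option.elim] <;> positivity

theorem gA_nonneg (v : Option ((M × Fin 4) × Bool)) (y : M × (Fin 4 → Bool)) : 0 ≤ gA var val v y := by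
  refine mul_nonneg (ind_nonneg _) ?_
  cases v <;> simp only [Option.elim]
  · positivity
  · exact div_nonneg (sum_nonneg fun _ _ => mul_nonneg (ind_nonneg _) (ind_nonneg _))
      (gCnt_pos _ _).le

theorem base_dom {ε : ℝ} (ε0 : 0 < ε) (ε1 : ε ≤ 1)
    (hg : ∀ α : ℕ → Bool, ε ≤ av fun u => ind (¬ val u fun i => α (var (u, i))))
    (f : M × (Fin 4 → Bool) → ℝ) (hf : ∀ y, 0 ≤ f y) :
    Qf gW (gA var val) f ≤ (1 - ε ^ 2 / 80) * Qf (fun _ => 1 / Fintype.card M) (tA val) f := by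
  classical
  have m0 : (0 : ℝ) < Fintype.card M := by exact_mod_cast Fintype.card_pos
  obtain ⟨g, hgd⟩ : ∃ g : M → ℝ, ∀ u, g u = ∑ β, ind (val u β) * f (u, β) := ⟨_, fun _ => rfl⟩
  obtain ⟨s, hs⟩ : ∃ s : Bool → M × Fin 4 → ℝ, ∀ b o, s b o =
    ∑ β, ind (val o.1 β) * f (o.1, β) * ind (β o.2 = b) := ⟨_, fun _ _ => rfl⟩
  have s0 : ∀ b o, 0 ≤ s b o := fun b o => hs b o ▸ sum_nonneg fun _ _ =>
    mul_nonneg (mul_nonneg (ind_nonneg _) (hf _)) (ind_nonneg _)
  have s1 : ∀ b o, s b o + s (!b) o = g o.1 := fun b o => by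
    rw [hs, hs, hgd, ← sum_add_distrib]
    refine sum_congr rfl fun β _ => ?_
    cases b <;> cases β o.2 <;> simp [ind]
  obtain ⟨X, hX⟩ : ∃ X : M × Fin 4 → Unit → ℕ, X = fun o _ => var o := ⟨_, rfl⟩
  have ag : ∀ o o', Agree (fun _ => True) (X o) (X o') ↔ var o = var o' := fun o o' => by
    simp [Agree, hX]
  have q1 : Qf (fun _ => 1 / Fintype.card M) (tA val) f = av fun u => g u ^ 2 := by
    rw [Qf, av_eq, sum_div]
    refine sum_congr rfl fun u _ => ?_
    rw [Fintype.sum_prod_type, sum_eq_single u (fun u' _ h => by simp [tA, ind_neg h]) (by simp)]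
    simp only [tA, ind_pos trivial, mul_one, hgd]; ring
  have q2 : Qf gW (gA var val) f = av g ^ 2 / 2 + av (fun o => cE X (fun _ => True) (s true) o ^ 2 +
      cE X (fun _ => True) (s false) o ^ 2) / 2 := by
    have e : ∀ o b, ∑ y, gA var val (some (o, b)) y * f y = cE X (fun _ => True) (s b) o :=
      fun o b => by
      simp only [cE, cP, ag, gA, Option.elim, hs, Fintype.sum_prod_type, gCnt, sum_div, mul_sum,
        sum_mul]
      refine sum_congr rfl fun u _ => ?_
      rw [sum_comm]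
      exact sum_congr rfl fun _ _ => sum_congr rfl fun _ _ => by ring
    rw [Qf, Fintype.sum_option, Fintype.sum_prod_type (α₂ := Bool)]
    simp only [e, Fintype.sum_bool]
    congr 1
    · simp only [gW, gA, Option.elim, Fintype.sum_prod_type, av_eq, hgd, sum_div]
      rw [mul_comm, mul_one_div]
      congr 2
      exact sum_congr rfl fun _ _ => sum_congr rfl fun _ _ => by ring
    · simp only [gW, Option.elim, av_eq, sum_div, Fintype.card_prod, Fintype.card_fin]
      refine sum_congr rfl fun _ _ => ?_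
      push_cast; field_simp; ring
  obtain ⟨α, hα⟩ : ∃ α : ℕ → Bool, ∀ x, α x = decide (cP X (fun _ => True) (fun _ => x) (s false) ≤
    cP X (fun _ => True) (fun _ => x) (s true)) := ⟨_, fun _ => rfl⟩
  obtain ⟨G, hG⟩ : ∃ G, G = cE X (fun _ => True) fun o => g o.1 := ⟨_, rfl⟩
  obtain ⟨ω, hω⟩ : ∃ ω : M × Fin 4 → ℝ, ∀ o, ω o = s (!α (var o)) o := ⟨_, fun _ => rfl⟩
  have mG : Meas X (fun _ => True) G := hG ▸ meas_cE _ _ _
  have a1 : ∀ o, cE X (fun _ => True) (s true) o ^ 2 + cE X (fun _ => True) (s false) o ^ 2 ≤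
      G o ^ 2 - G o * cE X (fun _ => True) ω o := fun o => by
    have e1 : G o = cE X (fun _ => True) (s true) o + cE X (fun _ => True) (s false) o := by
      rw [hG, ← cE_add]; exact cE_congr X fun o' _ => (s1 true o').symm
    have e2 : cE X (fun _ => True) ω o = cE X (fun _ => True) (s (!α (var o))) o :=
      cE_congr X fun o' h => by rw [hω, (ag _ _).1 h]
    have e3 := cE_nonneg X (fun _ => True) (s0 true) o
    have e4 := cE_nonneg X (fun _ => True) (s0 false) o
    have e5 : α (var o) = decide (cE X (fun _ => True) (s false) o ≤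
      cE X (fun _ => True) (s true) o) := by rw [hα, cE, cE, hX]
    rw [e1, e2, e5]
    by_cases h : cE X (fun _ => True) (s false) o ≤ cE X (fun _ => True) (s true) o
    · rw [decide_eq_true h, Bool.not_true]; nlinarith
    · rw [decide_eq_false h, Bool.not_false]; nlinarith
  have fs : ∀ F : M → ℝ, av (fun o : M × Fin 4 => F o.1) = av F := fun F => by
    rw [av_prod]; simp only [av_const]
  have a2 : av G = av g := by rw [hG, av_cE_one, fs]
  have a3 : av (fun o => G o ^ 2) ≤ av fun u => g u ^ 2 := by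
    have e := av_cE mG fun o => g o.1
    rw [← hG] at e
    have e' := av_mono (f := fun o => G o * g o.1) (g := fun o => G o ^ 2 / 2 + g o.1 ^ 2 / 2)
      fun o => by nlinarith [sq_nonneg (G o - g o.1)]
    rw [av_add, av_div, av_div, fs fun u => g u ^ 2, ← e] at e'
    simp only [← sq] at e'
    linarith
  have ω0 : ∀ o, 0 ≤ ω o := fun o => hω o ▸ s0 _ _
  have ω1 : ∀ o, ω o ≤ g o.1 := fun o => by linarith [hω o, s1 (α (var o)) o, s0 (α (var o)) o]
  have g0 : ∀ u, 0 ≤ g u := fun u => (ω0 (u, 0)).trans (ω1 (u, 0))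
  have a4 : av (fun u => ind (¬ val u fun i => α (var (u, i))) * g u) / 4 ≤ av ω := by
    rw [av_prod, ← av_div]
    refine av_mono fun u => ?_
    rw [av_eq, Fintype.card_fin, Nat.cast_ofNat]
    refine div_le_div_of_nonneg_right ?_ (by norm_num)
    by_cases h : val u fun i => α (var (u, i))
    · rw [ind_neg (not_not.2 h), zero_mul]; exact sum_nonneg fun _ _ => ω0 _
    simp only [ind_pos h, one_mul, hω, hs, hgd]
    rw [sum_comm]
    refine sum_le_sum fun β _ => ?_
    rw [← mul_sum]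
    by_cases hv : val u β
    · obtain ⟨i, hi⟩ := Function.ne_iff.1 (show β ≠ fun i => α (var (u, i)) from fun e => h (e ▸ hv))
      refine le_mul_of_one_le_right (mul_nonneg (ind_nonneg _) (hf _)) (le_trans ?_
        (single_le_sum (f := fun i => ind (β i = !α (var (u, i)))) (fun _ _ => ind_nonneg _)
          (mem_univ i)))
      rw [ind_pos (Bool.eq_not_of_ne hi)]
    · simp [ind_neg hv]
  have b0 : 0 ≤ av g := av_nonneg g0
  have a5 : ε * av g ^ 2 - ε / 10 * av g ^ 2 - (av (fun u => g u ^ 2) - av g ^ 2) * 5 / (2 * ε) ≤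
      av g * av fun u => ind (¬ val u fun i => α (var (u, i))) * g u := by
    have e := av_mono (f := fun u => av g ^ 2 * ind (¬ val u fun i => α (var (u, i))) -
      ε / 10 * av g ^ 2 - (g u ^ 2 - 2 * av g * g u + av g ^ 2) * 5 / (2 * ε))
      (g := fun u => av g * (ind (¬ val u fun i => α (var (u, i))) * g u)) fun u => by
        have h1 : 0 ≤ (ε * av g + 5 * (g u - av g)) ^ 2 / (10 * ε) := by positivity
        have h2 : (ε * av g + 5 * (g u - av g)) ^ 2 / (10 * ε) = ε / 10 * av g ^ 2 +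
          av g * (g u - av g) + (g u ^ 2 - 2 * av g * g u + av g ^ 2) * 5 / (2 * ε) := by
          field_simp; ring
        have h3 : 0 ≤ (g u ^ 2 - 2 * av g * g u + av g ^ 2) * 5 / (2 * ε) := by
          rw [show g u ^ 2 - 2 * av g * g u + av g ^ 2 = (g u - av g) ^ 2 by ring]; positivity
        have h4 : 0 ≤ ε / 10 * av g ^ 2 := by positivity
        by_cases h : val u fun i => α (var (u, i))
        · rw [ind_neg (not_not.2 h)]; linarith
        · rw [ind_pos h]; linarith
    simp only [av_sub, av_add, av_div, av_mul_left, av_mul_right, av_const] at e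
    have := mul_le_mul_of_nonneg_left (hg α) (sq_nonneg (av g))
    have e2 : av (fun u => g u ^ 2) - 2 * av g * av g + av g ^ 2 =
      av (fun u => g u ^ 2) - av g ^ 2 := by ring
    rw [e2] at e
    linarith
  have a6 : av g * av ω - ε / 10 * av (fun u => g u ^ 2) -
      (av (fun o => G o ^ 2) - av g ^ 2) * 5 / (2 * ε) ≤ av fun o => G o * ω o := by
    have e := av_mono (f := fun o => av g * ω o - ε / 10 * g o.1 ^ 2 -
      (G o ^ 2 - 2 * av g * G o + av g ^ 2) * 5 / (2 * ε)) (g := fun o => G o * ω o) fun o => by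
        have h1 : 0 ≤ (ε * ω o + 5 * (G o - av g)) ^ 2 / (10 * ε) := by positivity
        have h2 : (ε * ω o + 5 * (G o - av g)) ^ 2 / (10 * ε) = ε / 10 * ω o ^ 2 +
          ω o * (G o - av g) + (G o ^ 2 - 2 * av g * G o + av g ^ 2) * 5 / (2 * ε) := by
          field_simp; ring
        have h3 : ε / 10 * ω o ^ 2 ≤ ε / 10 * g o.1 ^ 2 := by gcongr; exacts [ω0 o, ω1 o]
        linarith
    simp only [av_sub, av_add, av_div, av_mul_left, av_mul_right, av_const, a2,
      fs fun u => g u ^ 2] at e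
    have e2 : av (fun o => G o ^ 2) - 2 * av g * av g + av g ^ 2 =
      av (fun o => G o ^ 2) - av g ^ 2 := by ring
    rwa [e2] at e
  have a7 := av_mono a1
  rw [av_sub, av_cE mG] at a7
  have a8 : 0 ≤ av fun o => G o * ω o :=
    av_nonneg fun o => mul_nonneg (hG ▸ cE_nonneg X _ (fun o => g0 o.1) o) (ω0 o)
  have a9 := sq_av_le g
  have a10 := mul_le_mul_of_nonneg_left a4 b0
  rw [q1, q2]
  generalize av (fun u => g u ^ 2) = S at *
  generalize av (fun o => G o ^ 2) = S' at *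
  generalize av (fun o => G o * ω o) = T at *
  generalize av g ^ 2 = B at *
  have c1 : (S' - B) * 5 / (2 * ε) ≤ (S - B) * 5 / (2 * ε) := by gcongr
  have c2 : ε / 5 * ((S - B) * 5 / (2 * ε)) = (S - B) / 2 := by field_simp
  have c3 : (ε * B - ε / 10 * B - (S - B) * 5 / (2 * ε)) / 4 - ε / 10 * S -
    (S - B) * 5 / (2 * ε) ≤ T := by linarith
  have c4 := mul_le_mul_of_nonneg_left c3 (show 0 ≤ ε / 5 by positivity)
  have c5 : ε / 5 * T ≤ T := mul_le_of_le_one_left a8 (by linarith)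
  have c6 : ε ^ 2 * (S - B) ≤ S - B := mul_le_of_le_one_left (by linarith) (by nlinarith)
  nlinarith

end

end Pool.Agent.Lib.MP_67c02a_lc
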