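import Pool.Agent.Lib.MP_67c02a_lc.Cls

/-!
Likelihood ratio weights of points.
-/

namespace Pool.Agent.Lib.MP_67c02a_lc

open Finset Function

set_option maxHeartbeats 400000

section
variable {Ω ι W Q P : Type} [Fintype Ω] (X : Ω → ι × W → Q × Bool) (φ : ι → P → W)
  (key : ι × W → ℕ) (θ : ℝ)

noncomputable def cnu (n : ℕ) (l : ι × W) (a : Q) : Ω → ℝ :=
  cE X (fun l' => key l' < n) fun ω => ind (X ω l = (a, false))

noncomputable def fc (z : Ω → ι → Q) (c : Ω → Prop) (p : P) (i : ι) : Ω → ℝ :=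
  fac X (fun l' => key l' < key (i, φ i p)) θ c fun ω => X ω (i, φ i p) = (z ω i, false)

noncomputable def Wt (z : Ω → ι → Q) (c : Ω → Prop) (p : P) (s : Finset ι) (ω : Ω) : ℝ :=
  ∏ i ∈ s, fc X φ key θ z c p i ω

/-- target and switch are known before any line through `p` is revealed -/
def Adm (z : Ω → ι → Q) (c : Ω → Prop) (p : P) : Prop :=
  ∃ n, Meas X (fun l => key l < n) z ∧ Meas X (fun l => key l < n) c ∧
    ∀ ω, c ω → ∀ i, n ≤ key (i, φ i p)

variable {X φ key θ}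

theorem Wt_nonneg (z : Ω → ι → Q) (c : Ω → Prop) (p : P) (s : Finset ι) (ω : Ω) :
    0 ≤ Wt X φ key θ z c p s ω := prod_nonneg fun _ _ => fac_nonneg _ _ _ _ _

theorem Wt_le [Fintype ι] (h0 : 0 < θ) (h1 : θ ≤ 1) (z : Ω → ι → Q) (c : Ω → Prop) (p : P)
    (s : Finset ι) (ω : Ω) : Wt X φ key θ z c p s ω ≤ (1 / θ) ^ Fintype.card ι :=
  ((prod_le_prod (fun _ _ => fac_nonneg _ _ _ _ _) fun _ _ => fac_le _ h0 h1 _ _ _).trans_eq
    (prod_const _)).trans (pow_le_pow_right₀ ((one_le_div h0).2 h1) (card_le_univ s))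

theorem Wt_switch {z : Ω → ι → Q} {c c' : Ω → Prop} (h : ∀ ω, c' ω → c ω) (p : P) (s : Finset ι)
    (ω : Ω) : ind (c' ω) * Wt X φ key θ z c p s ω = ind (c' ω) + (Wt X φ key θ z c' p s ω - 1) := by
  by_cases e : c' ω
  · rw [ind_pos e, one_mul, add_sub_cancel]
    exact prod_congr rfl fun i _ => by simp only [fc, fac, e, h ω e]
  · rw [ind_neg e, zero_mul, zero_add, eq_comm, sub_eq_zero]
    exact prod_eq_one fun i _ => by simp [fc, fac, e]

theorem mart_fc (h0 : 0 < θ) {z : Ω → ι → Q} {c : Ω → Prop} {p : P} (h : Adm X φ key z c p)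
    (i : ι) : Mart X key (key (i, φ i p)) (fc X φ key θ z c p i) := by
  obtain ⟨n, hz, hc, hn⟩ := h
  by_cases e : n ≤ key (i, φ i p)
  · refine mart_fac h0 (hc.mono fun l hl => hl.trans_le e) fun ω ω' a => ?_
    rw [a (i, φ i p) (by omega), hz ω ω' fun l hl => a l (by omega)]
  · have : fc X φ key θ z c p i = fun _ => 1 := funext fun ω => if_neg fun hc => e (hn ω hc.1 i)
    rw [this]
    exact ⟨Meas.const _ _, fun g _ => by simp⟩

theorem av_Wt [DecidableEq ι] (hkey : Injective key) (h0 : 0 < θ) {z : Ω → ι → Q} {c : Ω → Prop}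
    {p : P} (h : Adm X φ key z c p) (s : Finset ι) {n : ℕ} (hn : ∀ i ∈ s, n ≤ key (i, φ i p))
    {g : Ω → ℝ} (hg : Meas X (fun l => key l < n) g) :
    av (fun ω => g ω * Wt X φ key θ z c p s ω) = av g :=
  mart_prod (fun i => key (i, φ i p)) s (fun _ _ _ _ e => congrArg Prod.fst (hkey e))
    (fun i _ => mart_fc h0 h i) hn hg

theorem av_Wt_sq [Nonempty Ω] [Fintype ι] [DecidableEq ι] [DecidableEq P] (hkey : Injective key)
    (h0 : 0 < θ) (h1 : θ ≤ 1) {z : P → Ω → ι → Q} {c : P → Ω → Prop}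
    (h : ∀ p, Adm X φ key (z p) (c p) p) (s : P → Finset ι) (T : Finset P)
    (hT : ∀ p ∈ T, ∀ p' ∈ T, p ≠ p' → ∀ i ∈ s p, φ i p ≠ φ i p') :
    av (fun ω => (∑ p ∈ T, (Wt X φ key θ (z p) (c p) p (s p) ω - 1)) ^ 2) ≤
      T.card * (1 / θ) ^ Fintype.card ι := by
  have e1 : ∀ p, av (Wt X φ key θ (z p) (c p) p (s p)) = 1 := fun p => by
    simpa using av_Wt hkey h0 (h p) (s p) (fun _ _ => Nat.zero_le _) (Meas.const _ (1 : ℝ))
  refine av_sq_sum T (fun p ω => Wt X φ key θ (z p) (c p) p (s p) ω - 1)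
    (fun p hp p' hp' hne => ?_) fun p _ => ?_
  · have e2 := mart_prod (X := X) (key := key)
      (Sum.elim (fun i => key (i, φ i p)) fun i => key (i, φ i p'))
      (F := Sum.elim (fc X φ key θ (z p) (c p) p) (fc X φ key θ (z p') (c p') p'))
      ((s p).disjSum (s p')) ?_ ?_ (fun _ _ => Nat.zero_le _) (Meas.const _ (1 : ℝ))
    · simp only [prod_disjSum, Sum.elim_inl, Sum.elim_inr, one_mul, av_const] at e2
      simp only [mul_sub, sub_mul, av_sub, one_mul, mul_one, av_const]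
      rw [show av (fun ω => Wt X φ key θ (z p) (c p) p (s p) ω *
        Wt X φ key θ (z p') (c p') p' (s p') ω) = 1 from e2, e1, e1]
      ring
    · rintro (i | i) hi (i' | i') hi' e <;> simp only [Sum.elim_inl, Sum.elim_inr, hkey.eq_iff,
        Prod.mk.injEq, mem_coe, inl_mem_disjSum, inr_mem_disjSum] at e hi hi'
      · rw [e.1]
      · obtain ⟨rfl, e⟩ := e; exact absurd e (hT p hp p' hp' hne i hi)
      · obtain ⟨rfl, e⟩ := e; exact absurd e.symm (hT p hp p' hp' hne i hi')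
      · rw [e.1]
    · rintro (i | i) -
      · exact mart_fc h0 (h p) i
      · exact mart_fc h0 (h p') i
  · refine (av_mono (g := fun ω => (1 / θ) ^ Fintype.card ι * Wt X φ key θ (z p) (c p) p (s p) ω -
      2 * Wt X φ key θ (z p) (c p) p (s p) ω + 1) fun ω => ?_).trans ?_
    · nlinarith [Wt_nonneg (X := X) (φ := φ) (key := key) (θ := θ) (z p) (c p) p (s p) ω,
        Wt_le (X := X) (φ := φ) (key := key) h0 h1 (z p) (c p) p (s p) ω]
    · rw [av_add, av_sub, av_mul_left, av_mul_left, e1, av_const]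
      linarith

/-- weighted counts along a family of points are close to plain counts -/
theorem av_count [Nonempty Ω] [Fintype ι] [DecidableEq ι] [DecidableEq P] (hkey : Injective key)
    (h0 : 0 < θ) (h1 : θ ≤ 1) {z : P → Ω → ι → Q} {c c' : P → Ω → Prop}
    (hc : ∀ p ω, c' p ω → c p ω) (h : ∀ p, Adm X φ key (z p) (c' p) p) (s : P → Finset ι)
    (T : Finset P) (hT : ∀ p ∈ T, ∀ p' ∈ T, p ≠ p' → ∀ i ∈ s p, φ i p ≠ φ i p') {η : ℝ}
    (η0 : 0 < η) : ∃ Y : Ω → ℝ, (∀ ω, 0 ≤ Y ω) ∧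
      av Y ≤ T.card * (1 / θ) ^ Fintype.card ι / (4 * η) ∧
      ∀ ω, ∑ p ∈ T, ind (c' p ω) * Wt X φ key θ (z p) (c p) p (s p) ω ≤
        ∑ p ∈ T, ind (c' p ω) + η + Y ω := by
  refine ⟨fun ω => (∑ p ∈ T, (Wt X φ key θ (z p) (c' p) p (s p) ω - 1)) ^ 2 / (4 * η),
    fun ω => by positivity, ?_, fun ω => ?_⟩
  · rw [av_div]
    exact div_le_div_of_nonneg_right (av_Wt_sq hkey h0 h1 h s T hT) (by positivity)
  · simp only [fun p => Wt_switch (X := X) (φ := φ) (key := key) (θ := θ) (z := z p) (hc p) p (s p)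
      ω, sum_add_distrib, add_assoc]
    exact add_le_add_right (le_add_sq _ η0) _

theorem fc_bad {z : Ω → ι → Q} {p : P} {i : ι} (hz : Meas X (fun l => key l < key (i, φ i p)) z)
    (ω : Ω) : cE X (fun l' => key l' < key (i, φ i p))
      (fun ω => ind (X ω (i, φ i p) = (z ω i, false))) ω =
      cnu X key (key (i, φ i p)) (i, φ i p) (z ω i) ω :=
  cE_congr X fun ω' a => by rw [hz ω' ω a]

/-- weight lost at a line whose conditional probability dropped -/
theorem av_bad [Fintype ι] [DecidableEq ι] (hkey : Injective key) (h0 : 0 < θ) {z : Ω → ι → Q}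
    {c : Ω → Prop} {p : P} (h : Adm X φ key z c p) (i : ι) :
    av (fun ω => ind (c ω ∧ cnu X key (key (i, φ i p)) (i, φ i p) (z ω i) ω < θ) *
      Wt X φ key θ z c p univ ω) =
    av fun ω => ind (c ω ∧ cnu X key (key (i, φ i p)) (i, φ i p) (z ω i) ω < θ) *
      Wt X φ key θ z c p (univ.filter fun j => key (j, φ j p) < key (i, φ i p)) ω := by
  by_cases e : ∃ ω, c ω
  swap
  · push Not at e
    simp [ind, e]
  obtain ⟨ω0, e⟩ := e
  obtain ⟨n, hz, hc, hn⟩ := id h
  have e1 := hn ω0 e i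
  rw [← av_Wt hkey h0 h (univ.filter fun j => ¬ key (j, φ j p) < key (i, φ i p))
    (n := key (i, φ i p)) (fun j hj => not_lt.1 (mem_filter.1 hj).2)
    (g := fun ω => ind (c ω ∧ cnu X key (key (i, φ i p)) (i, φ i p) (z ω i) ω < θ) *
      Wt X φ key θ z c p (univ.filter fun j => key (j, φ j p) < key (i, φ i p)) ω)]
  · refine av_congr fun ω => ?_
    rw [mul_assoc, Wt, Wt, Wt, prod_filter_mul_prod_filter_not]
  · refine Meas.mul (fun ω ω' a => ?_) (Meas.prod fun j hj => (mart_fc h0 h j).1.mono fun l hl => ?_)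
    · have a' : Agree (fun l => key l < n) (X ω) (X ω') := fun l hl => a l (by omega)
      rw [hc ω ω' a', hz ω ω' a', cnu, meas_cE X _ _ ω ω' a]
    · have := (mem_filter.1 hj).2
      omega

end

end Pool.Agent.Lib.MP_67c02a_lc
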